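import Pool.Agent.P.MP_bdc337_an.Series

/-! Clunie's inequality for quadratic forms and the Lyapunov chain. -/

set_option autoImplicit false

open Finset PowerSeries

namespace Pool.Agent.P.MP_bdc337_an.KR

/-- vectors supported below `M` -/
def Supp (M : ℕ) (x : ℕ → ℝ) : Prop := ∀ j, M ≤ j → x j = 0

lemma Supp.mono {M M' : ℕ} {x : ℕ → ℝ} (h : Supp M x) (hM : M ≤ M') : Supp M' x :=
  fun j hj => h j (hM.trans hj)

/-- extension by zero -/
noncomputable def ext0 (M : ℕ) : (Fin M → ℝ) →ₗ[ℝ] (ℕ → ℝ) where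
  toFun v j := if h : j < M then v ⟨j, h⟩ else 0
  map_add' v u := by
    funext j
    by_cases h : j < M <;> simp [h]
  map_smul' c v := by
    funext j
    by_cases h : j < M <;> simp [h]

lemma sos (M : ℕ) (Q : QuadraticForm ℝ (ℕ → ℝ)) (hQ : ∀ x, Supp M x → 0 ≤ Q x) :
    ∃ (d : ℕ) (φ : Fin d → ℕ → ℝ), ∀ x, Supp M x →
      Q x = ∑ i, (∑ j ∈ range M, φ i j * x j) ^ 2 := by
  obtain ⟨c, ⟨e⟩⟩ := QuadraticForm.equivalent_weightedSumSquares (Q.comp (ext0 M))
  have h1 : ∀ v, Q (ext0 M v) = ∑ i, c i * (e v i * e v i) := fun v => by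
    have := e.map_app v
    rw [QuadraticMap.weightedSumSquares_apply] at this
    simpa using this.symm
  have hs : ∀ v, Supp M (ext0 M v) := fun v j hj => by
    simp [ext0, not_lt.2 hj]
  have hc : ∀ i, 0 ≤ c i := fun i => by
    have := hQ _ (hs (e.symm (Pi.single i 1)))
    rw [h1] at this
    simp only [QuadraticMap.IsometryEquiv.apply_symm_apply] at this
    rw [Finset.sum_eq_single i (fun b _ hb => by simp [hb]) (by simp)] at this
    simpa using this
  refine ⟨_, fun i j => if h : j < M then Real.sqrt (c i) * e (Pi.single ⟨j, h⟩ 1) i else 0,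
    fun x hx => ?_⟩
  have e1 : x = ext0 M (fun j => x j) := by
    funext j
    by_cases h : j < M
    · simp [ext0, h]
    · simp [ext0, h, hx j (not_lt.1 h)]
  have e2 : (fun j : Fin M => x j) = ∑ j : Fin M, x j • (Pi.single j 1 : Fin M → ℝ) := by
    funext l
    simp [Finset.sum_apply, Pi.single_apply]
  conv_lhs => rw [e1, h1]
  refine Finset.sum_congr rfl fun i _ => ?_
  have e3 : e (fun j : Fin M => x j) i = ∑ j : Fin M, x j * e (Pi.single j 1) i := by
    rw [e2, map_sum, Finset.sum_apply]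
    refine Finset.sum_congr rfl fun j _ => ?_
    rw [map_smul]
    rfl
  rw [Finset.sum_range, e3]
  have e4 : ∑ j : Fin M, (if h : (j : ℕ) < M then
      Real.sqrt (c i) * e (Pi.single ⟨j, h⟩ 1) i else 0) * x j
      = Real.sqrt (c i) * ∑ j : Fin M, x j * e (Pi.single j 1) i := by
    rw [Finset.mul_sum]
    refine Finset.sum_congr rfl fun j _ => ?_
    rw [dif_pos j.isLt]
    ring
  rw [e4, mul_pow, Real.sq_sqrt (hc i)]
  ring

lemma clunie1 {w : ℂ⟦X⟧} (hw : Contr w) (a : ℂ⟦X⟧) (m : ℕ) : nsq (m + 1) (w * a) ≤ nsq m a := by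
  rcases Nat.eq_zero_or_pos m with rfl | hm
  · simp [nsq, coeff_zero_mul_left hw.1]
  have h := mm hw (N := m) (M := m) (L := 1) rfl hm le_rfl a (C (‖coeff m (w * a)‖ : ℂ))
  rw [beta_last hw.1] at h
  simp only [Dd, nsq, range_one, sum_singleton, coeff_zero_mul_left hw.1, coeff_zero_C, norm_mul,
    Complex.norm_real, norm_norm, norm_zero] at h
  unfold nsq
  rw [sum_range_succ]
  nlinarith

/-- complexification of a real form -/
noncomputable def QC (Q : QuadraticForm ℝ (ℕ → ℝ)) (z : ℕ → ℂ) : ℝ :=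
  Q (fun j => (z j).re) + Q (fun j => (z j).im)

lemma clunie {w : ℂ⟦X⟧} (hw : Contr w) (M : ℕ) (Q : QuadraticForm ℝ (ℕ → ℝ))
    (hQ : ∀ x, Supp M x → 0 ≤ Q x) (Y : ℕ → ℂ⟦X⟧) (m : ℕ)
    (hV : ∀ n, n < m → ∀ j, M ≤ j → coeff n (Y j) = 0)
    (hU : ∀ n, n ≤ m → ∀ j, M ≤ j → coeff n (w * Y j) = 0) :
    ∑ n ∈ range (m + 1), QC Q (fun j => coeff n (w * Y j))
      ≤ ∑ n ∈ range m, QC Q (fun j => coeff n (Y j)) := by
  obtain ⟨d, φ, h⟩ := sos M Q hQ
  have key : ∀ z : ℕ → ℂ, (∀ j, M ≤ j → z j = 0) →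
      QC Q z = ∑ i, ‖∑ j ∈ range M, (φ i j : ℂ) * z j‖ ^ 2 := fun z hz => by
    unfold QC
    rw [h _ (fun j hj => by simp [hz j hj]), h _ (fun j hj => by simp [hz j hj]),
      ← Finset.sum_add_distrib]
    refine Finset.sum_congr rfl fun i _ => ?_
    rw [Complex.sq_norm, Complex.normSq_apply, Complex.re_sum, Complex.im_sum]
    simp only [Complex.re_ofReal_mul, Complex.im_ofReal_mul]
    ring
  rw [Finset.sum_congr rfl fun n hn => key _ (hU n (Nat.lt_succ_iff.1 (mem_range.1 hn))),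
    Finset.sum_congr rfl fun n hn => key _ (hV n (mem_range.1 hn)), Finset.sum_comm,
    Finset.sum_comm (s := range m)]
  refine Finset.sum_le_sum fun i _ => ?_
  have := clunie1 hw (∑ j ∈ range M, C (φ i j : ℂ) * Y j) m
  unfold nsq at this
  simp only [Finset.mul_sum, map_sum, coeff_C_mul, mul_left_comm w] at this
  exact this

/-- the Lyapunov chain -/
theorem lyap {w : ℂ⟦X⟧} (hw : Contr w) (Q : ℕ → QuadraticForm ℝ (ℕ → ℝ)) (Y : ℕ → ℂ⟦X⟧)
    {N : ℕ} (hN : 1 ≤ N)
    (hV : ∀ n j, n < j → coeff n (Y j) = 0) (hU : ∀ n j, n ≤ j → coeff n (w * Y j) = 0)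
    (h0 : ∀ x, Supp N x → 0 ≤ Q N x)
    (ha : ∀ n, 1 ≤ n → n < N → ∀ x, Supp n x → Q (n + 1) x ≤ Q n x)
    (hb : ∀ n, 1 ≤ n → n < N → QC (Q (n + 1)) (fun j => coeff n (Y j))
      ≤ QC (Q n) (fun j => coeff n (w * Y j))) :
    QC (Q N) (fun j => coeff N (w * Y j)) ≤ QC (Q 1) (fun j => coeff 0 (Y j)) := by
  have main : ∀ k m, m + k = N → 1 ≤ m → QC (Q N) (fun j => coeff N (w * Y j)) ≤
      ∑ n ∈ range m, QC (Q m) (fun j => coeff n (Y j))
        - ∑ n ∈ range m, QC (Q m) (fun j => coeff n (w * Y j)) := by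
    intro k
    induction k with
    | zero =>
      intro m hm _
      obtain rfl : m = N := by omega
      have := clunie hw m (Q m) h0 Y m (fun n hn j hj => hV n j (by omega))
        (fun n hn j hj => hU n j (by omega))
      rw [sum_range_succ] at this
      linarith
    | succ k ih =>
      intro m hm h1
      have i1 := ih (m + 1) (by omega) (by omega)
      have i2 := clunie hw m (Q m - Q (m + 1))
        (fun x hx => by
          rw [sub_apply]
          exact sub_nonneg.2 (ha m h1 (by omega) x hx)) Y m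
        (fun n hn j hj => hV n j (by omega)) (fun n hn j hj => hU n j (by omega))
      have e : ∀ z, QC (Q m - Q (m + 1)) z = QC (Q m) z - QC (Q (m + 1)) z := fun z => by
        simp only [QC, sub_apply]
        ring
      simp only [e, Finset.sum_sub_distrib] at i2
      have i3 := hb m h1 (by omega)
      rw [sum_range_succ (fun n => QC (Q (m + 1)) fun j => coeff n (Y j))] at i1
      rw [sum_range_succ (fun n => QC (Q m) fun j => coeff n (w * Y j))] at i2
      linarith
  have := main (N - 1) 1 (by omega) le_rfl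
  simp only [range_one, sum_singleton] at this
  have z : QC (Q 1) (fun j => coeff 0 (w * Y j)) = 0 := by
    simp only [QC, coeff_zero_mul_left hw.1, Complex.zero_re, Complex.zero_im]
    have : (fun _ : ℕ => (0 : ℝ)) = 0 := rfl
    rw [this, map_zero, add_zero]
  linarith

end Pool.Agent.P.MP_bdc337_an.KR
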