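import Pool.Agent.P.MP_bdc337_an.KR.A

/-! The extremal trajectory, its adjoint and their estimates. -/

set_option autoImplicit false

open Finset

namespace Pool.Agent.P.MP_bdc337_an.KR

/-- a nearly flat decreasing sequence -/
structure Hyp (b : ℕ → ℝ) (N : ℕ) : Prop where
  anti : ∀ j, j + 1 < N → b (j + 1) ≤ b j
  up : b 0 ≤ 2
  lo : ∀ j, j < N → 7 / 4 ≤ b j
  eta : ∀ j, j + 1 < N → ((j : ℝ) + 1) * (b j - b (j + 1)) ≤ 1 / 4

/-- the extremal coefficients -/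
noncomputable def Kc (b : ℕ → ℝ) : ℕ → ℝ
  | 0 => 1
  | n + 1 => (∑ j : Fin (n + 1), b j * Kc b (n - j)) / (n + 1)
decreasing_by omega

variable {b : ℕ → ℝ} {N : ℕ}

lemma Kc_zero (b : ℕ → ℝ) : Kc b 0 = 1 := by rw [Kc]

lemma Kc_succ (b : ℕ → ℝ) (n : ℕ) :
    ((n : ℝ) + 1) * Kc b (n + 1) = ∑ j ∈ range (n + 1), b j * Kc b (n - j) := by
  rw [Kc, Finset.sum_range]
  field_simp

lemma Kc_eq (b : ℕ → ℝ) (n : ℕ) :
    (n : ℝ) * Kc b n = ∑ j ∈ range n, b j * Kc b (n - 1 - j) := by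
  rcases n with _ | n
  · simp
  · simpa using Kc_succ b n

lemma Hyp.le (h : Hyp b N) {i j : ℕ} (hij : i ≤ j) (hj : j < N) : b j ≤ b i := by
  induction j, hij using Nat.le_induction with
  | base => exact le_rfl
  | succ j _ ih => exact (h.anti j hj).trans (ih (by omega))

lemma Hyp.le2 (h : Hyp b N) {j : ℕ} (hj : j < N) : b j ≤ 2 := (h.le (Nat.zero_le j) hj).trans h.up

lemma Kc_diff (b : ℕ → ℝ) (n : ℕ) : ((n : ℝ) + 1) * (Kc b (n + 1) - Kc b n)
    = (b 0 - 1) * Kc b n - ∑ j ∈ range n, (b j - b (j + 1)) * Kc b (n - 1 - j) := by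
  have h1 := Kc_succ b n
  have h2 := Kc_eq b n
  rw [Finset.sum_range_succ'] at h1
  have e : ∑ j ∈ range n, (b j - b (j + 1)) * Kc b (n - 1 - j)
      = ∑ j ∈ range n, b j * Kc b (n - 1 - j) - ∑ j ∈ range n, b (j + 1) * Kc b (n - (j + 1)) := by
    rw [← Finset.sum_sub_distrib]
    refine Finset.sum_congr rfl fun j _ => ?_
    rw [show n - (j + 1) = n - 1 - j by omega]
    ring
  rw [e, Nat.sub_zero] at *
  linarith

lemma Hyp.K1 (h : Hyp b N) (n : ℕ) (hn : n ≤ N) :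
    1 ≤ Kc b n ∧ ∀ i, i ≤ n → 1 ≤ Kc b i ∧ Kc b i ≤ Kc b n := by
  induction n with
  | zero =>
    refine ⟨by rw [Kc_zero], fun i hi => ?_⟩
    obtain rfl : i = 0 := by omega
    exact ⟨by rw [Kc_zero], le_rfl⟩
  | succ n ih =>
    obtain ⟨i1, i2⟩ := ih (by omega)
    have e := Kc_diff b n
    have s : ∑ j ∈ range n, (b j - b (j + 1)) * Kc b (n - 1 - j)
        ≤ ∑ j ∈ range n, (b j - b (j + 1)) * Kc b n := Finset.sum_le_sum fun j hj =>
      mul_le_mul_of_nonneg_left (i2 _ (by omega)).2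
        (sub_nonneg.2 (h.anti j (by have := mem_range.1 hj; omega)))
    rw [← Finset.sum_mul, Finset.sum_range_sub'] at s
    have l := h.lo n (by omega)
    have n0 : (0 : ℝ) ≤ n := Nat.cast_nonneg n
    have m : Kc b n ≤ Kc b (n + 1) := by nlinarith
    refine ⟨by linarith, fun i hi => ?_⟩
    rcases Nat.lt_or_ge i (n + 1) with h' | h'
    · exact ⟨(i2 i (by omega)).1, (i2 i (by omega)).2.trans m⟩
    · obtain rfl : i = n + 1 := by omega
      exact ⟨by linarith, le_rfl⟩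

lemma Hyp.Kpos (h : Hyp b N) {n : ℕ} (hn : n ≤ N) : 0 < Kc b n := by linarith [(h.K1 n hn).1]

lemma Hyp.K2 (h : Hyp b N) {n : ℕ} (hn : n < N) :
    3 / 4 * Kc b n ≤ ((n : ℝ) + 1) * (Kc b (n + 1) - Kc b n) ∧
      ((n : ℝ) + 1) * (Kc b (n + 1) - Kc b n) ≤ Kc b n := by
  obtain ⟨i1, i2⟩ := h.K1 n hn.le
  have e := Kc_diff b n
  have s : ∑ j ∈ range n, (b j - b (j + 1)) * Kc b (n - 1 - j)
      ≤ ∑ j ∈ range n, (b j - b (j + 1)) * Kc b n := Finset.sum_le_sum fun j hj =>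
    mul_le_mul_of_nonneg_left (i2 _ (by omega)).2
      (sub_nonneg.2 (h.anti j (by have := mem_range.1 hj; omega)))
  have s0 : 0 ≤ ∑ j ∈ range n, (b j - b (j + 1)) * Kc b (n - 1 - j) := Finset.sum_nonneg fun j hj =>
    mul_nonneg (sub_nonneg.2 (h.anti j (by have := mem_range.1 hj; omega)))
      (by linarith [(i2 (n - 1 - j) (by omega)).1])
  rw [← Finset.sum_mul, Finset.sum_range_sub'] at s
  have l := h.lo n hn
  have u := h.up
  constructor <;> nlinarith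

/-- increments -/
noncomputable def dK (b : ℕ → ℝ) (i : ℕ) : ℝ := Kc b i - if i = 0 then 0 else Kc b (i - 1)

lemma dK_zero (b : ℕ → ℝ) : dK b 0 = 1 := by simp [dK, Kc_zero]

lemma dK_succ (b : ℕ → ℝ) (i : ℕ) : dK b (i + 1) = Kc b (i + 1) - Kc b i := by simp [dK]

lemma Hyp.dK_nonneg (h : Hyp b N) {i : ℕ} (hi : i ≤ N) : 0 ≤ dK b i := by
  rcases i with _ | i
  · rw [dK_zero]; norm_num
  · rw [dK_succ]
    exact sub_nonneg.2 ((h.K1 (i + 1) hi).2 i (by omega)).2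

lemma sum_dK (b : ℕ → ℝ) (n : ℕ) : ∑ i ∈ range (n + 1), dK b i = Kc b n := by
  induction n with
  | zero => simp [dK_zero, Kc_zero]
  | succ n ih => rw [sum_range_succ, ih, dK_succ]; ring

lemma sum_KdK (b : ℕ → ℝ) (n : ℕ) : 2 * ∑ i ∈ range (n + 1), Kc b i * dK b i
    = Kc b n ^ 2 + ∑ i ∈ range (n + 1), dK b i ^ 2 := by
  induction n with
  | zero => simp [dK_zero, Kc_zero]; norm_num
  | succ n ih =>
    rw [sum_range_succ, sum_range_succ (fun i => dK b i ^ 2), mul_add, ih, dK_succ]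
    ring

lemma Hyp.K3 (h : Hyp b N) (n : ℕ) (hn : n ≤ N) :
    ∑ i ∈ range (n + 1), Kc b i ^ 2 ≤ (2 * n + 5) / 5 * Kc b n ^ 2 := by
  induction n with
  | zero => simp [Kc_zero]
  | succ n ih =>
    have i1 := ih (by omega)
    obtain ⟨k1, -⟩ := h.K2 (n := n) (by omega)
    have p := h.Kpos (n := n) (by omega)
    have n0 : (0 : ℝ) ≤ n := Nat.cast_nonneg n
    rw [sum_range_succ]
    push_cast
    have e1 : (n + 7 / 4) * Kc b n ≤ (n + 1) * Kc b (n + 1) := by linarith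
    have e2 := pow_le_pow_left₀ (by positivity) e1 2
    have e3 : (2 * n + 5) * Kc b n ^ 2 ≤ (2 * n + 2) * Kc b (n + 1) ^ 2 := by
      apply le_of_mul_le_mul_left _ (show (0 : ℝ) < n + 1 by positivity)
      nlinarith [sq_nonneg (Kc b n)]
    linarith

lemma Hyp.K4 (h : Hyp b N) (n : ℕ) (hn : n ≤ N) :
    ((n : ℝ) + 1) * ∑ i ∈ range (n + 1), dK b i ^ 2 ≤ 9 / 8 * Kc b n ^ 2 := by
  induction n with
  | zero => simp [Kc_zero, dK_zero]; norm_num
  | succ n ih =>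
    have i1 := ih (by omega)
    obtain ⟨k1, k2⟩ := h.K2 (n := n) (by omega)
    have p := h.Kpos (n := n) (by omega)
    have n0 : (0 : ℝ) ≤ n := Nat.cast_nonneg n
    rw [sum_range_succ, dK_succ]
    push_cast
    set S := ∑ i ∈ range (n + 1), dK b i ^ 2
    set K := Kc b n
    obtain ⟨d, hd⟩ : ∃ d, Kc b (n + 1) = K + d := ⟨Kc b (n + 1) - K, by ring⟩
    rw [hd] at k1 k2 ⊢
    rw [add_sub_cancel_left] at k1 k2 ⊢
    set x := ((n : ℝ) + 1) * d with hx
    have q : 0 ≤ (x - 3 / 4 * K) * (3 / 2 * K - x) := mul_nonneg (by linarith) (by linarith)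
    apply le_of_mul_le_mul_left _ (show (0 : ℝ) < (n + 1) ^ 2 by positivity)
    have e1 : ((n : ℝ) + 1) ^ 2 * ((n + 1 + 1) * (S + d ^ 2))
        = (n + 1) * (n + 2) * ((n + 1) * S) + (n + 2) * x ^ 2 := by rw [hx]; ring
    have e2 : ((n : ℝ) + 1) ^ 2 * (9 / 8 * (K + d) ^ 2) = 9 / 8 * ((n + 1) * K + x) ^ 2 := by
      rw [hx]; ring
    rw [e1, e2]
    have e3 := mul_le_mul_of_nonneg_left i1 (show (0 : ℝ) ≤ (n + 1) * (n + 2) by positivity)
    nlinarith [mul_nonneg (show (0 : ℝ) ≤ n + 1 by positivity) q, sq_nonneg x]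

/-- adjoint weights, `r` steps before the end -/
noncomputable def Wc (b : ℕ → ℝ) (N : ℕ) : ℕ → ℕ → ℝ
  | 0, j => b j
  | r + 1, j => Wc b N r (j + 1) + Wc b N r 0 / ((N - r - 1 : ℕ) : ℝ) * b j

/-- total adjoint mass -/
noncomputable def Tc (b : ℕ → ℝ) (N : ℕ) : ℕ → ℝ
  | 0 => 1
  | r + 1 => Tc b N r + Wc b N r 0 / ((N - r - 1 : ℕ) : ℝ)

lemma Hyp.W1 (h : Hyp b N) (r : ℕ) (hr : r < N) : 1 ≤ Tc b N r ∧ ∀ j, j + r < N →
    7 / 4 * Tc b N r ≤ Wc b N r j ∧ Wc b N r j ≤ b j * Tc b N r := by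
  induction r with
  | zero =>
    refine ⟨le_rfl, fun j hj => ?_⟩
    simp only [Tc, Wc, mul_one]
    exact ⟨h.lo j hj, le_rfl⟩
  | succ r ih =>
    obtain ⟨i1, i2⟩ := ih (by omega)
    have g0 : 0 ≤ Wc b N r 0 / ((N - r - 1 : ℕ) : ℝ) :=
      div_nonneg (by linarith [(i2 0 (by omega)).1]) (Nat.cast_nonneg _)
    refine ⟨by rw [Tc]; linarith, fun j hj => ?_⟩
    obtain ⟨a1, a2⟩ := i2 (j + 1) (by omega)
    have a3 := h.lo j (by omega)
    have a4 := h.anti j (by omega)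
    rw [Tc, Wc]
    constructor <;> nlinarith

lemma Hyp.T1 (h : Hyp b N) {r n : ℕ} (hn : 1 ≤ n) (hr : n + r + 1 = N) :
    ∃ g : ℝ, 7 / 4 * Tc b N r ≤ n * g ∧ n * g ≤ 2 * Tc b N r ∧ n * g = Wc b N r 0 ∧
      Tc b N (r + 1) = Tc b N r + g ∧ ∀ j, Wc b N (r + 1) j = Wc b N r (j + 1) + g * b j := by
  obtain ⟨i1, i2⟩ := h.W1 r (by omega)
  obtain ⟨a1, a2⟩ := i2 0 (by omega)
  have n0 : (0 : ℝ) < n := by exact_mod_cast hn
  have e : N - r - 1 = n := by omega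
  have e2 : (n : ℝ) * (Wc b N r 0 / n) = Wc b N r 0 := by field_simp
  refine ⟨Wc b N r 0 / n, by linarith, ?_, e2, by rw [Tc, e], fun j => by rw [Wc, e]⟩
  have := h.up
  nlinarith

lemma Hyp.W2 (h : Hyp b N) (r : ℕ) : ∀ n, n + r = N → ∀ j, j + 1 < n →
    0 ≤ Wc b N r j - Wc b N r (j + 1) - (b (j + r) - b (j + r + 1)) ∧
      n * (Wc b N r j - Wc b N r (j + 1) - (b (j + r) - b (j + r + 1)))
        ≤ 2 * Tc b N r * (b j - b (j + r)) := by
  induction r with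
  | zero => intro n _ j _; simp [Wc]
  | succ r ih =>
    intro n hn j hj
    obtain ⟨a1, a2⟩ := ih (n + 1) (by omega) (j + 1) (by omega)
    obtain ⟨g, g1, g2, -, g4, g5⟩ := h.T1 (r := r) (n := n) (by omega) (by omega)
    have t1 := (h.W1 r (by omega)).1
    have n0 : (0 : ℝ) < n := by exact_mod_cast (by omega : 0 < n)
    have g0 : 0 ≤ g := by nlinarith
    have d0 := sub_nonneg.2 (h.anti j (by omega))
    have d1 := sub_nonneg.2 (h.le (i := j + 1) (j := j + 1 + r) (by omega) (by omega))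
    rw [g4, g5, g5, show j + (r + 1) = j + 1 + r by omega]
    push_cast at a2
    constructor
    · nlinarith [mul_nonneg g0 d0]
    · nlinarith [mul_nonneg g0 d0, mul_nonneg g0 d1, mul_le_mul_of_nonneg_right g2 d0]

lemma Hyp.pair (h : Hyp b N) (r : ℕ) : ∀ n, 1 ≤ n → n + r = N →
    ∑ j ∈ range n, Wc b N r j * Kc b (n - 1 - j) = N * Kc b N := by
  induction r with
  | zero =>
    intro n _ hn
    obtain rfl : n = N := by omega
    rw [Kc_eq]
    rfl
  | succ r ih =>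
    intro n h1 hn
    obtain ⟨g, -, -, g3, -, g5⟩ := h.T1 (r := r) h1 (by omega)
    rw [← ih (n + 1) (by omega) (by omega), Finset.sum_range_succ', ← g3]
    simp only [g5, add_mul, Finset.sum_add_distrib, mul_assoc, ← Finset.mul_sum, ← Kc_eq]
    congr 1
    · refine Finset.sum_congr rfl fun j _ => ?_
      rw [show n + 1 - 1 - (j + 1) = n - 1 - j by omega]
    · simp only [Nat.add_sub_cancel, Nat.sub_zero]
      ring

/-- tail energy of the differences -/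
noncomputable def Ec (b : ℕ → ℝ) (N r : ℕ) : ℝ :=
  ∑ j ∈ range (N - r - 1), (b (j + r) - b (j + r + 1)) ^ 2

/-- accumulated tail energy -/
noncomputable def Lc (b : ℕ → ℝ) (N r : ℕ) : ℝ := ∑ i ∈ range r, Ec b N i

lemma Ec_nonneg (b : ℕ → ℝ) (N r : ℕ) : 0 ≤ Ec b N r := sum_nonneg fun _ _ => sq_nonneg _

lemma Lc_nonneg (b : ℕ → ℝ) (N r : ℕ) : 0 ≤ Lc b N r := sum_nonneg fun _ _ => Ec_nonneg _ _ _

lemma Hyp.L1 (h : Hyp b N) (r : ℕ) (hr : r < N) :
    Lc b N r ≤ (b 0 - b r) / 4 + r * Ec b N r := by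
  induction r with
  | zero => simp [Lc]
  | succ r ih =>
    have i1 := ih (by omega)
    have e : Ec b N r = Ec b N (r + 1) + (b r - b (r + 1)) ^ 2 := by
      unfold Ec
      rw [show N - r - 1 = N - (r + 1) - 1 + 1 by omega, Finset.sum_range_succ']
      simp only [zero_add]
      congr 1
      refine Finset.sum_congr rfl fun j _ => ?_
      rw [show j + 1 + r = j + (r + 1) by omega]
    have d0 := sub_nonneg.2 (h.anti r hr)
    have d1 := mul_le_mul_of_nonneg_right (h.eta r hr) d0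
    have : Lc b N (r + 1) = Lc b N r + Ec b N r := sum_range_succ _ _
    rw [this]
    push_cast
    rw [e] at i1 ⊢
    nlinarith

lemma Hyp.L2 (h : Hyp b N) {r : ℕ} (hr : r < N) : Lc b N r ≤ 1 / 16 := by
  have h1 := h.L1 (N - 1) (by omega)
  have e : Ec b N (N - 1) = 0 := by
    unfold Ec
    rw [show N - (N - 1) - 1 = 0 by omega]
    rfl
  have h2 : Lc b N r ≤ Lc b N (N - 1) :=
    sum_le_sum_of_subset_of_nonneg (range_subset_range.2 (by omega)) fun _ _ _ => Ec_nonneg _ _ _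
  have := h.lo (N - 1) (by omega)
  have := h.up
  rw [e] at h1
  linarith

end Pool.Agent.P.MP_bdc337_an.KR
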