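import Pool.Agent.P.MP_bdc337_an.KR.B

/-! The Lyapunov forms and the coefficient bound. -/

set_option autoImplicit false

open Finset PowerSeries

namespace Pool.Agent.P.MP_bdc337_an.KR

variable {b : ℕ → ℝ} {N : ℕ}

/-- the adjoint functional -/
noncomputable def ell (b : ℕ → ℝ) (N n : ℕ) : (ℕ → ℝ) →ₗ[ℝ] ℝ :=
  ∑ j ∈ range n, Wc b N (N - n) j • LinearMap.proj j

/-- the weight of the deviation -/
noncomputable def kap (b : ℕ → ℝ) (N n : ℕ) : ℝ :=
  (2 / 5 + 5 * Lc b N (N - n)) * n * Tc b N (N - n) ^ 2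

/-- the Lyapunov form -/
noncomputable def QQ (b : ℕ → ℝ) (N n : ℕ) : QuadraticForm ℝ (ℕ → ℝ) :=
  QuadraticMap.sq.comp (ell b N n) + kap b N n • ∑ j ∈ range n,
    QuadraticMap.sq.comp (LinearMap.proj j - (Kc b (n - 1 - j) / (N * Kc b N)) • ell b N n)

lemma QQ_apply (b : ℕ → ℝ) (N n : ℕ) (x : ℕ → ℝ) : QQ b N n x =
    (∑ j ∈ range n, Wc b N (N - n) j * x j) ^ 2 + kap b N n * ∑ j ∈ range n,
      (x j - Kc b (n - 1 - j) * ((∑ j ∈ range n, Wc b N (N - n) j * x j) / (N * Kc b N))) ^ 2 := by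
  have e : ell b N n x = ∑ j ∈ range n, Wc b N (N - n) j * x j := by
    simp [ell, LinearMap.sum_apply]
  rw [QQ, add_apply, smul_apply, _root_.sum_apply, QuadraticMap.comp_apply, QuadraticMap.sq_apply, e,
    smul_eq_mul, ← sq]
  congr 2
  refine Finset.sum_congr rfl fun j _ => ?_
  rw [QuadraticMap.comp_apply, QuadraticMap.sq_apply, LinearMap.sub_apply, LinearMap.smul_apply, e,
    LinearMap.proj_apply, smul_eq_mul]
  ring

lemma kap_nonneg (b : ℕ → ℝ) (N n : ℕ) : 0 ≤ kap b N n := by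
  have := Lc_nonneg b N (N - n)
  unfold kap
  positivity

lemma three (u v w s : ℝ) (hs : 0 < s) :
    (u + v + w) ^ 2 ≤ (1 + 3 / (2 * s)) * (u ^ 2 + s * v ^ 2 + 2 * s * w ^ 2) := by
  have e : (1 + 3 / (2 * s)) * (u ^ 2 + s * v ^ 2 + 2 * s * w ^ 2) - (u + v + w) ^ 2
      = (u - s * v) ^ 2 / s + (u - 2 * s * w) ^ 2 / (2 * s) + (v - 2 * w) ^ 2 / 2 := by
    field_simp
    ring
  have : 0 ≤ (u - s * v) ^ 2 / s + (u - 2 * s * w) ^ 2 / (2 * s) + (v - 2 * w) ^ 2 / 2 := by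
    positivity
  linarith

lemma scal {s T P t B X2 E μ k D2 K2 dev : ℝ} (hs : 3 ≤ s) (hT : 1 ≤ T) (hP : 0 < P)
    (hX : 0 ≤ X2) (hE : 0 ≤ E) (k0 : 2 / 5 ≤ k) (k1 : k ≤ 3 / 4) (m0 : 7 / 4 ≤ s * μ) (m1 : μ ≤ 1)
    (hB : B ^ 2 ≤ (3 * T ^ 2 / (8 * s) + 3 * E) * X2)
    (hD : (s - 1) * D2 * T ^ 2 * s ^ 2 ≤ 7 / 4 * P ^ 2) (hK : (s - 1) * K2 * T ^ 2 ≤ 8 / 15 * P ^ 2)
    (hdev : dev ≤ (1 + 3 / (2 * s)) * (X2 + s * (t ^ 2 * D2) + 2 * s * ((B / P) ^ 2 * K2))) :
    (t * (1 - μ) * P + B) ^ 2 + k * (s - 1) * T ^ 2 * dev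
      ≤ (t * P) ^ 2 + (k + 5 * E) * (s + 3 / 2) * T ^ 2 * X2 := by
  have s0 : 0 < s := by linarith
  obtain ⟨y, hy⟩ : ∃ y, y = 1 / s := ⟨_, rfl⟩
  have y0 : 0 < y := by rw [hy]; positivity
  have ys : s * y = 1 := by rw [hy]; field_simp
  have y1 : y ≤ 1 / 3 := by nlinarith
  have eL : 1 + 3 / (2 * s) = 1 + 3 / 2 * y := by rw [hy]; field_simp
  have eB : 3 * T ^ 2 / (8 * s) = 3 / 8 * y * T ^ 2 := by rw [hy]; field_simp
  rw [eL] at hdev
  rw [eB] at hB
  have a1 : (t * (1 - μ) * P + B) ^ 2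
      ≤ (1 + 2 * y) * (1 - μ) ^ 2 * (t * P) ^ 2 + (1 + s / 2) * B ^ 2 := by
    have e : (1 + 2 * y) * (1 - μ) ^ 2 * (t * P) ^ 2 + (1 + s / 2) * B ^ 2
        - (t * (1 - μ) * P + B) ^ 2 = s / 2 * (2 * y * (t * (1 - μ) * P) - B) ^ 2 := by
      linear_combination (-(2 * y * (t * (1 - μ) * P) ^ 2) + 2 * (t * (1 - μ) * P) * B) * ys
    have : 0 ≤ s / 2 * (2 * y * (t * (1 - μ) * P) - B) ^ 2 := by positivity
    linarith
  have a2 : (s - 1) * T ^ 2 * (s * (t ^ 2 * D2)) ≤ 7 / 4 * y * (t * P) ^ 2 := by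
    have := mul_le_mul_of_nonneg_left hD (show 0 ≤ y * t ^ 2 by positivity)
    have e : (s - 1) * T ^ 2 * (s * (t ^ 2 * D2))
        = y * t ^ 2 * ((s - 1) * D2 * T ^ 2 * s ^ 2) := by
      linear_combination (-((s - 1) * T ^ 2 * (s * (t ^ 2 * D2)))) * ys
    rw [e]
    linarith
  have a3 : (s - 1) * T ^ 2 * (2 * s * ((B / P) ^ 2 * K2)) ≤ 16 / 15 * s * B ^ 2 := by
    have := mul_le_mul_of_nonneg_left hK (show 0 ≤ 2 * s * (B / P) ^ 2 by positivity)
    have e : 2 * s * (B / P) ^ 2 * (8 / 15 * P ^ 2) = 16 / 15 * s * B ^ 2 := by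
      field_simp
      ring
    linarith
  have kp : 0 ≤ k := by linarith
  have a4 : k * (s - 1) * T ^ 2 * dev ≤ k * (1 + 3 / 2 * y) *
      ((s - 1) * T ^ 2 * X2 + 7 / 4 * y * (t * P) ^ 2 + 16 / 15 * s * B ^ 2) := by
    have h1 := mul_le_mul_of_nonneg_left hdev
      (show 0 ≤ k * (s - 1) * T ^ 2 from mul_nonneg (mul_nonneg kp (by linarith)) (sq_nonneg _))
    have h2 := mul_le_mul_of_nonneg_left (add_le_add a2 a3)
      (show 0 ≤ k * (1 + 3 / 2 * y) by positivity)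
    linarith
  have mu : 7 / 4 * y ≤ μ := by nlinarith only [m0, ys, y0]
  have b1 : (1 + 2 * y) * (1 - μ) ^ 2 + k * (1 + 3 / 2 * y) * (7 / 4 * y) ≤ 1 := by
    have h1 : (1 - μ) ^ 2 ≤ (1 - 7 / 4 * y) ^ 2 := pow_le_pow_left₀ (by linarith) (by linarith) 2
    have h2 := mul_le_mul_of_nonneg_left h1 (show 0 ≤ 1 + 2 * y by positivity)
    have h3 := mul_le_mul_of_nonneg_right k1 (show 0 ≤ (1 + 3 / 2 * y) * (7 / 4 * y) by positivity)
    nlinarith only [h2, h3, y0, y1, mul_nonneg y0.le (mul_nonneg y0.le (sub_nonneg.2 y1)),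
      mul_nonneg y0.le (sub_nonneg.2 y1)]
  have b2 := mul_le_mul_of_nonneg_right b1 (sq_nonneg (t * P))
  have c0 : 0 ≤ 1 + s / 2 + k * (1 + 3 / 2 * y) * (16 / 15 * s) := by positivity
  have b3 := mul_le_mul_of_nonneg_left hB c0
  have c1 : (1 + s / 2 + k * (1 + 3 / 2 * y) * (16 / 15 * s)) * (3 / 8 * y)
      + k * (1 + 3 / 2 * y) * (s - 1) ≤ k * (s + 3 / 2) := by
    have e : (1 + s / 2 + k * (1 + 3 / 2 * y) * (16 / 15 * s)) * (3 / 8 * y)
        + k * (1 + 3 / 2 * y) * (s - 1)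
        = 3 / 16 + 3 / 8 * y + k * (s + 9 / 10 - 9 / 10 * y) := by
      linear_combination (3 / 16 + k * (19 / 10 + 3 / 5 * y)) * ys
    rw [e]
    nlinarith only [k0, y0, y1, mul_nonneg kp y0.le]
  have c2 : (1 + s / 2 + k * (1 + 3 / 2 * y) * (16 / 15 * s)) * 3 ≤ 5 * (s + 3 / 2) * T ^ 2 := by
    have e : k * (1 + 3 / 2 * y) * (16 / 15 * s) = k * (16 / 15 * s + 8 / 5) := by
      linear_combination (8 / 5 * k) * ys
    have h1 := mul_le_mul_of_nonneg_right k1 (show 0 ≤ 16 / 15 * s + 8 / 5 by positivity)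
    have h2 : 1 ≤ T ^ 2 := one_le_pow₀ hT
    rw [e]
    nlinarith only [h1, h2, hs]
  have d1 := mul_le_mul_of_nonneg_right c1 (show 0 ≤ T ^ 2 * X2 by positivity)
  have d2 := mul_le_mul_of_nonneg_right c2 (show 0 ≤ E * X2 by positivity)
  linarith only [a1, a4, b2, b3, d1, d2]

lemma Hyp.kap_ge (h : Hyp b N) {r n : ℕ} (hn : 1 ≤ n) (hr : n + r + 1 = N) :
    (2 / 5 + 5 * Lc b N r + 5 * Ec b N r) * (n + 2 + 3 / 2) * Tc b N r ^ 2 ≤ kap b N n := by
  obtain ⟨g, g1, -, -, g4, -⟩ := h.T1 hn hr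
  have t1 := (h.W1 r (by omega)).1
  have n0 : (0 : ℝ) ≤ n := Nat.cast_nonneg n
  have e : Lc b N (r + 1) = Lc b N r + Ec b N r := sum_range_succ _ _
  rw [kap, show N - n = r + 1 by omega, e, g4, mul_assoc, mul_assoc, mul_add 5, ← add_assoc]
  apply mul_le_mul_of_nonneg_left _
    (by linarith [Lc_nonneg b N r, Ec_nonneg b N r])
  nlinarith [mul_nonneg n0 (sq_nonneg g), mul_le_mul_of_nonneg_left g1 (show 0 ≤ Tc b N r by linarith)]

lemma Hyp.chi (h : Hyp b N) {r n : ℕ} (hn : 1 ≤ n) (hr : n + r = N) (x : ℕ → ℝ) :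
    ∑ j ∈ range n, Wc b N r j * (x j - Kc b (n - 1 - j) *
      ((∑ j ∈ range n, Wc b N r j * x j) / (N * Kc b N))) = 0 := by
  have N0 : (0 : ℝ) < N := by exact_mod_cast (by omega : 0 < N)
  have := h.Kpos (le_refl N)
  simp only [mul_sub, Finset.sum_sub_distrib, ← mul_assoc, ← Finset.sum_mul, h.pair r n hn hr]
  field_simp
  ring

theorem Hyp.stepB (h : Hyp b N) {n : ℕ} (hn : 1 ≤ n) (hN : n < N) (x y : ℕ → ℝ)
    (y0 : n * y 0 = ∑ j ∈ range n, b j * x j) (y1 : ∀ j, y (j + 1) = x j) :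
    QQ b N (n + 1) y ≤ QQ b N n x := by
  obtain ⟨r, hr⟩ : ∃ r, n + r + 1 = N := ⟨N - n - 1, by omega⟩
  obtain ⟨g, g1, g2, g3, g4, g5⟩ := h.T1 hn hr
  have hc := h.chi (r := r + 1) hn (by omega) x
  have hk := h.kap_ge hn hr
  obtain ⟨t1, w1⟩ := h.W1 (r + 1) (by omega)
  have n0 : (0 : ℝ) < n := by exact_mod_cast hn
  have n1 : (1 : ℝ) ≤ n := by exact_mod_cast hn
  have el : ∑ j ∈ range (n + 1), Wc b N r j * y j = ∑ j ∈ range n, Wc b N (r + 1) j * x j := by
    rw [Finset.sum_range_succ', ← g3]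
    simp only [g5, y1, add_mul, Finset.sum_add_distrib, mul_assoc, ← Finset.mul_sum, ← y0]
    ring
  rw [QQ_apply, QQ_apply, show N - (n + 1) = r by omega, show N - n = r + 1 by omega, el,
    Finset.sum_range_succ']
  set t := (∑ j ∈ range n, Wc b N (r + 1) j * x j) / (N * Kc b N)
  have e1 : ∑ j ∈ range n, (y (j + 1) - Kc b (n + 1 - 1 - (j + 1)) * t) ^ 2
      = ∑ j ∈ range n, (x j - Kc b (n - 1 - j) * t) ^ 2 :=
    Finset.sum_congr rfl fun j _ => by rw [y1, show n + 1 - 1 - (j + 1) = n - 1 - j by omega]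
  rw [e1, Nat.add_sub_cancel, Nat.sub_zero]
  set X2 := ∑ j ∈ range n, (x j - Kc b (n - 1 - j) * t) ^ 2
  have X0 : 0 ≤ X2 := sum_nonneg fun _ _ => sq_nonneg _
  set T := Tc b N (r + 1)
  have e2 : n * (y 0 - Kc b n * t)
      = ∑ j ∈ range n, (b j - Wc b N (r + 1) j / T) * (x j - Kc b (n - 1 - j) * t) := by
    have : ∑ j ∈ range n, (b j - Wc b N (r + 1) j / T) * (x j - Kc b (n - 1 - j) * t)
        = ∑ j ∈ range n, b j * x j - (∑ j ∈ range n, b j * Kc b (n - 1 - j)) * t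
          - (∑ j ∈ range n, Wc b N (r + 1) j * (x j - Kc b (n - 1 - j) * t)) / T := by
      rw [Finset.sum_mul, Finset.sum_div, ← Finset.sum_sub_distrib, ← Finset.sum_sub_distrib]
      exact Finset.sum_congr rfl fun j _ => by ring
    rw [this, hc, ← y0, ← Kc_eq]
    ring
  have e3 : ∑ j ∈ range n, (b j - Wc b N (r + 1) j / T) ^ 2 ≤ n * (1 / 16) := by
    have := Finset.sum_le_card_nsmul (range n) (fun j => (b j - Wc b N (r + 1) j / T) ^ 2) (1 / 16)
      fun j hj => by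
        have hj' := mem_range.1 hj
        obtain ⟨a1, a2⟩ := w1 j (by omega)
        have a3 := h.le2 (j := j) (by omega)
        have a4 : 7 / 4 ≤ Wc b N (r + 1) j / T := by rw [le_div_iff₀ (by linarith)]; exact a1
        have a5 : Wc b N (r + 1) j / T ≤ b j := by rw [div_le_iff₀ (by linarith)]; exact a2
        nlinarith
    simpa using this
  have e4 := Finset.sum_mul_sq_le_sq_mul_sq (range n) (fun j => b j - Wc b N (r + 1) j / T)
    (fun j => x j - Kc b (n - 1 - j) * t)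
  rw [← e2] at e4
  have e5 : (y 0 - Kc b n * t) ^ 2 * n ≤ X2 / 16 := by
    apply le_of_mul_le_mul_left _ n0
    nlinarith [mul_le_mul_of_nonneg_right e3 X0]
  have e6 : ((n : ℝ) + 1) * (X2 + (y 0 - Kc b n * t) ^ 2) ≤ (n + 2 + 3 / 2) * X2 := by
    nlinarith [mul_le_mul_of_nonneg_left n1 (sq_nonneg (y 0 - Kc b n * t))]
  have L0 := Lc_nonneg b N r
  have E0 := Ec_nonneg b N r
  have e7 := mul_le_mul_of_nonneg_left e6
    (show 0 ≤ (2 / 5 + 5 * Lc b N r) * Tc b N r ^ 2 by positivity)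
  have e8 := mul_le_mul_of_nonneg_right hk X0
  have e9 : 0 ≤ 5 * Ec b N r * (n + 2 + 3 / 2) * Tc b N r ^ 2 * X2 := by positivity
  have e10 : kap b N (n + 1) = (2 / 5 + 5 * Lc b N r) * (n + 1) * Tc b N r ^ 2 := by
    rw [kap, show N - (n + 1) = r by omega]
    push_cast
    ring
  rw [e10]
  linarith

theorem Hyp.stepA (h : Hyp b N) {n : ℕ} (hn : 1 ≤ n) (hN : n < N) (x : ℕ → ℝ) (hx : Supp n x) :
    QQ b N (n + 1) x ≤ QQ b N n x := by
  obtain ⟨r, hr⟩ : ∃ r, n + r + 1 = N := ⟨N - n - 1, by omega⟩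
  obtain ⟨g, g1, g2, g3, g4, g5⟩ := h.T1 hn hr
  have hc := h.chi (r := r + 1) hn (by omega) x
  have hk := h.kap_ge hn hr
  obtain ⟨t1, w1⟩ := h.W1 r (by omega)
  have w2 := h.W2 r (n + 1) (by omega)
  have p1 := h.pair r (n + 1) (by omega) (by omega)
  obtain ⟨k1, k2⟩ := h.K2 hN
  have k3 := h.K3 n hN.le
  have k4 := h.K4 n hN.le
  have k5 := sum_KdK b n
  have k6 := sum_dK b n
  have k7 := Kc_succ b n
  have Kp := h.Kpos hN.le
  have n0 : (0 : ℝ) < n := by exact_mod_cast hn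
  have n1 : (1 : ℝ) ≤ n := by exact_mod_cast hn
  have P0 : 0 < N * Kc b N :=
    mul_pos (by exact_mod_cast (by omega : 0 < N)) (h.Kpos (le_refl N))
  rw [← Finset.sum_range_reflect] at k3 k4 k5 k6
  rw [← Finset.sum_range_reflect (fun i => dK b i ^ 2)] at k5
  have e10 : kap b N (n + 1) = (2 / 5 + 5 * Lc b N r) * (n + 2 - 1) * Tc b N r ^ 2 := by
    rw [kap, show N - (n + 1) = r by omega]
    push_cast
    ring
  rw [QQ_apply, QQ_apply, show N - (n + 1) = r by omega, show N - n = r + 1 by omega, e10]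
  simp only [Nat.add_sub_cancel] at p1 k3 k4 k5 k6 ⊢
  set P := N * Kc b N
  set T := Tc b N r
  set K := Kc b n
  obtain ⟨t, ht⟩ : ∃ t, t = (∑ j ∈ range n, Wc b N (r + 1) j * x j) / P := ⟨_, rfl⟩
  have ht' : ∑ j ∈ range n, Wc b N (r + 1) j * x j = t * P := by rw [ht]; field_simp
  rw [← ht] at hc ⊢
  rw [ht']
  set X2 := ∑ j ∈ range n, (x j - Kc b (n - 1 - j) * t) ^ 2 with hX2
  have X0 : 0 ≤ X2 := sum_nonneg fun _ _ => sq_nonneg _
  set B := ∑ j ∈ range n, Wc b N r j * (x j - Kc b (n - 1 - j) * t) with hBdef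
  obtain ⟨μ, hμ⟩ : ∃ μ, μ = (∑ j ∈ range (n + 1), Wc b N r j * dK b (n - j)) / P := ⟨_, rfl⟩
  have hμ' : ∑ j ∈ range (n + 1), Wc b N r j * dK b (n - j) = μ * P := by rw [hμ]; field_simp
  have dk : ∀ j, j < n → dK b (n - j) = Kc b (n - j) - Kc b (n - 1 - j) := fun j hj => by
    rw [show n - j = n - 1 - j + 1 by omega, dK_succ]
  have el : ∑ j ∈ range (n + 1), Wc b N r j * x j = t * (1 - μ) * P + B := by
    have : t * (1 - μ) * P = t * P - t * (μ * P) := by ring
    rw [this, ← hμ', hBdef]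
    nth_rewrite 1 [← p1]
    rw [sum_range_succ, sum_range_succ, sum_range_succ, hx n le_rfl, Nat.sub_self, dK_zero, Kc_zero,
      mul_add, mul_add, Finset.mul_sum, Finset.mul_sum]
    have : ∑ j ∈ range n, Wc b N r j * x j = ∑ j ∈ range n, t * (Wc b N r j * Kc b (n - j))
        - ∑ j ∈ range n, t * (Wc b N r j * dK b (n - j))
        + ∑ j ∈ range n, Wc b N r j * (x j - Kc b (n - 1 - j) * t) := by
      rw [← Finset.sum_sub_distrib, ← Finset.sum_add_distrib]
      refine Finset.sum_congr rfl fun j hj => ?_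
      rw [dk j (mem_range.1 hj)]
      ring
    rw [this]
    ring
  rw [el]
  have Kj : ∀ j, 0 ≤ Kc b (n - j) := fun j => (h.Kpos (by omega)).le
  have dj : ∀ j, 0 ≤ dK b (n - j) := fun j => h.dK_nonneg (by omega)
  have P1 : 7 / 8 * (n + 7 / 4) * T * K ≤ P := by
    have a1 : ∑ j ∈ range (n + 1), 7 / 8 * T * (b j * Kc b (n - j))
        ≤ ∑ j ∈ range (n + 1), Wc b N r j * Kc b (n - j) := Finset.sum_le_sum fun j hj => by
      have hj' := mem_range.1 hj
      have c1 := (w1 j (by omega)).1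
      have c2 := h.le2 (j := j) (by omega)
      have c3 : 7 / 8 * T * b j ≤ Wc b N r j := by nlinarith only [c1, c2, t1]
      linarith [mul_le_mul_of_nonneg_right c3 (Kj j)]
    rw [← Finset.mul_sum, ← k7, p1] at a1
    nlinarith only [a1, k1, t1]
  have P2 : P ≤ (n + 2) * T * K := by
    have a1 : ∑ j ∈ range (n + 1), Wc b N r j * Kc b (n - j)
        ≤ ∑ j ∈ range (n + 1), T * (b j * Kc b (n - j)) := Finset.sum_le_sum fun j hj => by
      have hj' := mem_range.1 hj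
      linarith [mul_le_mul_of_nonneg_right (w1 j (by omega)).2 (Kj j)]
    rw [← Finset.mul_sum, ← k7, p1] at a1
    nlinarith only [a1, k2, t1]
  have M1 : 7 / 4 * T * K ≤ μ * P := by
    rw [← hμ', ← k6, Finset.mul_sum]
    exact Finset.sum_le_sum fun j hj => by
      have hj' := mem_range.1 hj
      exact mul_le_mul_of_nonneg_right (w1 j (by omega)).1 (dj j)
  have M2 : μ * P ≤ 2 * T * K := by
    rw [← hμ', ← k6, Finset.mul_sum]
    exact Finset.sum_le_sum fun j hj => by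
      have hj' := mem_range.1 hj
      have c1 := (w1 j (by omega)).2
      have c2 := h.le2 (j := j) (by omega)
      exact mul_le_mul_of_nonneg_right (by nlinarith only [c1, c2, t1]) (dj j)
  have TK : 0 < T * K := by positivity
  have μ0 : 0 < μ := by
    by_contra hc
    nlinarith only [M1, TK, mul_nonneg (sub_nonneg.2 (not_lt.1 hc)) P0.le]
  have m0 : 7 / 4 ≤ (n + 2) * μ := by
    apply le_of_mul_le_mul_right _ TK
    linarith only [M1, mul_le_mul_of_nonneg_left P2 μ0.le]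
  have m2 : (n + 2) * μ ≤ 5 / 2 := by
    have : μ * (7 / 8 * (n + 7 / 4)) ≤ 2 := by
      apply le_of_mul_le_mul_right _ TK
      linarith only [M2, mul_le_mul_of_nonneg_left P1 μ0.le]
    nlinarith only [this, n1, μ0]
  have m1 : μ ≤ 1 := by nlinarith only [m2, n1, μ0]
  have PP : (7 / 8 * (n + 7 / 4) * T * K) ^ 2 ≤ P ^ 2 := pow_le_pow_left₀ (by positivity) P1 2
  set K2 := ∑ j ∈ range (n + 1), Kc b (n - j) ^ 2
  set D2 := ∑ j ∈ range (n + 1), (μ * Kc b (n - j) - dK b (n - j)) ^ 2 with hD2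
  have hD : ((n : ℝ) + 2 - 1) * D2 * T ^ 2 * (n + 2) ^ 2 ≤ 7 / 4 * P ^ 2 := by
    have a1 : D2 = μ ^ 2 * K2 - μ * (2 * ∑ j ∈ range (n + 1), Kc b (n - j) * dK b (n - j))
        + ∑ j ∈ range (n + 1), dK b (n - j) ^ 2 := by
      rw [hD2, Finset.mul_sum, Finset.mul_sum, Finset.mul_sum, ← Finset.sum_sub_distrib,
        ← Finset.sum_add_distrib]
      exact Finset.sum_congr rfl fun j _ => by ring
    rw [k5] at a1
    have a2 := mul_le_mul_of_nonneg_left k3 (show 0 ≤ (n + 1) * μ ^ 2 by positivity)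
    have a3 := mul_le_mul_of_nonneg_left k4 (sub_nonneg.2 m1)
    have a4 : μ * ((n + 1) * (2 * n + 5) / 5) ≤ n + 1 + 9 / 8 := by
      apply le_of_mul_le_mul_left _ (show (0 : ℝ) < n + 2 by positivity)
      nlinarith only [n0,
        mul_le_mul_of_nonneg_right m2 (show (0 : ℝ) ≤ (n + 1) * (2 * n + 5) by positivity)]
    have a5 := mul_le_mul_of_nonneg_left a4 (show 0 ≤ μ * K ^ 2 by positivity)
    have a6 : ((n : ℝ) + 1) * D2 ≤ 9 / 8 * K ^ 2 := by rw [a1]; linarith only [a2, a3, a5]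
    have a7 := mul_le_mul_of_nonneg_right a6 (show 0 ≤ T ^ 2 * ((n : ℝ) + 2) ^ 2 by positivity)
    have a8 : 9 / 8 * ((n : ℝ) + 2) ^ 2 ≤ 7 / 4 * (7 / 8 * (n + 7 / 4)) ^ 2 := by
      nlinarith only [n1]
    have a9 := mul_le_mul_of_nonneg_right a8 (sq_nonneg (T * K))
    linarith only [a7, a9, PP]
  have hK : ((n : ℝ) + 2 - 1) * K2 * T ^ 2 ≤ 8 / 15 * P ^ 2 := by
    have a2 := mul_le_mul_of_nonneg_left k3 (show 0 ≤ ((n : ℝ) + 1) * T ^ 2 by positivity)
    have a8 : ((n : ℝ) + 1) * ((2 * n + 5) / 5) ≤ 8 / 15 * (7 / 8 * (n + 7 / 4)) ^ 2 := by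
      nlinarith only [n1]
    have a9 := mul_le_mul_of_nonneg_right a8 (sq_nonneg (T * K))
    linarith only [a2, a9, PP]
  have hB : B ^ 2 ≤ (3 * T ^ 2 / (8 * (n + 2)) + 3 * Ec b N r) * X2 := by
    have g0 : 0 < g := by nlinarith only [g1, t1, n0]
    have T0 : 0 < T + g := by linarith
    have a1 : B = ∑ j ∈ range n, (Wc b N r j - T / (T + g) * Wc b N (r + 1) j)
        * (x j - Kc b (n - 1 - j) * t) := by
      have : ∑ j ∈ range n, (Wc b N r j - T / (T + g) * Wc b N (r + 1) j)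
          * (x j - Kc b (n - 1 - j) * t) = B - T / (T + g) *
            ∑ j ∈ range n, Wc b N (r + 1) j * (x j - Kc b (n - 1 - j) * t) := by
        rw [hBdef, Finset.mul_sum, ← Finset.sum_sub_distrib]
        exact Finset.sum_congr rfl fun j _ => by ring
      rw [this, hc]
      ring
    have a2 := Finset.sum_mul_sq_le_sq_mul_sq (range n)
      (fun j => Wc b N r j - T / (T + g) * Wc b N (r + 1) j) (fun j => x j - Kc b (n - 1 - j) * t)
    rw [← a1] at a2
    refine a2.trans (mul_le_mul_of_nonneg_right ?_ X0)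
    have a3 : ∑ j ∈ range n, (Wc b N r j - T / (T + g) * Wc b N (r + 1) j) ^ 2
        ≤ ∑ j ∈ range n, (3 / 2 * (T / (2 * (n + 1))) ^ 2 + 3 * (b (j + r) - b (j + r + 1)) ^ 2) :=
      Finset.sum_le_sum fun j hj => by
        have hj' := mem_range.1 hj
        obtain ⟨v0, v1⟩ := w2 j (by omega)
        obtain ⟨c1, c2⟩ := w1 (j + 1) (by omega)
        have c3 := h.le2 (j := j) (by omega)
        have c4 := h.lo (j + r) (by omega)
        have c5 := h.anti j (by omega)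
        push_cast at v1
        set V := Wc b N r j - Wc b N r (j + 1) - (b (j + r) - b (j + r + 1)) with hV
        have c6 : Wc b N r j - T / (T + g) * Wc b N (r + 1) j = (b (j + r) - b (j + r + 1)) +
            (V - g / (T + g) * (T * b j - Wc b N r (j + 1))) := by
          rw [g5, hV]
          field_simp
          ring
        have c7 : V ≤ T / (2 * (n + 1)) := by
          rw [le_div_iff₀ (by positivity)]
          nlinarith only [v1, c3, c4, t1]
        have c8 : 0 ≤ T * b j - Wc b N r (j + 1) := by nlinarith only [c2, c5, t1]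
        have c9 : T * b j - Wc b N r (j + 1) ≤ T / 4 := by nlinarith only [c1, c3, t1]
        have c10 : g / (T + g) ≤ 2 / (n + 1) := by
          rw [div_le_div_iff₀ T0 (by positivity)]
          linarith only [g2, g0]
        have c11 : g / (T + g) * (T * b j - Wc b N r (j + 1)) ≤ T / (2 * (n + 1)) := by
          refine (mul_le_mul c10 c9 c8 (by positivity)).trans (le_of_eq ?_)
          field_simp
          ring
        have c12 : 0 ≤ g / (T + g) * (T * b j - Wc b N r (j + 1)) := by positivity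
        rw [c6]
        generalize g / (T + g) * (T * b j - Wc b N r (j + 1)) = z at *
        have c13 : (V - z) ^ 2 ≤ (T / (2 * (n + 1))) ^ 2 := 
          sq_le_sq' (by linarith only [v0, c11]) (by linarith only [c7, c12])
        nlinarith only [c13, sq_nonneg (2 * (b (j + r) - b (j + r + 1)) - (V - z))]
    refine a3.trans ?_
    rw [Finset.sum_add_distrib, ← Finset.mul_sum, ← Finset.mul_sum, Ec,
      show N - r - 1 = n by omega, sum_const, card_range, nsmul_eq_mul]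
    have a4 : 3 / 2 * (n * (T / (2 * (n + 1))) ^ 2) ≤ 3 * T ^ 2 / (8 * (n + 2)) := by
      rw [div_pow, ← mul_div_assoc, ← mul_div_assoc, div_le_div_iff₀ (by positivity) (by positivity)]
      nlinarith only [sq_nonneg T]
    linarith only [a4]
  have hdev : ∑ j ∈ range (n + 1), (x j - Kc b (n - j) * ((t * (1 - μ) * P + B) / P)) ^ 2
      ≤ (1 + 3 / (2 * (n + 2))) * (X2 + (n + 2) * (t ^ 2 * D2) + 2 * (n + 2) * ((B / P) ^ 2 * K2)) := by
    have a1 : X2 = ∑ j ∈ range (n + 1), (if j < n then x j - Kc b (n - 1 - j) * t else 0) ^ 2 := by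
      rw [sum_range_succ, if_neg (lt_irrefl n), hX2]
      simp only [ne_eq, OfNat.ofNat_ne_zero, not_false_eq_true, zero_pow, add_zero]
      exact Finset.sum_congr rfl fun j hj => by rw [if_pos (mem_range.1 hj)]
    rw [a1, hD2, Finset.mul_sum, Finset.mul_sum, Finset.mul_sum, Finset.mul_sum,
      ← Finset.sum_add_distrib, ← Finset.sum_add_distrib, Finset.mul_sum]
    refine Finset.sum_le_sum fun j hj => ?_
    have a2 : x j - Kc b (n - j) * ((t * (1 - μ) * P + B) / P)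
        = (if j < n then x j - Kc b (n - 1 - j) * t else 0) + t * (μ * Kc b (n - j) - dK b (n - j))
          + -(B / P * Kc b (n - j)) := by
      split_ifs with hj'
      · rw [dk j hj']
        field_simp
        ring
      · obtain rfl : j = n := by have := mem_range.1 hj; omega
        rw [hx j le_rfl, Nat.sub_self, dK_zero, Kc_zero]
        field_simp
        ring
    rw [a2]
    refine (three _ _ _ (n + 2) (by positivity)).trans (le_of_eq ?_)
    ring
  have L0 := Lc_nonneg b N r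
  have L1 := h.L2 (r := r) (by omega)
  have main := scal (k := 2 / 5 + 5 * Lc b N r) (by linarith) t1 P0 X0 (Ec_nonneg b N r)
    (by linarith) (by linarith) m0 m1 hB hD hK hdev
  linarith only [main, mul_le_mul_of_nonneg_right hk X0]

lemma coeff_pow_mul {w : ℂ⟦X⟧} (h0 : coeff 0 w = 0) (F : ℂ⟦X⟧) (j : ℕ) :
    ∀ n, n < j → coeff n (w ^ j * F) = 0 := by
  induction j with
  | zero => intro n hn; omega
  | succ j ih =>
    intro n hn
    rw [pow_succ', mul_assoc, coeff_conv h0 _ le_rfl]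
    exact Finset.sum_eq_zero fun i hi => by
      rw [ih i (by have := mem_range.1 hi; omega), mul_zero]

theorem Hyp.core (h : Hyp b N) (hN : 1 ≤ N) {w F : ℂ⟦X⟧} (hw : Contr w) (hF0 : coeff 0 F = 1)
    (hF : ∀ n : ℕ, n * coeff n F = ∑ j ∈ range n, (b j : ℂ) * coeff n (w ^ (j + 1) * F)) :
    ‖coeff N F‖ ≤ Kc b N := by
  have e : ∀ j, w * (w ^ j * F) = w ^ (j + 1) * F := fun j => by ring
  have N0 : (0 : ℝ) < N := by exact_mod_cast hN
  have Kp := h.Kpos (le_refl N)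
  have hre : ∀ n : ℕ, n * (coeff n F).re = ∑ j ∈ range n, b j * (coeff n (w ^ (j + 1) * F)).re :=
    fun n => by simpa [Complex.re_sum] using congrArg Complex.re (hF n)
  have him : ∀ n : ℕ, n * (coeff n F).im = ∑ j ∈ range n, b j * (coeff n (w ^ (j + 1) * F)).im :=
    fun n => by simpa [Complex.im_sum] using congrArg Complex.im (hF n)
  have main := lyap hw (QQ b N) (fun j => w ^ j * F) hN
    (fun n j hj => coeff_pow_mul hw.1 F j n hj)
    (fun n j hj => by rw [e]; exact coeff_pow_mul hw.1 F _ n (by omega))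
    (fun x _ => by
      rw [QQ_apply]
      have := kap_nonneg b N N
      positivity)
    (fun n h1 h2 x hx => h.stepA h1 h2 x hx)
    (fun n h1 h2 => add_le_add
      (h.stepB h1 h2 _ _ (by simpa only [e, pow_zero, one_mul] using hre n) fun j => by simp only [e])
      (h.stepB h1 h2 _ _ (by simpa only [e, pow_zero, one_mul] using him n) fun j => by simp only [e]))
  have p1 := h.pair (N - 1) 1 le_rfl (by omega)
  simp only [range_one, sum_singleton, Nat.sub_self, Kc_zero, mul_one] at p1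
  have r1 : QC (QQ b N 1) (fun j => coeff 0 (w ^ j * F)) = (N * Kc b N) ^ 2 := by
    simp only [QC, QQ_apply, range_one, sum_singleton, pow_zero, one_mul, hF0, Complex.one_re,
      Complex.one_im, mul_one, mul_zero, p1, Nat.sub_self, Kc_zero]
    rw [div_self (by positivity)]
    ring
  have r2 : (N * ‖coeff N F‖) ^ 2 ≤ QC (QQ b N N) (fun j => coeff N (w * (w ^ j * F))) := by
    simp only [QC, QQ_apply, Nat.sub_self, Wc, e, ← hre, ← him]
    rw [mul_pow, Complex.sq_norm, Complex.normSq_apply]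
    have := kap_nonneg b N N
    have a1 := mul_nonneg this (sum_nonneg (s := range N) fun j _ => sq_nonneg
      ((coeff N (w ^ (j + 1) * F)).re - Kc b (N - 1 - j) * (N * (coeff N F).re / (N * Kc b N))))
    have a2 := mul_nonneg this (sum_nonneg (s := range N) fun j _ => sq_nonneg
      ((coeff N (w ^ (j + 1) * F)).im - Kc b (N - 1 - j) * (N * (coeff N F).im / (N * Kc b N))))
    linarith
  rw [r1] at main
  have := (abs_le_of_sq_le_sq' (r2.trans main) (by positivity)).2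
  exact le_of_mul_le_mul_left this N0

end Pool.Agent.P.MP_bdc337_an.KR
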