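import Pool.Agent.P.MP_bdc337_an.KR.C
import Pool.Agent.P.MP_bdc337_an.UO.E

/-! The coefficients of the sector map and the link with the analytic class. -/

set_option autoImplicit false

open Finset PowerSeries Metric Filter Topology

namespace Pool.Agent.P.MP_bdc337_an.KR

/-- coefficients of the sector map -/
noncomputable def Bc (a : ℝ) : ℕ → ℝ
  | 0 => 1
  | 1 => 2 * a
  | k + 2 => (2 * a * Bc a (k + 1) + k * Bc a k) / (k + 2)

/-- the shifted coefficients -/
noncomputable def bs (a : ℝ) (j : ℕ) : ℝ := Bc a (j + 1)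

variable {a : ℝ}

lemma Bc_rec (a : ℝ) (k : ℕ) : ((k : ℝ) + 2) * Bc a (k + 2) = 2 * a * Bc a (k + 1) + k * Bc a k := by
  rw [Bc]
  field_simp

lemma bs_zero (a : ℝ) : bs a 0 = 2 * a := rfl

lemma bs_id0 (a : ℝ) : 2 * (bs a 0 - bs a 1) = 2 * (1 - a) * bs a 0 := by
  have := Bc_rec a 0
  simp only [bs] at *
  push_cast at this
  linarith

lemma bs_id (a : ℝ) (k : ℕ) : ((k : ℝ) + 3) * (bs a (k + 1) - bs a (k + 2))
    + (k + 1) * (bs a k - bs a (k + 1)) = 2 * (1 - a) * bs a (k + 1) := by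
  have := Bc_rec a (k + 1)
  simp only [bs] at *
  push_cast at this
  linarith

lemma bs_step (h0 : 1 / 2 ≤ a) (h1 : a ≤ 1) (k : ℕ) : 0 < bs a k ∧ 0 ≤ bs a k - bs a (k + 1) ∧
    ((k : ℝ) + 2) * (bs a k - bs a (k + 1)) ≤ 2 * (1 - a) * bs a k := by
  induction k with
  | zero =>
    have := bs_id0 a
    have p : 0 < bs a 0 := by rw [bs_zero]; linarith
    refine ⟨p, by nlinarith, ?_⟩
    push_cast
    linarith
  | succ k ih =>
    obtain ⟨i1, i2, i3⟩ := ih
    have e := bs_id a k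
    have k0 : (0 : ℝ) ≤ k := Nat.cast_nonneg k
    have p : 0 < bs a (k + 1) := by nlinarith
    refine ⟨p, ?_, ?_⟩
    · have q : ((k : ℝ) + 1) * (bs a k - bs a (k + 1)) ≤ 2 * (1 - a) * bs a (k + 1) := by
        apply le_of_mul_le_mul_left _ (show (0 : ℝ) < k + 2 by positivity)
        have q1 : ((k : ℝ) + 2) * (bs a k - bs a (k + 1)) ≤ bs a k := by nlinarith
        have q2 := mul_le_mul_of_nonneg_left i3 (show (0 : ℝ) ≤ k + 1 by positivity)
        have q3 := mul_le_mul_of_nonneg_left q1 (show 0 ≤ 2 * (1 - a) by linarith)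
        linarith
      apply nonneg_of_mul_nonneg_right _ (show (0 : ℝ) < k + 3 by positivity)
      linarith
    · push_cast
      nlinarith

lemma bs_le (h0 : 1 / 2 ≤ a) (h1 : a ≤ 1) (k : ℕ) : bs a k ≤ 2 * a := by
  induction k with
  | zero => exact le_rfl
  | succ k ih => linarith [(bs_step h0 h1 k).2.1]

lemma bs_drop (h0 : 1 / 2 ≤ a) (h1 : a ≤ 1) (m : ℕ) :
    2 * (bs a 0 - bs a m) + ((m : ℝ) + 2) / (m + 1) * (bs a m - bs a (m + 1))
      ≤ 4 * (1 - a) * harmonic (m + 1) := by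
  induction m with
  | zero =>
    have := bs_id0 a
    have := bs_le h0 h1 0
    simp only [sub_self, harmonic, zero_add, range_one, sum_singleton]
    push_cast
    nlinarith
  | succ m ih =>
    have e := bs_id a m
    have d := (bs_step h0 h1 m).2.1
    have u := bs_le h0 h1 (m + 1)
    have m0 : (0 : ℝ) ≤ m := Nat.cast_nonneg m
    rw [harmonic_succ]
    push_cast at ih ⊢
    have e1 : ((m : ℝ) + 1 + 2) / (m + 1 + 1) * (bs a (m + 1) - bs a (m + 1 + 1))
        = 2 * (1 - a) * bs a (m + 1) * ((m : ℝ) + 1 + 1)⁻¹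
          - (m + 1) / (m + 2) * (bs a m - bs a (m + 1)) := by
      rw [← e]
      field_simp
      ring
    have e2 : 2 ≤ ((m : ℝ) + 2) / (m + 1) + (m + 1) / (m + 2) := by
      rw [div_add_div _ _ (by positivity) (by positivity), le_div_iff₀ (by positivity)]
      nlinarith
    have e3 : 2 * (1 - a) * bs a (m + 1) * ((m : ℝ) + 1 + 1)⁻¹ ≤ 4 * (1 - a) * ((m : ℝ) + 1 + 1)⁻¹ :=
      mul_le_mul_of_nonneg_right (by nlinarith) (by positivity)
    rw [e1]
    nlinarith [mul_le_mul_of_nonneg_right e2 d]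

lemma hyp (h1 : a ≤ 1) {N : ℕ} (hN : 1 ≤ N) (h : (1 - a) * (2 + Real.log (N + 1)) ≤ 1 / 8) :
    Hyp (bs a) N := by
  have N1 : (1 : ℝ) ≤ N := by exact_mod_cast hN
  have l0 : 0 ≤ Real.log ((N : ℝ) + 1) := Real.log_nonneg (by linarith)
  have e0 : 1 - a ≤ 1 / 16 := by nlinarith
  have h0 : 1 / 2 ≤ a := by linarith
  refine ⟨fun j _ => by linarith [(bs_step h0 h1 j).2.1], by rw [bs_zero]; linarith,
    fun j hj => ?_, fun j _ => ?_⟩
  · have d1 := bs_drop h0 h1 j
    have d2 : 0 ≤ ((j : ℝ) + 2) / (j + 1) * (bs a j - bs a (j + 1)) :=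
      mul_nonneg (by positivity) (bs_step h0 h1 j).2.1
    have d3 := harmonic_le_one_add_log (j + 1)
    have d4 : Real.log ((j + 1 : ℕ) : ℝ) ≤ Real.log ((N : ℝ) + 1) :=
      Real.log_le_log (by positivity) (by exact_mod_cast (by omega : j + 1 ≤ N + 1))
    have d5 := mul_le_mul_of_nonneg_left (d3.trans (add_le_add_right d4 1))
      (show 0 ≤ 4 * (1 - a) by linarith)
    rw [bs_zero] at d1
    linarith
  · obtain ⟨i1, i2, i3⟩ := bs_step h0 h1 j
    have := bs_le h0 h1 j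
    nlinarith

lemma trunc_ode (a : ℝ) (w : ℂ⟦X⟧) (M : ℕ) :
    (1 - w ^ 2) * d⁄dX ℂ (∑ j ∈ range (M + 1), C (Bc a j : ℂ) * w ^ j)
      - C (2 * a : ℂ) * (∑ j ∈ range (M + 1), C (Bc a j : ℂ) * w ^ j) * d⁄dX ℂ w
      = -(w ^ M * (d⁄dX ℂ w *
        (C (((M : ℂ) + 1) * Bc a (M + 1)) + C ((M : ℂ) * Bc a M) * w))) := by
  induction M with
  | zero => simp [Bc, mul_comm]
  | succ M ih =>
    have r : (C ((((M + 1 : ℕ) : ℂ) + 1) * Bc a (M + 1 + 1)) : ℂ⟦X⟧)
        = C (2 * a : ℂ) * C (Bc a (M + 1) : ℂ) + C ((M : ℂ) * Bc a M) := by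
      rw [← map_mul, ← map_add]
      congr 1
      have := congrArg Complex.ofReal (Bc_rec a M)
      push_cast at this ⊢
      linear_combination this
    have d : d⁄dX ℂ (C (Bc a (M + 1) : ℂ) * w ^ (M + 1))
        = C (((M : ℂ) + 1) * Bc a (M + 1)) * w ^ M * d⁄dX ℂ w := by
      rw [Derivation.leibniz, derivative_C, Derivation.leibniz_pow, map_mul, map_add, map_natCast,
        map_one]
      simp only [smul_eq_mul, nsmul_eq_mul, Nat.add_sub_cancel]
      push_cast
      ring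
    rw [sum_range_succ, map_add, d, r]
    push_cast
    linear_combination ih

lemma trunc_unique {w c D E : ℂ⟦X⟧} (h0 : coeff 0 w = 0) (hD0 : coeff 0 D = 0) {M : ℕ}
    (h : (1 - w ^ 2) * d⁄dX ℂ D = c * D + w ^ M * E) : ∀ n, n ≤ M → coeff n D = 0 := by
  intro n
  induction n using Nat.strong_induction_on with
  | _ n ih =>
    intro hn
    rcases n with _ | n
    · exact hD0
    · have h1 := congrArg (coeff n) h
      have h2 : coeff n (c * D) = 0 := coeff_mul_eq_zero fun j hj => ih j (by omega) (by omega)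
      have h3 : coeff n (w * (w * d⁄dX ℂ D)) = 0 := by
        rw [coeff_conv h0 _ (le_refl n)]
        apply Finset.sum_eq_zero
        intro j hj
        have hj' := Finset.mem_range.1 hj
        rw [coeff_mul_eq_zero, mul_zero]
        intro i hi
        rw [coeff_derivative, ih (i + 1) (by omega) (by omega), zero_mul]
      rw [map_add, h2, coeff_pow_mul h0 E M n (by omega), add_zero, sub_mul, one_mul, map_sub,
        pow_two, mul_assoc, h3, sub_zero, coeff_derivative] at h1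
      have h4 : ((n : ℂ) + 1) ≠ 0 := by exact_mod_cast Nat.succ_ne_zero n
      exact (mul_eq_zero.1 h1).resolve_right h4

lemma expand {w p : ℂ⟦X⟧} (h0 : coeff 0 w = 0) (p0 : coeff 0 p = 1)
    (h : (1 - w ^ 2) * d⁄dX ℂ p = C (2 * a : ℂ) * p * d⁄dX ℂ w) (F : ℂ⟦X⟧) (n : ℕ) :
    coeff n ((p - 1) * F) = ∑ j ∈ range n, (bs a j : ℂ) * coeff n (w ^ (j + 1) * F) := by
  have t := trunc_ode a w n
  set H := ∑ j ∈ range (n + 1), C (Bc a j : ℂ) * w ^ j with hH
  have e : H = ∑ j ∈ range n, C (bs a j : ℂ) * w ^ (j + 1) + 1 := by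
    rw [hH, Finset.sum_range_succ']
    simp [Bc, bs]
  have z := trunc_unique (c := C (2 * a : ℂ) * d⁄dX ℂ w) (D := p - H) (M := n)
    (E := d⁄dX ℂ w * (C (((n : ℂ) + 1) * Bc a (n + 1)) + C ((n : ℂ) * Bc a n) * w)) h0
    (by
      rw [map_sub, p0, e, map_add, map_sum, Finset.sum_eq_zero fun j _ => by
        rw [coeff_C_mul, pow_succ', coeff_zero_mul_left h0, mul_zero]]
      simp)
    (by rw [map_sub]; linear_combination h - t)
  have e2 : (p - 1) * F = F * (p - H) + ∑ j ∈ range n, C (bs a j : ℂ) * (w ^ (j + 1) * F) := by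
    simp only [← mul_assoc, ← Finset.sum_mul]
    rw [e]
    ring
  rw [e2, map_add, coeff_mul_eq_zero z, zero_add, map_sum]
  simp only [coeff_C_mul]

variable {q H G : ℂ → ℂ}

lemma schwarz (h : UO.Dat a q H G) : ∃ w : ℂ⟦X⟧, Contr w ∧
    (1 - w ^ 2) * d⁄dX ℂ (tay q) = C (2 * a : ℂ) * tay q * d⁄dX ℂ w := by
  have h0 := h.a0
  have hnb : ball (0 : ℂ) 1 ∈ 𝓝 (0 : ℂ) := ball_mem_nhds 0 one_pos
  have ha : (a : ℂ) ≠ 0 := by exact_mod_cast h0.ne'
  have hPne : ∀ z ∈ ball (0 : ℂ) 1, q z ≠ 0 := fun z hz e => by simpa [e] using h.re z hz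
  set E : ℂ → ℂ := fun z => Complex.exp (Complex.log (q z) / a) with hEdef
  have hEre : ∀ z ∈ ball (0 : ℂ) 1, 0 < (E z).re := by
    intro z hz
    simp only [hEdef, Complex.exp_re, Complex.div_ofReal_im, Complex.log_im]
    apply mul_pos (Real.exp_pos _)
    have := abs_lt.1 (h.arg z hz)
    apply Real.cos_pos_of_mem_Ioo
    constructor
    · rw [lt_div_iff₀ h0]
      linarith [this.1]
    · rw [div_lt_iff₀ h0]
      linarith [this.2]
  have hE1 : ∀ z ∈ ball (0 : ℂ) 1, E z + 1 ≠ 0 := fun z hz => by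
    simpa using UO.add_conj_ne (v := 1) (hEre z hz) (by simp)
  have hPder : ∀ z ∈ ball (0 : ℂ) 1, HasDerivAt q (deriv q z) z := fun z hz =>
    (h.qd.differentiableAt (isOpen_ball.mem_nhds hz)).hasDerivAt
  have hEder : ∀ z ∈ ball (0 : ℂ) 1, HasDerivAt E (E z * (deriv q z / q z / a)) z := fun z hz =>
    (((hPder z hz).clog (Or.inl (h.re z hz))).div_const (a : ℂ)).cexp
  set w : ℂ → ℂ := fun z => (E z - 1) / (E z + 1) with hwdef
  have hwder : ∀ z ∈ ball (0 : ℂ) 1,
      HasDerivAt w (2 * (E z * (deriv q z / q z / a)) / (E z + 1) ^ 2) z := by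
    intro z hz
    have := ((hEder z hz).sub_const 1).fun_div ((hEder z hz).add_const 1) (hE1 z hz)
    refine this.congr_deriv ?_
    ring
  have hwd : DifferentiableOn ℂ w (ball 0 1) := fun z hz =>
    (hwder z hz).differentiableAt.differentiableWithinAt
  have hw0 : w 0 = 0 := by simp [hwdef, hEdef, h.q0]
  have hwb : ∀ z ∈ ball (0 : ℂ) 1, ‖w z‖ ≤ 1 := by
    intro z hz
    simp only [hwdef, norm_div]
    rw [div_le_one (norm_pos_iff.2 (hE1 z hz))]
    simpa using UO.norm_sub_le_add (v := 1) (hEre z hz) (by simp)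
  have aw : AnalyticAt ℂ w 0 := hwd.analyticAt hnb
  have aP : AnalyticAt ℂ q 0 := h.qd.analyticAt hnb
  have ode : (fun z => (1 - w z * w z) * deriv q z) =ᶠ[𝓝 0]
      fun z => (2 * a : ℂ) * (q z * deriv w z) := by
    filter_upwards [hnb] with z hz
    rw [(hwder z hz).deriv]
    have e1 := hE1 z hz
    have e2 := hPne z hz
    simp only [hwdef]
    field_simp
    ring
  have t1 := tay_congr ode
  rw [tay_mul (analyticAt_const.fun_sub (aw.fun_mul aw)) aP.deriv,
    tay_sub analyticAt_const (aw.fun_mul aw), tay_mul aw aw, tay_const,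
    tay_const_mul _ (aP.fun_mul aw.deriv), tay_mul aP aw.deriv, tay_deriv, tay_deriv,
    map_one] at t1
  exact ⟨tay w, contr_tay hwd hw0 hwb, by linear_combination t1⟩

lemma coeff_f (h : UO.Dat a q H G) (N : ℕ) :
    coeff (N + 1) (tay fun z => z * Complex.exp (G z)) = coeff N (tay fun z => Complex.exp (G z)) := by
  rw [tay_mul (f := fun z => z) analyticAt_id
    (h.Gdiff.cexp.analyticAt (ball_mem_nhds 0 one_pos)), tay_id, coeff_succ_X_mul]

theorem upperK (h : UO.Dat a q H G) {N : ℕ} (hN : 1 ≤ N) (hb : Hyp (bs a) N) :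
    ‖coeff (N + 1) (tay fun z => z * Complex.exp (G z))‖ ≤ Kc (bs a) N := by
  obtain ⟨w, hw, ode⟩ := schwarz h
  rw [coeff_f h]
  refine hb.core hN hw (by rw [coeff_zero_tay, h.G0, Complex.exp_zero]) fun n => ?_
  rw [← coeff_X_mul_deriv, h.euler, expand hw.1 (by rw [coeff_zero_tay, h.q0]) ode]

/-- the sector map -/
noncomputable def qK (a : ℝ) (z : ℂ) : ℂ := Complex.exp (a * Complex.log ((1 + z) / (1 - z)))

lemma den_ne {z : ℂ} (hz : z ∈ ball (0 : ℂ) 1) : 1 - z ≠ 0 ∧ 1 + z ≠ 0 := by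
  have l := mem_ball_zero_iff.1 hz
  constructor
  · intro h
    rw [← sub_eq_zero.1 h, norm_one] at l
    exact lt_irrefl _ l
  · intro h
    rw [eq_neg_of_add_eq_zero_right h, norm_neg, norm_one] at l
    exact lt_irrefl _ l

lemma cay_re {z : ℂ} (hz : z ∈ ball (0 : ℂ) 1) : 0 < ((1 + z) / (1 - z)).re := by
  have l := mem_ball_zero_iff.1 hz
  have l2 : ‖z‖ ^ 2 < 1 := by nlinarith [norm_nonneg z]
  rw [Complex.sq_norm, Complex.normSq_apply] at l2
  rw [Complex.div_re, ← add_div]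
  apply div_pos _ (Complex.normSq_pos.2 (den_ne hz).1)
  simp only [Complex.add_re, Complex.one_re, Complex.sub_re, Complex.add_im, Complex.one_im,
    Complex.sub_im]
  nlinarith

lemma qK_deriv (a : ℝ) {z : ℂ} (hz : z ∈ ball (0 : ℂ) 1) :
    HasDerivAt (qK a) (qK a z * (a * (2 / (1 - z) ^ 2 / ((1 + z) / (1 - z))))) z := by
  have l : HasDerivAt (fun z : ℂ => (1 + z) / (1 - z)) (2 / (1 - z) ^ 2) z := by
    refine (((hasDerivAt_id' z).const_add 1).fun_div ((hasDerivAt_id' z).const_sub 1)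
      (den_ne hz).1).congr_deriv ?_
    ring
  exact ((l.clog (Or.inl (cay_re hz))).const_mul (a : ℂ)).cexp

lemma datK (h0 : 0 < a) (h1 : a < 1) : ∃ H G, UO.Dat a (qK a) H G := by
  refine UO.mk_dat h0 h1 (fun z hz => (qK_deriv a hz).differentiableAt.differentiableWithinAt)
    (by simp [qK]) fun z hz => ?_
  refine UO.room (g := 0) h0 h1 (cay_re hz) ?_ |>.imp (by simp [qK]) (by simp [qK])
  have : (1 + z) / (1 - z) ≠ 0 := div_ne_zero (den_ne hz).2 (den_ne hz).1
  have := cay_re hz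
  rw [norm_zero]
  positivity

lemma qK_ode (h : UO.Dat a (qK a) H G) :
    (1 - X ^ 2) * d⁄dX ℂ (tay (qK a)) = C (2 * a : ℂ) * tay (qK a) * d⁄dX ℂ (X : ℂ⟦X⟧) := by
  have hnb : ball (0 : ℂ) 1 ∈ 𝓝 (0 : ℂ) := ball_mem_nhds 0 one_pos
  have aP : AnalyticAt ℂ (qK a) 0 := h.qd.analyticAt hnb
  have aP' := aP.deriv
  have ode : (fun z => (1 - z ^ 2) * deriv (qK a) z) =ᶠ[𝓝 0] fun z => (2 * a : ℂ) * qK a z := by
    filter_upwards [hnb] with z hz
    rw [(qK_deriv a hz).deriv]
    obtain ⟨e1, e2⟩ := den_ne hz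
    field_simp
    ring
  have t1 := tay_congr ode
  rw [tay_mul (by fun_prop) aP', tay_sub analyticAt_const (by fun_prop), tay_const, tay_pow,
    tay_const_mul _ aP, tay_deriv, map_one] at t1
  rw [derivative_X, mul_one, t1]

lemma coeffK (h : UO.Dat a (qK a) H G) (n : ℕ) :
    coeff n (tay fun z => Complex.exp (G z)) = Kc (bs a) n := by
  induction n using Nat.strong_induction_on with
  | _ n ih =>
    rcases n with _ | n
    · rw [coeff_zero_tay, h.G0, Complex.exp_zero, Kc_zero, Complex.ofReal_one]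
    · have e := congrArg (coeff (n + 1)) h.euler
      rw [coeff_X_mul_deriv, expand (by simp) (by rw [coeff_zero_tay, h.q0]) (qK_ode h)] at e
      have e2 := congrArg Complex.ofReal (Kc_succ (bs a) n)
      push_cast at e e2
      apply mul_left_cancel₀ (Nat.cast_add_one_ne_zero n)
      rw [e, e2]
      refine Finset.sum_congr rfl fun j hj => ?_
      have := mem_range.1 hj
      rw [coeff_X_pow_mul', if_pos (by omega), ih _ (by omega), show n + 1 - (j + 1) = n - j by omega]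

end Pool.Agent.P.MP_bdc337_an.KR
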