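import Pool.Agent.P.MP_bdc337_an.KR.D

/-! The Koebe type function is not extremal for large `n`. -/

set_option autoImplicit false

open Finset PowerSeries Metric Filter Topology Real
open scoped ComplexOrder

namespace Pool.Agent.P.MP_bdc337_an.KR

variable {a : ℝ}

lemma odd_pow (h0 : 0 < a) (h1 : a < 1) {x : ℝ} (x0 : 0 ≤ x) (x1 : x < 1) :
    2 * a * x ≤ (1 + x) ^ a - (1 - x) ^ a := by
  have hd : ∀ y, 0 ≤ y → y < 1 → HasDerivAt (fun y : ℝ => (1 + y) ^ a - (1 - y) ^ a - 2 * a * y)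
      (a * ((1 + y) ^ (a - 1) + (1 - y) ^ (a - 1) - 2)) y := fun y y0 y1 => by
    have l1 := ((hasDerivAt_id' y).const_add 1).rpow_const (p := a) (Or.inl (by linarith))
    have l2 := ((hasDerivAt_id' y).const_sub 1).rpow_const (p := a) (Or.inl (by linarith))
    refine ((l1.sub l2).sub ((hasDerivAt_id' y).const_mul (2 * a))).congr_deriv ?_
    ring
  have key := UO.mono_of_deriv (f := fun y : ℝ => (1 + y) ^ a - (1 - y) ^ a - 2 * a * y) x0
    (fun y hy => (hd y hy.1 (hy.2.trans_lt x1)).continuousAt.continuousWithinAt)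
    (fun y hy => hd y hy.1.le (hy.2.trans x1)) fun y hy => by
      have y0 := hy.1
      have y1 := hy.2.trans x1
      have u0 : 0 < (1 + y) ^ (a - 1) := by positivity
      have v0 : 0 < (1 - y) ^ (a - 1) := rpow_pos_of_pos (by linarith) _
      have uv : 1 ≤ (1 + y) ^ (a - 1) * (1 - y) ^ (a - 1) := by
        rw [← mul_rpow (by linarith) (by linarith)]
        exact one_le_rpow_of_pos_of_le_one_of_nonpos (by nlinarith) (by nlinarith) (by linarith)
      apply mul_nonneg h0.le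
      by_contra hc
      nlinarith [sq_nonneg ((1 + y) ^ (a - 1) - (1 - y) ^ (a - 1))]
  simp only [add_zero, sub_zero, one_rpow, mul_zero, sub_self] at key
  linarith

lemma Bc_nonneg (h0 : 0 < a) (k : ℕ) : 0 ≤ Bc a k ∧ 0 ≤ Bc a (k + 1) := by
  induction k with
  | zero => exact ⟨zero_le_one, by rw [Bc]; positivity⟩
  | succ k ih =>
    obtain ⟨i1, i2⟩ := ih
    exact ⟨i2, by rw [Bc]; positivity⟩

lemma Bc_le (h0 : 0 < a) (h1 : a < 1) (k : ℕ) :
    ((k : ℝ) + 1) * Bc a (k + 1) ≤ 2 * a * ((k : ℝ) + 1) ^ a ∧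
      ((k : ℝ) + 2) * Bc a (k + 2) ≤ 2 * a * ((k : ℝ) + 2) ^ a := by
  induction k with
  | zero =>
    refine ⟨by simp [Bc], ?_⟩
    have e := Bc_rec a 0
    have e2 : (2 : ℝ) ^ a = 2 * exp (log 2 * (a - 1)) := by
      rw [← rpow_def_of_pos two_pos, rpow_sub_one two_ne_zero]
      ring
    have e3 := add_one_le_exp (log 2 * (a - 1))
    have e4 := log_two_lt_d9
    have e5 : a ≤ exp (log 2 * (a - 1)) := by nlinarith
    simp only [Nat.cast_zero, zero_add, zero_mul, add_zero] at e ⊢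
    rw [e, e2, show Bc a 1 = 2 * a from rfl]
    nlinarith
  | succ k ih =>
    obtain ⟨i1, i2⟩ := ih
    have k0 : (0 : ℝ) ≤ k := Nat.cast_nonneg k
    push_cast
    refine ⟨by rw [add_assoc, one_add_one_eq_two]; exact i2, ?_⟩
    have e := Bc_rec a (k + 1)
    push_cast at e
    have o := odd_pow h0 h1 (x := 1 / ((k : ℝ) + 2)) (by positivity)
      (by rw [div_lt_one (by positivity)]; linarith)
    have p : 0 < ((k : ℝ) + 2) ^ a := by positivity
    have e1 : ((k : ℝ) + 1 + 2) ^ a = ((k : ℝ) + 2) ^ a * (1 + 1 / ((k : ℝ) + 2)) ^ a := by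
      rw [← mul_rpow (by positivity) (by positivity)]
      congr 1
      field_simp
      ring
    have e2 : ((k : ℝ) + 1) ^ a = ((k : ℝ) + 2) ^ a * (1 - 1 / ((k : ℝ) + 2)) ^ a := by
      rw [← mul_rpow (by positivity)
        (sub_nonneg.2 (by rw [div_le_one (by positivity)]; linarith))]
      congr 1
      field_simp
      ring
    have e3 : Bc a (k + 1 + 1) ≤ 2 * a * (1 / ((k : ℝ) + 2)) * ((k : ℝ) + 2) ^ a := by
      rw [mul_right_comm, mul_one_div, le_div_iff₀ (by positivity)]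
      linarith
    have e4 := mul_le_mul_of_nonneg_right o p.le
    rw [e, e1]
    rw [e2] at i1
    nlinarith

lemma bs_sum (h0 : 0 < a) (h1 : a < 1) (m : ℕ) :
    ∑ j ∈ range m, bs a j ≤ 2 * ((m : ℝ) + 1) ^ a := by
  have e : 2 * a * ∑ j ∈ range m, bs a j + 2 * a = (m + 1) * Bc a (m + 1) + m * Bc a m := by
    induction m with
    | zero => simp [Bc]
    | succ m ih =>
      have := Bc_rec a m
      rw [sum_range_succ, bs]
      push_cast
      linarith
  have e1 := (Bc_le h0 h1 m).1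
  have e2 : m * Bc a m ≤ 2 * a * ((m : ℝ) + 1) ^ a := by
    rcases m with _ | m
    · simp [h0.le]
    · have := (Bc_le h0 h1 m).1
      push_cast
      refine this.trans (mul_le_mul_of_nonneg_left ?_ (by positivity))
      exact rpow_le_rpow (by positivity) (by linarith) h0.le
  apply le_of_mul_le_mul_left _ (show 0 < 2 * a by positivity)
  linarith

lemma bs_pow (h0 : 0 < a) (h1 : a < 1) (j : ℕ) : bs a j ≤ 2 * a * ((j : ℝ) + 1) ^ (-(1 - a)) := by
  have e := (Bc_le h0 h1 j).1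
  rw [neg_sub, rpow_sub_one (by positivity), ← mul_div_assoc, le_div_iff₀ (by positivity), bs]
  linarith

lemma Kc_nonneg (h0 : 0 < a) (n : ℕ) : 0 ≤ Kc (bs a) n := by
  induction n using Nat.strong_induction_on with
  | _ n ih =>
    rcases n with _ | n
    · rw [Kc_zero]; exact zero_le_one
    · have := Kc_succ (bs a) n
      have p : 0 ≤ ∑ j ∈ range (n + 1), bs a j * Kc (bs a) (n - j) :=
        sum_nonneg fun j _ => mul_nonneg (Bc_nonneg h0 j).2 (ih _ (by omega))
      rw [← this] at p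
      exact nonneg_of_mul_nonneg_right p (by positivity)

lemma Kc_le (h0 : 0 < a) (h1 : a < 1) {N : ℕ} (hN : 3 ≤ N) :
    N * Kc (bs a) N ≤ 20 * a * ((N : ℝ) + 1) ^ (-(1 - a)) * ∑ i ∈ range N, Kc (bs a) i := by
  set S := ∑ i ∈ range N, Kc (bs a) i with hS
  set y := ((N : ℝ) + 1) ^ (-(1 - a)) with hy
  have N3 : (3 : ℝ) ≤ N := by exact_mod_cast hN
  have y0 : 0 < y := by positivity
  have S0 : 0 ≤ S := sum_nonneg fun i _ => Kc_nonneg h0 i
  have c1 : ∀ i, i ≤ N → i * Kc (bs a) i ≤ 2 * a * S := fun i hi => by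
    rw [Kc_eq]
    calc ∑ j ∈ range i, bs a j * Kc (bs a) (i - 1 - j)
        ≤ ∑ j ∈ range i, 2 * a * Kc (bs a) (i - 1 - j) := sum_le_sum fun j _ =>
          mul_le_mul_of_nonneg_right ((bs_pow h0 h1 j).trans (mul_le_of_le_one_right
            (by positivity) (rpow_le_one_of_one_le_of_nonpos (by simp) (by linarith))))
            (Kc_nonneg h0 _)
      _ = 2 * a * ∑ j ∈ range i, Kc (bs a) j := by rw [← mul_sum, sum_range_reflect]
      _ ≤ 2 * a * S := mul_le_mul_of_nonneg_left (sum_le_sum_of_subset_of_nonneg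
          (range_subset_range.2 hi) fun i _ _ => Kc_nonneg h0 i) (by positivity)
  have c2 : ∀ j ∈ range N, bs a j * Kc (bs a) (N - 1 - j)
      ≤ 4 * a * y * Kc (bs a) (N - 1 - j) + 8 * a * S / (N + 1) * bs a j := fun j hj => by
    have hj' := mem_range.1 hj
    have k0 := Kc_nonneg h0 (N - 1 - j)
    have b0 : 0 ≤ bs a j := (Bc_nonneg h0 j).2
    rcases le_or_gt (N + 1) (2 * (j + 1)) with h | h
    · have h' : ((N : ℝ) + 1) / 2 ≤ j + 1 := by
        rw [div_le_iff₀' two_pos]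
        exact_mod_cast h
      have d1 : ((j : ℝ) + 1) ^ (-(1 - a)) ≤ 2 * y := by
        refine (rpow_le_rpow_of_nonpos (by positivity) h' (by linarith)).trans ?_
        rw [div_rpow (by positivity) two_pos.le, ← hy, div_le_iff₀ (by positivity), mul_right_comm]
        refine le_mul_of_one_le_left y0.le ?_
        rw [← rpow_one_add' two_pos.le (by linarith)]
        exact one_le_rpow one_le_two (by linarith)
      have d2 : bs a j ≤ 4 * a * y := by nlinarith [bs_pow h0 h1 j]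
      have d3 : 0 ≤ 8 * a * S / (N + 1) * bs a j := by positivity
      linarith [mul_le_mul_of_nonneg_right d2 k0]
    · have h' : (N : ℝ) + 1 ≤ 4 * (N - 1 - j : ℕ) := by exact_mod_cast (by omega)
      have d1 := c1 (N - 1 - j) (by omega)
      have d2 : Kc (bs a) (N - 1 - j) ≤ 8 * a * S / (N + 1) := by
        rw [le_div_iff₀ (by positivity)]
        nlinarith
      have d3 : 0 ≤ 4 * a * y * Kc (bs a) (N - 1 - j) := by positivity
      linarith [mul_le_mul_of_nonneg_left d2 b0]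
  have c3 := sum_le_sum c2
  rw [← Kc_eq, sum_add_distrib, ← mul_sum, ← mul_sum, sum_range_reflect, ← hS] at c3
  have c4 := mul_le_mul_of_nonneg_left (bs_sum h0 h1 N)
    (show 0 ≤ 8 * a * S / (N + 1) by positivity)
  have c5 : 8 * a * S / (N + 1) * (2 * ((N : ℝ) + 1) ^ a) = 16 * a * y * S := by
    rw [hy, neg_sub, rpow_sub_one (by positivity)]
    field_simp
    ring
  linarith

variable {H G : ℂ → ℂ}

lemma sum_le (h : UO.Dat a (qK a) H G) {N : ℕ} (hN : 1 ≤ N) :
    ∑ i ∈ range N, Kc (bs a) i ≤ 6 * exp (UO.Lf (1 - a) (1 / ((N + 1 : ℕ) : ℝ))) := by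
  have n2 : (2 : ℝ) ≤ ((N + 1 : ℕ) : ℝ) := by exact_mod_cast (by omega : 2 ≤ N + 1)
  have p := UO.rad_pow (n := N + 1) (by omega)
  have ni : 1 / ((N + 1 : ℕ) : ℝ) ≤ 1 / 2 := one_div_le_one_div_of_le two_pos n2
  have ni0 : 0 < 1 / ((N + 1 : ℕ) : ℝ) := by positivity
  set r := 1 - 1 / ((N + 1 : ℕ) : ℝ) with hr
  have r0 : 0 ≤ r := by linarith
  have r1 : r < 1 := by linarith
  have s := h.hasSum (fun k => by
    rw [coeffK h]; exact Complex.zero_le_real.2 (Kc_nonneg h.a0 k)) r0 r1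
  simp only [coeffK h, Complex.ofReal_re] at s
  have s1 := sum_le_hasSum (range N) (fun i _ => mul_nonneg (pow_nonneg r0 i) (Kc_nonneg h.a0 i)) s
  have g := h.growth (x := 1) norm_one le_rfl r0 r1
  rw [mul_one, mul_one, Complex.ofReal_zero, h.G0, Complex.zero_re, sub_zero, sub_zero, UO.Lf_one,
    sub_zero, hr, sub_sub_cancel, ← hr] at g
  have s2 : ∑ i ∈ range N, 1 / 6 * Kc (bs a) i ≤ ∑ i ∈ range N, r ^ i * Kc (bs a) i :=
    sum_le_sum fun i hi => mul_le_mul_of_nonneg_right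
      (p.trans (pow_le_pow_of_le_one r0 r1.le (by have := mem_range.1 hi; omega)))
      (Kc_nonneg h.a0 i)
  rw [← mul_sum] at s2
  linarith [exp_le_exp.2 g]

theorem notK (h : UO.Dat a (qK a) H G) {N : ℕ}
    (hC : 960000000 * exp (2 * log 2 + 2) ≤ (1 - a) * ((N + 1 : ℕ) : ℝ) ^ (1 - a)) :
    ∃ q' H' G' : ℂ → ℂ, UO.Dat a q' H' G' ∧
      Kc (bs a) N < ‖coeff (N + 1) (tay fun z => z * Complex.exp (G' z))‖ := by
  have h0 := h.a0
  have h1 := h.a1
  have n1 : (1 : ℝ) ≤ ((N + 1 : ℕ) : ℝ) := by exact_mod_cast (by omega : 1 ≤ N + 1)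
  have K1 : 1 ≤ exp (2 * log 2 + 2) := one_le_exp (by positivity)
  have p1 : ((N + 1 : ℕ) : ℝ) ^ (1 - a) ≤ ((N + 1 : ℕ) : ℝ) := by
    simpa using rpow_le_rpow_of_exponent_le n1 (show 1 - a ≤ 1 by linarith)
  have p0 : 0 < ((N + 1 : ℕ) : ℝ) ^ (1 - a) := by positivity
  have N3 : 3 ≤ N := by
    have : (4 : ℝ) ≤ ((N + 1 : ℕ) : ℝ) := by nlinarith
    have : 4 ≤ N + 1 := by exact_mod_cast this
    omega
  obtain ⟨q', H', G', hD, hl⟩ := UO.lower_fin h0 h1 (n := N + 1) (by omega)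
  refine ⟨q', H', G', hD, ?_⟩
  have k1 := Kc_le h0 h1 N3
  have k2 := sum_le h (N := N) (by omega)
  have k0 := Kc_nonneg h0 N
  have yp : ((N + 1 : ℕ) : ℝ) ^ (-(1 - a)) * ((N + 1 : ℕ) : ℝ) ^ (1 - a) = 1 := by
    rw [rpow_neg (by positivity), inv_mul_cancel₀ p0.ne']
  push_cast at *
  set y := ((N : ℝ) + 1) ^ (-(1 - a))
  set E := exp (UO.Lf (1 - a) (1 / ((N : ℝ) + 1)))
  set K := exp (2 * log 2 + 2)
  have y0 : 0 < y := by positivity
  have E0 : 0 < E := exp_pos _
  have N3' : (3 : ℝ) ≤ N := by exact_mod_cast N3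
  have e1 : 960000000 * K * y ≤ 1 - a := by
    nlinarith [mul_le_mul_of_nonneg_right hC y0.le]
  have e2 : ((N : ℝ) + 1) * Kc (bs a) N ≤ 240 * a * y * E := by
    nlinarith [mul_le_mul_of_nonneg_left k2 (show 0 ≤ 20 * a * y by positivity)]
  have e3 : 4000000 * K * Kc (bs a) N < a / (N + 1) * ((1 - a) + y) * E := by
    rw [div_mul_eq_mul_div, div_mul_eq_mul_div, lt_div_iff₀ (by positivity)]
    have f1 := mul_le_mul_of_nonneg_left e2 (show 0 ≤ 4000000 * K by positivity)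
    have f2 := mul_le_mul_of_nonneg_left e1 (show 0 ≤ a * E by positivity)
    have f3 : 0 < a * y * E := by positivity
    linarith
  exact lt_of_mul_lt_mul_left (e3.trans_le hl) (by positivity)

end Pool.Agent.P.MP_bdc337_an.KR
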