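import Pool.Agent.P.MP_bdc337_an.KR.E

/-! A moment functional, its seminorm, and polynomials built from a source sequence. -/

set_option autoImplicit false

open Finset Polynomial

namespace Pool.Agent.P.MP_bdc337_an.KR

/-- the seminorm of a functional -/
noncomputable def nr (L : ℝ[X] →ₗ[ℝ] ℝ) (p : ℝ[X]) : ℝ := Real.sqrt (L (p * p))

/-- nonnegative on squares -/
def Psd (L : ℝ[X] →ₗ[ℝ] ℝ) : Prop := ∀ p, 0 ≤ L (p * p)

variable {L : ℝ[X] →ₗ[ℝ] ℝ}

lemma nr_nonneg (L : ℝ[X] →ₗ[ℝ] ℝ) (p : ℝ[X]) : 0 ≤ nr L p := Real.sqrt_nonneg _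

lemma L_C_mul (L : ℝ[X] →ₗ[ℝ] ℝ) (c : ℝ) (p : ℝ[X]) : L (C c * p) = c * L p := by
  rw [← smul_eq_C_mul, map_smul, smul_eq_mul]

lemma Psd.sq (h : Psd L) (p : ℝ[X]) : nr L p ^ 2 = L (p * p) := Real.sq_sqrt (h p)

lemma Psd.cs (h : Psd L) (p q : ℝ[X]) : |L (p * q)| ≤ nr L p * nr L q := by
  have d := discrim_le_zero (a := L (p * p)) (b := 2 * L (p * q)) (c := L (q * q)) fun x => by
    have := h (C x * p + q)
    have e : (C x * p + q) * (C x * p + q)
        = C x * (C x * (p * p)) + C x * (C 2 * (p * q)) + q * q := by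
      rw [show (C 2 : ℝ[X]) = 2 from rfl]
      ring
    rw [e, map_add, map_add, L_C_mul, L_C_mul, L_C_mul, L_C_mul] at this
    linarith
  rw [discrim, ← h.sq, ← h.sq] at d
  apply abs_le_of_sq_le_sq' _ (mul_nonneg (nr_nonneg L p) (nr_nonneg L q)) |> abs_le.2
  linarith

lemma Psd.add (h : Psd L) (p q : ℝ[X]) : nr L (p + q) ≤ nr L p + nr L q := by
  apply abs_le_of_sq_le_sq' _ (add_nonneg (nr_nonneg L p) (nr_nonneg L q)) |>.2
  have e : (p + q) * (p + q) = p * p + p * q + p * q + q * q := by ring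
  rw [h.sq, e, map_add, map_add, map_add, ← h.sq, ← h.sq]
  linarith [le_abs_self (L (p * q)), h.cs p q]

lemma nr_C_mul (L : ℝ[X] →ₗ[ℝ] ℝ) (c : ℝ) (p : ℝ[X]) : nr L (C c * p) = |c| * nr L p := by
  have e : C c * p * (C c * p) = C (c ^ 2) * (p * p) := by rw [map_pow]; ring
  rw [nr, e, L_C_mul, Real.sqrt_mul (sq_nonneg c), Real.sqrt_sq_eq_abs, nr]

lemma nr_neg (L : ℝ[X] →ₗ[ℝ] ℝ) (p : ℝ[X]) : nr L (-p) = nr L p := by
  rw [nr, neg_mul_neg, nr]

lemma nr_zero (L : ℝ[X] →ₗ[ℝ] ℝ) : nr L 0 = 0 := by simp [nr]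

lemma Psd.sub (h : Psd L) (p q : ℝ[X]) : nr L (p - q) ≤ nr L p + nr L q := by
  rw [sub_eq_add_neg, ← nr_neg L q]
  exact h.add _ _

lemma Psd.sum (h : Psd L) (s : Finset ℕ) (f : ℕ → ℝ[X]) :
    nr L (∑ i ∈ s, f i) ≤ ∑ i ∈ s, nr L (f i) := by
  induction s using Finset.induction_on with
  | empty => simp [nr_zero]
  | insert i s hi ih =>
    rw [sum_insert hi, sum_insert hi]
    exact (h.add _ _).trans (by linarith)

/-- the polynomial with sources `c` at time `l` -/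
noncomputable def V (c : ℕ → ℝ) : ℕ → ℝ[X]
  | 0 => 0
  | l + 1 => X * V c l + C (c l)

/-- partial sums -/
noncomputable def S (c : ℕ → ℝ) (l : ℕ) : ℝ := ∑ i ∈ range l, c i

lemma S_succ (c : ℕ → ℝ) (l : ℕ) : S c (l + 1) = S c l + c l := sum_range_succ _ _

lemma S_zero (c : ℕ → ℝ) : S c 0 = 0 := rfl

lemma V_eq (c : ℕ → ℝ) (l : ℕ) : V c l = ∑ i ∈ range l, C (c (l - 1 - i)) * X ^ i := by
  induction l with
  | zero => rfl
  | succ l ih =>
    rw [V, ih, sum_range_succ', mul_sum]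
    congr 1
    · refine sum_congr rfl fun i _ => ?_
      rw [show l + 1 - 1 - (i + 1) = l - 1 - i by omega]
      ring
    · simp

lemma V_add (c d : ℕ → ℝ) (l : ℕ) : V (fun i => c i + d i) l = V c l + V d l := by
  induction l with
  | zero => simp [V]
  | succ l ih => rw [V, V, V, ih, map_add]; ring

lemma S_add (c d : ℕ → ℝ) (l : ℕ) : S (fun i => c i + d i) l = S c l + S d l := sum_add_distrib

lemma V_split (c : ℕ → ℝ) (k m : ℕ) :
    V c (k + m) = X ^ m * V c k + ∑ i ∈ range m, C (c (k + m - 1 - i)) * X ^ i := by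
  induction m with
  | zero => simp
  | succ m ih =>
    rw [← add_assoc, V, ih, sum_range_succ', mul_add, mul_sum, add_assoc]
    congr 1
    · ring
    · congr 1
      · refine sum_congr rfl fun i _ => ?_
        rw [show k + m + 1 - 1 - (i + 1) = k + m - 1 - i by omega]
        ring
      · simp

variable {c : ℕ → ℝ}

lemma S_nonneg (hc : ∀ i, 0 ≤ c i) (l : ℕ) : 0 ≤ S c l := sum_nonneg fun i _ => hc i

lemma S_mono (hc : ∀ i, 0 ≤ c i) {k l : ℕ} (h : k ≤ l) : S c k ≤ S c l :=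
  sum_le_sum_of_subset_of_nonneg (range_subset_range.2 h) fun i _ _ => hc i

lemma L_V (L : ℝ[X] →ₗ[ℝ] ℝ) (c : ℕ → ℝ) (l : ℕ) (p : ℝ[X]) :
    L (V c l * p) = ∑ i ∈ range l, c (l - 1 - i) * L (X ^ i * p) := by
  rw [V_eq, sum_mul, map_sum]
  exact sum_congr rfl fun i _ => by rw [mul_assoc, L_C_mul]

/-- the moment conditions -/
structure Mo (L : ℝ[X] →ₗ[ℝ] ℝ) (N : ℕ) (θ σ : ℝ) : Prop where
  psd : Psd L
  dir : ∀ p, L (X * p * (X * p)) ≤ L (p * p)
  up : L 1 ≤ 2
  lo : ∀ k, k < N → θ ≤ L (X ^ k)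
  pos : ∀ k, 0 ≤ L (X ^ k)
  anti : ∀ k, L (X ^ (k + 1)) ≤ L (X ^ k)
  d1 : ∀ k : ℕ, ((k : ℝ) + 1) * (L (X ^ k) - L (X ^ (k + 1))) ≤ σ ^ 2
  d2 : ∀ j, j ≤ N → ((j : ℝ) + 1) * nr L ((1 - X) * X ^ j) ≤ σ
  θ0 : 0 < θ
  θ1 : θ ≤ 1
  σ0 : 0 ≤ σ
  σ1 : σ ≤ 1

variable {N : ℕ} {θ σ : ℝ}

lemma Mo.le (h : Mo L N θ σ) {i j : ℕ} (hij : i ≤ j) : L (X ^ j) ≤ L (X ^ i) :=
  antitone_nat_of_succ_le (f := fun k => L (X ^ k)) h.anti hij

lemma Mo.le2 (h : Mo L N θ σ) (k : ℕ) : L (X ^ k) ≤ 2 := by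
  have := h.le (Nat.zero_le k)
  rw [pow_zero] at this
  exact this.trans h.up

lemma Mo.nrX (h : Mo L N θ σ) (k : ℕ) : nr L (X ^ k) ≤ 3 / 2 := by
  apply abs_le_of_sq_le_sq' _ (by norm_num) |>.2
  rw [h.psd.sq, ← pow_add]
  linarith [h.le2 (k + k)]

lemma Mo.nrV (h : Mo L N θ σ) (hc : ∀ i, 0 ≤ c i) (l : ℕ) : nr L (V c l) ≤ 3 / 2 * S c l := by
  rw [V_eq, S, ← sum_range_reflect c, mul_sum]
  refine (h.psd.sum _ _).trans (sum_le_sum fun i _ => ?_)
  rw [nr_C_mul, abs_of_nonneg (hc _), mul_comm]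
  exact mul_le_mul_of_nonneg_right (h.nrX i) (hc _)

lemma Mo.d2' (h : Mo L N θ σ) {j : ℕ} (hj : j ≤ N) : nr L ((1 - X) * X ^ j) ≤ σ / (j + 1) := by
  rw [le_div_iff₀' (by positivity)]
  exact h.d2 j hj

lemma Mo.LV (h : Mo L N θ σ) (hc : ∀ i, 0 ≤ c i) {l k : ℕ} (hl : l + k ≤ N) :
    θ * S c l ≤ L (V c l * X ^ k) ∧ L (V c l * X ^ k) ≤ 2 * S c l := by
  rw [L_V, S, ← sum_range_reflect c, mul_sum, mul_sum]
  constructor <;> refine sum_le_sum fun i hi => ?_ <;> rw [← pow_add, mul_comm]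
  · exact mul_le_mul_of_nonneg_left (h.lo _ (by have := mem_range.1 hi; omega)) (hc _)
  · exact mul_le_mul_of_nonneg_right (h.le2 _) (hc _)

lemma Mo.LVV (h : Mo L N θ σ) {d : ℕ → ℝ} (hc : ∀ i, 0 ≤ c i) (hd : ∀ i, 0 ≤ d i) {l k : ℕ}
    (hl : l + k ≤ N + 1) :
    θ * (S c l * S d k) ≤ L (V c l * V d k) ∧ L (V c l * V d k) ≤ 2 * (S c l * S d k) := by
  rw [L_V, S, ← sum_range_reflect c, sum_mul, mul_sum, mul_sum]
  constructor <;> refine sum_le_sum fun i hi => ?_
  · have := (h.LV hd (l := k) (k := i) (by have := mem_range.1 hi; omega)).1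
    rw [mul_comm (X ^ i)]
    linarith [mul_le_mul_of_nonneg_left this (hc (l - 1 - i))]
  · have := (h.LV hd (l := k) (k := i) (by have := mem_range.1 hi; omega)).2
    rw [mul_comm (X ^ i)]
    linarith [mul_le_mul_of_nonneg_left this (hc (l - 1 - i))]

/-- the increment is nearly a multiple of a power -/
lemma Mo.R0 (h : Mo L N θ σ) (hc : ∀ i, 0 ≤ c i) {k m : ℕ} (hl : k + m ≤ N) {D : ℝ}
    (hD : ∀ i, k ≤ i → i < k + m → |c (i + 1) - c i| ≤ D) :
    nr L (V c (k + m + 1) - V c (k + m) - C (c (k + m)) * X ^ m)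
      ≤ σ * (m * D + S c k / (m + 1)) := by
  have e : V c (k + m + 1) - V c (k + m) - C (c (k + m)) * X ^ m
      = ∑ i ∈ range m, C (c (k + m) - c (k + m - 1 - i)) * ((1 - X) * X ^ i)
        - ∑ i ∈ range k, C (c (k - 1 - i)) * ((1 - X) * X ^ (m + i)) := by
    have g := mul_neg_geom_sum (X : ℝ[X]) m
    have e1 : ∑ i ∈ range m, C (c (k + m) - c (k + m - 1 - i)) * ((1 - X) * X ^ i)
        = C (c (k + m)) * ((1 - X) * ∑ i ∈ range m, X ^ i)
          - (1 - X) * ∑ i ∈ range m, C (c (k + m - 1 - i)) * X ^ i := by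
      rw [mul_sum, mul_sum, mul_sum, ← sum_sub_distrib]
      exact sum_congr rfl fun i _ => by rw [map_sub]; ring
    have e2 : ∑ i ∈ range k, C (c (k - 1 - i)) * ((1 - X) * X ^ (m + i))
        = (1 - X) * (X ^ m * V c k) := by
      rw [V_eq, mul_sum, mul_sum]
      exact sum_congr rfl fun i _ => by ring
    rw [e1, e2, g, V, V_split]
    ring
  have t : ∀ i, i < m → |c (k + m) - c (k + m - 1 - i)| ≤ (i + 1) * D := by
    intro i
    induction i with
    | zero =>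
      intro hi
      have := hD (k + m - 1) (by omega) (by omega)
      rw [show k + m - 1 + 1 = k + m by omega] at this
      simpa using this
    | succ i ih =>
      intro hi
      have a1 := ih (by omega)
      have a2 := hD (k + m - 1 - (i + 1)) (by omega) (by omega)
      rw [show k + m - 1 - (i + 1) + 1 = k + m - 1 - i by omega] at a2
      have a3 := abs_sub_le (c (k + m)) (c (k + m - 1 - i)) (c (k + m - 1 - (i + 1)))
      push_cast
      linarith
  rw [e]
  refine (h.psd.sub _ _).trans ?_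
  rw [mul_add]
  apply add_le_add
  · refine (h.psd.sum _ _).trans ?_
    have := sum_le_card_nsmul (range m) (fun i =>
      nr L (C (c (k + m) - c (k + m - 1 - i)) * ((1 - X) * X ^ i))) (σ * D) fun i hi => by
        have hi' := mem_range.1 hi
        have a1 := t i hi'
        have a2 := h.d2 i (by omega)
        have a3 := nr_nonneg L ((1 - X) * X ^ i)
        have a4 : 0 ≤ D := (abs_nonneg _).trans (hD k le_rfl (by omega))
        rw [nr_C_mul]
        nlinarith [mul_le_mul_of_nonneg_right a1 a3, mul_le_mul_of_nonneg_right a2 a4]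
    rw [card_range, nsmul_eq_mul] at this
    linarith
  · refine (h.psd.sum _ _).trans ?_
    rw [S, ← sum_range_reflect c, sum_div, mul_sum]
    refine sum_le_sum fun i hi => ?_
    have hi' := mem_range.1 hi
    have a1 := h.d2' (j := m + i) (by omega)
    have a2 : σ / (((m + i : ℕ) : ℝ) + 1) ≤ σ / (m + 1) :=
      div_le_div_of_nonneg_left h.σ0 (by positivity) (by push_cast; linarith [Nat.cast_nonneg (α := ℝ) i])
    rw [nr_C_mul, abs_of_nonneg (hc _)]
    refine (mul_le_mul_of_nonneg_left (a1.trans a2) (hc _)).trans (le_of_eq ?_)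
    ring

lemma Mo.far (h : Mo L N θ σ) (hc : ∀ i, 0 ≤ c i) (k : ℕ) : ∀ m, k + m ≤ N + 1 →
    nr L (X ^ m * (V c k - C (S c k))) ≤ σ * ∑ i ∈ range k, S c i / ((k + m - i : ℕ) : ℝ) := by
  induction k with
  | zero => intro m _; simp [V, S_zero, nr_zero]
  | succ k ih =>
    intro m hm
    have e : X ^ m * (V c (k + 1) - C (S c (k + 1)))
        = X ^ (m + 1) * (V c k - C (S c k)) - C (S c k) * ((1 - X) * X ^ m) := by
      rw [V, S_succ, map_add]
      ring
    rw [e, sum_range_succ, mul_add]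
    refine (h.psd.sub _ _).trans (add_le_add ?_ ?_)
    · rw [show k + 1 + m = k + (m + 1) by omega]
      exact ih (m + 1) (by omega)
    · rw [nr_C_mul, abs_of_nonneg (S_nonneg hc k), show k + 1 + m - k = m + 1 by omega]
      refine (mul_le_mul_of_nonneg_left (h.d2' (j := m) (by omega)) (S_nonneg hc k)).trans
        (le_of_eq ?_)
      push_cast
      ring

lemma Mo.near (h : Mo L N θ σ) {d : ℕ → ℝ} {A : ℝ} (m : ℕ) (hm : m ≤ N + 1)
    (hd : ∀ i, i < m → 0 ≤ d i ∧ d i ≤ A) :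
    nr L (∑ i ∈ range m, C (d i) * X ^ i - C (S d m) * X ^ m) ≤ σ * (m * A) := by
  induction m with
  | zero => simp [S_zero, nr_zero]
  | succ m ih =>
    have i1 := ih (by omega) fun i hi => hd i (by omega)
    have e : ∑ i ∈ range (m + 1), C (d i) * X ^ i - C (S d (m + 1)) * X ^ (m + 1)
        = (∑ i ∈ range m, C (d i) * X ^ i - C (S d m) * X ^ m)
          + C (S d (m + 1)) * ((1 - X) * X ^ m) := by
      rw [sum_range_succ, S_succ, map_add]
      ring
    have s0 : 0 ≤ S d (m + 1) := sum_nonneg fun i hi => (hd i (mem_range.1 hi)).1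
    have s1 := sum_le_card_nsmul (range (m + 1)) d A fun i hi => (hd i (mem_range.1 hi)).2
    rw [card_range, nsmul_eq_mul] at s1
    have a2 := h.d2 m (by omega)
    have a3 := nr_nonneg L ((1 - X) * X ^ m)
    have a4 : 0 ≤ A := (hd 0 (by omega)).1.trans (hd 0 (by omega)).2
    rw [e]
    refine (h.psd.add _ _).trans ?_
    rw [nr_C_mul, abs_of_nonneg s0]
    push_cast at s1 ⊢
    nlinarith [mul_le_mul_of_nonneg_right (show S d (m + 1) ≤ (m + 1) * A from s1) a3,
      mul_le_mul_of_nonneg_right a2 a4]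

/-- the polynomial is nearly a multiple of a power -/
lemma Mo.R1 (h : Mo L N θ σ) (hc : ∀ i, 0 ≤ c i) {k m : ℕ} (hl : k + m ≤ N + 1) {A B : ℝ}
    (hA : ∀ i, k ≤ i → i < k + m → c i ≤ A)
    (hB : ∑ i ∈ range k, S c i / ((k + m - i : ℕ) : ℝ) ≤ B) :
    nr L (V c (k + m) - C (S c (k + m)) * X ^ m) ≤ σ * (m * A + B) := by
  have e0 : S c (k + m) = S c k + S (fun i => c (k + m - 1 - i)) m := by
    rw [S, sum_range_add, S, S, ← sum_range_reflect (fun i => c (k + i))]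
    congr 1
    exact sum_congr rfl fun i hi => by
      have := mem_range.1 hi
      rw [show k + (m - 1 - i) = k + m - 1 - i by omega]
  have e : V c (k + m) - C (S c (k + m)) * X ^ m
      = (∑ i ∈ range m, C (c (k + m - 1 - i)) * X ^ i
          - C (S (fun i => c (k + m - 1 - i)) m) * X ^ m) + X ^ m * (V c k - C (S c k)) := by
    rw [V_split, e0, map_add]
    ring
  rw [e, mul_add]
  exact (h.psd.add _ _).trans (add_le_add
    (h.near m (by omega) fun i hi => ⟨hc _, hA _ (by omega) (by omega)⟩)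
    ((h.far hc k m hl).trans (mul_le_mul_of_nonneg_left hB h.σ0)))

/-- regularity of the feedback -/
lemma Mo.reg (h : Mo L N θ σ) (hc : ∀ i, 0 ≤ c i) {i m : ℕ} (hi : i < N) {A : ℝ}
    (hA : ∀ j, j ≤ i → i ≤ j + m → c j ≤ A) :
    |L (V c (i + 1)) - L (V c i)| ≤ 2 * A + S c i / (m + 1) := by
  have e : L (V c (i + 1)) - L (V c i)
      = c i * L 1 - ∑ j ∈ range i, c (i - 1 - j) * (L (X ^ j) - L (X ^ (j + 1))) := by
    have e1 := L_V L c i X
    have e2 := L_V L c i 1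
    have e3 := L_C_mul L (c i) 1
    simp only [mul_one, ← pow_succ] at e1 e2 e3
    rw [V, map_add, mul_comm X, e1, e2, e3]
    simp only [mul_sub, sum_sub_distrib]
    ring
  have A0 : 0 ≤ A := (hc i).trans (hA i le_rfl (by omega))
  have l0 : 0 ≤ L 1 := by simpa using h.psd 1
  have a1 : c i * L 1 ≤ 2 * A := by nlinarith [hA i le_rfl (by omega), h.up, hc i]
  have a2 : 0 ≤ ∑ j ∈ range i, c (i - 1 - j) * (L (X ^ j) - L (X ^ (j + 1))) :=
    sum_nonneg fun j _ => mul_nonneg (hc _) (sub_nonneg.2 (h.anti j))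
  have a3 : ∑ j ∈ range i, c (i - 1 - j) * (L (X ^ j) - L (X ^ (j + 1)))
      ≤ ∑ j ∈ range i, (A * (L (X ^ j) - L (X ^ (j + 1))) + c (i - 1 - j) / (m + 1)) :=
    sum_le_sum fun j hj => by
      have hj' := mem_range.1 hj
      have d0 := sub_nonneg.2 (h.anti j)
      have c0 := hc (i - 1 - j)
      rcases lt_or_ge j m with hm | hm
      · have := mul_le_mul_of_nonneg_right (hA (i - 1 - j) (by omega) (by omega)) d0
        have : 0 ≤ c (i - 1 - j) / (m + 1) := by positivity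
        linarith
      · have d1 := h.d1 j
        have d2 : (m : ℝ) ≤ j := by exact_mod_cast hm
        have d3 : σ ^ 2 ≤ 1 := pow_le_one₀ h.σ0 h.σ1
        have d4 : L (X ^ j) - L (X ^ (j + 1)) ≤ 1 / (m + 1) := by
          rw [le_div_iff₀ (by positivity)]
          nlinarith
        have := mul_le_mul_of_nonneg_left d4 c0
        rw [mul_one_div] at this
        linarith [mul_nonneg A0 d0]
  rw [sum_add_distrib, ← mul_sum, sum_range_sub' (fun j => L (X ^ j)), ← sum_div,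
    sum_range_reflect c, pow_zero] at a3
  change _ ≤ _ + S c i / (m + 1) at a3
  have a4 : A * (L 1 - L (X ^ i)) ≤ 2 * A := by nlinarith [h.lo i hi, h.θ0, h.up]
  have a5 : 0 ≤ S c i / (m + 1) := div_nonneg (S_nonneg hc i) (by positivity)
  rw [e, abs_le]
  constructor <;> nlinarith [mul_nonneg (hc i) l0]

end Pool.Agent.P.MP_bdc337_an.KR
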