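import Pool.Agent.P.MP_bdc337_an.KR.F

/-! The two phase system and its estimates. -/

set_option autoImplicit false

open Finset Polynomial

namespace Pool.Agent.P.MP_bdc337_an.KR

/-- sources of the first phase -/
noncomputable def pp (L : ℝ[X] →ₗ[ℝ] ℝ) (e : ℝ) : ℕ → ℝ := Kc fun j => e * L (X ^ j)

/-- sources of the second phase -/
noncomputable def qq (L : ℝ[X] →ₗ[ℝ] ℝ) (e1 e2 : ℝ) (N : ℕ) (i : ℕ) : ℝ :=
  e2 / ((N - i : ℕ) : ℝ) *
    ∑ j : Fin i, L (X ^ (j : ℕ)) * (pp L e1 (i - 1 - j) + qq L e1 e2 N (i - 1 - j))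
decreasing_by have := j.isLt; omega

/-- both sources -/
noncomputable def pq (L : ℝ[X] →ₗ[ℝ] ℝ) (e1 e2 : ℝ) (N : ℕ) (i : ℕ) : ℝ :=
  pp L e1 i + qq L e1 e2 N i

variable {L : ℝ[X] →ₗ[ℝ] ℝ} {N : ℕ} {θ σ e e1 e2 : ℝ}

lemma L_V1 (L : ℝ[X] →ₗ[ℝ] ℝ) (c : ℕ → ℝ) (l : ℕ) :
    L (V c l) = ∑ i ∈ range l, L (X ^ i) * c (l - 1 - i) := by
  have := L_V L c l 1
  simp only [mul_one] at this
  rw [this]
  exact sum_congr rfl fun i _ => mul_comm _ _

lemma pp_zero (L : ℝ[X] →ₗ[ℝ] ℝ) (e : ℝ) : pp L e 0 = 1 := Kc_zero _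

lemma pp_eq (L : ℝ[X] →ₗ[ℝ] ℝ) (e : ℝ) (i : ℕ) : i * pp L e i = e * L (V (pp L e) i) := by
  rw [L_V1, mul_sum, pp, Kc_eq]
  exact sum_congr rfl fun i _ => mul_assoc _ _ _

lemma qq_def (L : ℝ[X] →ₗ[ℝ] ℝ) (e1 e2 : ℝ) (N i : ℕ) :
    qq L e1 e2 N i = e2 / ((N - i : ℕ) : ℝ) * L (V (pq L e1 e2 N) i) := by
  rw [qq, L_V1, Finset.sum_range]
  rfl

lemma qq_eq (L : ℝ[X] →ₗ[ℝ] ℝ) (e1 e2 : ℝ) {i : ℕ} (hi : i < N) :
    ((N : ℝ) - i) * qq L e1 e2 N i = e2 * L (V (pq L e1 e2 N) i) := by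
  have : (i : ℝ) < N := by exact_mod_cast hi
  have : (N : ℝ) - i ≠ 0 := by linarith
  rw [qq_def, Nat.cast_sub hi.le]
  field_simp

lemma V_pq (L : ℝ[X] →ₗ[ℝ] ℝ) (e1 e2 : ℝ) (N l : ℕ) :
    V (pq L e1 e2 N) l = V (pp L e1) l + V (qq L e1 e2 N) l := V_add _ _ l

lemma S_pq (L : ℝ[X] →ₗ[ℝ] ℝ) (e1 e2 : ℝ) (N l : ℕ) :
    S (pq L e1 e2 N) l = S (pp L e1) l + S (qq L e1 e2 N) l := S_add _ _ l

lemma Mo.pp0 (h : Mo L N θ σ) (he : 0 ≤ e) (i : ℕ) : 0 ≤ pp L e i := by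
  induction i using Nat.strong_induction_on with
  | _ i ih =>
    rcases Nat.eq_zero_or_pos i with rfl | hi
    · rw [pp_zero]; exact zero_le_one
    · have a := pp_eq L e i
      have p : 0 ≤ e * L (V (pp L e) i) := by
        rw [L_V1]
        exact mul_nonneg he (sum_nonneg fun j _ => mul_nonneg (h.pos _) (ih _ (by omega)))
      rw [← a] at p
      exact nonneg_of_mul_nonneg_right p (by exact_mod_cast hi)

lemma Mo.qq0 (h : Mo L N θ σ) (h1 : 0 ≤ e1) (h2 : 0 ≤ e2) (i : ℕ) : 0 ≤ qq L e1 e2 N i := by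
  induction i using Nat.strong_induction_on with
  | _ i ih =>
    rw [qq_def, L_V1]
    refine mul_nonneg (by positivity) (sum_nonneg fun j hj => mul_nonneg (h.pos _) ?_)
    exact add_nonneg (h.pp0 h1 _) (ih _ (by have := mem_range.1 hj; omega))

lemma Mo.pq0 (h : Mo L N θ σ) (h1 : 0 ≤ e1) (h2 : 0 ≤ e2) (i : ℕ) : 0 ≤ pq L e1 e2 N i :=
  add_nonneg (h.pp0 h1 i) (h.qq0 h1 h2 i)

lemma Mo.pb (h : Mo L N θ σ) (he : 0 ≤ e) {i : ℕ} (hi : i ≤ N) :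
    e * (θ * S (pp L e) i) ≤ i * pp L e i ∧ i * pp L e i ≤ e * (2 * S (pp L e) i) := by
  have := h.LV (h.pp0 he) (l := i) (k := 0) hi
  rw [pow_zero, mul_one] at this
  rw [pp_eq]
  exact ⟨mul_le_mul_of_nonneg_left this.1 he, mul_le_mul_of_nonneg_left this.2 he⟩

lemma Mo.qb (h : Mo L N θ σ) (h1 : 0 ≤ e1) (h2 : 0 ≤ e2) {i : ℕ} (hi : i < N) :
    e2 * (θ * S (pq L e1 e2 N) i) ≤ ((N : ℝ) - i) * qq L e1 e2 N i ∧
      ((N : ℝ) - i) * qq L e1 e2 N i ≤ e2 * (2 * S (pq L e1 e2 N) i) := by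
  have := h.LV (h.pq0 h1 h2) (l := i) (k := 0) hi.le
  rw [pow_zero, mul_one] at this
  rw [qq_eq L e1 e2 hi]
  exact ⟨mul_le_mul_of_nonneg_left this.1 h2, mul_le_mul_of_nonneg_left this.2 h2⟩

lemma Mo.S1 (h : Mo L N θ σ) (he : 0 ≤ e) {i : ℕ} (hi : 1 ≤ i) : 1 ≤ S (pp L e) i := by
  have := S_mono (h.pp0 he) hi
  rwa [S_succ, S_zero, zero_add, pp_zero] at this

lemma Mo.Sig (h : Mo L N θ σ) (h1 : 0 ≤ e1) (h2 : 0 ≤ e2) (h2' : e2 ≤ 1) (i : ℕ) (hi : i ≤ N) :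
    S (pq L e1 e2 N) i * ((N : ℝ) - i) ^ 2 ≤ S (pp L e1) i * N ^ 2 := by
  induction i with
  | zero => simp [S_zero]
  | succ i ih =>
    have i1 := ih (by omega)
    have q1 := (h.qb h1 h2 (i := i) (by omega)).2
    have p0 := h.pp0 h1 i
    have q0 := h.qq0 h1 h2 i
    have s0 := S_nonneg (h.pq0 h1 h2) i
    have iN : (i : ℝ) + 1 ≤ N := by exact_mod_cast hi
    have i0 : (0 : ℝ) ≤ i := Nat.cast_nonneg i
    rw [S_succ, S_succ, pq]
    push_cast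
    obtain ⟨d, hd⟩ : ∃ d : ℝ, d = N - (i + 1) := ⟨_, rfl⟩
    have d0 : 0 ≤ d := by linarith
    rw [show (N : ℝ) - i = d + 1 by linarith] at i1 q1
    rw [← hd]
    have a1 : (d + 1) * qq L e1 e2 N i ≤ 2 * S (pq L e1 e2 N) i := by nlinarith
    have a2 : qq L e1 e2 N i * d ^ 2 ≤ 2 * S (pq L e1 e2 N) i * d := by
      nlinarith [mul_le_mul_of_nonneg_right a1 d0, mul_nonneg q0 d0]
    have a3 : pp L e1 i * d ^ 2 ≤ pp L e1 i * N ^ 2 :=
      mul_le_mul_of_nonneg_left (pow_le_pow_left₀ d0 (by linarith) 2) p0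
    nlinarith

lemma Mo.pwin (h : Mo L N θ σ) (he : 0 ≤ e) (he1 : e ≤ 1) {n l j : ℕ} (hl : l ≤ N) (hj : j ≤ l)
    (hn : n ≤ 2 * j) : n * pp L e j ≤ 4 * S (pp L e) (l + 1) := by
  have a1 := (h.pb he (i := j) (by omega)).2
  have a2 := S_mono (h.pp0 he) (show j ≤ l + 1 by omega)
  have a3 : (n : ℝ) ≤ 2 * j := by exact_mod_cast hn
  have a4 := S_nonneg (h.pp0 he) j
  nlinarith [mul_le_mul_of_nonneg_right a3 (h.pp0 he j)]

lemma div_m {Z : ℝ} (hZ : 0 ≤ Z) {n m : ℕ} (hn : 1 ≤ n) (hm : n ≤ 8 * (m + 1)) :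
    Z / (m + 1) ≤ 8 * Z / n := by
  have a : (n : ℝ) ≤ 8 * (m + 1) := by exact_mod_cast hm
  have n0 : (0 : ℝ) < n := by exact_mod_cast hn
  rw [div_le_div_iff₀ (by positivity) n0]
  nlinarith

lemma Mo.preg (h : Mo L N θ σ) (he : 0 ≤ e) (he1 : e ≤ 1) {n l m i : ℕ} (hn : 1 ≤ n) (hl : l < N)
    (hnl : n ≤ l) (m1 : 4 * m ≤ n) (m2 : n ≤ 8 * (m + 1)) (i1 : l ≤ i + m) (i2 : i < l) :
    |pp L e (i + 1) - pp L e i| ≤ 40 * S (pp L e) (l + 1) / n ^ 2 := by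
  have n0 : (0 : ℝ) < n := by exact_mod_cast hn
  set Z := S (pp L e) (l + 1) with hZ
  have Z0 : 0 ≤ Z := S_nonneg (h.pp0 he) _
  have w : ∀ j, j ≤ i → i ≤ j + m → pp L e j ≤ 4 * Z / n := fun j j1 j2 => by
    rw [le_div_iff₀' n0]
    exact h.pwin he he1 hl.le (by omega) (by omega)
  have r := h.reg (h.pp0 he) (i := i) (m := m) (by omega) w
  have s1 := div_le_div_of_nonneg_right (S_mono (h.pp0 he) (show i ≤ l + 1 by omega))
    (show (0 : ℝ) ≤ m + 1 by positivity)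
  have s2 := div_m Z0 hn m2
  have e1 := pp_eq L e (i + 1)
  have e2 := pp_eq L e i
  have w0 := w i le_rfl (by omega)
  have a : ((i : ℝ) + 1) * (pp L e (i + 1) - pp L e i)
      = e * (L (V (pp L e) (i + 1)) - L (V (pp L e) i)) - pp L e i := by
    push_cast at e1
    linarith
  have a2 : |((i : ℝ) + 1) * (pp L e (i + 1) - pp L e i)| ≤ 20 * Z / n := by
    rw [a]
    refine (abs_sub _ _).trans ?_
    rw [abs_mul, abs_of_nonneg he, abs_of_nonneg (h.pp0 he i)]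
    have := mul_le_mul he1 r (abs_nonneg _) zero_le_one
    have e3 : 20 * Z / n = 2 * (4 * Z / n) + 8 * Z / n + 4 * Z / n := by ring
    linarith
  have a3 : (n : ℝ) ≤ 2 * (i + 1) := by exact_mod_cast (by omega : n ≤ 2 * (i + 1))
  rw [abs_mul, abs_of_pos (by positivity), le_div_iff₀ n0] at a2
  rw [le_div_iff₀ (by positivity)]
  nlinarith [mul_le_mul_of_nonneg_right a3
    (mul_nonneg (abs_nonneg (pp L e (i + 1) - pp L e i)) n0.le)]

lemma Mo.qwin (h : Mo L N θ σ) (h1 : 0 ≤ e1) (h2 : 0 ≤ e2) {l j : ℕ} (hl : l < N) (hj : j ≤ l) :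
    ((N : ℝ) - l) * qq L e1 e2 N j ≤ e2 * (2 * S (pq L e1 e2 N) (l + 1)) := by
  have a1 := (h.qb h1 h2 (i := j) (by omega)).2
  have a2 := S_mono (h.pq0 h1 h2) (show j ≤ l + 1 by omega)
  have a3 : (j : ℝ) ≤ l := by exact_mod_cast hj
  nlinarith [mul_le_mul_of_nonneg_right a3 (h.qq0 h1 h2 j)]

lemma Mo.Sle (h : Mo L N θ σ) (h1 : 0 ≤ e1) (h2 : 0 ≤ e2) (l : ℕ) :
    S (pp L e1) l ≤ S (pq L e1 e2 N) l ∧ S (qq L e1 e2 N) l ≤ S (pq L e1 e2 N) l := by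
  rw [S_pq]
  exact ⟨by linarith [S_nonneg (h.qq0 h1 h2) l], by linarith [S_nonneg (h.pp0 h1) l]⟩

lemma Mo.pqwin (h : Mo L N θ σ) (h1 : 0 ≤ e1) (h2 : 0 ≤ e2) (h1' : e1 ≤ 1) (h2' : e2 ≤ 1)
    {n l j : ℕ} (hn : 1 ≤ n) (hl : l + n ≤ N) (hj : j ≤ l) (hnj : n ≤ 2 * j) :
    pq L e1 e2 N j ≤ 6 * S (pq L e1 e2 N) (l + 1) / n := by
  have n0 : (0 : ℝ) < n := by exact_mod_cast hn
  have a1 := h.pwin h1 h1' (l := l) (by omega) hj hnj
  have a2 := h.qwin h1 h2 (l := l) (by omega) hj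
  have a3 := (h.Sle h1 h2 (l + 1)).1
  have a4 : (l : ℝ) + n ≤ N := by exact_mod_cast hl
  have a5 := S_nonneg (h.pq0 h1 h2) (l + 1)
  rw [le_div_iff₀ n0, pq]
  nlinarith [mul_le_mul_of_nonneg_right a4 (h.qq0 h1 h2 j)]

lemma Mo.qreg (h : Mo L N θ σ) (h1 : 0 ≤ e1) (h2 : 0 ≤ e2) (h1' : e1 ≤ 1) (h2' : e2 ≤ 1)
    {n l m i : ℕ} (hn : 1 ≤ n) (hl : l + n ≤ N)
    (hnl : n ≤ l) (m1 : 4 * m ≤ n) (m2 : n ≤ 8 * (m + 1)) (i1 : l ≤ i + m) (i2 : i < l) :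
    |qq L e1 e2 N (i + 1) - qq L e1 e2 N i|
      ≤ 22 * e2 * S (pq L e1 e2 N) (l + 1) / (n * ((N : ℝ) - l)) := by
  have n0 : (0 : ℝ) < n := by exact_mod_cast hn
  have D0 : (n : ℝ) ≤ N - l := by
    have : (l : ℝ) + n ≤ N := by exact_mod_cast hl
    linarith
  set Z := S (pq L e1 e2 N) (l + 1) with hZ
  have Z0 : 0 ≤ Z := S_nonneg (h.pq0 h1 h2) _
  have r := h.reg (h.pq0 h1 h2) (i := i) (m := m) (by omega) fun j j1 j2 =>
    h.pqwin h1 h2 h1' h2' hn hl (show j ≤ l by omega) (by omega)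
  have s1 := div_le_div_of_nonneg_right (S_mono (h.pq0 h1 h2) (show i ≤ l + 1 by omega))
    (show (0 : ℝ) ≤ m + 1 by positivity)
  have s2 := div_m Z0 hn m2
  have c1 := qq_eq L e1 e2 (N := N) (i := i + 1) (by omega)
  have c2 := qq_eq L e1 e2 (N := N) (i := i) (by omega)
  have w0 := h.qwin h1 h2 (l := l) (j := i) (by omega) (by omega)
  have q0 := h.qq0 h1 h2 i
  have w1 : qq L e1 e2 N i ≤ e2 * (2 * Z / n) := by
    rw [← mul_div_assoc, le_div_iff₀ n0]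
    nlinarith
  have a : ((N : ℝ) - (i + 1)) * (qq L e1 e2 N (i + 1) - qq L e1 e2 N i)
      = e2 * (L (V (pq L e1 e2 N) (i + 1)) - L (V (pq L e1 e2 N) i)) + qq L e1 e2 N i := by
    push_cast at c1
    linarith
  have a2 : |((N : ℝ) - (i + 1)) * (qq L e1 e2 N (i + 1) - qq L e1 e2 N i)| ≤ 22 * e2 * Z / n := by
    rw [a]
    refine (abs_add_le _ _).trans ?_
    rw [abs_mul, abs_of_nonneg h2, abs_of_nonneg q0]
    have := mul_le_mul_of_nonneg_left (r.trans (add_le_add le_rfl (s1.trans s2))) h2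
    have e3 : 22 * e2 * Z / n = e2 * (2 * (6 * Z / n) + 8 * Z / n) + e2 * (2 * Z / n) := by ring
    linarith
  have a3 : (i : ℝ) + 1 ≤ l := by exact_mod_cast i2
  rw [abs_mul, abs_of_pos (by linarith), le_div_iff₀ n0] at a2
  rw [le_div_iff₀ (mul_pos n0 (by linarith))]
  nlinarith [mul_le_mul_of_nonneg_right a3
    (mul_nonneg (abs_nonneg (qq L e1 e2 N (i + 1) - qq L e1 e2 N i)) n0.le)]

lemma Mo.R0' (h : Mo L N θ σ) {c : ℕ → ℝ} (hc : ∀ i, 0 ≤ c i) {n l m : ℕ} (hn : 1 ≤ n)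
    (hl : l ≤ N) (hnl : n ≤ l) (m1 : 4 * m ≤ n) (m2 : n ≤ 8 * (m + 1)) {D Z : ℝ} (D0 : 0 ≤ D)
    (hZ : S c (l + 1) ≤ Z) (hD : ∀ i, l ≤ i + m → i < l → |c (i + 1) - c i| ≤ D) :
    nr L (V c (l + 1) - V c l - C (c l) * X ^ m) ≤ σ * (n * D / 4 + 8 * Z / n) := by
  obtain ⟨k, rfl⟩ : ∃ k, l = k + m := ⟨l - m, by omega⟩
  refine (h.R0 hc hl fun i i1 i2 => hD i (by omega) i2).trans
    (mul_le_mul_of_nonneg_left (add_le_add ?_ ?_) h.σ0)
  · have : 4 * (m : ℝ) ≤ n := by exact_mod_cast m1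
    nlinarith
  · have s := (S_mono hc (show k ≤ k + m + 1 by omega)).trans hZ
    exact (div_le_div_of_nonneg_right s (by positivity)).trans
      (div_m ((S_nonneg hc _).trans hZ) hn m2)

lemma Mo.Pest (h : Mo L N θ σ) (he : 0 ≤ e) (he1 : e ≤ 1) {n l m : ℕ} (hn : 1 ≤ n) (hl : l < N)
    (hnl : n ≤ l) (m1 : 4 * m ≤ n) (m2 : n ≤ 8 * (m + 1)) :
    nr L (V (pp L e) (l + 1) - V (pp L e) l - C (pp L e l) * X ^ m)
        ≤ 18 * σ * S (pp L e) (l + 1) / n ∧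
      nr L (V (pp L e) (l + 1) - C (S (pp L e) (l + 1)) * X ^ m)
        ≤ 17 * σ * S (pp L e) (l + 1) * l / n := by
  have n0 : (0 : ℝ) < n := by exact_mod_cast hn
  have Z0 := S_nonneg (h.pp0 he) (l + 1)
  constructor
  · refine (h.R0' (h.pp0 he) hn hl.le hnl m1 m2 (by positivity) le_rfl fun i i1 i2 =>
      h.preg he he1 hn hl hnl m1 m2 i1 i2).trans (le_of_eq ?_)
    field_simp
    ring
  · obtain ⟨k, hk⟩ : ∃ k, l + 1 = k + m := ⟨l + 1 - m, by omega⟩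
    have r := h.R1 (h.pp0 he) (k := k) (m := m) (by omega) (A := 4 * S (pp L e) (l + 1) / n)
      (B := k * (8 * S (pp L e) (l + 1) / n)) (fun i i1 i2 => by
        rw [le_div_iff₀' n0]
        exact h.pwin he he1 hl.le (by omega) (by omega)) (by
        have := sum_le_card_nsmul (range k) (fun i => S (pp L e) i / ((k + m - i : ℕ) : ℝ))
          (8 * S (pp L e) (l + 1) / n) fun i hi => by
            have hi' := mem_range.1 hi
            refine le_trans ?_ (div_m Z0 hn m2)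
            exact div_le_div₀ Z0 (S_mono (h.pp0 he) (by omega)) (by positivity)
              (by exact_mod_cast (by omega : m + 1 ≤ k + m - i))
        rwa [card_range, nsmul_eq_mul] at this)
    rw [← hk] at r
    refine r.trans ?_
    have a1 : 4 * (m : ℝ) ≤ l := by exact_mod_cast (by omega : 4 * m ≤ l)
    have a2 : (k : ℝ) ≤ 2 * l := by exact_mod_cast (by omega : k ≤ 2 * l)
    have a3 : 0 ≤ σ * (S (pp L e) (l + 1) / n) := mul_nonneg h.σ0 (by positivity)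
    have e1 : σ * (m * (4 * S (pp L e) (l + 1) / n) + k * (8 * S (pp L e) (l + 1) / n))
        = (4 * m + 8 * k) * (σ * (S (pp L e) (l + 1) / n)) := by ring
    have e2 : 17 * σ * S (pp L e) (l + 1) * l / n = 17 * l * (σ * (S (pp L e) (l + 1) / n)) := by
      ring
    rw [e1, e2]
    exact mul_le_mul_of_nonneg_right (by linarith) a3

lemma Mo.Yest (h : Mo L N θ σ) (h1 : 0 ≤ e1) (h2 : 0 < e2) (h1' : e1 ≤ 1) (h2' : e2 ≤ 1)
    {n l m : ℕ} (hn : 1 ≤ n) (hl : l + n = N) (hnl : n ≤ l) (m1 : 4 * m ≤ n)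
    (m2 : n ≤ 8 * (m + 1)) :
    nr L (V (pq L e1 e2 N) (l + 1) - V (pq L e1 e2 N) l - C (pq L e1 e2 N l) * X ^ m)
        ≤ 24 * σ * S (pq L e1 e2 N) (l + 1) / n ∧
      nr L (V (pq L e1 e2 N) (l + 1) - C (S (pq L e1 e2 N) (l + 1)) * X ^ m)
        ≤ 11 * σ * S (pq L e1 e2 N) (l + 1) / (e2 * θ) := by
  have n0 : (0 : ℝ) < n := by exact_mod_cast hn
  have Z0 := S_nonneg (h.pq0 h1 h2.le) (l + 1)
  have θ0 := h.θ0
  have eD : (N : ℝ) - l = n := by rw [← hl]; push_cast; ring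
  set Z := S (pq L e1 e2 N) (l + 1) with hZ
  constructor
  · refine (h.R0' (h.pq0 h1 h2.le) hn (by omega) hnl m1 m2 (D := 62 * Z / n ^ 2) (by positivity)
      le_rfl fun i i1 i2 => ?_).trans ?_
    · have a1 := h.preg h1 h1' hn (show l < N by omega) hnl m1 m2 i1 i2
      have a2 := h.qreg h1 h2.le h1' h2' hn hl.le hnl m1 m2 i1 i2
      have a3 := (h.Sle h1 h2.le (l + 1)).1
      rw [eD, ← sq, ← hZ] at a2
      have a4 : 40 * S (pp L e1) (l + 1) / n ^ 2 + 22 * e2 * Z / n ^ 2 ≤ 62 * Z / n ^ 2 := by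
        rw [← add_div]
        exact div_le_div_of_nonneg_right (by nlinarith) (by positivity)
      have a5 := abs_add_le (pp L e1 (i + 1) - pp L e1 i) (qq L e1 e2 N (i + 1) - qq L e1 e2 N i)
      have a6 : pq L e1 e2 N (i + 1) - pq L e1 e2 N i
          = pp L e1 (i + 1) - pp L e1 i + (qq L e1 e2 N (i + 1) - qq L e1 e2 N i) := by
        rw [pq, pq]; ring
      rw [a6]
      linarith
    · have a3 : 0 ≤ σ * (Z / n) := mul_nonneg h.σ0 (by positivity)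
      have c1 : σ * (n * (62 * Z / n ^ 2) / 4 + 8 * Z / n) = 47 / 2 * (σ * (Z / n)) := by
        field_simp
        ring
      have c2 : 24 * σ * Z / n = 24 * (σ * (Z / n)) := by ring
      rw [c1, c2]
      linarith
  · obtain ⟨k, hk⟩ : ∃ k, l + 1 = k + m := ⟨l + 1 - m, by omega⟩
    have r := h.R1 (h.pq0 h1 h2.le) (k := k) (m := m) (by omega) (A := 6 * Z / n)
      (B := 9 * Z / (e2 * θ))
      (fun i i1 i2 => h.pqwin h1 h2.le h1' h2' hn hl.le (show i ≤ l by omega) (by omega)) (by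
        have a1 : ∑ i ∈ range k, S (pq L e1 e2 N) i / ((k + m - i : ℕ) : ℝ)
            ≤ ∑ i ∈ range k, 9 * qq L e1 e2 N i / (e2 * θ) := sum_le_sum fun i hi => by
          have hi' := mem_range.1 hi
          have b1 := (h.qb h1 h2.le (i := i) (by omega)).1
          have b2 : (N : ℝ) - i ≤ 9 * ((k + m - i : ℕ) : ℝ) := by
            have : N ≤ 9 * (k + m - i) + i := by omega
            have : (N : ℝ) ≤ 9 * ((k + m - i : ℕ) : ℝ) + i := by exact_mod_cast this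
            linarith
          rw [div_le_div_iff₀ (by exact_mod_cast (by omega : 0 < k + m - i)) (by positivity)]
          linarith [mul_le_mul_of_nonneg_right b2 (h.qq0 h1 h2.le i)]
        refine a1.trans ?_
        rw [← sum_div, ← mul_sum]
        have a2 := (S_mono (h.qq0 h1 h2.le) (show k ≤ l + 1 by omega)).trans
          (h.Sle h1 h2.le (l + 1)).2
        exact div_le_div_of_nonneg_right (mul_le_mul_of_nonneg_left a2 (by norm_num))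
          (by positivity))
    rw [← hk] at r
    refine r.trans ?_
    have a1 : 4 * (m : ℝ) ≤ n := by exact_mod_cast m1
    have a2 : m * (6 * Z / n) ≤ 2 * Z / (e2 * θ) := by
      have b1 : e2 * θ ≤ 1 := mul_le_one₀ h2' θ0.le h.θ1
      have b2 : m * (6 * Z / n) ≤ 2 * Z := by
        rw [← mul_div_assoc, div_le_iff₀ n0]
        nlinarith
      exact b2.trans (le_div_self (by positivity) (by positivity) b1)
    have e2' : 11 * σ * Z / (e2 * θ) = σ * (2 * Z / (e2 * θ) + 9 * Z / (e2 * θ)) := by ring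
    rw [e2']
    exact mul_le_mul_of_nonneg_left (by linarith) h.σ0

lemma Mo.Uest (h : Mo L N θ σ) (h1 : 0 ≤ e1) (h2 : 0 ≤ e2) (h1' : e1 ≤ 1) (h2' : e2 ≤ 1)
    {n m : ℕ} (hn : 1 ≤ n) (hN : 2 * n ≤ N) (m1 : 4 * m ≤ n) (m2 : n ≤ 8 * (m + 1)) :
    N * qq L e1 e2 N n ≤ 16 * e2 * S (pp L e1) (n + 1) ∧
      N * S (qq L e1 e2 N) (n + 1) ≤ 32 * e2 * n * S (pp L e1) (n + 1) ∧
      nr L (V (qq L e1 e2 N) (n + 1) - V (qq L e1 e2 N) n - C (qq L e1 e2 N n) * X ^ m)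
        ≤ 443 * σ * e2 * S (pp L e1) (n + 1) / N := by
  have n1 : (1 : ℝ) ≤ n := by exact_mod_cast hn
  have n0 : (0 : ℝ) < n := by linarith
  have nN : 2 * (n : ℝ) ≤ N := by exact_mod_cast hN
  have N0 : (0 : ℝ) < N := by linarith
  set Z := S (pp L e1) (n + 1) with hZ
  have Z0 : 0 ≤ Z := S_nonneg (h.pp0 h1) _
  have a1 : ∀ i, i ≤ n → N * qq L e1 e2 N i ≤ 16 * e2 * Z := fun i hi => by
    have b1 := (h.qb h1 h2 (i := i) (by omega)).2
    have b2 := h.Sig h1 h2 h2' i (by omega)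
    have b3 := S_mono (h.pp0 h1) (show i ≤ n + 1 by omega)
    have b4 : (i : ℝ) ≤ n := by exact_mod_cast hi
    have b5 := S_nonneg (h.pq0 h1 h2) i
    have b6 : (N : ℝ) ^ 2 ≤ 4 * (N - i) ^ 2 := by nlinarith
    have b7 : S (pq L e1 e2 N) i ≤ 4 * Z := by
      apply le_of_mul_le_mul_right _ (show (0 : ℝ) < N ^ 2 by positivity)
      nlinarith [mul_le_mul_of_nonneg_left b6 b5, mul_le_mul_of_nonneg_right b3 (sq_nonneg (N : ℝ))]
    have b8 : (N : ℝ) ≤ 2 * (N - i) := by linarith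
    nlinarith [mul_le_mul_of_nonneg_right b8 (h.qq0 h1 h2 i), mul_le_mul_of_nonneg_left b7 h2]
  have a2 : N * S (qq L e1 e2 N) (n + 1) ≤ 32 * e2 * n * Z := by
    have := sum_le_card_nsmul (range (n + 1)) (fun i => N * qq L e1 e2 N i) (16 * e2 * Z)
      fun i hi => a1 i (by have := mem_range.1 hi; omega)
    rw [card_range, nsmul_eq_mul, ← mul_sum] at this
    push_cast at this
    have b : 0 ≤ e2 * Z := by positivity
    unfold S
    nlinarith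
  have a3 : S (pq L e1 e2 N) (n + 1) ≤ 17 * Z := by
    have b : S (qq L e1 e2 N) (n + 1) ≤ 16 * Z := by
      apply le_of_mul_le_mul_left _ N0
      nlinarith [mul_nonneg n0.le Z0]
    rw [S_pq]
    linarith
  refine ⟨a1 n le_rfl, a2, ?_⟩
  refine (h.R0' (h.qq0 h1 h2) hn (by omega) le_rfl m1 m2 (D := 748 * e2 * Z / (n * N))
    (Z := 32 * e2 * n * Z / N) (by positivity) (by rw [le_div_iff₀' N0]; exact a2)
    fun i i1 i2 => ?_).trans (le_of_eq ?_)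
  · refine (h.qreg h1 h2 h1' h2' hn (by omega) le_rfl m1 m2 i1 i2).trans ?_
    rw [div_le_div_iff₀ (mul_pos n0 (by linarith)) (by positivity)]
    have b1 := mul_le_mul_of_nonneg_left a3 (show 0 ≤ 22 * e2 * (n * N) by positivity)
    have b2 : 0 ≤ e2 * Z * n * (N - 2 * n) := mul_nonneg (by positivity) (by linarith)
    nlinarith
  · field_simp
    ring

end Pool.Agent.P.MP_bdc337_an.KR
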