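import Pool.Agent.P.MP_bdc337_an.KR.G

/-! Scalar inequalities and the abstract steps. -/

set_option autoImplicit false

open Finset Polynomial

namespace Pool.Agent.P.MP_bdc337_an.KR

variable {L : ℝ[X] →ₗ[ℝ] ℝ} {N : ℕ} {θ σ e1 e2 k1 k2 : ℝ}

lemma sq3 {x y z w r : ℝ} (r0 : 0 < r) (r1 : r ≤ 1) (w0 : 0 ≤ w) (h : w ≤ x + y + z) :
    w ^ 2 ≤ (1 + r / 2) * x ^ 2 + 6 / r * (y ^ 2 + z ^ 2) := by
  have a1 : w ^ 2 ≤ (x + y + z) ^ 2 := pow_le_pow_left₀ w0 h 2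
  have a2 : r * (x + y + z) ^ 2 ≤ r * ((1 + r / 2) * x ^ 2 + 6 / r * (y ^ 2 + z ^ 2)) := by
    have e : r * ((1 + r / 2) * x ^ 2 + 6 / r * (y ^ 2 + z ^ 2))
        = r * ((1 + r / 2) * x ^ 2) + 6 * (y ^ 2 + z ^ 2) := by field_simp
    rw [e]
    nlinarith [sq_nonneg (r * x - 2 * (y + z)), sq_nonneg (y - z),
      mul_nonneg (sub_nonneg.2 r1) (sq_nonneg (y + z))]
  exact a1.trans (le_of_mul_le_mul_left a2 r0)

lemma scalA {t B τ μ x1 x2 y1 y2 K1 K2 r1 r2 ζ1 ζ2 γ1 γ2 β1 β2 Γ : ℝ}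
    (τ0 : 0 ≤ τ) (τ1 : τ ≤ 1 - μ) (μ0 : 0 < μ) (hB : |B| ≤ β1 * x1 + β2 * x2)
    (y10 : 0 ≤ y1) (y20 : 0 ≤ y2) (h1 : y1 ≤ x1 + ζ1 * |t| + γ1 * |B|)
    (h2 : y2 ≤ x2 + ζ2 * |t| + γ2 * |B|) (K10 : 0 ≤ K1) (K20 : 0 ≤ K2) (r10 : 0 < r1)
    (r11 : r1 ≤ 1) (r20 : 0 < r2) (r21 : r2 ≤ 1)
    (c1 : K1 * (6 / r1 * ζ1 ^ 2) + K2 * (6 / r2 * ζ2 ^ 2) ≤ μ)
    (c2 : 2 / μ + K1 * (6 / r1 * γ1 ^ 2) + K2 * (6 / r2 * γ2 ^ 2) ≤ Γ)
    (c3 : 4 * Γ * β1 ^ 2 ≤ r1 * K1) (c4 : 4 * Γ * β2 ^ 2 ≤ r2 * K2) :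
    (τ * t + B) ^ 2 + K1 * y1 ^ 2 + K2 * y2 ^ 2
      ≤ t ^ 2 + (1 + r1) * K1 * x1 ^ 2 + (1 + r2) * K2 * x2 ^ 2 := by
  have a1 := mul_le_mul_of_nonneg_left (sq3 r10 r11 y10 h1) K10
  have a2 := mul_le_mul_of_nonneg_left (sq3 r20 r21 y20 h2) K20
  rw [mul_pow, mul_pow, sq_abs, sq_abs] at a1 a2
  have a3 : (τ * t + B) ^ 2 ≤ (1 - μ) * t ^ 2 + 2 / μ * B ^ 2 := by
    apply le_of_mul_le_mul_left _ μ0
    have e : μ * ((1 - μ) * t ^ 2 + 2 / μ * B ^ 2) = μ * ((1 - μ) * t ^ 2) + 2 * B ^ 2 := by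
      field_simp
    have b1 : (1 + μ) * τ ^ 2 ≤ 1 - μ := by
      have := pow_le_pow_left₀ τ0 τ1 2
      nlinarith [mul_nonneg (τ0.trans τ1) (sq_nonneg μ)]
    rw [e]
    nlinarith [sq_nonneg (μ * (τ * t) - B), mul_le_mul_of_nonneg_right b1 (sq_nonneg t),
      mul_nonneg (τ0.trans τ1) (sq_nonneg B),
      mul_le_mul_of_nonneg_left (mul_le_mul_of_nonneg_right b1 (sq_nonneg t)) μ0.le]
  have a4 : B ^ 2 ≤ 2 * β1 ^ 2 * x1 ^ 2 + 2 * β2 ^ 2 * x2 ^ 2 := by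
    have := pow_le_pow_left₀ (abs_nonneg B) hB 2
    rw [sq_abs] at this
    nlinarith [sq_nonneg (β1 * x1 - β2 * x2)]
  have Γ0 : 0 ≤ Γ := le_trans (by positivity) c2
  linarith [mul_le_mul_of_nonneg_right c1 (sq_nonneg t),
    mul_le_mul_of_nonneg_right c2 (sq_nonneg B), mul_le_mul_of_nonneg_left a4 Γ0,
    mul_le_mul_of_nonneg_right c3 (sq_nonneg x1), mul_le_mul_of_nonneg_right c4 (sq_nonneg x2)]

lemma L_sub (L : ℝ[X] →ₗ[ℝ] ℝ) (y v u : ℝ[X]) (c : ℝ) :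
    L (y * (v - C c * u)) = L (y * v) - c * L (y * u) := by
  rw [mul_sub, map_sub, mul_left_comm, L_C_mul]

lemma Psd.two (h : Psd L) {a b x y : ℝ[X]} {A B : ℝ} (ha : nr L a ≤ A) (hb : nr L b ≤ B) :
    |L (a * x) + L (b * y)| ≤ A * nr L x + B * nr L y :=
  (abs_add_le _ _).trans (add_le_add
    ((h.cs _ _).trans (mul_le_mul_of_nonneg_right ha (nr_nonneg L x)))
    ((h.cs _ _).trans (mul_le_mul_of_nonneg_right hb (nr_nonneg L y))))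

lemma Psd.dev (h : Psd L) {v u w : ℝ[X]} {P T t B τ ρ D E ζ γ : ℝ} (P0 : 0 < P) (T0 : 0 < T)
    (hd : nr L (u - C ρ * w) ≤ D) (hw : T * nr L w ≤ γ * P) (hE : |τ - ρ| * P ≤ E)
    (hζ : T * D + γ * E ≤ ζ * P) :
    T * nr L (v - C ((τ * t + B) / P) * w) ≤ T * nr L (v - C (t / P) * u) + ζ * |t| + γ * |B| := by
  have e : v - C ((τ * t + B) / P) * w = v - C (t / P) * u
      + C (t / P) * (u - C ρ * w - C (τ - ρ) * w) - C (B / P) * w := by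
    rw [show (τ * t + B) / P = t / P * τ + B / P by ring, map_add, map_mul, map_sub]
    ring
  have a1 := h.sub (v - C (t / P) * u + C (t / P) * (u - C ρ * w - C (τ - ρ) * w)) (C (B / P) * w)
  have a2 := h.add (v - C (t / P) * u) (C (t / P) * (u - C ρ * w - C (τ - ρ) * w))
  have a3 := h.sub (u - C ρ * w) (C (τ - ρ) * w)
  rw [nr_C_mul, abs_div, abs_of_pos P0] at a1 a2
  rw [nr_C_mul] at a3
  have γ0 : 0 ≤ γ := nonneg_of_mul_nonneg_left ((mul_nonneg T0.le (nr_nonneg L w)).trans hw) P0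
  have a4 : T * nr L (u - C ρ * w - C (τ - ρ) * w) ≤ ζ * P := by
    nlinarith [mul_le_mul_of_nonneg_left (a3.trans (add_le_add hd le_rfl)) T0.le,
      mul_le_mul_of_nonneg_left hw (abs_nonneg (τ - ρ)), mul_le_mul_of_nonneg_left hE γ0]
  have a5 := mul_le_mul_of_nonneg_left a4 (show 0 ≤ |t| / P by positivity)
  have a6 := mul_le_mul_of_nonneg_left hw (show 0 ≤ |B| / P by positivity)
  have e1 : |t| / P * (ζ * P) = ζ * |t| := by field_simp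
  have e2 : |B| / P * (γ * P) = γ * |B| := by field_simp
  rw [e]
  nlinarith [mul_le_mul_of_nonneg_left a1 T0.le, mul_le_mul_of_nonneg_left a2 T0.le]

/-- the abstract monotonicity step -/
lemma Psd.absA (h : Psd L) {y1 y2 z1 z2 u1 u2 w1 w2 : ℝ[X]}
    {P T ρ ρ' D1 D2 μ K1 K2 r1 r2 ζ1 ζ2 γ1 γ2 β1 β2 Γ : ℝ} (P0 : 0 < P) (T0 : 0 < T)
    (hu : L (y1 * u1) + L (y2 * u2) = P) (hw : L (z1 * w1) + L (z2 * w2) = P)
    (b1 : nr L (z1 - C ρ * y1) ≤ β1 * T) (b2 : nr L (z2 - C ρ * y2) ≤ β2 * T)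
    (d1 : nr L (u1 - C ρ' * w1) ≤ D1) (d2 : nr L (u2 - C ρ' * w2) ≤ D2)
    (n1 : nr L z1 ≤ 3 / 2 * T) (n2 : nr L z2 ≤ 3 / 2 * T)
    (g1 : T * nr L w1 ≤ γ1 * P) (g2 : T * nr L w2 ≤ γ2 * P)
    (f1 : T * D1 + γ1 * (3 / 2 * T * (D1 + D2)) ≤ ζ1 * P)
    (f2 : T * D2 + γ2 * (3 / 2 * T * (D1 + D2)) ≤ ζ2 * P)
    (τ0 : 0 ≤ L (z1 * u1) + L (z2 * u2)) (τ1 : L (z1 * u1) + L (z2 * u2) ≤ (1 - μ) * P)
    (μ0 : 0 < μ) (K10 : 0 ≤ K1) (K20 : 0 ≤ K2) (r10 : 0 < r1)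
    (r11 : r1 ≤ 1) (r20 : 0 < r2) (r21 : r2 ≤ 1)
    (c1 : K1 * (6 / r1 * ζ1 ^ 2) + K2 * (6 / r2 * ζ2 ^ 2) ≤ μ)
    (c2 : 2 / μ + K1 * (6 / r1 * γ1 ^ 2) + K2 * (6 / r2 * γ2 ^ 2) ≤ Γ)
    (c3 : 4 * Γ * β1 ^ 2 ≤ r1 * K1) (c4 : 4 * Γ * β2 ^ 2 ≤ r2 * K2) (v1 v2 : ℝ[X]) :
    (L (z1 * v1) + L (z2 * v2)) ^ 2
        + K1 * (T * nr L (v1 - C ((L (z1 * v1) + L (z2 * v2)) / P) * w1)) ^ 2
        + K2 * (T * nr L (v2 - C ((L (z1 * v1) + L (z2 * v2)) / P) * w2)) ^ 2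
      ≤ (L (y1 * v1) + L (y2 * v2)) ^ 2
        + (1 + r1) * K1 * (T * nr L (v1 - C ((L (y1 * v1) + L (y2 * v2)) / P) * u1)) ^ 2
        + (1 + r2) * K2 * (T * nr L (v2 - C ((L (y1 * v1) + L (y2 * v2)) / P) * u2)) ^ 2 := by
  obtain ⟨t, ht⟩ : ∃ t, t = L (y1 * v1) + L (y2 * v2) := ⟨_, rfl⟩
  obtain ⟨τ, hτ⟩ : ∃ τ, τ = (L (z1 * u1) + L (z2 * u2)) / P := ⟨_, rfl⟩
  obtain ⟨B, hB⟩ : ∃ B, B = L (z1 * (v1 - C (t / P) * u1)) + L (z2 * (v2 - C (t / P) * u2)) :=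
    ⟨_, rfl⟩
  have e1 : L (z1 * v1) + L (z2 * v2) = τ * t + B := by
    rw [hB, hτ, L_sub, L_sub]
    ring
  have e2 : L (y1 * (v1 - C (t / P) * u1)) + L (y2 * (v2 - C (t / P) * u2)) = 0 := by
    rw [L_sub, L_sub]
    have : t / P * P = t := by field_simp
    linear_combination -ht - t / P * hu - this
  have hB' := h.two b1 b2 (x := v1 - C (t / P) * u1) (y := v2 - C (t / P) * u2)
  have e3 : L ((z1 - C ρ * y1) * (v1 - C (t / P) * u1)) + L ((z2 - C ρ * y2) * (v2 - C (t / P) * u2))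
      = B := by
    rw [mul_comm (z1 - _), mul_comm (z2 - _), L_sub, L_sub, mul_comm _ z1, mul_comm _ z2,
      mul_comm _ y1, mul_comm _ y2]
    linear_combination -hB - ρ * e2
  rw [e3] at hB'
  have hE := h.two n1 n2 (x := u1 - C ρ' * w1) (y := u2 - C ρ' * w2)
  have e4 : L (z1 * (u1 - C ρ' * w1)) + L (z2 * (u2 - C ρ' * w2)) = (τ - ρ') * P := by
    rw [L_sub, L_sub, hτ, sub_mul, div_mul_cancel₀ _ P0.ne']
    linear_combination -ρ' * hw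
  rw [e4, abs_mul, abs_of_pos P0] at hE
  have hE' : |τ - ρ'| * P ≤ 3 / 2 * T * (D1 + D2) := by
    nlinarith [mul_le_mul_of_nonneg_left d1 T0.le, mul_le_mul_of_nonneg_left d2 T0.le]
  rw [e1, ← ht]
  exact scalA (β1 := β1) (β2 := β2) (by rw [hτ]; positivity)
    (by rw [hτ, div_le_iff₀ P0]; exact τ1) μ0 (by linarith)
    (mul_nonneg T0.le (nr_nonneg _ _)) (mul_nonneg T0.le (nr_nonneg _ _))
    (h.dev P0 T0 d1 g1 hE' f1) (h.dev P0 T0 d2 g2 hE' f2) K10 K20 r10 r11 r20 r21 c1 c2 c3 c4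

lemma Mo.even (h : Mo L N θ σ) (k : ℕ) :
    ∑ j ∈ range k, (L (X ^ (2 * j)) - L (X ^ (2 * k))) ≤ 2 * k * σ ^ 2 := by
  induction k with
  | zero => simp
  | succ k ih =>
    have a1 := h.d1 (2 * k)
    have a2 := h.d1 (2 * k + 1)
    have a3 := h.anti (2 * k)
    have a4 := h.anti (2 * k + 1)
    have k0 : (0 : ℝ) ≤ k := Nat.cast_nonneg k
    rw [sum_range_succ, show 2 * (k + 1) = 2 * k + 1 + 1 by ring]
    rw [sum_sub_distrib, sum_const, card_range, nsmul_eq_mul] at ih ⊢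
    push_cast at a1 a2 ⊢
    nlinarith [mul_nonneg k0 (sub_nonneg.2 a3), mul_nonneg k0 (sub_nonneg.2 a4)]

lemma Mo.diss (h : Mo L N θ σ) (k : ℕ) (x : ℝ[X]) :
    (L x - L (X ^ (2 * k) * x)) ^ 2 ≤ 4 * k * σ ^ 2 * (L (x * x) - L (X * x * (X * x))) := by
  obtain ⟨M, hM⟩ : ∃ M : ℝ[X] →ₗ[ℝ] ℝ, ∀ p, M p = L p - L (X ^ 2 * p) :=
    ⟨L - L.comp (LinearMap.mulLeft ℝ (X ^ 2)), fun p => rfl⟩
  have e0 : ∀ p : ℝ[X], X ^ 2 * (p * p) = X * p * (X * p) := fun p => by ring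
  have ps : Psd M := fun p => by rw [hM, e0]; exact sub_nonneg.2 (h.dir p)
  have g := mul_neg_geom_sum (X ^ 2 : ℝ[X]) k
  rw [← pow_mul] at g
  obtain ⟨G, hG⟩ : ∃ G : ℝ[X], G = ∑ i ∈ range k, (X ^ 2) ^ i := ⟨_, rfl⟩
  rw [← hG] at g
  have e1 : ∀ p, M (G * p) = L p - L (X ^ (2 * k) * p) := fun p => by
    rw [hM, ← map_sub, ← map_sub]
    congr 1
    linear_combination p * g
  have a1 := pow_le_pow_left₀ (abs_nonneg _) (ps.cs G x) 2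
  rw [sq_abs, mul_pow, ps.sq, ps.sq, e1, e1, hM, e0] at a1
  refine a1.trans (mul_le_mul_of_nonneg_right ?_ (sub_nonneg.2 (h.dir x)))
  have a2 := h.even (2 * k)
  push_cast at a2
  have a3 : ∑ j ∈ range k, (L (X ^ (2 * j)) - L (X ^ (2 * (2 * k))))
      ≤ ∑ j ∈ range (2 * k), (L (X ^ (2 * j)) - L (X ^ (2 * (2 * k)))) :=
    sum_le_sum_of_subset_of_nonneg (range_subset_range.2 (by omega)) fun j hj _ =>
      sub_nonneg.2 (h.le (by have := mem_range.1 hj; omega))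
  rw [hG, mul_sum, map_sum, map_sum, ← sum_sub_distrib]
  refine le_trans (sum_le_sum fun j hj => ?_) (a3.trans (by linarith))
  rw [← pow_mul, ← pow_add]
  exact sub_le_sub_left
    (h.le (show 2 * k + 2 * j ≤ 2 * (2 * k) by have := mem_range.1 hj; omega)) _

lemma Mo.phase1 (h : Mo L N θ σ) {y1 y2 x1 x2 : ℝ[X]} {T ω a : ℝ} {k : ℕ} (T0 : 0 < T)
    (h0 : L (y1 * x1) + L (y2 * x2) = 0) (hy : nr L (y1 - C T * X ^ (2 * k)) ≤ ω * T)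
    (hy2 : nr L y2 ≤ 3 / 2 * T) (a0 : 0 ≤ a) (a1 : a ≤ 1) (hk : 10 * a * (4 * k * σ ^ 2) ≤ 1) :
    nr L (X * x1 + C (a * L x1)) ^ 2
      ≤ (1 + a * (σ ^ 2 + 20 * ω ^ 2)) * nr L x1 ^ 2 + 45 * a * nr L x2 ^ 2 := by
  have b1 := h.psd.two hy hy2 (x := x1) (y := x2)
  have e1 : L ((y1 - C T * X ^ (2 * k)) * x1) + L (y2 * x2) = -(T * L (X ^ (2 * k) * x1)) := by
    rw [sub_mul, map_sub, mul_assoc, L_C_mul]
    linarith
  rw [e1, abs_neg, abs_mul, abs_of_pos T0] at b1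
  have b2 : |L (X ^ (2 * k) * x1)| ≤ ω * nr L x1 + 3 / 2 * nr L x2 :=
    le_of_mul_le_mul_left (by linarith) T0
  have b3 := pow_le_pow_left₀ (abs_nonneg _) b2 2
  rw [sq_abs] at b3
  have b4 := h.diss k x1
  have b5 := h.psd.cs ((1 - X) * X ^ 0) x1
  have b6 := h.d2 0 (Nat.zero_le N)
  rw [Nat.cast_zero, zero_add, one_mul] at b6
  have b7 := pow_le_pow_left₀ (abs_nonneg _)
    (b5.trans (mul_le_mul_of_nonneg_right b6 (nr_nonneg L x1))) 2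
  rw [sq_abs, pow_zero, mul_one, sub_mul, one_mul, map_sub, mul_pow] at b7
  have e2 : (X * x1 + C (a * L x1)) * (X * x1 + C (a * L x1))
      = X * x1 * (X * x1) + C (a * L x1) * (X * x1) + C (a * L x1) * (X * x1)
        + C (a * L x1) * (C (a * L x1) * 1) := by ring
  have d0 := sub_nonneg.2 (h.dir x1)
  rw [h.psd.sq, e2, map_add, map_add, map_add, L_C_mul, L_C_mul, L_C_mul]
  rw [← h.psd.sq x1] at b4 d0
  have c1 : a * L x1 * (a * L x1 * L 1) ≤ 2 * a * L x1 ^ 2 := by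
    nlinarith [mul_le_mul_of_nonneg_left h.up (sq_nonneg (a * L x1)),
      mul_nonneg (mul_nonneg a0 (sub_nonneg.2 a1)) (sq_nonneg (L x1))]
  have c2 : 2 * (L x1 * L (X * x1)) ≤ 3 * L x1 ^ 2 + σ ^ 2 * nr L x1 ^ 2 := by
    nlinarith [sq_nonneg (2 * L x1 - L (X * x1))]
  have c3 : L x1 ^ 2 ≤ 2 * L (X ^ (2 * k) * x1) ^ 2
      + 2 * (4 * k * σ ^ 2 * (nr L x1 ^ 2 - L (X * x1 * (X * x1)))) := by
    nlinarith [sq_nonneg (L x1 - 2 * L (X ^ (2 * k) * x1))]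
  have c4 : L (X ^ (2 * k) * x1) ^ 2 ≤ 2 * ω ^ 2 * nr L x1 ^ 2 + 9 / 2 * nr L x2 ^ 2 := by
    nlinarith [sq_nonneg (ω * nr L x1 - 3 / 2 * nr L x2)]
  linarith [mul_le_mul_of_nonneg_left c2 a0, mul_le_mul_of_nonneg_left c3 a0,
    mul_le_mul_of_nonneg_left c4 a0, mul_le_mul_of_nonneg_right hk d0]

lemma Mo.phase2 (h : Mo L N θ σ) (x1 x2 : ℝ[X]) {a : ℝ} (a0 : 0 ≤ a) :
    nr L (X * x2 + C (a * L (x1 + x2))) ≤ nr L x2 + 2 * a * (nr L x1 + nr L x2) := by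
  have b1 := h.psd.add (X * x2) (C (a * L (x1 + x2)) * 1)
  have b2 : nr L (X * x2) ≤ nr L x2 := Real.sqrt_le_sqrt (h.dir x2)
  have b3 := h.psd.cs 1 (x1 + x2)
  have b4 := h.psd.add x1 x2
  have b5 := h.psd.sq 1
  rw [nr_C_mul, abs_mul, abs_of_nonneg a0, mul_one] at b1
  rw [one_mul] at b3 b5
  have o := nr_nonneg L 1
  have b6 : |L (x1 + x2)| * nr L 1 ≤ 2 * (nr L x1 + nr L x2) := by
    nlinarith [mul_le_mul_of_nonneg_right b3 o, h.up, nr_nonneg L (x1 + x2),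
      mul_le_mul_of_nonneg_right (b5.le.trans h.up) (nr_nonneg L (x1 + x2))]
  linarith [mul_le_mul_of_nonneg_left b6 a0]

end Pool.Agent.P.MP_bdc337_an.KR
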