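import Pool.Agent.P.MP_bdc337_an.KR.H

/-! Parameters and the quantitative facts on both trajectories. -/

set_option autoImplicit false

open Finset Polynomial

namespace Pool.Agent.P.MP_bdc337_an.KR

/-- admissible parameters -/
structure Par (θ σ e1 e2 k1 k2 : ℝ) : Prop where
  p1 : 0 < e1
  p2 : 0 < e2
  sm : e1 + e2 = 1
  q1 : 0 < k1
  q2 : 0 < k2
  c1 : 10 ^ 15 * (k1 * e2 ^ 2) ≤ θ ^ 7
  c2 : 10 ^ 15 * (k2 * e2 ^ 2) ≤ θ ^ 6
  c3 : 10 ^ 15 * e1 ^ 2 ≤ θ ^ 2 * k2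
  c4 : 10 ^ 15 * (e1 * k1) ≤ θ ^ 3 * k2
  c5 : 10 ^ 15 * (k2 * e2 ^ 2) ≤ θ * k1
  c6 : σ ≤ e1 * e2
  c7 : 10 ^ 15 * σ ^ 2 ≤ e1 ^ 2 * θ ^ 5 * k1
  c8 : 10 ^ 15 * σ ^ 2 ≤ e1 ^ 2 * θ ^ 6

variable {L : ℝ[X] →ₗ[ℝ] ℝ} {N : ℕ} {θ σ e1 e2 k1 k2 : ℝ}

lemma Par.l1 (hp : Par θ σ e1 e2 k1 k2) : e1 ≤ 1 := by linarith [hp.p2, hp.sm]

lemma Par.l2 (hp : Par θ σ e1 e2 k1 k2) : e2 ≤ 1 := by linarith [hp.p1, hp.sm]

lemma Par.rate (hp : Par θ σ e1 e2 k1 k2) {n M : ℝ} (n1 : 1 ≤ n) (hM : 2 * n ≤ M) :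
    1 / M ≤ e1 / n + e2 / M ∧ e1 / n + e2 / M ≤ 1 / n := by
  have a1 : e1 / M ≤ e1 / n := div_le_div_of_nonneg_left hp.p1.le (by linarith) (by linarith)
  have a2 : e2 / M ≤ e2 / n := div_le_div_of_nonneg_left hp.p2.le (by linarith) (by linarith)
  rw [← hp.sm, add_div, add_div]
  exact ⟨by linarith, by linarith⟩

lemma Par.cond (hp : Par θ σ e1 e2 k1 k2) (θ0 : 0 < θ) (θ1 : θ ≤ 1) {n M A ν : ℝ} (n1 : 1 ≤ n)
    (hM : 2 * n ≤ M) (hA : A = e1 / n + e2 / M) (ν0 : M / (2 * n) ≤ ν) (ν1 : ν ≤ 16 * M / n) :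
    k1 * (6 / (θ * A / 2) * (2000 * e2 * A / θ ^ 2) ^ 2)
        + k2 * ν * (6 / (1 / n) * (45000 * (e2 / M) / θ ^ 2) ^ 2) ≤ θ ^ 2 * A / 340 ∧
      2 / (θ ^ 2 * A / 340) + k1 * (6 / (θ * A / 2) * (3 / (2 * θ)) ^ 2)
        + k2 * ν * (6 / (1 / n) * (48 * e2 * (n / M) / θ) ^ 2) ≤ (681 * θ + 27 * k1) / (θ ^ 3 * A) ∧
      4 * ((681 * θ + 27 * k1) / (θ ^ 3 * A)) * (164 * (σ / (e1 * θ)) * A) ^ 2 ≤ θ * A / 2 * k1 ∧
      4 * ((681 * θ + 27 * k1) / (θ ^ 3 * A)) * (300 * (e1 / n)) ^ 2 ≤ 1 / n * (k2 * ν) := by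
  obtain ⟨a1, a2⟩ := hp.rate n1 hM
  rw [← hA] at a1 a2
  have n0 : 0 < n := by linarith
  have M0 : 0 < M := by linarith
  have A0 : 0 < A := lt_of_lt_of_le (by positivity) a1
  have p1 := hp.p1
  have p2 := hp.p2
  have q1 := hp.q1
  have q2 := hp.q2
  refine ⟨?_, ?_, ?_, ?_⟩
  · have b1 : k1 * (6 / (θ * A / 2) * (2000 * e2 * A / θ ^ 2) ^ 2)
        = 48000000 * (k1 * e2 ^ 2) * A / θ ^ 5 := by field_simp; ring
    have b2 : 48000000 * (k1 * e2 ^ 2) * A / θ ^ 5 ≤ θ ^ 2 * A / 680 := by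
      rw [div_le_iff₀ (by positivity)]
      have := mul_pos (pow_pos θ0 7) A0
      linarith [mul_le_mul_of_nonneg_right hp.c1 A0.le]
    have b3 := mul_le_mul_of_nonneg_right (mul_le_mul_of_nonneg_left ν1 q2.le)
      (show 0 ≤ 6 / (1 / n) * (45000 * (e2 / M) / θ ^ 2) ^ 2 by positivity)
    have b4 : k2 * (16 * M / n) * (6 / (1 / n) * (45000 * (e2 / M) / θ ^ 2) ^ 2)
        = 194400000000 * (k2 * e2 ^ 2) * (1 / M) / θ ^ 4 := by field_simp; ring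
    have b5 : 194400000000 * (k2 * e2 ^ 2) * (1 / M) / θ ^ 4 ≤ θ ^ 2 * A / 680 := by
      rw [div_le_iff₀ (by positivity)]
      have := mul_pos (pow_pos θ0 6) A0
      linarith [mul_le_mul_of_nonneg_right hp.c2 A0.le,
        mul_le_mul_of_nonneg_left a1 (show 0 ≤ k2 * e2 ^ 2 by positivity)]
    linarith
  · have b1 : (681 * θ + 27 * k1) / (θ ^ 3 * A) = 2 / (θ ^ 2 * A / 340)
        + k1 * (6 / (θ * A / 2) * (3 / (2 * θ)) ^ 2) + 1 / (θ ^ 2 * A) := by field_simp; ring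
    have b3 := mul_le_mul_of_nonneg_right (mul_le_mul_of_nonneg_left ν1 q2.le)
      (show 0 ≤ 6 / (1 / n) * (48 * e2 * (n / M) / θ) ^ 2 by positivity)
    have b4 : k2 * (16 * M / n) * (6 / (1 / n) * (48 * e2 * (n / M) / θ) ^ 2)
        = 221184 * (k2 * e2 ^ 2) * (n / M * (A * n)) / (θ ^ 2 * A) := by field_simp; ring
    have b5 : n / M * (A * n) ≤ 1 := mul_le_one₀ (by rw [div_le_one M0]; linarith) (by positivity)
      ((le_div_iff₀ n0).1 a2)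
    have b6 : 221184 * (k2 * e2 ^ 2) ≤ 1 := by
      linarith [hp.c2, pow_le_one₀ θ0.le θ1 (n := 6), show 0 ≤ k2 * e2 ^ 2 by positivity]
    have b7 := div_le_div_of_nonneg_right (mul_le_one₀ b6 (by positivity) b5)
      (show 0 ≤ θ ^ 2 * A by positivity)
    linarith
  · have b1 : 4 * ((681 * θ + 27 * k1) / (θ ^ 3 * A)) * (164 * (σ / (e1 * θ)) * A) ^ 2
        = 107584 * (681 * θ + 27 * k1) * σ ^ 2 * A / (θ ^ 5 * e1 ^ 2) := by field_simp; ring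
    rw [b1, div_le_iff₀ (by positivity)]
    have := mul_pos (mul_pos (mul_pos (pow_pos p1 2) (pow_pos θ0 6)) q1) A0
    linarith [mul_le_mul_of_nonneg_right hp.c7 (mul_pos θ0 A0).le,
      mul_le_mul_of_nonneg_right hp.c8 (mul_pos q1 A0).le]
  · have b1 : 4 * ((681 * θ + 27 * k1) / (θ ^ 3 * A)) * (300 * (e1 / n)) ^ 2
        = 360000 * (681 * θ + 27 * k1) * e1 ^ 2 / (θ ^ 3 * A * n ^ 2) := by field_simp; ring
    have b2 : 1 / n * (k2 * (M / (2 * n))) = k2 * θ ^ 3 * (A * M) / 2 / (θ ^ 3 * A * n ^ 2) := by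
      field_simp
    have b3 := mul_le_mul_of_nonneg_left (mul_le_mul_of_nonneg_left ν0 q2.le)
      (show 0 ≤ 1 / n by positivity)
    refine le_trans ?_ b3
    rw [b1, b2]
    refine div_le_div_of_nonneg_right ?_ (by positivity)
    have b4 := mul_le_mul_of_nonneg_left ((div_le_iff₀ M0).1 a1)
      (show 0 ≤ k2 * θ ^ 3 by positivity)
    have b5 := mul_le_mul_of_nonneg_right hp.l1 (show 0 ≤ e1 * k1 by positivity)
    have := mul_pos q2 (pow_pos θ0 3)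
    linarith [mul_le_mul_of_nonneg_right hp.c3 θ0.le, hp.c4]

lemma Par.sig (hp : Par θ σ e1 e2 k1 k2) (θ0 : 0 < θ) (θ1 : θ ≤ 1) :
    62280 * σ ≤ e1 * θ ^ 2 ∧ 10000 * (σ / (e1 * θ)) ^ 2 ≤ θ ∧ 100 * σ ^ 2 ≤ 1 := by
  have p1 := hp.p1
  have a1 : θ ^ 6 ≤ θ ^ 4 := pow_le_pow_of_le_one θ0.le θ1 (by norm_num)
  have a2 : θ ^ 6 ≤ θ ^ 3 := pow_le_pow_of_le_one θ0.le θ1 (by norm_num)
  have a3 := mul_le_one₀ (pow_le_one₀ p1.le hp.l1 (n := 2)) (pow_pos θ0 6).le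
    (pow_le_one₀ θ0.le θ1)
  refine ⟨(abs_le_of_sq_le_sq' ?_ (by positivity)).2, ?_, by linarith [hp.c8, sq_nonneg σ]⟩
  · linarith [mul_le_mul_of_nonneg_left a1 (sq_nonneg e1), hp.c8, sq_nonneg σ]
  · rw [div_pow, ← mul_div_assoc, div_le_iff₀ (by positivity)]
    linarith [mul_le_mul_of_nonneg_left a2 (sq_nonneg e1), hp.c8, sq_nonneg σ]

lemma Psd.dec (h : Psd L) {c : ℕ → ℝ} (hc : ∀ i, 0 ≤ c i) {l m : ℕ} {E0 E1 : ℝ}
    (Z0 : 0 < S c (l + 1)) (h0 : nr L (V c (l + 1) - V c l - C (c l) * X ^ m) ≤ E0)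
    (h1 : nr L (V c (l + 1) - C (S c (l + 1)) * X ^ m) ≤ E1) :
    nr L (V c l - C (1 - c l / S c (l + 1)) * V c (l + 1)) ≤ E0 + c l / S c (l + 1) * E1 := by
  have e0 : (C (c l) : ℝ[X]) = C (c l / S c (l + 1)) * C (S c (l + 1)) := by
    rw [← map_mul, div_mul_cancel₀ _ Z0.ne']
  have e : V c l - C (1 - c l / S c (l + 1)) * V c (l + 1)
      = C (c l / S c (l + 1)) * (V c (l + 1) - C (S c (l + 1)) * X ^ m)
        - (V c (l + 1) - V c l - C (c l) * X ^ m) := by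
    rw [map_sub, map_one]
    linear_combination -X ^ m * e0
  have c0 : 0 ≤ c l / S c (l + 1) := div_nonneg (hc l) Z0.le
  rw [e]
  refine (h.sub _ _).trans ?_
  rw [nr_C_mul, abs_of_nonneg c0]
  linarith [mul_le_mul_of_nonneg_left h1 c0]

lemma Mo.Sq (h : Mo L N θ σ) (h1 : 0 ≤ e1) (h2 : 0 ≤ e2) {n k : ℕ} (hn : 1 ≤ n)
    (hk : k + n ≤ N + 1) : S (qq L e1 e2 N) k ≤ N * (2 * (e2 / n) * S (pq L e1 e2 N) k) := by
  have n0 : (0 : ℝ) < n := by exact_mod_cast hn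
  have Z0 := S_nonneg (h.pq0 h1 h2) k
  have := sum_le_card_nsmul (range k) (qq L e1 e2 N) (2 * (e2 / n) * S (pq L e1 e2 N) k)
    fun i hi => by
      have hi' := mem_range.1 hi
      have b1 := (h.qb h1 h2 (i := i) (by omega)).2
      have b2 := S_mono (h.pq0 h1 h2) hi'.le
      have b3 : (i : ℝ) + n ≤ N := by exact_mod_cast (by omega : i + n ≤ N)
      rw [show 2 * (e2 / n) * S (pq L e1 e2 N) k = e2 * (2 * S (pq L e1 e2 N) k) / n by ring,
        le_div_iff₀ n0]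
      linarith [mul_le_mul_of_nonneg_right b3 (h.qq0 h1 h2 i), mul_le_mul_of_nonneg_left b2 h2]
  rw [card_range, nsmul_eq_mul] at this
  exact this.trans (mul_le_mul_of_nonneg_right (by exact_mod_cast (by omega : k ≤ N))
    (by positivity))

lemma Mo.back (h : Mo L N θ σ) (hp : Par θ σ e1 e2 k1 k2) {n l : ℕ} (hn : 1 ≤ n) (hl : l + n = N)
    (hnl : n ≤ l) {T T2 : ℝ} (hT : T = S (pq L e2 e1 N) l) (hT2 : T2 = S (pp L e2) l) :
    1 ≤ T2 ∧ T2 ≤ T ∧ (e1 / n + e2 / N) * T ≤ 3 * (e1 / n * T + e2 / N * T2) ∧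
      θ * (e1 / n * T + e2 / N * T2) ≤ pq L e2 e1 N l ∧ pp L e2 l ≤ 4 * (e2 / N) * T2 ∧
      qq L e2 e1 N l ≤ 2 * (e1 / n) * T := by
  have p1 := hp.p1
  have p2 := hp.p2
  have n0 : (0 : ℝ) < n := by exact_mod_cast hn
  have nl : (n : ℝ) ≤ l := by exact_mod_cast hnl
  have eN : (N : ℝ) = l + n := by rw [← hl]; push_cast; ring
  have N0 : (0 : ℝ) < N := by linarith
  have a1 := h.S1 p2.le (show 1 ≤ l by omega)
  have a2 := (h.Sle (N := N) p2.le p1.le l).1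
  have a3 := h.Sq p2.le p1.le hn (show l + n ≤ N + 1 by omega)
  have a4 := S_pq L e2 e1 N l
  obtain ⟨b1, b2⟩ := h.pb p2.le (show l ≤ N by omega)
  obtain ⟨b3, b4⟩ := h.qb p2.le p1.le (show l < N by omega)
  rw [← hT] at a2 a3 a4 b3 b4
  rw [← hT2] at a1 a2 a4 b1 b2
  rw [show (N : ℝ) - l = n by linarith] at b3 b4
  have p0 := h.pp0 p2.le l
  refine ⟨a1, a2, ?_, ?_, ?_, ?_⟩
  · have c1 := mul_le_mul_of_nonneg_left a3 (show 0 ≤ e2 / N by positivity)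
    have c2 : e2 / N * (N * (2 * (e1 / n) * T)) = e2 * (2 * (e1 / n) * T) := by field_simp
    have T0 : 0 ≤ T := by linarith
    have c3 := mul_le_mul_of_nonneg_right hp.l2 (show 0 ≤ 2 * (e1 / n) * T by positivity)
    have c4 : 0 ≤ e2 / N * T2 := by positivity
    have c5 : e2 / N * T = e2 / N * T2 + e2 / N * S (qq L e2 e1 N) l := by rw [a4]; ring
    linarith
  · have c1 : θ * (e1 / n * T) ≤ qq L e2 e1 N l := by
      rw [show θ * (e1 / n * T) = e1 * (θ * T) / n by ring, div_le_iff₀' n0]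
      exact b3
    have c2 : θ * (e2 / N * T2) ≤ pp L e2 l := by
      rw [show θ * (e2 / N * T2) = e2 * (θ * T2) / N by ring, div_le_iff₀' N0, eN]
      linarith [mul_nonneg n0.le p0]
    rw [pq]
    linarith
  · rw [show 4 * (e2 / N) * T2 = 4 * e2 * T2 / N by ring, le_div_iff₀ N0, eN]
    linarith [mul_le_mul_of_nonneg_right nl p0]
  · rw [show 2 * (e1 / n) * T = e1 * (2 * T) / n by ring, le_div_iff₀' n0]
    exact b4

lemma Mo.grow (h : Mo L N θ σ) (hp : Par θ σ e1 e2 k1 k2) {n l : ℕ} (hn : 1 ≤ n) (hl : l + n = N)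
    (hnl : n ≤ l) {T A : ℝ} (hT : T = S (pq L e2 e1 N) l) (hA : A = e1 / n + e2 / N) :
    1 ≤ T ∧ pq L e2 e1 N l ≤ 4 * A * T ∧ S (pq L e2 e1 N) (l + 1) ≤ 5 * T ∧
      T ≤ S (pq L e2 e1 N) (l + 1) ∧ (1 + θ * A / 2) * T ^ 2 ≤ S (pq L e2 e1 N) (l + 1) ^ 2 := by
  obtain ⟨a1, a2, a3, a4, a5, a6⟩ := h.back hp hn hl hnl hT rfl
  have n1 : (1 : ℝ) ≤ n := by exact_mod_cast hn
  have p1 := hp.p1
  have p2 := hp.p2
  have θ0 := h.θ0
  have A1 := (hp.rate n1 (show 2 * (n : ℝ) ≤ N by exact_mod_cast (by omega : 2 * n ≤ N))).2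
  have T0 : 0 < T := by linarith
  have b1 : pq L e2 e1 N l ≤ 4 * A * T := by
    have := mul_le_mul_of_nonneg_left a2 (show 0 ≤ e2 / N by positivity)
    have : 0 ≤ e1 / n * T := by positivity
    rw [pq, hA]
    linarith
  rw [← hA] at A1 a3
  have A2 : A ≤ 1 := A1.trans (by rw [div_le_one (by linarith)]; exact n1)
  have b2 : θ * (A * T) ≤ 3 * pq L e2 e1 N l := by linarith [mul_le_mul_of_nonneg_left a3 θ0.le]
  have b3 := h.pq0 (N := N) p2.le p1.le l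
  rw [S_succ, ← hT]
  refine ⟨by linarith, b1, by linarith [mul_le_mul_of_nonneg_right A2 T0.le], by linarith, ?_⟩
  linarith [mul_le_mul_of_nonneg_left b2 T0.le, sq_nonneg (pq L e2 e1 N l), mul_nonneg T0.le b3]

lemma Mo.beta (h : Mo L N θ σ) (hp : Par θ σ e1 e2 k1 k2) {n l : ℕ} (hn : 1 ≤ n) (hl : l + n = N)
    (hnl : n ≤ l) {T A : ℝ} (hT : T = S (pq L e2 e1 N) l) (hA : A = e1 / n + e2 / N) :
    ∃ ρ : ℝ, nr L (V (pq L e2 e1 N) l - C ρ * V (pq L e2 e1 N) (l + 1))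
        ≤ 164 * (σ / (e1 * θ)) * A * T ∧
      nr L (V (pp L e2) l - C ρ * V (pp L e2) (l + 1)) ≤ 300 * (e1 / n) * T := by
  obtain ⟨a1, a2, -, -, a5, a6⟩ := h.back hp hn hl hnl hT rfl
  obtain ⟨g1, g2, g3, g4, -⟩ := h.grow hp hn hl hnl hT hA
  have p1 := hp.p1
  have p2 := hp.p2
  have θ0 := h.θ0
  have σ0 := h.σ0
  have n0 : (0 : ℝ) < n := by exact_mod_cast hn
  have N0 : (0 : ℝ) < N := by exact_mod_cast (by omega : 0 < N)
  obtain ⟨y1, y2⟩ := h.Yest p2.le p1 hp.l2 hp.l1 (m := 2 * (n / 8)) hn hl hnl (by omega) (by omega)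
  obtain ⟨z1, z2⟩ := h.Pest p2.le hp.l2 (l := l) (m := 2 * (n / 8)) hn (by omega) hnl (by omega)
    (by omega)
  have s1 := S_mono (h.pp0 p2.le) (Nat.le_succ l)
  have s2 := S_pq L e2 e1 N (l + 1)
  have s3 := h.Sq p2.le p1.le hn (show l + 1 + n ≤ N + 1 by omega)
  have s4 := S_nonneg (h.qq0 (N := N) p2.le p1.le) (l + 1)
  have s5 := (h.pb p2.le (show l ≤ N by omega)).2
  have y3 := h.psd.dec (h.pq0 p2.le p1.le) (by linarith) y1 y2
  have z3 := h.psd.dec (h.pp0 p2.le) (by linarith) z1 z2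
  have z4 := h.nrV (h.pp0 p2.le) (l + 1)
  have p0 := h.pp0 p2.le l
  have q0 := h.qq0 (N := N) p2.le p1.le l
  refine ⟨_, y3.trans ?_, ?_⟩
  · have W0 : 0 ≤ σ / (e1 * θ) := by positivity
    have c1 : pq L e2 e1 N l / S (pq L e2 e1 N) (l + 1) * (11 * σ * S (pq L e2 e1 N) (l + 1) / (e1 * θ))
        = 11 * (σ / (e1 * θ)) * pq L e2 e1 N l := by
      have : S (pq L e2 e1 N) (l + 1) ≠ 0 := by linarith
      field_simp
    have c2 : 24 * σ * S (pq L e2 e1 N) (l + 1) / n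
        = 24 * (σ / (e1 * θ)) * (θ * (e1 / n) * S (pq L e2 e1 N) (l + 1)) := by field_simp
    have c3 : θ * (e1 / n) ≤ A := by
      have : 0 ≤ e2 / N := by positivity
      linarith [mul_le_mul_of_nonneg_right h.θ1 (show 0 ≤ e1 / n by positivity)]
    have c4 := mul_le_mul c3 g3 (by linarith) ((by positivity : 0 ≤ θ * (e1 / n)).trans c3)
    rw [c1, c2]
    linarith [mul_le_mul_of_nonneg_left c4 W0, mul_le_mul_of_nonneg_left g2 W0]
  · rw [pq] at g2 ⊢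
    generalize S (pq L e2 e1 N) (l + 1) = Z at *
    generalize S (pp L e2) (l + 1) = Z2 at *
    generalize S (qq L e2 e1 N) (l + 1) = Q at *
    generalize S (pp L e2) l = T2 at *
    generalize pp L e2 l = p at *
    generalize qq L e2 e1 N l = q at *
    have Z0 : 0 < Z := by linarith
    have Z20 : 0 < Z2 := by linarith
    have e : V (pp L e2) l - C (1 - (p + q) / Z) * V (pp L e2) (l + 1)
        = V (pp L e2) l - C (1 - p / Z2) * V (pp L e2) (l + 1)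
          + C ((p + q) / Z - p / Z2) * V (pp L e2) (l + 1) := by
      simp only [map_sub]
      ring
    have σ1 : σ ≤ e1 := hp.c6.trans (mul_le_of_le_one_right p1.le hp.l2)
    have c1 : p / Z2 * (17 * σ * Z2 * l / n) = 17 * (σ / n) * (l * p) := by field_simp
    have c2 : 18 * σ * Z2 / n = 18 * (σ / n) * Z2 := by ring
    have c3 : l * p ≤ 2 * Z2 := by
      linarith [mul_le_mul_of_nonneg_right hp.l2 (show 0 ≤ T2 by linarith)]
    have c4 := mul_le_mul (div_le_div_of_nonneg_right σ1 n0.le) (show Z2 ≤ 5 * T by linarith)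
      Z20.le (by positivity)
    have c5 := mul_le_mul_of_nonneg_left c3 (show 0 ≤ σ / n by positivity)
    have c6 : |(p + q) / Z - p / Z2| * Z2 ≤ 8 * (e1 / n) * T := by
      have d1 : ((p + q) / Z - p / Z2) * Z2 = q * (Z2 / Z) - p * (Q / Z) := by
        rw [show Q = Z - Z2 by linarith]
        field_simp
        ring
      have d2 : q * (Z2 / Z) ≤ q :=
        mul_le_of_le_one_right q0 (by rw [div_le_one Z0]; linarith)
      have d3 : Q / Z ≤ N * (2 * (e1 / n)) := by rw [div_le_iff₀ Z0]; linarith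
      have d4 := mul_le_mul a5 d3 (by positivity) (p0.trans a5)
      have d5 : 4 * (e2 / N) * T2 * (N * (2 * (e1 / n))) = 8 * (e1 / n) * (e2 * T2) := by
        field_simp
        ring
      have d6 := mul_le_mul_of_nonneg_left (mul_le_mul hp.l2 a2 (by linarith) zero_le_one)
        (show 0 ≤ e1 / n by positivity)
      have d7 : 0 ≤ q * (Z2 / Z) := by positivity
      have d8 : 0 ≤ p * (Q / Z) := by positivity
      rw [← abs_of_pos Z20, ← abs_mul, abs_of_pos Z20, d1, abs_le]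
      constructor <;> linarith
    have c7 := mul_le_mul_of_nonneg_left z4 (abs_nonneg ((p + q) / Z - p / Z2))
    have c8 : 0 ≤ e1 / n * T := mul_nonneg (by positivity) (by linarith)
    rw [e]
    refine (h.psd.add _ _).trans ?_
    rw [nr_C_mul]
    rw [c1, c2] at z3
    linarith

lemma Mo.delta (h : Mo L N θ σ) (hp : Par θ σ e1 e2 k1 k2) {n : ℕ} (hn : 1 ≤ n) (hN : 2 * n ≤ N)
    {Z : ℝ} (hZ : Z = S (pp L e1) (n + 1)) :
    1 ≤ Z ∧ Z ≤ 3 * S (pp L e1) n ∧ S (qq L e1 e2 N) (n + 1) ≤ 32 * e2 * (n / N) * Z ∧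
    ∃ ρ : ℝ, nr L (V (pp L e1) n - C ρ * V (pp L e1) (n + 1)) ≤ 52 * (σ / n) * Z ∧
      nr L (V (qq L e1 e2 N) n - C ρ * V (qq L e1 e2 N) (n + 1)) ≤ 563 * (e2 / N) * Z := by
  have p1 := hp.p1
  have p2 := hp.p2
  have σ0 := h.σ0
  have n1 : (1 : ℝ) ≤ n := by exact_mod_cast hn
  have n0 : (0 : ℝ) < n := by linarith
  have N0 : (0 : ℝ) < N := by exact_mod_cast (by omega : 0 < N)
  have Z1 := h.S1 p1.le (show 1 ≤ n + 1 by omega)
  obtain ⟨z1, z2⟩ := h.Pest p1.le hp.l1 (l := n) (m := 2 * (n / 8)) hn (by omega) le_rfl (by omega)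
    (by omega)
  obtain ⟨u1, u2, u3⟩ := h.Uest p1.le p2.le hp.l1 hp.l2 (m := 2 * (n / 8)) hn hN (by omega) (by omega)
  have z3 := h.psd.dec (h.pp0 p1.le) (by linarith) z1 z2
  have s1 := (h.pb p1.le (show n ≤ N by omega)).2
  have s2 := S_succ (pp L e1) n
  have s3 := S_nonneg (h.pp0 p1.le) n
  have p0 := h.pp0 p1.le n
  have q0 := h.qq0 (N := N) p1.le p2.le n
  have v1 := h.nrV (h.qq0 (N := N) p1.le p2.le) (n + 1)
  rw [← hZ] at Z1 z3 u1 u2 u3 s2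
  have Z0 : 0 < Z := by linarith
  have s4 : n * pp L e1 n ≤ 2 * S (pp L e1) n := by
    linarith [mul_le_mul_of_nonneg_right hp.l1 s3]
  have s5 : S (qq L e1 e2 N) (n + 1) ≤ 32 * e2 * (n / N) * Z := by
    rw [show 32 * e2 * (n / N) * Z = 32 * e2 * n * Z / N by ring, le_div_iff₀' N0]
    exact u2
  refine ⟨Z1, by linarith [mul_le_mul_of_nonneg_right n1 p0], s5, _, z3.trans ?_, ?_⟩
  · have c1 : pp L e1 n / Z * (17 * σ * Z * n / n) = 17 * (σ / n) * (n * pp L e1 n) := by field_simp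
    have c2 : 18 * σ * Z / n = 18 * (σ / n) * Z := by ring
    rw [c1, c2]
    linarith [mul_le_mul_of_nonneg_left (show n * pp L e1 n ≤ 2 * Z by linarith)
      (show 0 ≤ σ / n by positivity)]
  · have e : V (qq L e1 e2 N) n - C (1 - pp L e1 n / Z) * V (qq L e1 e2 N) (n + 1)
        = C (pp L e1 n / Z) * V (qq L e1 e2 N) (n + 1) - C (qq L e1 e2 N n) * X ^ (2 * (n / 8))
          - (V (qq L e1 e2 N) (n + 1) - V (qq L e1 e2 N) n
            - C (qq L e1 e2 N n) * X ^ (2 * (n / 8))) := by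
      rw [map_sub, map_one]
      ring
    have c0 := h.psd.sub (C (pp L e1 n / Z) * V (qq L e1 e2 N) (n + 1))
      (C (qq L e1 e2 N n) * X ^ (2 * (n / 8)))
    rw [nr_C_mul, nr_C_mul, abs_of_nonneg q0, abs_of_nonneg (by positivity)] at c0
    have c1 : pp L e1 n / Z ≤ 2 / n := by
      rw [div_le_div_iff₀ Z0 n0]
      linarith
    have c2 := mul_le_mul c1 (v1.trans (mul_le_mul_of_nonneg_left s5 (by norm_num))) (nr_nonneg _ _)
      (by positivity)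
    have c3 : 2 / n * (3 / 2 * (32 * e2 * (n / N) * Z)) = 96 * (e2 / N * Z) := by
      field_simp
      ring
    have c4 : qq L e1 e2 N n ≤ 16 * (e2 / N * Z) := by
      rw [show 16 * (e2 / N * Z) = 16 * e2 * Z / N by ring, le_div_iff₀' N0]
      exact u1
    have c5 := mul_le_mul c4 (h.nrX (2 * (n / 8))) (nr_nonneg _ _) (by positivity)
    have c6 : 443 * σ * e2 * Z / N = 443 * (σ * (e2 / N * Z)) := by ring
    have c7 := mul_le_mul_of_nonneg_right h.σ1 (show 0 ≤ e2 / N * Z by positivity)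
    rw [e]
    refine (h.psd.sub _ _).trans ?_
    linarith

end Pool.Agent.P.MP_bdc337_an.KR
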