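import Pool.Agent.P.MP_bdc337_an.KR.I

/-! The Lyapunov forms and their three properties. -/

set_option autoImplicit false

open Finset Polynomial

namespace Pool.Agent.P.MP_bdc337_an.KR

/-- the adjoint functional -/
noncomputable def lf (L : ℝ[X] →ₗ[ℝ] ℝ) (e1 e2 : ℝ) (N r : ℕ) (v1 v2 : ℝ[X]) : ℝ :=
  L (V (pq L e2 e1 N) r * v1) + L (V (pp L e2) r * v2)

/-- weight of the second phase -/
noncomputable def nu (N n r : ℕ) : ℝ := N / n * (2 * r / N) ^ 4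

/-- the Lyapunov form -/
noncomputable def qf (L : ℝ[X] →ₗ[ℝ] ℝ) (e1 e2 k1 k2 P : ℝ) (N n r : ℕ) (v1 v2 : ℝ[X]) : ℝ :=
  lf L e1 e2 N r v1 v2 ^ 2
    + k1 * (S (pq L e2 e1 N) r * nr L (v1 - C (lf L e1 e2 N r v1 v2 / P) * V (pp L e1) n)) ^ 2
    + k2 * nu N n r
      * (S (pq L e2 e1 N) r * nr L (v2 - C (lf L e1 e2 N r v1 v2 / P) * V (qq L e1 e2 N) n)) ^ 2

variable {L : ℝ[X] →ₗ[ℝ] ℝ} {N : ℕ} {θ σ e1 e2 k1 k2 : ℝ}

lemma nu_facts {n l : ℕ} (hn : 1 ≤ n) (hl : l + n = N) (hnl : n ≤ l) :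
    (N : ℝ) / (2 * n) ≤ nu N (n + 1) l ∧ nu N (n + 1) l ≤ 16 * N / n ∧
      (1 + 1 / n) * (1 + 2 / l) ^ 2 * nu N (n + 1) l ≤ nu N n (l + 1) := by
  have n1 : (1 : ℝ) ≤ n := by exact_mod_cast hn
  have nl : (n : ℝ) ≤ l := by exact_mod_cast hnl
  have eN : (N : ℝ) = l + n := by rw [← hl]; push_cast; ring
  have n0 : (0 : ℝ) < n := by linarith
  have l0 : (0 : ℝ) < l := by linarith
  have N0 : (0 : ℝ) < N := by linarith
  have a1 : (1 : ℝ) ≤ (2 * l / N) ^ 4 := one_le_pow₀ (by rw [one_le_div N0]; linarith)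
  have a2 : (2 * l / N : ℝ) ^ 4 ≤ 2 ^ 4 :=
    pow_le_pow_left₀ (by positivity) (by rw [div_le_iff₀ N0]; linarith) 4
  have a3 : (N : ℝ) / (2 * n) ≤ N / (n + 1) :=
    div_le_div_of_nonneg_left N0.le (by positivity) (by linarith)
  have a4 : (N : ℝ) / (n + 1) ≤ N / n := div_le_div_of_nonneg_left N0.le n0 (by linarith)
  unfold nu
  push_cast
  refine ⟨a3.trans (le_mul_of_one_le_right (by positivity) a1),
    (mul_le_mul a4 a2 (by positivity) (by positivity)).trans (le_of_eq (by ring)), ?_⟩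
  have b1 : (1 + 2 / l : ℝ) ^ 2 ≤ ((1 + 1 / l) ^ 2) ^ 2 :=
    pow_le_pow_left₀ (by positivity) (by
      have : (2 / l : ℝ) = 2 * (1 / l) := by ring
      nlinarith [sq_nonneg (1 / l : ℝ)]) 2
  have b2 : (N / n * (2 * (l + 1) / N) ^ 4 : ℝ)
      = (1 + 1 / n) * ((1 + 1 / l) ^ 2) ^ 2 * (N / (n + 1) * (2 * l / N) ^ 4) := by
    field_simp
  rw [b2]
  exact mul_le_mul_of_nonneg_right (mul_le_mul_of_nonneg_left b1 (by positivity)) (by positivity)

lemma Mo.mu (h : Mo L N θ σ) (hp : Par θ σ e1 e2 k1 k2) {n l : ℕ} (hn : 1 ≤ n) (hl : l + n = N)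
    (hnl : n ≤ l) {T Z A P : ℝ} (hT : T = S (pq L e2 e1 N) l) (hZ : Z = S (pp L e1) (n + 1))
    (hA : A = e1 / n + e2 / N)
    (hP : lf L e1 e2 N l (V (pp L e1) (n + 1)) (V (qq L e1 e2 N) (n + 1)) = P) :
    θ * (T * Z) ≤ P ∧ 0 ≤ lf L e1 e2 N l (V (pp L e1) n) (V (qq L e1 e2 N) n) ∧
      lf L e1 e2 N l (V (pp L e1) n) (V (qq L e1 e2 N) n) ≤ (1 - θ ^ 2 * A / 340) * P := by
  obtain ⟨a1, a2, a3, -⟩ := h.back hp hn hl hnl hT rfl
  obtain ⟨d1, d2, d3, -⟩ := h.delta hp hn (by omega) hZ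
  have p1 := hp.p1
  have p2 := hp.p2
  have θ0 := h.θ0
  have σ0 := h.σ0
  have n0 : (0 : ℝ) < n := by exact_mod_cast hn
  have nN : 2 * (n : ℝ) ≤ N := by exact_mod_cast (by omega : 2 * n ≤ N)
  have N0 : (0 : ℝ) < N := by linarith
  have c0 := h.pq0 (N := N) p2.le p1.le
  have c1 := h.pp0 p2.le
  have c2 := h.pp0 p1.le
  have c3 := h.qq0 (N := N) p1.le p2.le
  obtain ⟨b1, b2⟩ := h.LVV c0 c2 (l := l) (k := n + 1) (by omega)
  obtain ⟨b3, b4⟩ := h.LVV c1 c3 (l := l) (k := n + 1) (by omega)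
  have b5 := (h.LVV c0 c2 (l := l) (k := n) (by omega)).1
  have b6 := (h.LVV c1 c3 (l := l) (k := n) (by omega)).1
  have z1 := (h.Pest p1.le hp.l1 (l := n) (m := 2 * (n / 8)) hn (by omega) le_rfl (by omega)
    (by omega)).1
  have z2 := (h.Uest p1.le p2.le hp.l1 hp.l2 (m := 2 * (n / 8)) hn (by omega) (by omega)
    (by omega)).2.2
  have w1 := (h.LV c0 (l := l) (k := 2 * (n / 8)) (by omega)).1
  have w2 := (h.LV c1 (l := l) (k := 2 * (n / 8)) (by omega)).1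
  have v1 := h.nrV c0 l
  have v2 := (h.nrV c1 l).trans (mul_le_mul_of_nonneg_left a2 (by norm_num))
  have s1 := (h.pb p1.le (show n ≤ N by omega)).1
  have s2 := (h.qb p1.le p2.le (show n < N by omega)).1
  have s3 := (h.Sle (N := N) p1.le p2.le n).1
  have s4 := S_nonneg c2 n
  have s5 := S_nonneg c3 n
  have s6 := S_nonneg c3 (n + 1)
  rw [← hT] at b1 b2 b5 w1 v1
  rw [← hZ] at b1 b2 z1 z2
  have t := h.psd.two v1 v2
    (x := V (pp L e1) (n + 1) - V (pp L e1) n - C (pp L e1 n) * X ^ (2 * (n / 8)))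
    (y := V (qq L e1 e2 N) (n + 1) - V (qq L e1 e2 N) n - C (qq L e1 e2 N n) * X ^ (2 * (n / 8)))
  rw [L_sub, L_sub, mul_sub, mul_sub, map_sub, map_sub] at t
  rw [← hA] at a3
  unfold lf at hP ⊢
  generalize S (pp L e2) l = T2 at *
  generalize S (pp L e1) n = Y at *
  have T0 : 0 < T := by linarith
  have T20 : 0 < T2 := by linarith
  have Z0 : 0 < Z := by linarith
  have A0 : 0 < A := by rw [hA]; positivity
  refine ⟨by linarith [mul_nonneg θ0.le (mul_nonneg T20.le s6)], by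
    linarith [mul_nonneg θ0.le (mul_nonneg T20.le s5), mul_nonneg θ0.le (mul_nonneg T0.le s4)], ?_⟩
  have f1 : S (qq L e1 e2 N) (n + 1) ≤ 16 * Z := by
    have g1 : (n : ℝ) / N ≤ 1 / 2 := by rw [div_le_iff₀ N0]; linarith
    have g2 := mul_le_mul_of_nonneg_right (mul_le_mul hp.l2 g1 (by positivity) zero_le_one) Z0.le
    linarith
  have f2 : P ≤ 34 * (T * Z) := by linarith [mul_le_mul a2 f1 s6 T0.le]
  have f3 : θ * (e1 / n) * Y ≤ pp L e1 n := by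
    rw [show θ * (e1 / n) * Y = e1 * (θ * Y) / n by ring, div_le_iff₀' n0]
    exact s1
  have f4 : θ * (e2 / N) * Y ≤ qq L e1 e2 N n := by
    rw [show θ * (e2 / N) * Y = e2 * (θ * Y) / N by ring, div_le_iff₀' N0]
    linarith [mul_nonneg n0.le (c3 n), mul_le_mul_of_nonneg_left s3 (mul_pos p2 θ0).le]
  have f5 := mul_le_mul f3 w1 (by positivity) (c2 n)
  have f6 := mul_le_mul f4 w2 (by positivity) (c3 n)
  have f7 := mul_le_mul_of_nonneg_left (mul_le_mul a3 d2 Z0.le (by positivity)) (sq_nonneg θ)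
  have f8 := mul_le_mul_of_nonneg_left z1 T0.le
  have f9 := mul_le_mul_of_nonneg_left z2 T0.le
  have g1 := (hp.sig θ0 h.θ1).1
  have g2 := mul_le_mul_of_nonneg_right g1 (show 0 ≤ T * Z / n by positivity)
  have g3 := mul_le_mul_of_nonneg_right (g1.trans (mul_le_of_le_one_left (sq_nonneg θ) hp.l1))
    (show 0 ≤ T * Z * (e2 / N) by positivity)
  have g4 : θ ^ 2 * A * (T * Z) = e1 * θ ^ 2 * (T * Z / n) + θ ^ 2 * (T * Z * (e2 / N)) := by
    rw [hA]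
    ring
  have g5 := mul_le_mul_of_nonneg_left f2 (show 0 ≤ θ ^ 2 * A by positivity)
  have g6 : T * (18 * σ * Z / n) = 18 * (σ * (T * Z / n)) := by ring
  have g7 : T * (443 * σ * e2 * Z / N) = 443 * (σ * (T * Z * (e2 / N))) := by ring
  have g8 : 0 ≤ σ * (T * Z / n) := by positivity
  have g9 : 0 ≤ σ * (T * Z * (e2 / N)) := by positivity
  linarith [(abs_le.1 t).1]

theorem Mo.stA (h : Mo L N θ σ) (hp : Par θ σ e1 e2 k1 k2) {n l : ℕ} (hn : 1 ≤ n) (hl : l + n = N)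
    (hnl : n ≤ l) {P : ℝ} (hu : lf L e1 e2 N (l + 1) (V (pp L e1) n) (V (qq L e1 e2 N) n) = P)
    (hw : lf L e1 e2 N l (V (pp L e1) (n + 1)) (V (qq L e1 e2 N) (n + 1)) = P) (v1 v2 : ℝ[X]) :
    qf L e1 e2 k1 k2 P N (n + 1) l v1 v2 ≤ qf L e1 e2 k1 k2 P N n (l + 1) v1 v2 := by
  obtain ⟨T, hT⟩ : ∃ T, T = S (pq L e2 e1 N) l := ⟨_, rfl⟩
  obtain ⟨Z, hZ⟩ : ∃ Z, Z = S (pp L e1) (n + 1) := ⟨_, rfl⟩
  obtain ⟨A, hA⟩ : ∃ A : ℝ, A = e1 / n + e2 / N := ⟨_, rfl⟩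
  have p1 := hp.p1
  have p2 := hp.p2
  have θ0 := h.θ0
  have θ1 := h.θ1
  have σ0 := h.σ0
  have n1 : (1 : ℝ) ≤ n := by exact_mod_cast hn
  have n0 : (0 : ℝ) < n := by linarith
  have nN : 2 * (n : ℝ) ≤ N := by exact_mod_cast (by omega : 2 * n ≤ N)
  have N0 : (0 : ℝ) < N := by linarith
  obtain ⟨-, a2, -⟩ := h.back hp hn hl hnl hT rfl
  obtain ⟨g1, -, -, g4, g5⟩ := h.grow hp hn hl hnl hT hA
  obtain ⟨ρ, b1, b2⟩ := h.beta hp hn hl hnl hT hA
  obtain ⟨d1, -, d3, ρ', d4, d5⟩ := h.delta hp hn (by omega) hZ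
  obtain ⟨m1, m2, m3⟩ := h.mu hp hn hl hnl hT hZ hA hw
  obtain ⟨u1, u2, u3⟩ := nu_facts hn hl hnl
  obtain ⟨c1, c2, c3, c4⟩ := hp.cond θ0 θ1 n1 nN hA u1 u2
  obtain ⟨r1, r2⟩ := hp.rate n1 nN
  rw [← hA] at r1 r2
  have T0 : 0 < T := by linarith
  have Z0 : 0 < Z := by linarith
  have A0 : 0 < A := by rw [hA]; positivity
  have TZ : T * Z ≤ P / θ := by rwa [le_div_iff₀' θ0]
  have P0 : 0 < P := lt_of_lt_of_le (by positivity) m1
  have v1' := h.nrV (h.pp0 p1.le) (n + 1)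
  have v2' := (h.nrV (h.qq0 (N := N) p1.le p2.le) (n + 1)).trans
    (mul_le_mul_of_nonneg_left d3 (by norm_num))
  rw [← hZ] at v1'
  have s1 : σ / n ≤ e2 * A := by
    have := div_le_div_of_nonneg_right hp.c6 n0.le
    have : 0 ≤ e2 * (e2 / N) := by positivity
    rw [hA]
    linarith [show e1 * e2 / n = e2 * (e1 / n) by ring]
  have s2 : e2 / N ≤ e2 * A := by
    linarith [mul_le_mul_of_nonneg_left r1 p2.le, show e2 / N = e2 * (1 / N) by ring]
  have i1 : 1 ≤ 1 / θ := one_le_one_div θ0 θ1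
  have D : T * (52 * (σ / n) * Z + 563 * (e2 / N) * Z) ≤ 615 * (e2 * A) * (P / θ) := by
    linarith [mul_le_mul s1 TZ (by positivity) (by positivity),
      mul_le_mul s2 TZ (by positivity) (by positivity)]
  have ν0 : 0 ≤ nu N (n + 1) l := le_trans (by positivity) u1
  have key := h.psd.absA P0 T0 hu hw b1 b2 d4 d5 (hT ▸ h.nrV (h.pq0 p2.le p1.le) l)
    ((h.nrV (h.pp0 p2.le) l).trans (mul_le_mul_of_nonneg_left a2 (by norm_num)))
    (γ1 := 3 / (2 * θ)) (γ2 := 48 * e2 * (n / N) / θ) (ζ1 := 2000 * e2 * A / θ ^ 2)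
    (ζ2 := 45000 * (e2 / N) / θ ^ 2)
    (by linarith [mul_le_mul_of_nonneg_left v1' T0.le, show 3 / (2 * θ) * P = 3 / 2 * (P / θ) by ring])
    (by linarith [mul_le_mul_of_nonneg_left v2' T0.le,
      mul_le_mul_of_nonneg_left TZ (show 0 ≤ e2 * (n / N) by positivity),
      show 48 * e2 * (n / N) / θ * P = 48 * (e2 * (n / N) * (P / θ)) by ring])
    (by
      have x1 := mul_le_mul_of_nonneg_left D (show 0 ≤ 1 / θ by positivity)
      have x2 := mul_le_mul_of_nonneg_right i1 (show 0 ≤ e2 * A * (P / θ) by positivity)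
      have x3 : 0 ≤ T * (e2 / N * Z) := by positivity
      have x4 : 0 ≤ e2 * A * (P / θ) := by positivity
      have x5 : 2000 * e2 * A / θ ^ 2 * P = 2000 * (1 / θ * (e2 * A * (P / θ))) := by ring
      have x6 : 3 / (2 * θ) = 3 / 2 * (1 / θ) := by ring
      rw [x5, x6]
      linarith)
    (by
      have x1 := mul_le_mul_of_nonneg_left D (show 0 ≤ e2 * (n / N) * (1 / θ) by positivity)
      have x2 := mul_le_mul_of_nonneg_right i1 (show 0 ≤ e2 / N * (P / θ) by positivity)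
      have x3 := mul_le_mul_of_nonneg_left TZ (show 0 ≤ e2 / N by positivity)
      have x4 := mul_le_mul_of_nonneg_right
        (mul_le_one₀ hp.l2 (by positivity) ((le_div_iff₀ n0).1 r2))
        (show 0 ≤ 1 / θ * (e2 / N * (P / θ)) by positivity)
      have x5 : 45000 * (e2 / N) / θ ^ 2 * P = 45000 * (1 / θ * (e2 / N * (P / θ))) := by ring
      have x6 : 48 * e2 * (n / N) / θ = 48 * (e2 * (n / N) * (1 / θ)) := by ring
      have x7 : e2 * (n / N) * (1 / θ) * (615 * (e2 * A) * (P / θ))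
        = 615 * (e2 * (A * n) * (1 / θ * (e2 / N * (P / θ)))) := by ring
      have x8 : 0 ≤ e2 / N * (P / θ) := by positivity
      rw [x5, x6]
      linarith)
    m2 m3 (by positivity) hp.q1.le (mul_nonneg hp.q2.le ν0) (by positivity)
    (by
      have := r2.trans ((div_le_one n0).2 n1)
      linarith [mul_le_one₀ θ1 A0.le this])
    (by positivity) ((div_le_one n0).2 n1) c1 c2 c3 c4 v1 v2
  unfold qf lf
  rw [← hT]
  refine key.trans (add_le_add (add_le_add le_rfl ?_) ?_)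
  · rw [mul_pow, mul_pow]
    linarith [mul_le_mul_of_nonneg_left g5 (mul_nonneg hp.q1.le (sq_nonneg (nr L (v1 -
      C ((L (V (pq L e2 e1 N) (l + 1) * v1) + L (V (pp L e2) (l + 1) * v2)) / P) * V (pp L e1) n))))]
  · refine mul_le_mul ?_ (pow_le_pow_left₀ (mul_nonneg T0.le (nr_nonneg _ _))
      (mul_le_mul_of_nonneg_right g4 (nr_nonneg _ _)) 2) (sq_nonneg _)
      (mul_nonneg hp.q2.le (le_trans (by positivity) u3))
    have x1 : (1 : ℝ) ≤ (1 + 2 / l) ^ 2 := one_le_pow₀ (le_add_of_nonneg_right (by positivity))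
    linarith [mul_le_mul_of_nonneg_left u3 hp.q2.le, mul_le_mul_of_nonneg_left x1
      (show 0 ≤ (1 + 1 / n) * (k2 * nu N (n + 1) l) from
        mul_nonneg (by positivity) (mul_nonneg hp.q2.le ν0))]

lemma pp_eq' (L : ℝ[X] →ₗ[ℝ] ℝ) (e : ℝ) {n : ℕ} (hn : 1 ≤ n) :
    pp L e n = e / n * L (V (pp L e) n) := by
  have : (n : ℝ) ≠ 0 := by exact_mod_cast (by omega : n ≠ 0)
  rw [div_mul_eq_mul_div, ← pp_eq, mul_div_cancel_left₀ _ this]

lemma qq_eq' (L : ℝ[X] →ₗ[ℝ] ℝ) (e1 e2 : ℝ) {n l : ℕ} (hl : l + n = N) :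
    qq L e1 e2 N n = e2 / l * L (V (pp L e1) n + V (qq L e1 e2 N) n) := by
  rw [qq_def, V_pq, show N - n = l by omega]

lemma L_step (L : ℝ[X] →ₗ[ℝ] ℝ) (y v : ℝ[X]) (c : ℝ) :
    L (y * (X * v + C c)) = L (X * y * v) + c * L y := by
  rw [← L_C_mul, ← map_add]
  congr 1
  ring

lemma lf_step (L : ℝ[X] →ₗ[ℝ] ℝ) (e1 e2 : ℝ) {n l : ℕ} (h1 : 1 ≤ l) (hl : l + n = N)
    (v1 v2 : ℝ[X]) : lf L e1 e2 N l (X * v1 + C (e1 / n * L v1)) (X * v2 + C (e2 / l * L (v1 + v2)))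
      = lf L e1 e2 N (l + 1) v1 v2 := by
  have a1 := pp_eq' L e2 h1
  have a2 := qq_eq' L e2 e1 (show n + l = N by omega)
  rw [← V_pq] at a2
  rw [lf, lf, L_step, L_step, V, V, add_mul, add_mul, map_add, map_add, map_add, L_C_mul, L_C_mul,
    pq]
  linear_combination -(L v1 + L v2) * a1 - L v1 * a2

lemma lf_u (L : ℝ[X] →ₗ[ℝ] ℝ) (e1 e2 : ℝ) (k : ℕ) : ∀ n, 1 ≤ n → n + k = N →
    lf L e1 e2 N (k + 1) (V (pp L e1) n) (V (qq L e1 e2 N) n) = L (V (pq L e1 e2 N) N) := by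
  induction k with
  | zero =>
    intro n _ h
    obtain rfl : n = N := by omega
    have : qq L e2 e1 n 0 = 0 := by rw [qq_def, V, map_zero, mul_zero]
    simp only [lf, V, zero_add, mul_zero, pq, pp_zero, this, add_zero, map_one, one_mul, V_pq,
      map_add]
  | succ k ih =>
    intro n hn h
    rw [← ih (n + 1) (by omega) (by omega),
      ← lf_step L e1 e2 (n := n) (l := k + 1) (by omega) (by omega), ← pp_eq' L e1 hn,
      ← qq_eq' L e1 e2 (by omega)]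
    rfl

theorem Mo.stB (h : Mo L N θ σ) (hp : Par θ σ e1 e2 k1 k2) {n l : ℕ} (hn : 1 ≤ n) (hl : l + n = N)
    (hnl : n ≤ l) {P : ℝ} (P0 : P ≠ 0)
    (hu : lf L e1 e2 N (l + 1) (V (pp L e1) n) (V (qq L e1 e2 N) n) = P) (v1 v2 : ℝ[X]) :
    qf L e1 e2 k1 k2 P N (n + 1) l (X * v1 + C (e1 / n * L v1)) (X * v2 + C (e2 / l * L (v1 + v2)))
      ≤ qf L e1 e2 k1 k2 P N n (l + 1) v1 v2 := by
  obtain ⟨T, hT⟩ : ∃ T, T = S (pq L e2 e1 N) l := ⟨_, rfl⟩
  obtain ⟨A, hA⟩ : ∃ A : ℝ, A = e1 / n + e2 / N := ⟨_, rfl⟩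
  have p1 := hp.p1
  have p2 := hp.p2
  have q1 := hp.q1
  have q2 := hp.q2
  have θ0 := h.θ0
  have θ1 := h.θ1
  have σ0 := h.σ0
  have n1 : (1 : ℝ) ≤ n := by exact_mod_cast hn
  have n0 : (0 : ℝ) < n := by linarith
  have nl : (n : ℝ) ≤ l := by exact_mod_cast hnl
  have eN : (N : ℝ) = l + n := by rw [← hl]; push_cast; ring
  have l0 : (0 : ℝ) < l := by linarith
  have N0 : (0 : ℝ) < N := by linarith
  obtain ⟨g1, -, -, g4, g5⟩ := h.grow hp hn hl hnl hT hA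
  obtain ⟨u1, u2, u3⟩ := nu_facts hn hl hnl
  obtain ⟨r1, -⟩ := hp.rate n1 (show 2 * (n : ℝ) ≤ N by linarith)
  obtain ⟨-, s2, s3⟩ := hp.sig θ0 θ1
  rw [← hA] at r1
  have y2 := (h.Yest p2.le p1 hp.l2 hp.l1 (m := 2 * (n / 8)) hn hl hnl (by omega) (by omega)).2
  rw [qf, qf, lf_step L e1 e2 (by omega) hl, ← hT]
  obtain ⟨t, ht⟩ : ∃ t, t = lf L e1 e2 N (l + 1) v1 v2 / P := ⟨_, rfl⟩
  rw [← ht]
  obtain ⟨x1, hx1⟩ : ∃ x, x = v1 - C t * V (pp L e1) n := ⟨_, rfl⟩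
  obtain ⟨x2, hx2⟩ : ∃ x, x = v2 - C t * V (qq L e1 e2 N) n := ⟨_, rfl⟩
  have l1 : L x1 = L v1 - t * L (V (pp L e1) n) := by rw [hx1, map_sub, L_C_mul]
  have l2 : L x2 = L v2 - t * L (V (qq L e1 e2 N) n) := by rw [hx2, map_sub, L_C_mul]
  have e1' : X * v1 + C (e1 / n * L v1) - C t * V (pp L e1) (n + 1) = X * x1 + C (e1 / n * L x1) := by
    rw [V, pp_eq' L e1 hn, l1, hx1]
    simp only [map_mul, map_sub]
    ring
  have e2' : X * v2 + C (e2 / l * L (v1 + v2)) - C t * V (qq L e1 e2 N) (n + 1)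
      = X * x2 + C (e2 / l * L (x1 + x2)) := by
    rw [V, qq_eq' L e1 e2 hl, map_add L x1, l1, l2, hx2]
    simp only [map_mul, map_sub, map_add]
    ring
  have z : L (V (pq L e2 e1 N) (l + 1) * x1) + L (V (pp L e2) (l + 1) * x2) = 0 := by
    rw [hx1, hx2, L_sub, L_sub]
    rw [eq_div_iff P0] at ht
    unfold lf at ht hu
    linear_combination -ht - t * hu
  have a0 : 0 ≤ e1 / n := by positivity
  have f1 := h.phase1 (k := n / 8) (ω := 11 * (σ / (e1 * θ))) (a := e1 / n) (by linarith) z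
    (y2.trans (le_of_eq (by ring))) ((h.nrV (h.pp0 p2.le) (l + 1)).trans
      (mul_le_mul_of_nonneg_left (h.Sle p2.le p1.le (l + 1)).1 (by norm_num))) a0
    (by rw [div_le_one n0]; linarith [hp.l1]) (by
      have w1 : 4 * ((n / 8 : ℕ) : ℝ) ≤ n := by exact_mod_cast (by omega : 4 * (n / 8) ≤ n)
      have w2 := mul_le_mul_of_nonneg_left w1 a0
      rw [div_mul_cancel₀ _ n0.ne'] at w2
      linarith [mul_le_mul_of_nonneg_right (w2.trans hp.l1) (sq_nonneg σ), sq_nonneg σ])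
  have f2 := sq3 (r := 1 / n) (x := (1 + 2 / l) * nr L x2) (y := 4 * (e2 / N) * nr L x1) (z := 0)
    (by positivity) ((div_le_one n0).2 n1) (nr_nonneg _ _)
    ((h.phase2 x1 x2 (a := e2 / l) (by positivity)).trans (by
      have w1 : e2 / l ≤ 2 * (e2 / N) := by
        rw [← mul_div_assoc, div_le_div_iff₀ l0 N0]
        nlinarith
      have w2 := div_le_div_of_nonneg_right hp.l2 l0.le
      rw [show (2 / l : ℝ) = 2 * (1 / l) by ring]
      linarith [mul_le_mul_of_nonneg_right w1 (nr_nonneg L x1),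
        mul_le_mul_of_nonneg_right w2 (nr_nonneg L x2)]))
  rw [e1', e2', ← hx1, ← hx2]
  generalize nr L (X * x1 + C (e1 / n * L x1)) = w1 at *
  generalize nr L (X * x2 + C (e2 / l * L (x1 + x2))) = w2 at *
  generalize nr L x1 = a1 at *
  generalize nr L x2 = a2 at *
  generalize S (pq L e2 e1 N) (l + 1) = Z at *
  have ν1 : 1 ≤ nu N (n + 1) l := le_trans (by rw [one_le_div (by positivity)]; linarith) u1
  generalize nu N (n + 1) l = ν at *
  have W1 : σ ≤ σ / (e1 * θ) := le_div_self σ0 (by positivity) (mul_le_one₀ hp.l1 θ0.le θ1)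
  have j1 : e1 / n * (σ ^ 2 + 20 * (11 * (σ / (e1 * θ))) ^ 2) ≤ A * (θ / 4) :=
    mul_le_mul (by rw [hA]; exact le_add_of_nonneg_right (by positivity))
      (by linarith [pow_le_pow_left₀ σ0 W1 2]) (by positivity) (le_trans (by positivity) r1)
  have j2 : k2 * ν * (6 / (1 / n) * (4 * (e2 / N)) ^ 2) ≤ k1 * (A * (θ / 4)) := by
    have w3 := mul_le_mul_of_nonneg_right (mul_le_mul_of_nonneg_left u2 q2.le)
      (show 0 ≤ 6 / (1 / n) * (4 * (e2 / N)) ^ 2 by positivity)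
    have w4 : k2 * (16 * N / n) * (6 / (1 / n) * (4 * (e2 / N)) ^ 2)
      = 1536 * (k2 * e2 ^ 2 * (1 / N)) := by field_simp; ring
    have A0 : 0 ≤ A := le_trans (by positivity) r1
    linarith [mul_le_mul_of_nonneg_left r1 (show 0 ≤ k2 * e2 ^ 2 by positivity),
      mul_le_mul_of_nonneg_right hp.c5 A0, show 0 ≤ k2 * e2 ^ 2 * A by positivity]
  have j3 : k1 * (45 * (e1 / n)) ≤ k2 * ν * (1 / n / 2 * (1 + 2 / l) ^ 2) := by
    have x1 : (1 : ℝ) ≤ (1 + 2 / l) ^ 2 := one_le_pow₀ (le_add_of_nonneg_right (by positivity))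
    have x2 := mul_le_mul_of_nonneg_left (one_le_mul_of_one_le_of_one_le ν1 x1)
      (show 0 ≤ k2 * (1 / n) by positivity)
    have x3 : 90 * (e1 * k1) ≤ k2 := by
      linarith [hp.c4, mul_le_mul_of_nonneg_right (pow_le_one₀ θ0.le θ1 (n := 3)) q2.le,
        mul_pos p1 q1]
    rw [show e1 / n = e1 * (1 / n) by ring]
    linarith [mul_le_mul_of_nonneg_right x3 (show 0 ≤ 1 / (n : ℝ) by positivity)]
  have j4 : k1 * w1 ^ 2 + k2 * ν * w2 ^ 2
      ≤ k1 * (1 + θ * A / 2) * a1 ^ 2 + k2 * ((1 + 1 / n) * (1 + 2 / l) ^ 2 * ν) * a2 ^ 2 := by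
    linarith [mul_le_mul_of_nonneg_left f1 q1.le,
      mul_le_mul_of_nonneg_left f2 (show 0 ≤ k2 * ν by positivity),
      mul_le_mul_of_nonneg_right j2 (sq_nonneg a1), mul_le_mul_of_nonneg_right j3 (sq_nonneg a2),
      mul_le_mul_of_nonneg_left j1 (show 0 ≤ k1 * a1 ^ 2 by positivity)]
  have j5 := mul_le_mul u3 (pow_le_pow_left₀ (by linarith) g4 2) (sq_nonneg T)
    (le_trans (by positivity) u3)
  linarith [mul_le_mul_of_nonneg_left j4 (sq_nonneg T),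
    mul_le_mul_of_nonneg_left g5 (show 0 ≤ k1 * a1 ^ 2 by positivity),
    mul_le_mul_of_nonneg_left j5 (show 0 ≤ k2 * a2 ^ 2 by positivity)]

lemma amgm {a b x y : ℝ} (a0 : 0 < a) (h : 4 ≤ a * b) : 4 * (x * y) ≤ a * x ^ 2 + b * y ^ 2 := by
  apply le_of_mul_le_mul_left _ a0
  nlinarith [sq_nonneg (a * x - 2 * y), mul_le_mul_of_nonneg_right h (sq_nonneg y)]

theorem Mo.mid (h : Mo L N θ σ) (p1 : 0 < e1) (p2 : 0 < e2) {k1' k2' P : ℝ} (q1 : 0 < k1)
    (q1' : 0 < k1') (c1 : 16 ≤ k1 * k1') (c2 : 8 ≤ k1 * k2') (c3 : 8 ≤ k1' * k2) {M K : ℕ}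
    (hM : M + K = N + 1) (M1 : 1 ≤ M) (K1 : 1 ≤ K) (M2 : N ≤ 2 * M) (K2 : N ≤ 2 * K) (P0 : 0 < P)
    (hu : lf L e1 e2 N K (V (pp L e1) M) (V (qq L e1 e2 N) M) = P) (v1 v2 z1 z2 : ℝ[X]) :
    2 * P * (L (v1 * z1) + L (v1 * z2) + L (v2 * z1))
      ≤ qf L e1 e2 k1 k2 P N M K v1 v2 + qf L e2 e1 k1' k2' P N K M z1 z2 := by
  have ν : ∀ M K : ℕ, M + K = N + 1 → 1 ≤ M → 1 ≤ K → N ≤ 2 * K → 1 ≤ nu N M K :=
    fun M K h1 h2 h3 h4 => one_le_mul_of_one_le_of_one_le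
      ((one_le_div (by exact_mod_cast h2)).2 (by exact_mod_cast (by omega : M ≤ N)))
      (one_le_pow₀ ((one_le_div (by exact_mod_cast (by omega : 0 < N))).2 (by exact_mod_cast h4)))
  have ν1 := ν M K hM M1 K1 K2
  have ν2 := ν K M (by omega) K1 M1 M2
  have b1 := (h.LVV (h.pq0 (N := N) p2.le p1.le) (h.pp0 p1.le) (l := K) (k := M) (by omega)).2
  have b2 := (h.LVV (h.pp0 p2.le) (h.qq0 (N := N) p1.le p2.le) (l := K) (k := M) (by omega)).2
  have b3 := mul_le_mul_of_nonneg_right (h.Sle (N := N) p2.le p1.le K).1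
    (S_nonneg (h.qq0 (N := N) p1.le p2.le) M)
  have T0 := S_nonneg (h.pq0 (N := N) p2.le p1.le) K
  have T0' := S_nonneg (h.pq0 (N := N) p1.le p2.le) M
  have b4 : P ≤ 2 * (S (pq L e2 e1 N) K * S (pq L e1 e2 N) M) := by
    rw [S_pq L e1 e2, ← hu, lf]
    linarith
  unfold qf
  obtain ⟨t, ht⟩ : ∃ t, t = lf L e1 e2 N K v1 v2 := ⟨_, rfl⟩
  obtain ⟨s, hs⟩ : ∃ s, s = lf L e2 e1 N M z1 z2 := ⟨_, rfl⟩
  rw [← ht, ← hs]
  rw [lf, V_pq, add_mul, map_add] at ht hs hu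
  generalize V (pp L e1) M = u1 at *
  generalize V (qq L e1 e2 N) M = u2 at *
  generalize V (pp L e2) K = w1 at *
  generalize V (qq L e2 e1 N) K = w2 at *
  have ex : ∀ (v u z w : ℝ[X]), L ((v - C (t / P) * u) * (z - C (s / P) * w))
      = L (v * z) - s / P * L (w * v) - t / P * L (u * z) + t / P * (s / P * L (w * u)) := by
    intro v u z w
    rw [← L_C_mul, ← L_C_mul, ← L_C_mul, ← L_C_mul, ← map_sub, ← map_sub, ← map_add]
    congr 1
    ring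
  have a1 := (le_abs_self _).trans (h.psd.cs (v1 - C (t / P) * u1) (z1 - C (s / P) * w1))
  have a2 := (le_abs_self _).trans (h.psd.cs (v1 - C (t / P) * u1) (z2 - C (s / P) * w2))
  have a3 := (le_abs_self _).trans (h.psd.cs (v2 - C (t / P) * u2) (z1 - C (s / P) * w1))
  rw [ex] at a1 a2 a3
  have x1 := nr_nonneg L (v1 - C (t / P) * u1)
  have x2 := nr_nonneg L (v2 - C (t / P) * u2)
  have y1 := nr_nonneg L (z1 - C (s / P) * w1)
  have y2 := nr_nonneg L (z2 - C (s / P) * w2)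
  generalize nr L (v1 - C (t / P) * u1) = X1 at *
  generalize nr L (v2 - C (t / P) * u2) = X2 at *
  generalize nr L (z1 - C (s / P) * w1) = Y1 at *
  generalize nr L (z2 - C (s / P) * w2) = Y2 at *
  generalize S (pq L e2 e1 N) K = T at *
  generalize S (pq L e1 e2 N) M = T' at *
  have a4 : L (v1 * z1) + L (v1 * z2) + L (v2 * z1) ≤ t / P * s + (X1 * Y1 + X1 * Y2 + X2 * Y1) := by
    have e1 : s / P * t = t / P * s := by ring
    have e2 : t / P * (s / P * P) = t / P * s := by rw [div_mul_cancel₀ _ P0.ne']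
    have e3 : s / P * t = s / P * (L (w1 * v1) + L (w2 * v1) + L (w1 * v2)) := by rw [← ht]
    have e4 : t / P * s = t / P * (L (u1 * z1) + L (u2 * z1) + L (u1 * z2)) := by rw [← hs]
    have e5 : t / P * (s / P * P)
      = t / P * (s / P * (L (w1 * u1) + L (w2 * u1) + L (w1 * u2))) := by rw [hu]
    linarith
  have a5 := mul_le_mul_of_nonneg_left a4 P0.le
  have a6 : P * (t / P * s) = t * s := by field_simp
  have a7 := mul_le_mul_of_nonneg_right b4 (show 0 ≤ X1 * Y1 + X1 * Y2 + X2 * Y1 by positivity)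
  have m1 := amgm (a := k1 / 2) (b := k1' / 2) (x := T * X1) (y := T' * Y1) (by positivity)
    (by linarith)
  have k2p : 0 < k2 := pos_of_mul_pos_left (show 0 < k2 * k1' by linarith) q1'.le
  have k2p' : 0 < k2' := pos_of_mul_pos_left (show 0 < k2' * k1 by linarith) q1.le
  have m2 := amgm (a := k1 / 2) (b := k2') (x := T * X1) (y := T' * Y2) (by positivity)
    (by linarith)
  have m3 := amgm (a := k1' / 2) (b := k2) (x := T' * Y1) (y := T * X2) (by positivity)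
    (by linarith)
  linarith [sq_nonneg (t - s),
    mul_le_mul_of_nonneg_left ν1 (show 0 ≤ k2 * (T * X2) ^ 2 by positivity),
    mul_le_mul_of_nonneg_left ν2 (show 0 ≤ k2' * (T' * Y2) ^ 2 by positivity)]

end Pool.Agent.P.MP_bdc337_an.KR
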