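import Pool.Agent.P.MP_bdc337_an.KR.J

/-! Clunie's inequality and the meet in the middle inequality for forms on a vector space. -/

set_option autoImplicit false

open Finset PowerSeries

namespace Pool.Agent.P.MP_bdc337_an.KR

variable {E : Type*} [AddCommGroup E] [Module ℝ E] {ι : Type*} [Fintype ι] {w : ℂ⟦X⟧}

/-- a function given by a quadratic form -/
def IsQ (q : E → ℝ) : Prop := ∃ Q : QuadraticForm ℝ E, ∀ x, q x = Q x

lemma IsQ.zero {q : E → ℝ} (h : IsQ q) : q 0 = 0 := by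
  obtain ⟨Q, hQ⟩ := h
  rw [hQ, map_zero]

lemma IsQ.add {q r : E → ℝ} (h : IsQ q) (g : IsQ r) : IsQ fun x => q x + r x := by
  obtain ⟨Q, hQ⟩ := h
  obtain ⟨R, hR⟩ := g
  exact ⟨Q + R, fun x => by simp [hQ, hR]⟩

lemma IsQ.mul {q : E → ℝ} (h : IsQ q) (c : ℝ) : IsQ fun x => c * q x := by
  obtain ⟨Q, hQ⟩ := h
  exact ⟨c • Q, fun x => by simp [hQ]⟩

lemma IsQ.sub {q r : E → ℝ} (h : IsQ q) (g : IsQ r) : IsQ fun x => q x - r x := by
  simpa only [neg_one_mul, ← sub_eq_add_neg] using h.add (g.mul (-1))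

lemma IsQ.comp {F : Type*} [AddCommGroup F] [Module ℝ F] {q : E → ℝ} (h : IsQ q)
    (f : F →ₗ[ℝ] E) : IsQ fun x => q (f x) := by
  obtain ⟨Q, hQ⟩ := h
  exact ⟨Q.comp f, fun x => by simp [hQ]⟩

lemma IsQ.lin {A : Type*} [CommRing A] [Algebra ℝ A] (L : A →ₗ[ℝ] ℝ) {f : E → A}
    (hf : IsLinearMap ℝ f) : IsQ fun x => L (f x * f x) :=
  ⟨L.compQuadraticMap (QuadraticMap.linMulLin (hf.mk' f) (hf.mk' f)), fun _ => rfl⟩

lemma sosE {q : E → ℝ} (hq : IsQ q) (h0 : ∀ x, 0 ≤ q x) (e : ι → E) :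
    ∃ (d : ℕ) (φ : Fin d → ι → ℝ), ∀ x : ι → ℝ,
      q (∑ i, x i • e i) = ∑ k, (∑ i, φ k i * x i) ^ 2 := by
  classical
  obtain ⟨Q, hQ⟩ := hq
  obtain ⟨c, ⟨u⟩⟩ :=
    QuadraticForm.equivalent_weightedSumSquares (Q.comp (Fintype.linearCombination ℝ e))
  have h1 : ∀ v, q (∑ i, v i • e i) = ∑ k, c k * (u v k * u v k) := fun v => by
    have := u.map_app v
    rw [QuadraticMap.weightedSumSquares_apply] at this
    simpa [hQ, Fintype.linearCombination_apply] using this.symm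
  have hc : ∀ k, 0 ≤ c k := fun k => by
    have := h0 (∑ i, u.symm (Pi.single k 1) i • e i)
    rw [h1] at this
    simp only [QuadraticMap.IsometryEquiv.apply_symm_apply] at this
    rw [Finset.sum_eq_single k (fun b _ hb => by simp [hb]) (by simp)] at this
    simpa using this
  refine ⟨_, fun k i => Real.sqrt (c k) * u (Pi.single i 1) k, fun x => ?_⟩
  rw [h1]
  refine Finset.sum_congr rfl fun k _ => ?_
  have e2 : x = ∑ j, x j • (Pi.single j 1 : ι → ℝ) := by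
    funext l
    simp [Finset.sum_apply, Pi.single_apply]
  have e3 : u x k = ∑ j, x j * u (Pi.single j 1) k := by
    conv_lhs => rw [e2, map_sum, Finset.sum_apply]
    refine Finset.sum_congr rfl fun j _ => ?_
    rw [map_smul]
    rfl
  have e4 : ∑ i, Real.sqrt (c k) * u (Pi.single i 1) k * x i = Real.sqrt (c k) * u x k := by
    rw [e3, Finset.mul_sum]
    exact Finset.sum_congr rfl fun j _ => by ring
  rw [e4, mul_pow, Real.sq_sqrt (hc k)]
  ring

/-- real states of a complex vector -/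
noncomputable def sv (ρ : ℂ →ₗ[ℝ] ℝ) (e : ι → E) (x : ι → ℂ) : E := ∑ i, ρ (x i) • e i

/-- complexified value -/
noncomputable def QE (q : E → ℝ) (e : ι → E) (x : ι → ℂ) : ℝ :=
  q (sv Complex.reLm e x) + q (sv Complex.imLm e x)

/-- the defect of a form -/
noncomputable def HH (w : ℂ⟦X⟧) (q : E → ℝ) (e : ι → E) (Y : ι → ℂ⟦X⟧) (m : ℕ) : ℝ :=
  ∑ n ∈ range m, QE q e (fun i => coeff n (Y i))
    - ∑ n ∈ range m, QE q e (fun i => coeff n (w * Y i))

lemma QE_sos {q : E → ℝ} {e : ι → E} {d : ℕ} {φ : Fin d → ι → ℝ}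
    (h : ∀ x : ι → ℝ, q (∑ i, x i • e i) = ∑ k, (∑ i, φ k i * x i) ^ 2) (Y : ι → ℂ⟦X⟧) (m : ℕ) :
    ∑ n ∈ range m, QE q e (fun i => coeff n (Y i)) = ∑ k, nsq m (∑ i, C (φ k i : ℂ) * Y i) := by
  unfold nsq
  rw [Finset.sum_comm]
  refine Finset.sum_congr rfl fun n _ => ?_
  rw [QE, sv, sv, h, h, ← Finset.sum_add_distrib]
  refine Finset.sum_congr rfl fun k _ => ?_
  rw [Complex.sq_norm, Complex.normSq_apply, map_sum, Complex.re_sum, Complex.im_sum]
  simp only [coeff_C_mul, Complex.re_ofReal_mul, Complex.im_ofReal_mul, Complex.reLm_coe,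
    Complex.imLm_coe]
  ring

lemma mul_comb (w : ℂ⟦X⟧) (a : ι → ℂ) (Y : ι → ℂ⟦X⟧) :
    ∑ i, C (a i) * (w * Y i) = w * ∑ i, C (a i) * Y i := by
  rw [Finset.mul_sum]
  exact Finset.sum_congr rfl fun i _ => mul_left_comm _ _ _

lemma chain (hw : Contr w) (q : ℕ → E → ℝ) (hq : ∀ n, IsQ (q n)) (e : ι → E) (Y : ι → ℂ⟦X⟧)
    (M : ℕ) (hM : 1 ≤ M) (ha : ∀ n, 1 ≤ n → n < M → ∀ x, q (n + 1) x ≤ q n x)
    (hb : ∀ n, 1 ≤ n → n < M → ∀ ρ, q (n + 1) (sv ρ e fun i => coeff n (Y i))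
      ≤ q n (sv ρ e fun i => coeff n (w * Y i))) : HH w (q M) e Y M ≤ HH w (q 1) e Y 1 := by
  induction M, hM using Nat.le_induction with
  | base => exact le_rfl
  | succ m hm ih =>
    refine le_trans ?_ (ih (fun n h1 h2 => ha n h1 (by omega)) fun n h1 h2 => hb n h1 (by omega))
    obtain ⟨d, φ, h⟩ := sosE ((hq m).sub (hq (m + 1)))
      (fun x => sub_nonneg.2 (ha m hm (by omega) x)) e
    have a1 := QE_sos (q := fun x => q m x - q (m + 1) x) h Y m
    have a2 := QE_sos (q := fun x => q m x - q (m + 1) x) h (fun i => w * Y i) (m + 1)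
    have a3 := Finset.sum_le_sum fun k (_ : k ∈ univ) => clunie1 hw (∑ i, C (φ k i : ℂ) * Y i) m
    simp only [mul_comb] at a2
    rw [← a1, ← a2] at a3
    have a4 := add_le_add (hb m hm (by omega) Complex.reLm) (hb m hm (by omega) Complex.imLm)
    simp only [HH, QE, sum_range_succ, sum_add_distrib, sum_sub_distrib] at a3 ⊢
    linarith

lemma beta_comb (w : ℂ⟦X⟧) (N M L : ℕ) (a b : ι → ℂ) (Y Z : ι → ℂ⟦X⟧) :
    beta w N M L (∑ i, C (a i) * Y i) (∑ j, C (b j) * Z j)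
      = ∑ i, ∑ j, a i * b j * beta w N M L (Y i) (Z j) := by
  have l : ∀ z, beta w N M L (∑ i, C (a i) * Y i) z = ∑ i, a i * beta w N M L (Y i) z := fun z => by
    simp only [beta, map_sum, coeff_C_mul, Finset.mul_sum, Finset.sum_mul]
    rw [eq_comm, Finset.sum_comm]
    refine sum_congr rfl fun _ _ => ?_
    rw [Finset.sum_comm]
    exact sum_congr rfl fun _ _ => sum_congr rfl fun _ _ => by ring
  have r : ∀ y, beta w N M L y (∑ i, C (b i) * Z i) = ∑ i, b i * beta w N M L y (Z i) := fun y => by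
    simp only [beta, map_sum, coeff_C_mul, Finset.mul_sum]
    rw [eq_comm, Finset.sum_comm]
    refine sum_congr rfl fun _ _ => ?_
    rw [Finset.sum_comm]
    exact sum_congr rfl fun _ _ => sum_congr rfl fun _ _ => by ring
  simp only [l, r, Finset.mul_sum, mul_assoc]

lemma mmE (hw : Contr w) {N M L : ℕ} (hML : M + L = N + 1) (hM : 1 ≤ M) (hL : 1 ≤ L)
    {q r : E → ℝ} (hq : IsQ q) (hr : IsQ r) (B : E →ₗ[ℝ] E →ₗ[ℝ] ℝ) (c : ℝ)
    (hB : ∀ x y, 2 * c * B x y ≤ q x + r y) (e : ι → E) (Y Z : ι → ℂ⟦X⟧) :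
    2 * ‖c * ∑ i, ∑ j, (B (e i) (e j) : ℂ) * beta w N M L (Y i) (Z j)‖
      ≤ HH w q e Y M + HH w r e Z L := by
  classical
  have hR : IsQ fun v : E × E => q v.1 + r v.2 - 2 * c * B v.1 v.2 :=
    ((hq.comp (LinearMap.fst ℝ E E)).add (hr.comp (LinearMap.snd ℝ E E))).sub (IsQ.mul
      ⟨LinearMap.BilinMap.toQuadraticMap (B.compl₁₂ (LinearMap.fst ℝ E E) (LinearMap.snd ℝ E E)),
        fun _ => rfl⟩ _)
  obtain ⟨d, φ, h⟩ := sosE hR (fun v => sub_nonneg.2 (hB v.1 v.2))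
    (Sum.elim (fun i => (e i, 0)) (fun i => (0, e i)) : ι ⊕ ι → E × E)
  have h2 : ∀ x y : ι → ℝ, q (∑ i, x i • e i) + r (∑ i, y i • e i)
      - 2 * c * B (∑ i, x i • e i) (∑ i, y i • e i)
      = ∑ k, (∑ i, φ k (.inl i) * x i + ∑ i, φ k (.inr i) * y i) ^ 2 := fun x y => by
    simpa [Fintype.sum_sum_type, Prod.fst_sum, Prod.snd_sum] using h (Sum.elim x y)
  have a1 : ∀ x : ι → ℝ, q (∑ i, x i • e i) = ∑ k, (∑ i, φ k (.inl i) * x i) ^ 2 := fun x => by
    simpa [hr.zero] using h2 x 0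
  have a2 : ∀ x : ι → ℝ, r (∑ i, x i • e i) = ∑ k, (∑ i, φ k (.inr i) * x i) ^ 2 := fun x => by
    simpa [hq.zero] using h2 0 x
  have a3 : ∀ i j, c * B (e i) (e j) = -∑ k, φ k (.inl i) * φ k (.inr j) := fun i j => by
    have b1 := h2 (Pi.single i 1) (Pi.single j 1)
    rw [a1, a2] at b1
    simp only [Pi.single_apply, ite_smul, one_smul, zero_smul, mul_ite, mul_one, mul_zero,
      sum_ite_eq', mem_univ, if_true, add_sq, mul_assoc, sum_add_distrib, ← mul_sum] at b1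
    linarith
  have a4 : c * ∑ i, ∑ j, (B (e i) (e j) : ℂ) * beta w N M L (Y i) (Z j) = -∑ k,
      beta w N M L (∑ i, C (φ k (.inl i) : ℂ) * Y i) (∑ j, C (φ k (.inr j) : ℂ) * Z j) := by
    simp only [beta_comb, mul_sum, ← mul_assoc, ← Complex.ofReal_mul, a3]
    rw [Finset.sum_comm (s := univ (α := Fin d)), ← sum_neg_distrib]
    refine sum_congr rfl fun i _ => ?_
    rw [Finset.sum_comm (s := univ (α := Fin d)), ← sum_neg_distrib]
    refine sum_congr rfl fun j _ => ?_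
    rw [← sum_mul]
    push_cast
    ring
  rw [a4, norm_neg, HH, HH, QE_sos a1, QE_sos a1, QE_sos a2, QE_sos a2, ← sum_sub_distrib,
    ← sum_sub_distrib, ← sum_add_distrib]
  refine (mul_le_mul_of_nonneg_left (norm_sum_le _ _) zero_le_two).trans ?_
  rw [mul_sum]
  refine sum_le_sum fun k _ => ?_
  rw [mul_comb, mul_comb]
  exact mm hw hML hM hL _ _

lemma bil_ext (B : E →ₗ[ℝ] E →ₗ[ℝ] ℝ) (e : ι → E) (x y : ι → ℂ) :
    ∑ i, ∑ j, (B (e i) (e j) : ℂ) * (x i * y j)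
      = ⟨B (sv Complex.reLm e x) (sv Complex.reLm e y) - B (sv Complex.imLm e x) (sv Complex.imLm e y),
        B (sv Complex.reLm e x) (sv Complex.imLm e y) + B (sv Complex.imLm e x) (sv Complex.reLm e y)⟩ := by
  have k : ∀ ρ τ, B (sv ρ e x) (sv τ e y) = ∑ i, ∑ j, B (e i) (e j) * (ρ (x i) * τ (y j)) :=
    fun ρ τ => by
      simp only [sv, map_sum, map_smul, LinearMap.sum_apply, LinearMap.smul_apply, smul_eq_mul,
        mul_sum]
      rw [Finset.sum_comm]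
      exact sum_congr rfl fun _ _ => sum_congr rfl fun _ _ => by ring
  apply Complex.ext
  · simp only [k, Complex.re_sum, Complex.re_ofReal_mul]
    simp only [Complex.mul_re, mul_sub, sum_sub_distrib, Complex.reLm_coe, Complex.imLm_coe]
  · simp only [k, Complex.im_sum, Complex.im_ofReal_mul]
    simp only [Complex.mul_im, mul_add, sum_add_distrib, Complex.reLm_coe, Complex.imLm_coe]

lemma cross (h0 : coeff 0 w = 0) (B : E →ₗ[ℝ] E →ₗ[ℝ] ℝ) (e : ι → E) (Y Z : ι → ℂ⟦X⟧) {N : ℕ}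
    (hs : ∀ M L, 1 ≤ M → 1 ≤ L → M + L = N → ∀ ρ τ,
      B (sv ρ e fun i => coeff M (Y i)) (sv τ e fun i => coeff L (w * Z i))
        = B (sv ρ e fun i => coeff M (w * Y i)) (sv τ e fun i => coeff L (Z i))) (L : ℕ) :
    ∀ M, 1 ≤ M → M + L = N → ∑ i, ∑ j, (B (e i) (e j) : ℂ) * beta w N M (L + 1) (Y i) (Z j)
      = ∑ i, ∑ j, (B (e i) (e j) : ℂ) * (coeff N (w * Y i) * coeff 0 (Z j)) := by
  induction L with
  | zero =>
    intro M _ h
    obtain rfl : M = N := h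
    simp only [zero_add, beta_last h0, mul_comm (coeff 0 _)]
  | succ L ih =>
    intro M hM h
    rw [← ih (M + 1) (by omega) (by omega), eq_comm, ← sub_eq_zero]
    simp only [← sum_sub_distrib, ← mul_sub, beta_step h0 h]
    simp only [mul_sub, sum_sub_distrib, mul_comm (coeff (L + 1) (Z _))]
    rw [bil_ext, bil_ext, sub_eq_zero]
    simp only [hs M (L + 1) hM (by omega) h]

lemma ident {K F P Q Y : ℂ⟦X⟧} (K0 : coeff 0 K = 0) {e1 e2 : ℝ} (he : e1 + e2 = 1) (h2 : e2 ≠ 0)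
    {N : ℕ} (F0 : coeff 0 F = 1) (P0 : coeff 0 P = 1) (Q0 : coeff 0 Q = 1)
    (hF : ∀ n : ℕ, n * coeff n F = coeff n (K * F))
    (hP : ∀ n : ℕ, n * coeff n P = e1 * coeff n (K * P))
    (hQ : ∀ n : ℕ, n * coeff n Q = e2 * coeff n (K * Q))
    (hY : ∀ n, n < N → ((N : ℂ) - n) * coeff n Y = e2 * coeff n (K * (P + Y))) :
    coeff N (K * (P + Y)) = N * coeff N F := by
  have oF : X * d⁄dX ℂ F = K * F := by
    ext n
    rw [coeff_X_mul_deriv, hF]
  have oP : X * d⁄dX ℂ P = C (e1 : ℂ) * (K * P) := by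
    ext n
    rw [coeff_X_mul_deriv, hP, coeff_C_mul]
  have oQ : X * d⁄dX ℂ Q = C (e2 : ℂ) * (K * Q) := by
    ext n
    rw [coeff_X_mul_deriv, hQ, coeff_C_mul]
  have he' : (C (e1 : ℂ) : ℂ⟦X⟧) + C (e2 : ℂ) = 1 := by
    rw [← map_add, ← Complex.ofReal_add, he, Complex.ofReal_one, map_one]
  have hFP : F = P * Q := sub_eq_zero.1 (euler_unique (c := K) K0
    (by
      rw [map_sub, F0, coeff_zero_eq_constantCoeff_apply, map_mul,
        ← coeff_zero_eq_constantCoeff_apply, ← coeff_zero_eq_constantCoeff_apply, P0, Q0]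
      simp)
    (by
      rw [map_sub, Derivation.leibniz]
      simp only [smul_eq_mul]
      linear_combination oF - P * oQ - Q * oP - K * P * Q * he'))
  have a1 := coeff_mul_top (p := Q) (n := N)
    (q := C (N : ℂ) * Y - X * d⁄dX ℂ Y - C (e2 : ℂ) * (K * (P + Y))) fun j hj => by
      rw [map_sub, map_sub, coeff_C_mul, coeff_C_mul, coeff_X_mul_deriv, ← hY j hj]
      ring
  have a2 : Q * (C (N : ℂ) * Y - X * d⁄dX ℂ Y - C (e2 : ℂ) * (K * (P + Y)))
      = C (N : ℂ) * (Y * Q) - X * d⁄dX ℂ (Y * Q) - C (e2 : ℂ) * (K * F) := by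
    rw [hFP, Derivation.leibniz]
    simp only [smul_eq_mul]
    linear_combination Y * oQ
  rw [a2, Q0] at a1
  simp only [map_sub, coeff_C_mul, coeff_X_mul_deriv] at a1
  rw [hF]
  apply mul_left_cancel₀ (Complex.ofReal_ne_zero.2 h2)
  linear_combination a1

end Pool.Agent.P.MP_bdc337_an.KR
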