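import Pool.Agent.P.MP_bdc337_an.KR.K

/-! The two sided scheme. -/

set_option autoImplicit false

open Finset PowerSeries
open scoped Polynomial

namespace Pool.Agent.P.MP_bdc337_an.KR

/-- the two phase system for series -/
structure Sys (H P Y : ℂ⟦X⟧) (e1 e2 : ℝ) (N : ℕ) : Prop where
  p0 : coeff 0 P = 1
  p : ∀ n : ℕ, 1 ≤ n → coeff n P = (e1 / n : ℝ) * coeff n (H * P)
  y : ∀ n : ℕ, coeff n Y = (e2 / (N - n : ℕ) : ℝ) * coeff n (H * (P + Y))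

variable {L : ℝ[X] →ₗ[ℝ] ℝ} {N : ℕ} {θ σ e1 e2 k1 k2 : ℝ} {w H F P Y Q Z : ℂ⟦X⟧}

lemma exists_sys (H0 : coeff 0 H = 0) (e1 e2 : ℝ) (N : ℕ) : ∃ P Y, Sys H P Y e1 e2 N := by
  obtain ⟨P, hP⟩ := exists_fix H0 (fun n => if n = 0 then 1 else 0) fun n => (e1 / n : ℝ)
  obtain ⟨Y, hY⟩ := exists_fix H0 (fun n => (e2 / (N - n : ℕ) : ℝ) * coeff n (H * P))
    fun n => (e2 / (N - n : ℕ) : ℝ)
  refine ⟨P, Y, by rw [hP, coeff_zero_mul_left H0]; simp, fun n hn => ?_, fun n => ?_⟩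
  · rw [hP n, if_neg (by omega), zero_add]
  · rw [hY n, mul_add H, map_add, mul_add]

lemma Sys.ode (h : Sys H P Y e1 e2 N) (H0 : coeff 0 H = 0) (n : ℕ) :
    n * coeff n P = e1 * coeff n (H * P) := by
  rcases Nat.eq_zero_or_pos n with rfl | hn
  · rw [coeff_zero_mul_left H0, Nat.cast_zero, zero_mul, mul_zero]
  · have : (n : ℂ) ≠ 0 := by exact_mod_cast hn.ne'
    rw [h.p n hn]
    push_cast
    field_simp

lemma Sys.id (h : Sys H P Y e1 e2 N) (g : Sys H Q Z e2 e1 N) (H0 : coeff 0 H = 0)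
    (he : e1 + e2 = 1) (h2 : e2 ≠ 0) (F0 : coeff 0 F = 1)
    (hF : ∀ n : ℕ, n * coeff n F = coeff n (H * F)) : coeff N (H * (P + Y)) = N * coeff N F :=
  ident H0 he h2 F0 h.p0 g.p0 hF (h.ode H0) (g.ode H0) fun n hn => by
    have : ((N : ℂ) - n) ≠ 0 := sub_ne_zero.2 (by exact_mod_cast hn.ne')
    rw [h.y n]
    push_cast [Nat.cast_sub hn.le]
    field_simp

lemma coeff_model (L : ℝ[X] →ₗ[ℝ] ℝ) (c : ℕ → ℝ) (n : ℕ) :
    coeff n (X * (PowerSeries.mk fun j => (L (Polynomial.X ^ j) : ℂ))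
      * PowerSeries.mk fun j => (c j : ℂ)) = (L (V c n) : ℂ) := by
  rcases n with _ | n
  · simp [V, mul_assoc]
  · rw [mul_assoc, coeff_succ_X_mul, coeff_mul, Finset.Nat.sum_antidiagonal_eq_sum_range_succ_mk,
      L_V1]
    simp

lemma sys_model (L : ℝ[X] →ₗ[ℝ] ℝ) (e1 e2 : ℝ) (N : ℕ) :
    Sys (X * PowerSeries.mk fun j => (L (Polynomial.X ^ j) : ℂ))
      (PowerSeries.mk fun j => (pp L e1 j : ℂ)) (PowerSeries.mk fun j => (qq L e1 e2 N j : ℂ))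
      e1 e2 N ∧ (PowerSeries.mk fun j => (pp L e1 j : ℂ)) + (PowerSeries.mk fun j =>
        (qq L e1 e2 N j : ℂ)) = PowerSeries.mk fun j => (pq L e1 e2 N j : ℂ) := by
  have e : (PowerSeries.mk fun j => (pp L e1 j : ℂ)) + (PowerSeries.mk fun j =>
      (qq L e1 e2 N j : ℂ)) = PowerSeries.mk fun j => (pq L e1 e2 N j : ℂ) := by
    ext n
    simp [pq]
  refine ⟨⟨by simp [pp_zero], fun n hn => ?_, fun n => ?_⟩, e⟩
  · rw [coeff_model, coeff_mk, pp_eq' L e1 hn, Complex.ofReal_mul]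
  · rw [e, coeff_model, coeff_mk, qq_def, Complex.ofReal_mul]

lemma pair_eq (L : ℝ[X] →ₗ[ℝ] ℝ) (he : e1 + e2 = 1) (h2 : e2 ≠ 0) (N : ℕ) :
    L (V (pq L e1 e2 N) N) = N * Kc (fun j => L (Polynomial.X ^ j)) N := by
  have := (sys_model L e1 e2 N).1.id (sys_model L e2 e1 N).1
    (F := PowerSeries.mk fun j => (Kc (fun j => L (Polynomial.X ^ j)) j : ℂ))
    (by simp) he h2 (by simp [Kc_zero]) fun n => by
      rw [coeff_model, coeff_mk, L_V1, ← Kc_eq]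
      simp
  rw [(sys_model L e1 e2 N).2, coeff_model, coeff_mk] at this
  exact_mod_cast this

/-- the basis of pairs of monomials -/
noncomputable def bas (K : ℕ) : Fin K ⊕ Fin K → ℝ[X] × ℝ[X] :=
  Sum.elim (fun j => (Polynomial.X ^ (j : ℕ), 0)) fun j => (0, Polynomial.X ^ (j : ℕ))

/-- the family of series -/
noncomputable def fam (w P Y : ℂ⟦X⟧) (K : ℕ) : Fin K ⊕ Fin K → ℂ⟦X⟧ :=
  Sum.elim (fun j => w ^ (j : ℕ) * P) fun j => w ^ (j : ℕ) * Y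

/-- the state of a series -/
noncomputable def st (ρ : ℂ →ₗ[ℝ] ℝ) (w Z : ℂ⟦X⟧) (K n : ℕ) : ℝ[X] :=
  ∑ j ∈ range K, ρ (coeff n (w ^ j * Z)) • Polynomial.X ^ j

lemma sv_out (ρ : ℂ →ₗ[ℝ] ℝ) (w P Y : ℂ⟦X⟧) (K n : ℕ) :
    (sv ρ (bas K) fun i => coeff n (w * fam w P Y K i))
      = (st ρ w (w * P) K n, st ρ w (w * Y) K n) := by
  simp [sv, bas, fam, st, Fintype.sum_sum_type, Finset.sum_range, Prod.ext_iff, Prod.fst_sum,
    Prod.snd_sum, mul_left_comm w]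

lemma st_in (h0 : coeff 0 w = 0) (ρ : ℂ →ₗ[ℝ] ℝ) (Z : ℂ⟦X⟧) {K n : ℕ} (hn : n < K) :
    st ρ w Z K n = Polynomial.X * st ρ w (w * Z) K n + Polynomial.C (ρ (coeff n Z)) := by
  have a := sum_range_succ' (fun j => ρ (coeff n (w ^ j * Z)) • (Polynomial.X : ℝ[X]) ^ j) K
  rw [sum_range_succ, coeff_pow_mul h0 Z K n hn, map_zero, zero_smul, add_zero] at a
  rw [st, a, st, mul_sum, pow_zero, pow_zero, one_mul, Polynomial.smul_eq_C_mul, mul_one]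
  congr 1
  exact sum_congr rfl fun j _ => by rw [pow_succ, mul_assoc, pow_succ', mul_smul_comm]

lemma sv_in (h0 : coeff 0 w = 0) (ρ : ℂ →ₗ[ℝ] ℝ) (P Y : ℂ⟦X⟧) {K n : ℕ} (hn : n < K) :
    (sv ρ (bas K) fun i => coeff n (fam w P Y K i))
      = (Polynomial.X * st ρ w (w * P) K n + Polynomial.C (ρ (coeff n P)),
        Polynomial.X * st ρ w (w * Y) K n + Polynomial.C (ρ (coeff n Y))) := by
  rw [← st_in h0 ρ P hn, ← st_in h0 ρ Y hn]
  simp [sv, bas, fam, st, Fintype.sum_sum_type, Finset.sum_range, Prod.ext_iff, Prod.fst_sum,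
    Prod.snd_sum]

lemma st_zero (h0 : coeff 0 w = 0) (ρ : ℂ →ₗ[ℝ] ℝ) (Z : ℂ⟦X⟧) (K : ℕ) :
    st ρ w (w * Z) K 0 = 0 :=
  sum_eq_zero fun j _ => by rw [mul_left_comm, coeff_zero_mul_left h0, map_zero, zero_smul]

/-- the series `H` is the moment series of `L` evaluated at `w` -/
def Exp (L : ℝ[X] →ₗ[ℝ] ℝ) (w H : ℂ⟦X⟧) : Prop := ∀ (Z : ℂ⟦X⟧) (n : ℕ),
  coeff n (H * Z) = ∑ j ∈ range n, (L (Polynomial.X ^ j) : ℂ) * coeff n (w ^ (j + 1) * Z)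

lemma rho_mul (ρ : ℂ →ₗ[ℝ] ℝ) (r : ℝ) (z : ℂ) : ρ (r * z) = r * ρ z := by
  rw [← Complex.real_smul, map_smul, smul_eq_mul]

lemma Exp.L_st (h : Exp L w H) (h0 : coeff 0 w = 0) (ρ : ℂ →ₗ[ℝ] ℝ) (Z : ℂ⟦X⟧) {K n : ℕ}
    (hn : n ≤ K) : L (st ρ w (w * Z) K n) = ρ (coeff n (H * Z)) := by
  rw [h, st, map_sum, map_sum, ← sum_subset (range_subset_range.2 hn) fun j _ hj => by
    rw [← mul_assoc, ← pow_succ, coeff_pow_mul h0 Z _ n (by rw [mem_range] at hj; omega), map_zero,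
      zero_smul, map_zero]]
  exact sum_congr rfl fun j _ => by
    rw [rho_mul, map_smul, smul_eq_mul, mul_comm, pow_succ, mul_assoc]

lemma Sys.sv (g : Sys H P Y e1 e2 N) (h : Exp L w H) (h0 : coeff 0 w = 0) (ρ : ℂ →ₗ[ℝ] ℝ)
    {n l : ℕ} (hn : 1 ≤ n) (hl : l + n = N) :
    (sv ρ (bas (N + 1)) fun i => coeff n (fam w P Y (N + 1) i))
      = (Polynomial.X * st ρ w (w * P) (N + 1) n
          + Polynomial.C (e1 / n * L (st ρ w (w * P) (N + 1) n)),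
        Polynomial.X * st ρ w (w * Y) (N + 1) n
          + Polynomial.C (e2 / l * L (st ρ w (w * P) (N + 1) n + st ρ w (w * Y) (N + 1) n))) := by
  rw [sv_in h0 ρ P Y (by omega), map_add L, h.L_st h0 ρ P (by omega), h.L_st h0 ρ Y (by omega),
    g.p n hn, g.y n, rho_mul, rho_mul, mul_add H, map_add, map_add, show N - n = l by omega]

lemma Sys.sv0 (g : Sys H P Y e1 e2 N) (H0 : coeff 0 H = 0) (h0 : coeff 0 w = 0) :
    (KR.sv Complex.reLm (bas (N + 1)) fun i => coeff 0 (fam w P Y (N + 1) i)) = (1, 0) ∧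
      (KR.sv Complex.imLm (bas (N + 1)) fun i => coeff 0 (fam w P Y (N + 1) i)) = 0 := by
  rw [sv_in h0 _ P Y (by omega), sv_in h0 _ P Y (by omega), g.p0, g.y, coeff_zero_mul_left H0]
  simp [st_zero h0]

lemma qf_isQ (h : Psd L) (e1 e2 k1 k2 c : ℝ) (N n r : ℕ) :
    IsQ fun v : ℝ[X] × ℝ[X] => qf L e1 e2 k1 k2 c N n r v.1 v.2 := by
  have l : IsLinearMap ℝ fun v : ℝ[X] × ℝ[X] => lf L e1 e2 N r v.1 v.2 :=
    ⟨fun x y => by simp only [lf, Prod.fst_add, Prod.snd_add, mul_add, map_add]; ring,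
      fun a x => by simp [lf, mul_add]⟩
  have m : ∀ (f : ℝ[X] × ℝ[X] →ₗ[ℝ] ℝ[X]) (u : ℝ[X]), IsLinearMap ℝ fun v : ℝ[X] × ℝ[X] =>
      f v - Polynomial.C (lf L e1 e2 N r v.1 v.2 / c) * u := fun f u =>
    ⟨fun x y => by rw [l.map_add, add_div, map_add, map_add]; ring, fun a x => by
      rw [l.map_smul, map_smul, smul_eq_mul, mul_div_assoc, map_mul, Polynomial.smul_eq_C_mul,
        Polynomial.smul_eq_C_mul]
      ring⟩
  obtain ⟨Q, hQ⟩ := ((IsQ.lin LinearMap.id l).add ((IsQ.lin L (m (LinearMap.fst ℝ _ _)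
    (V (pp L e1) n))).mul (k1 * S (pq L e2 e1 N) r ^ 2))).add ((IsQ.lin L (m (LinearMap.snd ℝ _ _)
    (V (qq L e1 e2 N) n))).mul (k2 * nu N n r * S (pq L e2 e1 N) r ^ 2))
  refine ⟨Q, fun x => ?_⟩
  rw [← hQ]
  simp only [qf, mul_pow, h.sq, LinearMap.id_coe, id, LinearMap.fst_apply, LinearMap.snd_apply]
  ring

lemma Mo.half (h : Mo L N θ σ) (hp : Par θ σ e1 e2 k1 k2) (hw : Contr w) (he : Exp L w H)
    (H0 : coeff 0 H = 0) (g : Sys H P Y e1 e2 N) {c : ℝ} (c0 : c ≠ 0)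
    (hc : L (V (pq L e1 e2 N) N) = c) {M K : ℕ} (hM : 1 ≤ M) (hK : M + K = N + 1)
    (hN : 1 ≤ N) (hM2 : 2 * M ≤ N + 2) :
    HH w (fun v : ℝ[X] × ℝ[X] => qf L e1 e2 k1 k2 c N M K v.1 v.2) (bas (N + 1))
      (fam w P Y (N + 1)) M ≤ c ^ 2 := by
  have u : ∀ n l, 1 ≤ n → l + n = N →
      lf L e1 e2 N (l + 1) (V (pp L e1) n) (V (qq L e1 e2 N) n) = c :=
    fun n l h1 h2 => (lf_u L e1 e2 l n h1 (by omega)).trans hc
  have key := chain hw (fun n (v : ℝ[X] × ℝ[X]) => qf L e1 e2 k1 k2 c N n (N + 1 - n) v.1 v.2)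
    (fun n => qf_isQ h.psd _ _ _ _ _ _ _ _) (bas (N + 1)) (fam w P Y (N + 1)) M hM
    (fun n h1 h2 x => by
      obtain ⟨l, hl⟩ : ∃ l, l + 1 + n = N := ⟨N - n - 1, by omega⟩
      rw [show N + 1 - (n + 1) = l + 1 by omega, show N + 1 - n = l + 1 + 1 by omega]
      exact h.stA hp h1 hl (by omega) (u n _ h1 hl) (u (n + 1) l (by omega) (by omega)) _ _)
    (fun n h1 h2 ρ => by
      obtain ⟨l, hl⟩ : ∃ l, l + n = N := ⟨N - n, by omega⟩
      rw [show N + 1 - (n + 1) = l by omega, show N + 1 - n = l + 1 by omega, g.sv he hw.1 ρ h1 hl,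
        sv_out]
      exact h.stB hp h1 hl (by omega) c0 (u n l h1 hl) _ _)
  rw [show N + 1 - M = K by omega] at key
  refine key.trans (le_of_eq ?_)
  have z := (qf_isQ h.psd e1 e2 k1 k2 c N 1 N).zero
  have u1 := u 1 (N - 1) le_rfl (by omega)
  have v1 : V (pp L e1) 1 = 1 := by simp [V, pp_zero]
  have v2 : V (qq L e1 e2 N) 1 = 0 := by simp [V, qq_def]
  rw [v1, v2, show N - 1 + 1 = N by omega] at u1
  simp only [HH, QE, range_one, sum_singleton, (g.sv0 H0 hw.1).1, (g.sv0 H0 hw.1).2, sv_out,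
    st_zero hw.1, Nat.add_sub_cancel, Prod.fst_zero, Prod.snd_zero] at z ⊢
  rw [z, qf, u1, v1, v2, div_self c0]
  simp [nr_zero]

theorem Mo.core (h : Mo L N θ σ) {k1' k2' : ℝ} (hp : Par θ σ e1 e2 k1 k2)
    (hp' : Par θ σ e2 e1 k1' k2') (c1 : 16 ≤ k1 * k1') (c2 : 8 ≤ k1 * k2') (c3 : 8 ≤ k1' * k2)
    (hN : 1 ≤ N) (hw : Contr w) (he : Exp L w H) (F0 : coeff 0 F = 1)
    (hF : ∀ n : ℕ, n * coeff n F = coeff n (H * F)) :
    ‖coeff N F‖ ≤ Kc (fun j => L (Polynomial.X ^ j)) N := by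
  have H0 : coeff 0 H = 0 := by simpa using he 1 0
  obtain ⟨P, Y, g⟩ := exists_sys H0 e1 e2 N
  obtain ⟨Q, Z, g'⟩ := exists_sys H0 e2 e1 N
  obtain ⟨c, hc⟩ : ∃ c, c = N * Kc (fun j => L (Polynomial.X ^ j)) N := ⟨_, rfl⟩
  have a1 := (pair_eq L hp.sm hp.p2.ne' N).trans hc.symm
  have a2 := (pair_eq L hp'.sm hp.p1.ne' N).trans hc.symm
  have c0 : 0 < c := by
    have b1 := (h.LV (h.pq0 (N := N) hp.p1.le hp.p2.le) (l := N) (k := 0) le_rfl).1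
    have b2 := (h.S1 hp.p1.le hN).trans (h.Sle (N := N) hp.p1.le hp.p2.le N).1
    rw [pow_zero, mul_one, a1] at b1
    exact lt_of_lt_of_le (mul_pos h.θ0 (by linarith)) b1
  obtain ⟨B, hB⟩ : ∃ B : (ℝ[X] × ℝ[X]) →ₗ[ℝ] (ℝ[X] × ℝ[X]) →ₗ[ℝ] ℝ, ∀ v z,
      B v z = L (v.1 * z.1) + L (v.1 * z.2) + L (v.2 * z.1) :=
    ⟨LinearMap.mk₂ ℝ (fun v z => L (v.1 * z.1) + L (v.1 * z.2) + L (v.2 * z.1))
      (fun _ _ _ => by simp only [Prod.fst_add, Prod.snd_add, add_mul, map_add]; ring)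
      (fun _ _ _ => by simp [mul_add])
      (fun _ _ _ => by simp only [Prod.fst_add, Prod.snd_add, mul_add, map_add]; ring)
      (fun _ _ _ => by simp [mul_add]), fun _ _ => rfl⟩
  have m := mmE hw (N := N) (M := (N + 1) / 2) (L := N / 2 + 1) (by omega) (by omega) (by omega)
    (qf_isQ h.psd e1 e2 k1 k2 c N ((N + 1) / 2) (N / 2 + 1))
    (qf_isQ h.psd e2 e1 k1' k2' c N (N / 2 + 1) ((N + 1) / 2)) B c
    (fun x y => by
      rw [hB]
      exact h.mid hp.p1 hp.p2 hp.q1 hp'.q1 c1 c2 c3 (by omega) (by omega) (by omega) (by omega)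
        (by omega) c0 ((lf_u L e1 e2 (N / 2) _ (by omega) (by omega)).trans a1) _ _ _ _)
    (bas (N + 1)) (fam w P Y (N + 1)) (fam w Q Z (N + 1))
  have b1 := h.half hp hw he H0 g c0.ne' a1 (M := (N + 1) / 2) (K := N / 2 + 1) (by omega)
    (by omega) hN (by omega)
  have b2 := h.half hp' hw he H0 g' c0.ne' a2 (M := N / 2 + 1) (K := (N + 1) / 2) (by omega)
    (by omega) hN (by omega)
  rw [cross hw.1 B _ _ _ (fun M K h1 h2 h3 ρ τ => by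
      rw [g.sv he hw.1 ρ h1 (show K + M = N by omega), g'.sv he hw.1 τ h2 h3, sv_out, sv_out, hB, hB]
      simp only []
      rw [L_step, L_step, L_step]
      simp only [add_mul, map_add, L_C_mul]
      ring) _ _ (by omega) (by omega), bil_ext, (g'.sv0 H0 hw.1).1, (g'.sv0 H0 hw.1).2, sv_out,
    sv_out, hB, hB, hB, hB] at m
  simp only [mul_one, mul_zero, map_zero, add_zero, Prod.fst_zero, Prod.snd_zero, sub_zero,
    zero_add, he.L_st hw.1 _ _ (Nat.le_succ N), Complex.reLm_coe, Complex.imLm_coe,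
    show ∀ a b : ℂ, (⟨a.re + b.re, a.im + b.im⟩ : ℂ) = a + b from fun _ _ => rfl] at m
  rw [← map_add, ← mul_add, g.id g' H0 hp.sm hp.p2.ne' F0 hF, norm_mul, norm_mul, Complex.norm_real,
    Complex.norm_natCast, Real.norm_of_nonneg c0.le] at m
  have N0 : (0 : ℝ) < N := by exact_mod_cast hN
  refine le_of_mul_le_mul_left (le_of_mul_le_mul_left ?_ c0) N0
  rw [← hc]
  linarith

end Pool.Agent.P.MP_bdc337_an.KR
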