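import Pool.Agent.P.MP_bdc337_an.KR.M

/-! The moment functional of the sector map and the choice of parameters. -/

set_option autoImplicit false

open Finset Polynomial MeasureTheory

namespace Pool.Agent.P.MP_bdc337_an.KR

variable {a : ℝ}

lemma exists_moment (h0 : 0 < a) (h1 : a < 1) : ∃ L : ℝ[X] →ₗ[ℝ] ℝ, (∀ k, L (X ^ k) = bs a k) ∧
    Psd L ∧ ∀ p, L (X * p * (X * p)) ≤ L (p * p) := by
  obtain ⟨r, hr⟩ : ∃ r : ℝ → ℝ, ∀ s, r s = (1 + s) ^ a * (1 - s) ^ (-a) := ⟨_, fun _ => rfl⟩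
  have ri : IntervalIntegrable r volume (-1) 1 := by
    have b1 := (intervalIntegral.intervalIntegrable_rpow' (a := 2) (b := 0)
      (show -1 < -a by linarith)).comp_sub_left 1
    rw [show (1 : ℝ) - 2 = -1 by norm_num, sub_zero] at b1
    rw [funext hr]
    exact b1.continuousOn_mul ((continuous_const.add continuous_id).rpow_const
      fun _ => Or.inr h0.le).continuousOn
  have pi : ∀ p : ℝ[X], IntervalIntegrable (fun s => p.eval s * r s) volume (-1) 1 :=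
    fun p => ri.continuousOn_mul p.continuous.continuousOn
  have r0 : ∀ s ∈ Set.Ioo (-1 : ℝ) 1, 0 < r s := fun s hs => by
    rw [hr]
    exact mul_pos (Real.rpow_pos_of_pos (by linarith [hs.1]) _)
      (Real.rpow_pos_of_pos (by linarith [hs.2]) _)
  obtain ⟨I, hI⟩ : ∃ I : ℝ[X] →ₗ[ℝ] ℝ, ∀ p, I p = ∫ s in (-1 : ℝ)..1, p.eval s * r s :=
    ⟨{ toFun := fun p => ∫ s in (-1 : ℝ)..1, p.eval s * r s
       map_add' := fun p q => by
        simp only [eval_add, add_mul]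
        exact intervalIntegral.integral_add (pi p) (pi q)
       map_smul' := fun c p => by
        simp only [eval_smul, smul_eq_mul, mul_assoc, RingHom.id_apply]
        exact intervalIntegral.integral_const_mul _ _ }, fun _ => rfl⟩
  have I0 : ∀ p : ℝ[X], (∀ s ∈ Set.Icc (-1 : ℝ) 1, 0 ≤ p.eval s) → 0 ≤ I p := fun p hp => by
    rw [hI]
    refine intervalIntegral.integral_nonneg (by norm_num) fun s hs => mul_nonneg (hp s hs) ?_
    rw [hr]
    exact mul_nonneg (Real.rpow_nonneg (by linarith [hs.1]) _)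
      (Real.rpow_nonneg (by linarith [hs.2]) _)
  have I1 : 0 < I 1 := by
    rw [hI]
    exact intervalIntegral.intervalIntegral_pos_of_pos_on (pi 1)
      (fun s hs => by rw [eval_one, one_mul]; exact r0 s hs) (by norm_num)
  have ftc : ∀ p : ℝ[X], I ((C (2 * a) - C 2 * X) * p + (1 - X ^ 2) * derivative p) = 0 := by
    intro p
    have := intervalIntegral.integral_eq_sub_of_hasDerivAt_of_le (a := -1) (b := 1)
      (f := fun s => (1 + s) ^ (a + 1) * (1 - s) ^ (-a + 1) * p.eval s) (by norm_num)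
      ((((continuous_const.add continuous_id).rpow_const fun _ => Or.inr (by linarith)).mul
        ((continuous_const.sub continuous_id).rpow_const fun _ => Or.inr (by linarith))).mul
          p.continuous).continuousOn (fun s hs => ?_)
      (pi ((C (2 * a) - C 2 * X) * p + (1 - X ^ 2) * derivative p))
    · rw [hI, this]
      simp [Real.zero_rpow (show a + 1 ≠ 0 by linarith),
        Real.zero_rpow (show -a + 1 ≠ 0 by linarith)]
    · have s1 : 1 + s ≠ 0 := by linarith [hs.1]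
      have s2 : 1 - s ≠ 0 := by linarith [hs.2]
      have l1 := ((hasDerivAt_id' s).const_add 1).rpow_const (p := a + 1) (Or.inl s1)
      have l2 := ((hasDerivAt_id' s).const_sub 1).rpow_const (p := -a + 1) (Or.inl s2)
      refine ((l1.fun_mul l2).fun_mul (p.hasDerivAt s)).congr_deriv ?_
      rw [add_sub_cancel_right, add_sub_cancel_right, Real.rpow_add_one s1, Real.rpow_add_one s2, hr]
      simp only [eval_add, eval_mul, eval_sub, eval_C, eval_X, eval_one, eval_pow]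
      ring
  have mo : ∀ k, 2 * a / I 1 * I (X ^ k) = bs a k ∧ 2 * a / I 1 * I (X ^ (k + 1)) = bs a (k + 1) := by
    intro k
    induction k with
    | zero =>
      have b1 := ftc 1
      have b2 := bs_id0 a
      have b3 : 2 * a / I 1 * I 1 = 2 * a := div_mul_cancel₀ _ I1.ne'
      rw [derivative_one, mul_zero, add_zero, sub_mul, map_sub, mul_assoc, L_C_mul, L_C_mul,
        mul_one] at b1
      rw [pow_zero, zero_add, pow_one, bs_zero] at *
      exact ⟨b3, by linear_combination -(2 * a / I 1) / 2 * b1 + a * b3 + b2 / 2⟩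
    | succ k ih =>
      refine ⟨ih.2, mul_left_cancel₀ (show (k : ℝ) + 3 ≠ 0 by positivity) ?_⟩
      have b1 := ftc (X ^ (k + 1))
      have b2 : (C (2 * a) - C 2 * X) * X ^ (k + 1) + (1 - X ^ 2) * derivative (X ^ (k + 1) : ℝ[X])
          = C (2 * a) * X ^ (k + 1) - C 2 * X ^ (k + 1 + 1) + C ((k : ℝ) + 1) * X ^ k
            - C ((k : ℝ) + 1) * X ^ (k + 1 + 1) := by
        rw [derivative_X_pow_succ]
        ring
      rw [b2, map_sub, map_add, map_sub, L_C_mul, L_C_mul, L_C_mul, L_C_mul] at b1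
      linear_combination -(2 * a / I 1) * b1 + 2 * a * ih.2 + (k + 1) * ih.1 + bs_id a k
  have c0 : 0 ≤ 2 * a / I 1 := by positivity
  refine ⟨(2 * a / I 1) • I, fun k => (mo k).1, fun p => mul_nonneg c0 (I0 _ fun s _ => ?_),
    fun p => mul_le_mul_of_nonneg_left ?_ c0⟩
  · rw [eval_mul]
    exact mul_self_nonneg _
  · rw [← sub_nonneg, ← map_sub]
    refine I0 _ fun s hs => ?_
    simp only [eval_sub, eval_mul, eval_X]
    nlinarith [mul_nonneg (mul_nonneg (sub_nonneg.2 hs.2) (neg_le_iff_add_nonneg'.1 hs.1))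
      (mul_self_nonneg (p.eval s))]

lemma bern {p t : ℝ} (p0 : 0 ≤ p) (p1 : p ≤ 1) (t0 : 0 ≤ t) :
    t ^ p ≤ (1 - p / (t + 1)) * (t + 1) ^ p := by
  have b1 : -1 ≤ -(1 / (t + 1)) := neg_le_neg ((div_le_one (by positivity)).2 (by linarith))
  have b2 := rpow_one_add_le_one_add_mul_self b1 p0 p1
  have b3 : t = (1 + -(1 / (t + 1))) * (t + 1) := by field_simp; ring
  conv_lhs => rw [b3, Real.mul_rpow (by linarith) (by positivity)]
  exact mul_le_mul_of_nonneg_right (b2.trans (le_of_eq (by ring))) (by positivity)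

lemma bs_low (h0 : 1 / 2 ≤ a) (h1 : a ≤ 1) (k : ℕ) : 1 ≤ bs a k * ((k : ℝ) + 1) ^ (2 * (1 - a)) := by
  induction k with
  | zero => rw [bs_zero, Nat.cast_zero, zero_add, Real.one_rpow]; linarith
  | succ k ih =>
    obtain ⟨i1, -, i3⟩ := bs_step h0 h1 k
    have b1 := bern (p := 2 * (1 - a)) (t := k + 1) (by linarith) (by linarith) (by positivity)
    have b2 : bs a k * (1 - 2 * (1 - a) / (k + 1 + 1)) ≤ bs a (k + 1) := by
      rw [mul_sub, ← mul_div_assoc, sub_le_comm, le_div_iff₀ (by positivity)]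
      linarith
    push_cast
    refine (ih.trans (mul_le_mul_of_nonneg_left b1 i1.le)).trans ?_
    rw [← mul_assoc]
    exact mul_le_mul_of_nonneg_right b2 (by positivity)

/-- a weighted second difference -/
noncomputable def zf (a : ℝ) (k : ℕ) : ℝ :=
  (k + 2) * ((k + 3) * (bs a (k + 1) - bs a (k + 2)) - (k + 1) * (bs a k - bs a (k + 1)))

lemma bs_d (h0 : 1 / 2 ≤ a) (h1 : a ≤ 1) (k : ℕ) :
    0 ≤ bs a k - bs a (k + 1) ∧ ((k : ℝ) + 2) * (bs a k - bs a (k + 1)) ≤ 4 * (1 - a) := by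
  obtain ⟨-, i2, i3⟩ := bs_step h0 h1 k
  exact ⟨i2, by nlinarith [bs_le h0 h1 k]⟩

lemma zf_le (h0 : 1 / 2 ≤ a) (h1 : a ≤ 1) (k : ℕ) :
    |zf a k| ≤ 12 * (1 - a) * ((k : ℝ) + 2) ^ (2 * (1 - a)) ∧
      |zf a (k + 1)| ≤ 12 * (1 - a) * ((k : ℝ) + 2) ^ (2 * (1 - a)) := by
  have e0 : 0 ≤ 1 - a := by linarith
  induction k with
  | zero =>
    have b0 := bs_d h0 h1 0
    have b1 := bs_d h0 h1 1
    have b2 := bs_d h0 h1 2
    have b3 := mul_le_mul_of_nonneg_left (Real.one_le_rpow (show (1 : ℝ) ≤ (0 : ℕ) + 2 by norm_num)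
      (show 0 ≤ 2 * (1 - a) by linarith)) e0
    simp only [zf, abs_le]
    norm_num at b0 b1 b2 b3 ⊢
    refine ⟨⟨?_, ?_⟩, ?_, ?_⟩ <;> linarith [b0.1, b0.2, b1.1, b1.2, b2.1, b2.2]
  | succ k ih =>
    obtain ⟨i1, i2⟩ := ih
    have b1 := bern (p := 2 * (1 - a)) (t := k + 2) (by linarith) (by linarith) (by positivity)
    have b2 : zf a (k + 1 + 1) = zf a k - 2 * (1 - a) / (k + 2 + 1) * zf a (k + 1) := by
      have c0 := bs_id a k
      have c1 := bs_id a (k + 1)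
      have c2 := bs_id a (k + 1 + 1)
      have c3 : 2 * (1 - a) / (k + 2 + 1) * zf a (k + 1) = 2 * (1 - a) * ((k + 4) *
          (bs a (k + 1 + 1) - bs a (k + 1 + 2)) - (k + 2) * (bs a (k + 1) - bs a (k + 1 + 1))) := by
        rw [zf]
        push_cast
        field_simp
        ring
      rw [c3, zf, zf]
      push_cast at c1 c2 ⊢
      linear_combination (k + 4) * c2 - 2 * (k + 3) * c1 + (k + 2) * c0
    push_cast
    rw [show (k : ℝ) + 1 + 2 = k + 2 + 1 by ring]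
    obtain ⟨q, hq⟩ : ∃ q : ℝ, q = 2 * (1 - a) / (k + 2 + 1) := ⟨_, rfl⟩
    have q0 : 0 ≤ q := by rw [hq]; positivity
    have y0 : 0 ≤ (1 - a) * ((k : ℝ) + 2 + 1) ^ (2 * (1 - a)) := by positivity
    rw [← hq] at b1 b2
    have b3 := mul_le_mul_of_nonneg_left b1 e0
    refine ⟨by linarith [mul_nonneg q0 y0], ?_⟩
    rw [b2]
    refine (abs_sub _ _).trans ?_
    rw [abs_mul, abs_of_nonneg q0]
    linarith [mul_le_mul_of_nonneg_left i2 q0, mul_le_mul_of_nonneg_left b3 q0,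
      mul_nonneg (sq_nonneg q) y0]

lemma exists_mo (h0 : 1 / 2 ≤ a) (h1 : a < 1) (N : ℕ) {y σ : ℝ}
    (hy : y = ((N : ℝ) + 1) ^ (2 * (1 - a))) (σ0 : 0 ≤ σ) (σ1 : σ ≤ 1)
    (hσ : σ ^ 2 = 8 * (1 - a) * y) :
    ∃ L : ℝ[X] →ₗ[ℝ] ℝ, (∀ k, L (X ^ k) = bs a k) ∧ Mo L N (1 / y) σ := by
  obtain ⟨L, hL, ps, dir⟩ := exists_moment (by linarith) h1
  have e0 : 0 ≤ 1 - a := by linarith
  have N0 : (0 : ℝ) ≤ N := Nat.cast_nonneg N
  have y1 : 1 ≤ y := hy ▸ Real.one_le_rpow (by linarith) (by linarith)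
  have ym : ∀ k : ℕ, k ≤ N → ((k : ℝ) + 1) ^ (2 * (1 - a)) ≤ y := fun k hk =>
    hy ▸ Real.rpow_le_rpow (by positivity) (by exact_mod_cast Nat.succ_le_succ hk) (by linarith)
  have ey := mul_le_mul_of_nonneg_left y1 e0
  refine ⟨L, hL, ps, dir, ?_, fun k hk => ?_, fun k => ?_, fun k => ?_, fun k => ?_, fun j hj => ?_,
    by positivity, (div_le_one (by positivity)).2 y1, σ0, σ1⟩
  · rw [← pow_zero X, hL, bs_zero]
    linarith
  · rw [hL, div_le_iff₀ (by positivity)]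
    exact (bs_low h0 h1.le k).trans
      (mul_le_mul_of_nonneg_left (ym k hk.le) (bs_step h0 h1.le k).1.le)
  · rw [hL]
    exact (bs_step h0 h1.le k).1.le
  · rw [hL, hL]
    linarith [(bs_d h0 h1.le k).1]
  · rw [hL, hL]
    linarith [(bs_d h0 h1.le k).1, (bs_d h0 h1.le k).2]
  · refine (abs_le_of_sq_le_sq' ?_ σ0).2
    have b1 : (1 - X) * X ^ j * ((1 - X) * X ^ j)
        = X ^ (2 * j) - X ^ (2 * j + 1) - (X ^ (2 * j + 1) - X ^ (2 * j + 2) : ℝ[X]) := by ring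
    have b2 := ps ((1 - X) * X ^ j)
    have b3 := (abs_le.1 (zf_le h0 h1.le (2 * j)).1).1
    have b4 := (bs_d h0 h1.le (2 * j)).2
    have b5 : (((2 * j : ℕ) : ℝ) + 2) ^ (2 * (1 - a)) ≤ 2 * y := by
      rw [show ((2 * j : ℕ) : ℝ) + 2 = 2 * (j + 1) by push_cast; ring,
        Real.mul_rpow zero_le_two (by positivity)]
      refine mul_le_mul ?_ (ym j hj) (by positivity) zero_le_two
      simpa using Real.rpow_le_rpow_of_exponent_le one_le_two (show 2 * (1 - a) ≤ 1 by linarith)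
    have b6 := mul_le_mul_of_nonneg_left b5 e0
    rw [mul_pow, ps.sq, hσ]
    rw [b1, map_sub, map_sub, map_sub, hL, hL, hL] at b2 ⊢
    rw [zf] at b3
    push_cast at b3 b4 b6
    linarith [mul_nonneg (show (0 : ℝ) ≤ j + 1 by positivity) b2]

lemma par_choice {l σ : ℝ} (l0 : 0 < l) (l1 : 10 ^ 15 * l ≤ 1)
    (hσ : σ ^ 2 ≤ l ^ 30) :
    Par (10 ^ 15 * l) σ (1 - l ^ 9) (l ^ 9) (1 / l ^ 9) (1 / l ^ 12) ∧
      Par (10 ^ 15 * l) σ (l ^ 9) (1 - l ^ 9) (l ^ 7) (l ^ 8) := by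
  have w : ∀ i j : ℕ, i ≤ j → l ^ j ≤ l ^ i := fun i j h =>
    pow_le_pow_of_le_one l0.le (by linarith) h
  have v : ∀ i : ℕ, 0 < l ^ i := fun i => pow_pos l0 i
  have u : ∀ i : ℕ, 1 ≤ 1 / l ^ i := fun i => one_le_one_div (v i) (by simpa using w 0 i i.zero_le)
  have a1 : l ^ 9 ≤ 1 / 2 := by linarith [w 1 9 (by norm_num), pow_one l]
  have a2 : (1 - l ^ 9) ^ 2 ≤ 1 := pow_le_one₀ (by linarith) (by linarith [v 9])
  have a3 : 1 / 4 ≤ (1 - l ^ 9) ^ 2 := by nlinarith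
  have a4 : σ ≤ (1 - l ^ 9) * l ^ 9 := by
    have b1 : σ ≤ l ^ 15 := (abs_le_of_sq_le_sq' (by rwa [← pow_mul]) (v 15).le).2
    have b2 := mul_le_mul_of_nonneg_right a1 (v 9).le
    have b3 := mul_le_mul_of_nonneg_right l1 (v 9).le
    linarith [w 10 15 (by norm_num), v 10]
  have a5 : l ^ 30 ≤ 1 := by simpa using w 0 30 (by norm_num)
  refine ⟨⟨by linarith, v 9, by ring, by positivity, by positivity, ?_, ?_, ?_, ?_, ?_, a4, ?_, ?_⟩,
    v 9, by linarith, by ring, v 7, v 8, ?_, ?_, ?_, ?_, ?_, by linarith, ?_, ?_⟩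
  · rw [show 1 / l ^ 9 * (l ^ 9) ^ 2 = l ^ 9 by field_simp]
    linarith [w 7 9 (by norm_num), v 7]
  · rw [show 1 / l ^ 12 * (l ^ 9) ^ 2 = l ^ 6 by field_simp]
    linarith [v 6]
  · rw [show (10 ^ 15 * l) ^ 2 * (1 / l ^ 12) = 10 ^ 30 * (1 / l ^ 10) by field_simp]
    linarith [u 10]
  · rw [show (10 ^ 15 * l) ^ 3 * (1 / l ^ 12) = 10 ^ 45 * (1 / l ^ 9) by field_simp]
    linarith [u 9, mul_nonneg (v 9).le (zero_le_one.trans (u 9))]
  · rw [show 1 / l ^ 12 * (l ^ 9) ^ 2 = l ^ 6 by field_simp,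
      show 10 ^ 15 * l * (1 / l ^ 9) = 10 ^ 15 * (1 / l ^ 8) by field_simp]
    linarith [u 8, w 0 6 (by norm_num), pow_zero l]
  · rw [mul_assoc, show (10 ^ 15 * l) ^ 5 * (1 / l ^ 9) = 10 ^ 75 * (1 / l ^ 4) by field_simp]
    linarith [mul_le_mul a3 (u 4) zero_le_one (sq_nonneg _)]
  · linarith [mul_le_mul_of_nonneg_right a3 (v 6).le, w 6 30 (by norm_num), v 6]
  · linarith [mul_le_mul_of_nonneg_left a2 (v 7).le, v 7]
  · linarith [mul_le_mul_of_nonneg_left a2 (v 8).le, w 6 8 (by norm_num), v 6]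
  · linarith [w 10 18 (by norm_num), v 10]
  · linarith [w 11 16 (by norm_num), v 11]
  · linarith [mul_le_mul_of_nonneg_left a2 (v 8).le]
  · linarith [v 30]
  · linarith [w 24 30 (by norm_num), v 24]

open PowerSeries in
theorem upperS {q H G : ℂ → ℂ} (h : UO.Dat a q H G) (h1 : a < 1) {N : ℕ} (hN : 1 ≤ N)
    (hc : (1 - a) * ((N : ℝ) + 1) ^ (62 * (1 - a)) ≤ 1 / (8 * (10 ^ 15) ^ 30)) :
    ‖coeff (N + 1) (tay fun z => z * Complex.exp (G z))‖ ≤ Kc (bs a) N := by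
  have e0 : 0 ≤ 1 - a := by linarith
  have N0 : (0 : ℝ) ≤ N := Nat.cast_nonneg N
  obtain ⟨y, hy⟩ : ∃ y, y = ((N : ℝ) + 1) ^ (2 * (1 - a)) := ⟨_, rfl⟩
  have y1 : 1 ≤ y := hy ▸ Real.one_le_rpow (by linarith) (by linarith)
  have e1 : ((N : ℝ) + 1) ^ (62 * (1 - a)) = y ^ 31 := by
    rw [hy, ← Real.rpow_natCast, ← Real.rpow_mul (by positivity)]
    congr 1
    push_cast
    ring
  rw [e1, le_div_iff₀ (by positivity)] at hc
  obtain ⟨l, hl⟩ : ∃ l : ℝ, l = 1 / (10 ^ 15 * y) := ⟨_, rfl⟩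
  have l0 : 0 < l := by rw [hl]; positivity
  have l1 : 10 ^ 15 * l = 1 / y := by rw [hl]; field_simp
  have l2 : 10 ^ 15 * l ≤ 1 := l1 ▸ (div_le_one (by positivity)).2 y1
  have l3 : l ≤ 1 / 16 := by linarith
  have s1 : 8 * (1 - a) * y ≤ l ^ 30 := by
    rw [hl, div_pow, one_pow, le_div_iff₀ (by positivity), mul_pow]
    refine le_trans (le_of_eq ?_) hc
    generalize ((10 : ℝ) ^ 15) ^ 30 = c
    ring
  have s2 : l ^ 30 ≤ 1 := pow_le_one₀ l0.le (by linarith)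
  have s3 : √(8 * (1 - a) * y) ^ 2 = 8 * (1 - a) * y := Real.sq_sqrt (by positivity)
  obtain ⟨L, hL, hm⟩ := exists_mo (by nlinarith) h1 N hy (Real.sqrt_nonneg _)
    (Real.sqrt_le_one.2 (s1.trans s2)) s3
  obtain ⟨p1, p2⟩ := par_choice l0 l2 (s3.le.trans s1)
  rw [← l1] at hm
  obtain ⟨w, hw, ode⟩ := schwarz h
  have i1 : 16 ≤ 1 / l := by rw [le_div_iff₀ l0]; linarith
  have i2 : ∀ i : ℕ, 1 ≤ i → 16 ≤ 1 / l ^ i := fun i hi => i1.trans
    (one_div_le_one_div_of_le (by positivity) (pow_le_of_le_one l0.le (by linarith) (by omega)))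
  have := hm.core (F := tay fun z => Complex.exp (G z)) (H := tay q - 1) p1 p2
    (by rw [show 1 / l ^ 9 * l ^ 7 = 1 / l ^ 2 by field_simp]; exact i2 2 one_le_two)
    (by rw [show 1 / l ^ 9 * l ^ 8 = 1 / l by field_simp]; linarith)
    (by rw [show l ^ 7 * (1 / l ^ 12) = 1 / l ^ 5 by field_simp]; linarith [i2 5 (by norm_num)])
    hN hw (fun Z n => by simp only [hL]; exact expand hw.1 (by rw [coeff_zero_tay, h.q0]) ode Z n)
    (by rw [coeff_zero_tay, h.G0, Complex.exp_zero])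
    (fun n => by rw [← coeff_X_mul_deriv, h.euler])
  rw [coeff_f h]
  simpa only [hL] using this

end Pool.Agent.P.MP_bdc337_an.KR
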