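import Pool.Agent.P.MP_bdc337_an.KR.N

/-! Moment conditions with local scales. -/

set_option autoImplicit false

open Finset Polynomial

namespace Pool.Agent.P.MP_bdc337_an.KR

/-- moment conditions for a functional split into the parts carried by the two half intervals -/
structure Mt (L A B : ℝ[X] →ₗ[ℝ] ℝ) (N : ℕ) (ρ : ℝ) : Prop where
  mo : Mo L N (L (X ^ N)) 1
  sm : ∀ p, L p = A p + B p
  pa : ∀ p : ℝ[X], (∀ x, 0 ≤ x → x ≤ 1 → 0 ≤ p.eval x) → 0 ≤ A p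
  pb : ∀ p : ℝ[X], (∀ x, -1 ≤ x → x ≤ 0 → 0 ≤ p.eval x) → 0 ≤ B p
  b0 : 1 ≤ L 1
  d1 : ∀ k : ℕ, ((k : ℝ) + 2) * (L (X ^ k) - L (X ^ (k + 1))) ≤ ρ ^ 2 * L (X ^ k)
  d2 : ∀ j : ℕ, ((j : ℝ) + 1) ^ 2 * L (X ^ j) * L ((1 - X) * X ^ j * ((1 - X) * X ^ j)) ≤ 8 * ρ ^ 2
  ρ0 : 0 ≤ ρ
  r1 : 10 ^ 30 * ρ ^ 2 ≤ L (X ^ N)
  t1 : 10 ^ 30 * L (X ^ N) ≤ 1

/-- the dissipation form -/
noncomputable def Mk (A : ℝ[X] →ₗ[ℝ] ℝ) (r : ℕ) : ℝ[X] →ₗ[ℝ] ℝ :=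
  A.comp (LinearMap.mulLeft ℝ ((1 - X) * X ^ r))

/-- the weighted functional -/
noncomputable def Lam (L A : ℝ[X] →ₗ[ℝ] ℝ) (n : ℕ) : ℝ[X] →ₗ[ℝ] ℝ :=
  L + A.comp (LinearMap.mulLeft ℝ (X ^ n))

variable {L A B : ℝ[X] →ₗ[ℝ] ℝ} {N : ℕ} {ρ : ℝ}

lemma Mk_apply (A : ℝ[X] →ₗ[ℝ] ℝ) (r : ℕ) (p : ℝ[X]) : Mk A r p = A ((1 - X) * X ^ r * p) := rfl

lemma Lam_apply (L A : ℝ[X] →ₗ[ℝ] ℝ) (n : ℕ) (p : ℝ[X]) : Lam L A n p = L p + A (X ^ n * p) := rfl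

lemma Lam_split (L A : ℝ[X] →ₗ[ℝ] ℝ) (n : ℕ) (p : ℝ[X]) :
    Lam L A n p = Lam L A (n + 1) p + Mk A n p := by
  rw [Lam_apply, Lam_apply, Mk_apply, add_assoc, ← map_add]
  congr 2
  ring

lemma nr_mono {M M' : ℝ[X] →ₗ[ℝ] ℝ} {p q : ℝ[X]} (h : M (p * p) ≤ M' (q * q)) :
    nr M p ≤ nr M' q := Real.sqrt_le_sqrt h

lemma Psd.le {M : ℝ[X] →ₗ[ℝ] ℝ} (h : Psd M) {p : ℝ[X]} {c : ℝ} (c0 : 0 ≤ c)
    (hc : M (p * p) ≤ c ^ 2) : nr M p ≤ c :=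
  (abs_le_of_sq_le_sq' (by rwa [h.sq]) c0).2

lemma Mt.la (h : Mt L A B N ρ) {p q : ℝ[X]} (hp : ∀ x, 0 ≤ x → x ≤ 1 → p.eval x ≤ q.eval x) :
    A p ≤ A q := by
  rw [← sub_nonneg, ← map_sub]
  exact h.pa _ fun x x0 x1 => by rw [eval_sub]; exact sub_nonneg.2 (hp x x0 x1)

lemma Mt.lb (h : Mt L A B N ρ) {p q : ℝ[X]} (hp : ∀ x, -1 ≤ x → x ≤ 0 → p.eval x ≤ q.eval x) :
    B p ≤ B q := by
  rw [← sub_nonneg, ← map_sub]
  exact h.pb _ fun x x0 x1 => by rw [eval_sub]; exact sub_nonneg.2 (hp x x0 x1)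

lemma Mt.psA (h : Mt L A B N ρ) : Psd A := fun p =>
  h.pa _ fun x _ _ => by rw [eval_mul]; exact mul_self_nonneg _

lemma Mt.psB (h : Mt L A B N ρ) : Psd B := fun p =>
  h.pb _ fun x _ _ => by rw [eval_mul]; exact mul_self_nonneg _

lemma Mt.psM (h : Mt L A B N ρ) (r : ℕ) : Psd (Mk A r) := fun p =>
  h.pa ((1 - X) * X ^ r * (p * p)) fun x x0 x1 => by
    simp only [eval_mul, eval_sub, eval_pow, eval_X, eval_one]
    exact mul_nonneg (mul_nonneg (sub_nonneg.2 x1) (pow_nonneg x0 r)) (mul_self_nonneg _)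

lemma Mt.xa (h : Mt L A B N ρ) (n : ℕ) (p : ℝ[X]) :
    0 ≤ A (X ^ n * (p * p)) ∧ A (X ^ n * (p * p)) ≤ A (p * p) :=
  ⟨h.pa _ fun x x0 _ => by
    simp only [eval_mul, eval_pow, eval_X]
    exact mul_nonneg (pow_nonneg x0 n) (mul_self_nonneg _), h.la fun x x0 x1 => by
    simp only [eval_mul, eval_pow, eval_X]
    exact mul_le_of_le_one_left (mul_self_nonneg _) (pow_le_one₀ x0 x1)⟩

lemma Mt.psL (h : Mt L A B N ρ) (n : ℕ) : Psd (Lam L A n) := fun p =>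
  add_nonneg (h.mo.psd p) (h.xa n p).1

lemma Mt.nA (h : Mt L A B N ρ) (p : ℝ[X]) : nr A p ≤ nr L p :=
  nr_mono (by rw [h.sm]; linarith [h.psB p])

lemma Mt.nB (h : Mt L A B N ρ) (p : ℝ[X]) : nr B p ≤ nr L p :=
  nr_mono (by rw [h.sm]; linarith [h.psA p])

lemma Mt.nL (h : Mt L A B N ρ) (n : ℕ) (p : ℝ[X]) : nr L p ≤ nr (Lam L A n) p :=
  nr_mono (by rw [Lam_apply]; linarith [(h.xa n p).1])

lemma Mt.nLam (h : Mt L A B N ρ) (n : ℕ) (p : ℝ[X]) :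
    nr (Lam L A n) p ≤ nr B p + 3 / 2 * nr A p := by
  have a := nr_nonneg A p
  have b := nr_nonneg B p
  refine (h.psL n).le (by positivity) ?_
  rw [Lam_apply, h.sm]
  nlinarith [(h.xa n p).2, h.psA.sq p, h.psB.sq p, mul_nonneg a b]

lemma Mt.nLam' (h : Mt L A B N ρ) (n : ℕ) (p : ℝ[X]) : nr (Lam L A n) p ≤ 3 / 2 * nr L p := by
  refine (h.psL n).le (mul_nonneg (by norm_num) (nr_nonneg L p)) ?_
  rw [Lam_apply, mul_pow, h.mo.psd.sq, h.sm]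
  linarith [(h.xa n p).2, h.psA p, h.psB p]

lemma Mt.ρ2 (h : Mt L A B N ρ) : 10 ^ 60 * ρ ^ 2 ≤ 1 := by linarith [h.r1, h.t1]

lemma Mt.mono2 (h : Mt L A B N ρ) {j k : ℕ} (hjk : j ≤ k) :
    ((j : ℝ) + 1) * L (X ^ j) ^ 2 ≤ ((k : ℝ) + 1) * L (X ^ k) ^ 2 := by
  refine monotone_nat_of_le_succ (f := fun k : ℕ => ((k : ℝ) + 1) * L (X ^ k) ^ 2) (fun k => ?_) hjk
  have k0 : (0 : ℝ) ≤ k := Nat.cast_nonneg k
  have a1 : (k + 3 / 2) * L (X ^ k) ≤ (k + 2) * L (X ^ (k + 1)) := by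
    nlinarith [h.d1 k, h.ρ2, h.mo.pos k]
  have a2 := pow_le_pow_left₀ (mul_nonneg (by positivity) (h.mo.pos k)) a1 2
  push_cast
  apply le_of_mul_le_mul_left _ (show (0 : ℝ) < k + 2 by positivity)
  nlinarith [sq_nonneg (L (X ^ k))]

lemma Mt.one (h : Mt L A B N ρ) (k : ℕ) : 1 ≤ ((k : ℝ) + 1) * L (X ^ k) ^ 2 := by
  have := h.mono2 (Nat.zero_le k)
  rw [pow_zero, Nat.cast_zero] at this
  nlinarith [h.b0]

lemma Mt.bpos (h : Mt L A B N ρ) (k : ℕ) : 0 < L (X ^ k) :=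
  lt_of_le_of_ne (h.mo.pos k) fun e => by
    have := h.one k
    rw [← e] at this
    linarith

lemma Mt.cmp (h : Mt L A B N ρ) {j k : ℕ} (hk : k + 1 ≤ 4 * (j + 1)) :
    L (X ^ j) ≤ 2 * L (X ^ k) := by
  rcases le_total j k with c | c
  · have a1 := h.mono2 c
    have a2 : (k : ℝ) + 1 ≤ 4 * (j + 1) := by exact_mod_cast hk
    refine (abs_le_of_sq_le_sq' ?_ (by linarith [h.mo.pos k])).2
    apply le_of_mul_le_mul_left _ (show (0 : ℝ) < j + 1 by positivity)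
    linarith [mul_le_mul_of_nonneg_right a2 (sq_nonneg (L (X ^ k)))]
  · linarith [h.mo.le c, h.mo.pos k]

lemma Mt.sumb (h : Mt L A B N ρ) (k : ℕ) : ∑ j ∈ range k, L (X ^ j) ≤ 2 * k * L (X ^ k) := by
  induction k with
  | zero => simp
  | succ k ih =>
    rw [sum_range_succ]
    push_cast
    nlinarith [h.d1 k, h.ρ2, h.mo.pos k, h.mo.anti k]

lemma Mt.drop (h : Mt L A B N ρ) (k : ℕ) :
    ∑ i ∈ range k, (L (X ^ i) - L (X ^ k)) ≤ ρ ^ 2 * ∑ i ∈ range k, L (X ^ i) := by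
  induction k with
  | zero => simp
  | succ k ih =>
    rw [sum_sub_distrib, sum_const, card_range, nsmul_eq_mul] at ih ⊢
    rw [sum_range_succ]
    push_cast
    linarith [h.d1 k, h.mo.anti k]

lemma Mt.gap (h : Mt L A B N ρ) {j k : ℕ} (hjk : j ≤ k) :
    ((j : ℝ) + 2) * (L (X ^ j) - L (X ^ k)) ≤ ρ ^ 2 * (k - j) * L (X ^ j) := by
  induction k, hjk using Nat.le_induction with
  | base => simp
  | succ k hk ih =>
    have a1 : (j : ℝ) ≤ k := by exact_mod_cast hk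
    push_cast
    linarith [h.d1 k, mul_le_mul_of_nonneg_right a1 (sub_nonneg.2 (h.mo.anti k)),
      mul_le_mul_of_nonneg_left (h.mo.le hk) (sq_nonneg ρ)]

lemma Mt.big (h : Mt L A B N ρ) : 100 ≤ N := by
  have a1 := h.one N
  have a2 : L (X ^ N) ^ 2 ≤ (1 / 20) ^ 2 := pow_le_pow_left₀ (h.mo.pos N) (by linarith [h.t1]) 2
  have a3 : (100 : ℝ) ≤ N := by nlinarith [Nat.cast_nonneg (α := ℝ) N]
  exact_mod_cast a3

lemma Mt.tN (h : Mt L A B N ρ) {n : ℕ} (hn : n + 1 ≤ N) :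
    10 ^ 29 * (L (X ^ (n + 1)) * n) ≤ N ∧ 10 ^ 30 * ρ ^ 2 ≤ L (X ^ (n + 1)) := by
  have a1 := h.mono2 hn
  have a2 : (n : ℝ) + 1 ≤ N := by exact_mod_cast hn
  have n0 : (0 : ℝ) ≤ n := Nat.cast_nonneg n
  have s0 := h.mo.pos (n + 1)
  push_cast at a1
  have a3 : (n + 1 + 1) * L (X ^ (n + 1)) ≤ (N + 1) * L (X ^ N) := by
    refine (abs_le_of_sq_le_sq' ?_ (mul_nonneg (by linarith) (h.mo.pos N))).2
    nlinarith [mul_le_mul (show (n : ℝ) + 1 + 1 ≤ N + 1 by linarith) a1 (by positivity) (by linarith)]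
  exact ⟨by nlinarith [mul_le_mul_of_nonneg_left h.t1 (show (0 : ℝ) ≤ N + 1 by linarith)],
    h.r1.trans (h.mo.le hn)⟩

lemma Mt.dp (h : Mt L A B N ρ) (k : ℕ) :
    ((k : ℝ) + 1) * A ((1 - X) * X ^ k) ≤ ρ ^ 2 * L (X ^ (k - 1)) := by
  have ev : ∀ j, A ((1 - X) * X ^ (2 * j)) ≤ L (X ^ (2 * j)) - L (X ^ (2 * j + 1)) := fun j => by
    rw [← map_sub, show X ^ (2 * j) - X ^ (2 * j + 1) = ((1 - X) * X ^ (2 * j) : ℝ[X]) by ring, h.sm]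
    refine le_add_of_nonneg_right (h.pb _ fun x _ x1 => ?_)
    simp only [eval_mul, eval_sub, eval_pow, eval_X, eval_one, pow_mul']
    exact mul_nonneg (by linarith) (sq_nonneg _)
  obtain ⟨j, rfl | rfl⟩ := Nat.even_or_odd' k
  · have a1 := mul_le_mul_of_nonneg_left (ev j) (show (0 : ℝ) ≤ (2 * j : ℕ) + 1 by positivity)
    linarith [h.d1 (2 * j), h.mo.anti (2 * j),
      mul_le_mul_of_nonneg_left (h.mo.le (Nat.sub_le (2 * j) 1)) (sq_nonneg ρ)]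
  · have a0 : A ((1 - X) * X ^ (2 * j + 1)) ≤ A ((1 - X) * X ^ (2 * j)) := h.la fun x x0 x1 => by
      simp only [eval_mul, eval_sub, eval_pow, eval_X, eval_one]
      exact mul_le_mul_of_nonneg_left (pow_le_pow_of_le_one x0 x1 (by omega)) (sub_nonneg.2 x1)
    have a1 := mul_le_mul_of_nonneg_left (a0.trans (ev j))
      (show (0 : ℝ) ≤ (2 * j : ℕ) + 2 by positivity)
    have a2 := h.d1 (2 * j)
    rw [Nat.add_sub_cancel]
    push_cast at a1 a2 ⊢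
    linarith

lemma Mt.dp' (h : Mt L A B N ρ) {n k : ℕ} (hk : n ≤ 2 * k) :
    n * A ((1 - X) * X ^ k) ≤ 4 * ρ ^ 2 * L (X ^ (n + 1)) := by
  have a1 := h.dp k
  have a2 := mul_le_mul_of_nonneg_left (h.cmp (j := k - 1) (k := n + 1) (by omega)) (sq_nonneg ρ)
  have a3 : (n : ℝ) ≤ 2 * (k + 1) := by exact_mod_cast (by omega : n ≤ 2 * (k + 1))
  have a4 : 0 ≤ A ((1 - X) * X ^ k) := by simpa [Mk_apply] using h.psM k 1
  linarith [mul_le_mul_of_nonneg_right a3 a4]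

lemma pow_gap {x : ℝ} (x0 : 0 ≤ x) (x1 : x ≤ 1) (n : ℕ) : ((n : ℝ) + 1) * ((1 - x) * x ^ n) ≤ 1 := by
  have a1 := mul_neg_geom_sum x (n + 1)
  have a2 := card_nsmul_le_sum (range (n + 1)) (fun i => x ^ i) (x ^ n) fun i hi =>
    pow_le_pow_of_le_one x0 x1 (by have := mem_range.1 hi; omega)
  rw [card_range, nsmul_eq_mul] at a2
  push_cast at a2
  linarith [mul_le_mul_of_nonneg_left a2 (sub_nonneg.2 x1), pow_nonneg x0 (n + 1)]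

lemma Mt.nearA (h : Mt L A B N ρ) (i : ℕ) : ((i : ℝ) + 1) * nr A ((1 - X) * X ^ i) ≤ 3 / 2 * ρ := by
  refine (abs_le_of_sq_le_sq' ?_ (mul_nonneg (by norm_num) h.ρ0)).2
  have a1 : A (C ((i : ℝ) + 1) * ((1 - X) * X ^ i * ((1 - X) * X ^ i))) ≤ A ((1 - X) * X ^ i) :=
    h.la fun x x0 x1 => by
      simp only [eval_mul, eval_sub, eval_pow, eval_X, eval_one, eval_C]
      linarith [mul_le_mul_of_nonneg_right (pow_gap x0 x1 i)
        (mul_nonneg (sub_nonneg.2 x1) (pow_nonneg x0 i))]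
  rw [L_C_mul] at a1
  rw [mul_pow, h.psA.sq]
  linarith [mul_le_mul_of_nonneg_left a1 (show (0 : ℝ) ≤ i + 1 by positivity), h.dp i,
    mul_le_mul_of_nonneg_left (h.mo.le2 (i - 1)) (sq_nonneg ρ), sq_nonneg ρ]

lemma Mt.lamB (h : Mt L A B N ρ) (j : ℕ) :
    ((j : ℝ) + 1) ^ 2 * L (X ^ j) * nr B (X ^ j) ^ 2 ≤ 8 * ρ ^ 2 := by
  refine le_trans (mul_le_mul_of_nonneg_left ?_ (mul_nonneg (sq_nonneg _) (h.mo.pos j))) (h.d2 j)
  rw [h.psB.sq, h.sm]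
  refine le_add_of_nonneg_of_le (h.psA _) (h.lb fun x _ x1 => ?_)
  simp only [eval_mul, eval_sub, eval_pow, eval_X, eval_one]
  nlinarith [mul_nonneg (mul_nonneg (neg_nonneg.2 x1) (show 0 ≤ 2 - x by linarith))
    (mul_self_nonneg (x ^ j))]

lemma Mt.lam2 (h : Mt L A B N ρ) {j k : ℕ} (hjk : j ≤ k) :
    ((j : ℝ) + 1) ^ 2 * L (X ^ j) ≤ ((k : ℝ) + 1) ^ 2 * L (X ^ k) := by
  refine (abs_le_of_sq_le_sq' ?_ (mul_nonneg (sq_nonneg _) (h.mo.pos k))).2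
  have a1 : ((j : ℝ) + 1) ^ 3 ≤ ((k : ℝ) + 1) ^ 3 :=
    pow_le_pow_left₀ (by positivity) (by exact_mod_cast Nat.succ_le_succ hjk) 3
  linarith [mul_le_mul a1 (h.mono2 hjk) (by positivity) (by positivity)]

lemma Mt.lamB1 (h : Mt L A B N ρ) (j : ℕ) : nr B (X ^ j) ≤ 3 * ρ := by
  refine (abs_le_of_sq_le_sq' ?_ (mul_nonneg (by norm_num) h.ρ0)).2
  have a1 := h.lam2 (Nat.zero_le j)
  rw [pow_zero, Nat.cast_zero, zero_add, one_pow, one_mul] at a1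
  linarith [h.lamB j, mul_le_mul_of_nonneg_right (h.b0.trans a1) (sq_nonneg (nr B (X ^ j))),
    sq_nonneg ρ]

lemma Mt.lamB2 (h : Mt L A B N ρ) {n j : ℕ} {σ : ℝ} (hσ : σ ^ 2 = L (X ^ (n + 1)))
    (hj : n - n / 4 ≤ j) : n * σ * nr B (X ^ j) ≤ 4 * ρ := by
  refine (abs_le_of_sq_le_sq' ?_ (mul_nonneg (by norm_num) h.ρ0)).2
  have a1 := h.lam2 hj
  have a2 : 3 * (n : ℝ) ≤ 4 * ((n - n / 4 : ℕ) + 1) := by exact_mod_cast (by omega)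
  have a3 := mul_le_mul (pow_le_pow_left₀ (by positivity) a2 2)
    (h.mo.le (show n - n / 4 ≤ n + 1 by omega)) (h.mo.pos _) (sq_nonneg _)
  rw [mul_pow, mul_pow, hσ]
  linarith [h.lamB j, mul_le_mul_of_nonneg_right a1 (sq_nonneg (nr B (X ^ j))),
    mul_le_mul_of_nonneg_right a3 (sq_nonneg (nr B (X ^ j))), sq_nonneg ρ]

variable {c : ℕ → ℝ}

lemma Mt.V1 (h : Mt L A B N ρ) (hc : ∀ i, 0 ≤ c i) {l m : ℕ} {a : ℝ} (a0 : 0 ≤ a)
    (ha : ∀ j, j < l → l ≤ j + m → c j ≤ a) (k : ℕ) :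
    L (V c l * X ^ k) ≤ L (X ^ m) * (S c l + 2 * ρ ^ 2 * m * a) := by
  have a1 : L (V c l * X ^ k) ≤ ∑ i ∈ range l,
      (c (l - 1 - i) * L (X ^ m) + a * if i < m then L (X ^ i) - L (X ^ m) else 0) := by
    rw [L_V]
    refine sum_le_sum fun i hi => ?_
    have hi' := mem_range.1 hi
    rw [← pow_add]
    split_ifs with him
    · linarith [mul_le_mul_of_nonneg_left (h.mo.le (Nat.le_add_right i k)) (hc (l - 1 - i)),
        mul_le_mul_of_nonneg_right (ha (l - 1 - i) (by omega) (by omega))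
          (sub_nonneg.2 (h.mo.le him.le))]
    · linarith [mul_le_mul_of_nonneg_left (h.mo.le (show m ≤ i + k by omega)) (hc (l - 1 - i))]
  rw [sum_add_distrib, ← sum_mul, sum_range_reflect c, ← mul_sum, ← sum_filter] at a1
  have a2 : ∑ i ∈ (range l).filter (· < m), (L (X ^ i) - L (X ^ m))
      ≤ ∑ i ∈ range m, (L (X ^ i) - L (X ^ m)) :=
    sum_le_sum_of_subset_of_nonneg (fun i hi => mem_range.2 (mem_filter.1 hi).2) fun i hi _ =>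
      sub_nonneg.2 (h.mo.le (mem_range.1 hi).le)
  have a3 := mul_le_mul_of_nonneg_left ((a2.trans (h.drop m)).trans
    (mul_le_mul_of_nonneg_left (h.sumb m) (sq_nonneg ρ))) a0
  unfold S
  linarith

lemma Mt.V1' (h : Mt L A B N ρ) (hc : ∀ i, 0 ≤ c i) {l n : ℕ} {Z : ℝ} (hn : 1 ≤ n)
    (hZ : S c l ≤ Z) (ha : ∀ j, j < l → l ≤ j + n / 2 → c j ≤ 6 * Z / n) (k : ℕ) :
    L (V c l * X ^ k) ≤ L (X ^ (n / 2)) * (S c l + 6 * ρ ^ 2 * Z) ∧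
      L (V c l * X ^ k) ≤ 3 * L (X ^ (n + 1)) * Z := by
  have n0 : (0 : ℝ) < n := by exact_mod_cast hn
  have Z0 := (S_nonneg hc l).trans hZ
  have a1 := h.V1 hc (by positivity) ha k
  have a2 : 2 * ((n / 2 : ℕ) : ℝ) ≤ n := by exact_mod_cast (by omega : 2 * (n / 2) ≤ n)
  have a3 := mul_le_mul_of_nonneg_right a2 (show 0 ≤ ρ ^ 2 * (6 * Z / n) by positivity)
  have a4 : n * (ρ ^ 2 * (6 * Z / n)) = 6 * ρ ^ 2 * Z := by field_simp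
  have a5 := a1.trans (mul_le_mul_of_nonneg_left
    (show _ ≤ S c l + 6 * ρ ^ 2 * Z by linarith) (h.mo.pos _))
  refine ⟨a5, a5.trans ?_⟩
  have a6 := mul_le_mul (h.cmp (j := n / 2) (k := n + 1) (by omega))
    (show S c l + 6 * ρ ^ 2 * Z ≤ 3 / 2 * Z by
      linarith [mul_le_mul_of_nonneg_right h.ρ2 Z0, mul_nonneg (sq_nonneg ρ) Z0])
    (by have := S_nonneg hc l; positivity) (by linarith [h.mo.pos (n + 1)])
  linarith

lemma LV_le (hc : ∀ i, 0 ≤ c i) {p : ℝ[X]} {U : ℝ} {l : ℕ} (hU : ∀ k, k < l → L (p * X ^ k) ≤ U) :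
    L (p * V c l) ≤ U * S c l := by
  rw [mul_comm p, L_V, S, ← sum_range_reflect c, mul_sum]
  exact sum_le_sum fun i hi => by
    rw [mul_comm (X ^ i), mul_comm U]
    exact mul_le_mul_of_nonneg_left (hU i (mem_range.1 hi)) (hc _)

lemma LV_ge (hc : ∀ i, 0 ≤ c i) {p : ℝ[X]} {U : ℝ} {l : ℕ} (hU : ∀ k, k < l → U ≤ L (p * X ^ k)) :
    U * S c l ≤ L (p * V c l) := by
  rw [mul_comm p, L_V, S, ← sum_range_reflect c, mul_sum]
  exact sum_le_sum fun i hi => by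
    rw [mul_comm (X ^ i), mul_comm U]
    exact mul_le_mul_of_nonneg_left (hU i (mem_range.1 hi)) (hc _)

lemma Mt.low (h : Mt L A B N ρ) (hc : ∀ i, 0 ≤ c i) {l k r : ℕ} (hr : l + k ≤ r + 1) :
    L (X ^ r) * S c l ≤ L (V c l * X ^ k) := by
  rw [mul_comm (V c l)]
  exact LV_ge hc fun i hi => by rw [← pow_add]; exact h.mo.le (by omega)

lemma Mt.V3 (h : Mt L A B N ρ) (hc : ∀ i, 0 ≤ c i) (l : ℕ) : ∀ j i₀, i₀ ≤ j →
    L (X ^ j) * S c l - L (V c l * X ^ j)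
      ≤ ρ ^ 2 * L (X ^ i₀) * ∑ i ∈ range l, S c i / ((j + l + 1 - i : ℕ) : ℝ) := by
  induction l with
  | zero => intro j _ _; simp [V, S_zero]
  | succ l ih =>
    intro j i₀ hj
    have a1 := ih (j + 1) i₀ (by omega)
    have a2 : L (V c (l + 1) * X ^ j) = L (V c l * X ^ (j + 1)) + c l * L (X ^ j) := by
      rw [← L_C_mul, ← map_add, V]
      congr 1
      ring
    have a3 : L (X ^ j) - L (X ^ (j + 1)) ≤ ρ ^ 2 * L (X ^ i₀) / (j + 2) := by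
      rw [le_div_iff₀' (by positivity)]
      exact (h.d1 j).trans (mul_le_mul_of_nonneg_left (h.mo.le hj) (sq_nonneg ρ))
    have a4 := mul_le_mul_of_nonneg_right a3 (S_nonneg hc l)
    rw [sum_range_succ, show j + (l + 1) + 1 - l = j + 2 by omega, S_succ, a2,
      show j + (l + 1) + 1 = j + 1 + l + 1 by omega]
    push_cast
    linarith [show ρ ^ 2 * L (X ^ i₀) / (j + 2) * S c l
      = ρ ^ 2 * L (X ^ i₀) * (S c l / (j + 2)) by ring]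

lemma Mt.omega (h : Mt L A B N ρ) (hc : ∀ i, 0 ≤ c i) {l n : ℕ} {Z σ : ℝ} (hn : 1 ≤ n)
    (hN : n + 1 ≤ N) (σ0 : 0 ≤ σ) (hσ : σ ^ 2 = L (X ^ (n + 1))) (hZ : Z = S c l)
    (ha : ∀ j, j < l → l ≤ j + n / 2 → c j ≤ 6 * Z / n)
    (hlo : L (X ^ (2 * n)) * Z - 8 / 10 ^ 30 * (σ ^ 2 * Z) ≤ L (V c l * X ^ (n - n / 4))) :
    nr L (V c l - C Z * X ^ (n - n / 4)) ≤ 9 / 10 ^ 15 * (σ * Z) := by
  have Z0 : 0 ≤ Z := hZ ▸ S_nonneg hc l
  have n0 : (0 : ℝ) < n := by exact_mod_cast hn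
  refine h.mo.psd.le (by positivity) ?_
  have a1 := LV_le (l := l) hc fun k _ => (h.V1' hc hn hZ.ge ha k).1
  have a2 := h.mo.le (show n / 2 ≤ n - n / 4 + (n - n / 4) by omega)
  have a3 := h.cmp (j := n / 2) (k := n + 1) (by omega)
  have a4 := h.gap (show n / 2 ≤ 2 * n by omega)
  have a5 : (n : ℝ) ≤ 2 * ((n / 2 : ℕ) + 2) := by exact_mod_cast (by omega)
  have a6 := (h.tN hN).2
  have a7 : L (X ^ (n / 2)) - L (X ^ (2 * n)) ≤ 8 * ρ ^ 2 * σ ^ 2 := by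
    apply le_of_mul_le_mul_left _ n0
    have b1 := mul_le_mul_of_nonneg_right a5
      (sub_nonneg.2 (h.mo.le (show n / 2 ≤ 2 * n by omega)))
    have b2 := mul_nonneg (mul_nonneg (sq_nonneg ρ) (Nat.cast_nonneg (α := ℝ) (n / 2)))
      (h.mo.pos (n / 2))
    have b3 := mul_le_mul_of_nonneg_left a3 (show 0 ≤ ρ ^ 2 * n by positivity)
    push_cast at a4
    rw [hσ]
    linarith
  have e : (V c l - C Z * X ^ (n - n / 4)) * (V c l - C Z * X ^ (n - n / 4))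
      = V c l * V c l - C Z * (V c l * X ^ (n - n / 4)) - C Z * (V c l * X ^ (n - n / 4))
        + C Z * (C Z * X ^ (n - n / 4 + (n - n / 4))) := by ring
  rw [← hσ] at a3 a6
  rw [← hZ] at a1
  have s2 : σ ^ 2 ≤ 2 := hσ ▸ h.mo.le2 _
  have b4 : 10 ^ 30 * ρ ^ 2 ≤ 2 := a6.trans s2
  rw [e, map_add, map_sub, map_sub, L_C_mul, L_C_mul, L_C_mul]
  linarith [mul_le_mul_of_nonneg_left hlo Z0, mul_le_mul_of_nonneg_left a2 (sq_nonneg Z),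
    mul_le_mul_of_nonneg_left a7 (sq_nonneg Z),
    mul_le_mul_of_nonneg_left a3 (show 0 ≤ ρ ^ 2 * Z ^ 2 by positivity),
    mul_le_mul_of_nonneg_right b4 (show 0 ≤ σ ^ 2 * Z ^ 2 by positivity),
    show 0 ≤ σ ^ 2 * Z ^ 2 by positivity]

end Pool.Agent.P.MP_bdc337_an.KR
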