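import Pool.Agent.P.MP_bdc337_an.KR.P

/-! Local regularity of the symmetric system. -/

set_option autoImplicit false

open Finset Polynomial

namespace Pool.Agent.P.MP_bdc337_an.KR

/-- first phase -/
noncomputable abbrev p2 (L : ℝ[X] →ₗ[ℝ] ℝ) : ℕ → ℝ := pp L (1 / 2)

/-- second phase -/
noncomputable abbrev q2 (L : ℝ[X] →ₗ[ℝ] ℝ) (N : ℕ) : ℕ → ℝ := qq L (1 / 2) (1 / 2) N

/-- both phases -/
noncomputable abbrev c2 (L : ℝ[X] →ₗ[ℝ] ℝ) (N : ℕ) : ℕ → ℝ := pq L (1 / 2) (1 / 2) N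

variable {L A B : ℝ[X] →ₗ[ℝ] ℝ} {N : ℕ} {ρ : ℝ} {c : ℕ → ℝ}

lemma hf0 : (0 : ℝ) ≤ 1 / 2 := by norm_num

lemma hf1 : (1 / 2 : ℝ) ≤ 1 := by norm_num

lemma Mt.p0 (h : Mt L A B N ρ) (i : ℕ) : 0 ≤ p2 L i := h.mo.pp0 hf0 i

lemma Mt.q0 (h : Mt L A B N ρ) (i : ℕ) : 0 ≤ q2 L N i := h.mo.qq0 hf0 hf0 i

lemma Mt.c0 (h : Mt L A B N ρ) (i : ℕ) : 0 ≤ c2 L N i := h.mo.pq0 hf0 hf0 i

lemma Mt.winp (h : Mt L A B N ρ) {n l k : ℕ} (hn : 1 ≤ n) (hl : n ≤ l) (hN : l ≤ N) (k1 : l ≤ k)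
    (k2 : k ≤ l + 1) (j : ℕ) (j1 : j < k) (j2 : k ≤ j + n / 2) :
    p2 L j ≤ 6 * S (p2 L) (l + 1) / n := by
  have := h.mo.pwin hf0 hf1 (n := n) (j := j) hN (by omega) (by omega)
  rw [le_div_iff₀' (by exact_mod_cast hn)]
  linarith [S_nonneg h.p0 (l + 1)]

lemma Mt.winc (h : Mt L A B N ρ) {n l k : ℕ} (hn : 1 ≤ n) (hl : n ≤ l) (hN : l + n ≤ N) (k1 : l ≤ k)
    (k2 : k ≤ l + 1) (j : ℕ) (j1 : j < k) (j2 : k ≤ j + n / 2) :
    c2 L N j ≤ 6 * S (c2 L N) (l + 1) / n :=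
  h.mo.pqwin hf0 hf0 hf1 hf1 hn hN (by omega) (by omega)

lemma Mt.Vp (h : Mt L A B N ρ) {n l k : ℕ} (hn : 1 ≤ n) (hl : n ≤ l) (hN : l ≤ N) (k1 : l ≤ k)
    (k2 : k ≤ l + 1) (j : ℕ) : L (V (p2 L) k * X ^ j) ≤ 3 * L (X ^ (n + 1)) * S (p2 L) (l + 1) :=
  (h.V1' h.p0 hn (S_mono h.p0 k2) (h.winp hn hl hN k1 k2) j).2

lemma Mt.Vc (h : Mt L A B N ρ) {n l k : ℕ} (hn : 1 ≤ n) (hl : n ≤ l) (hN : l + n ≤ N) (k1 : l ≤ k)
    (k2 : k ≤ l + 1) (j : ℕ) :
    L (V (c2 L N) k * X ^ j) ≤ 3 * L (X ^ (n + 1)) * S (c2 L N) (l + 1) :=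
  (h.V1' h.c0 hn (S_mono h.c0 k2) (h.winc hn hl hN k1 k2) j).2

lemma Mt.Pup (h : Mt L A B N ρ) {n i : ℕ} (hn : 1 ≤ n) (hi : n ≤ i) (hN : i ≤ N) :
    i * p2 L i ≤ 2 * L (X ^ (n + 1)) * S (p2 L) (i + 1) := by
  have := h.Vp hn hi hN le_rfl (Nat.le_succ i) 0
  rw [pow_zero, mul_one] at this
  rw [pp_eq]
  linarith [mul_nonneg (h.mo.pos (n + 1)) (S_nonneg h.p0 (i + 1))]

lemma Mt.Qup (h : Mt L A B N ρ) {n i : ℕ} (hn : 1 ≤ n) (hi : n ≤ i) (hN : i + n ≤ N) :
    ((N : ℝ) - i) * q2 L N i ≤ 2 * L (X ^ (n + 1)) * S (c2 L N) (i + 1) := by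
  have := h.Vc hn hi hN le_rfl (Nat.le_succ i) 0
  rw [pow_zero, mul_one] at this
  rw [qq_eq L _ _ (by omega)]
  linarith [mul_nonneg (h.mo.pos (n + 1)) (S_nonneg h.c0 (i + 1))]

lemma Mt.Plow (h : Mt L A B N ρ) {i r : ℕ} (hr : i ≤ r + 1) :
    L (X ^ r) * S (p2 L) i ≤ 2 * (i * p2 L i) := by
  have := h.low h.p0 (l := i) (k := 0) hr
  rw [pow_zero, mul_one] at this
  rw [pp_eq]
  linarith

lemma Mt.reg (h : Mt L A B N ρ) (hc : ∀ i, 0 ≤ c i) {i m : ℕ} {a : ℝ}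
    (hA : ∀ j, j ≤ i → i ≤ j + m → c j ≤ a) :
    |L (V c (i + 1)) - L (V c i)| ≤ 2 * a + S c i * (L (X ^ m) / (m + 1)) := by
  have e : L (V c (i + 1)) - L (V c i)
      = c i * L 1 - ∑ j ∈ range i, c (i - 1 - j) * (L (X ^ j) - L (X ^ (j + 1))) := by
    have e1 := L_V L c i X
    have e2 := L_V L c i 1
    have e3 := L_C_mul L (c i) 1
    simp only [mul_one, ← pow_succ] at e1 e2 e3
    rw [V, map_add, mul_comm X, e1, e2, e3]
    simp only [mul_sub, sum_sub_distrib]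
    ring
  have A0 : 0 ≤ a := (hc i).trans (hA i le_rfl (by omega))
  have l0 : 0 ≤ L 1 := zero_le_one.trans h.b0
  have a1 : c i * L 1 ≤ 2 * a := by nlinarith [hA i le_rfl (by omega), h.mo.up, hc i]
  have a2 : 0 ≤ ∑ j ∈ range i, c (i - 1 - j) * (L (X ^ j) - L (X ^ (j + 1))) :=
    sum_nonneg fun j _ => mul_nonneg (hc _) (sub_nonneg.2 (h.mo.anti j))
  have b0 : 0 ≤ L (X ^ m) / (m + 1) := div_nonneg (h.mo.pos m) (by positivity)
  have a3 : ∑ j ∈ range i, c (i - 1 - j) * (L (X ^ j) - L (X ^ (j + 1)))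
      ≤ ∑ j ∈ range i, (a * (L (X ^ j) - L (X ^ (j + 1))) + c (i - 1 - j) * (L (X ^ m) / (m + 1))) :=
    sum_le_sum fun j hj => by
      have hj' := mem_range.1 hj
      have d0 := sub_nonneg.2 (h.mo.anti j)
      have c0 := hc (i - 1 - j)
      rcases lt_or_ge j m with hm | hm
      · linarith [mul_le_mul_of_nonneg_right (hA (i - 1 - j) (by omega) (by omega)) d0,
          mul_nonneg c0 b0]
      · have d2 : (m : ℝ) ≤ j := by exact_mod_cast hm
        have d4 : L (X ^ j) - L (X ^ (j + 1)) ≤ L (X ^ m) / (m + 1) := by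
          rw [le_div_iff₀ (by positivity)]
          linarith [h.d1 j, mul_le_mul_of_nonneg_right d2 d0, h.mo.le hm,
            mul_le_mul_of_nonneg_right h.ρ2 (h.mo.pos j), mul_nonneg (sq_nonneg ρ) (h.mo.pos j)]
        linarith [mul_le_mul_of_nonneg_left d4 c0, mul_nonneg A0 d0]
  rw [sum_add_distrib, ← mul_sum, sum_range_sub' (fun j => L (X ^ j)), ← sum_mul,
    sum_range_reflect c, pow_zero] at a3
  change _ ≤ _ + S c i * _ at a3
  have a4 : a * (L 1 - L (X ^ i)) ≤ 2 * a := by nlinarith [h.mo.pos i, h.mo.up]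
  rw [e, abs_le]
  constructor <;> linarith [mul_nonneg (hc i) l0, mul_nonneg (S_nonneg hc i) b0]

lemma Mt.far (h : Mt L A B N ρ) {n : ℕ} {x Z u : ℝ} (x0 : 0 ≤ x) (hx : x ≤ Z) (u0 : 0 < u)
    (hu : u ≤ 2 * ((n / 2 : ℕ) + 1)) :
    x * (L (X ^ (n / 2)) / ((n / 2 : ℕ) + 1)) ≤ 4 * (L (X ^ (n + 1)) * Z) / u := by
  rw [← mul_div_assoc, div_le_div_iff₀ (by positivity) u0]
  have a1 := mul_le_mul hx (h.cmp (j := n / 2) (k := n + 1) (by omega)) (h.mo.pos _) (x0.trans hx)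
  linarith [mul_le_mul a1 hu u0.le ((mul_nonneg x0 (h.mo.pos _)).trans a1)]

lemma Mt.PR (h : Mt L A B N ρ) {i : ℕ} (hi : i ≤ N) :
    ((i : ℝ) + 1) ^ 2 * |p2 L (i + 1) - p2 L i| ≤ 34 * L (X ^ (i + 1)) * S (p2 L) (i + 1) := by
  have e1 := pp_eq L (1 / 2) (i + 1)
  rcases Nat.eq_zero_or_pos i with rfl | i0
  · have a1 := h.cmp (j := 0) (k := 1) (by omega)
    simp only [V, mul_zero, zero_add, pp_zero, map_one, Nat.cast_one, one_mul] at e1
    simp only [S_succ, S_zero, zero_add, pp_zero, Nat.cast_zero, one_pow, one_mul, mul_one, abs_le]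
    rw [pow_zero] at a1
    constructor <;> linarith [h.b0, h.mo.up]
  have e2 := pp_eq L (1 / 2) i
  set Z := S (p2 L) (i + 1)
  have Z0 : 0 ≤ Z := S_nonneg h.p0 _
  have u0 : (0 : ℝ) < i + 1 := by positivity
  have w : ∀ j, j ≤ i → i ≤ j + i / 2 → p2 L j ≤ 16 * (L (X ^ (i + 1)) * Z) / (i + 1) := by
    intro j j1 j2
    have a1 := h.Pup (n := j) (i := j) (by omega) le_rfl (by omega)
    have a2 := mul_le_mul (h.cmp (j := j + 1) (k := i + 1) (by omega))
      (S_mono h.p0 (show j + 1 ≤ i + 1 by omega)) (S_nonneg h.p0 _) (by linarith [h.mo.pos (i + 1)])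
    have a3 : (i : ℝ) + 1 ≤ 4 * j := by exact_mod_cast (by omega : i + 1 ≤ 4 * j)
    rw [le_div_iff₀ u0]
    linarith [mul_le_mul_of_nonneg_left a3 (h.p0 j)]
  have r := (h.reg h.p0 w).trans (add_le_add le_rfl (h.far (S_nonneg h.p0 i)
    (S_mono h.p0 (Nat.le_succ i)) u0 (by exact_mod_cast (by omega : i + 1 ≤ 2 * (i / 2 + 1)))))
  have w0 := w i le_rfl (by omega)
  have a : ((i : ℝ) + 1) * |p2 L (i + 1) - p2 L i| ≤ 34 * (L (X ^ (i + 1)) * Z) / (i + 1) := by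
    rw [← abs_of_pos u0, ← abs_mul, abs_of_pos u0, abs_le]
    push_cast at e1
    simp only [mul_div_assoc] at r w0 ⊢
    constructor <;> linarith [(abs_le.1 r).1, (abs_le.1 r).2, h.p0 i]
  rw [le_div_iff₀ u0] at a
  linarith

lemma Mt.QR (h : Mt L A B N ρ) {n i : ℕ} (hn : 1 ≤ n) (hi : n ≤ i) (hN : i + n ≤ N)
    (hN' : i + 1 < N) : n * (((N : ℝ) - (i + 1)) * |q2 L N (i + 1) - q2 L N i|)
      ≤ 16 * L (X ^ (n + 1)) * S (c2 L N) (i + 1) := by
  have e1 := qq_eq L (1 / 2) (1 / 2) hN'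
  have e2 := qq_eq L (1 / 2) (1 / 2) (show i < N by omega)
  set Z := S (c2 L N) (i + 1)
  have n0 : (0 : ℝ) < n := by exact_mod_cast hn
  have w : ∀ j, j ≤ i → i ≤ j + n / 2 → c2 L N j ≤ 12 * (L (X ^ (n + 1)) * Z) / n := by
    intro j j1 j2
    have a1 := h.Pup (n := n - n / 2) (i := j) (by omega) (by omega) (by omega)
    have a2 := h.Qup (n := n - n / 2) (i := j) (by omega) (by omega) (by omega)
    have a3 := h.cmp (j := n - n / 2 + 1) (k := n + 1) (by omega)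
    have a4 := S_mono h.c0 (show j + 1 ≤ i + 1 by omega)
    have a5 := mul_le_mul a3 a4 (S_nonneg h.c0 _) (by linarith [h.mo.pos (n + 1)])
    have a6 := mul_le_mul_of_nonneg_left (h.mo.Sle (N := N) hf0 hf0 (j + 1)).1
      (h.mo.pos (n - n / 2 + 1))
    have a7 : (n : ℝ) ≤ 2 * j := by exact_mod_cast (by omega : n ≤ 2 * j)
    have a8 : (j : ℝ) + n ≤ N := by exact_mod_cast (by omega : j + n ≤ N)
    rw [le_div_iff₀ n0, c2, pq]
    linarith [mul_le_mul_of_nonneg_left a7 (h.p0 j), mul_le_mul_of_nonneg_left a8 (h.q0 j)]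
  have r := (h.reg h.c0 w).trans (add_le_add le_rfl (h.far (S_nonneg h.c0 i)
    (S_mono h.c0 (Nat.le_succ i)) n0 (by exact_mod_cast (by omega : n ≤ 2 * (n / 2 + 1)))))
  have a8 : (i : ℝ) + n ≤ N := by exact_mod_cast hN
  have w0 : q2 L N i ≤ 2 * (L (X ^ (n + 1)) * Z) / n := by
    rw [le_div_iff₀ n0]
    linarith [h.Qup hn hi hN, mul_le_mul_of_nonneg_left a8 (h.q0 i)]
  have d0 : (0 : ℝ) < N - (i + 1) := sub_pos.2 (by exact_mod_cast hN')
  have a : ((N : ℝ) - (i + 1)) * |q2 L N (i + 1) - q2 L N i| ≤ 16 * (L (X ^ (n + 1)) * Z) / n := by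
    rw [← abs_of_pos d0, ← abs_mul, abs_le]
    push_cast at e1
    simp only [mul_div_assoc] at r w0 ⊢
    constructor <;> linarith [(abs_le.1 r).1, (abs_le.1 r).2, h.q0 i]
  rw [le_div_iff₀ n0] at a
  linarith

lemma q2_zero (L : ℝ[X] →ₗ[ℝ] ℝ) (N : ℕ) : q2 L N 0 = 0 := by rw [q2, qq_def, V, map_zero, mul_zero]

lemma Mt.QR0 (h : Mt L A B N ρ) {n i : ℕ} (hi : n ≤ i) (hN : i + n ≤ N) (hN' : i + 1 < N) :
    ((n : ℝ) + 1) * (((N : ℝ) - (i + 1)) * |q2 L N (i + 1) - q2 L N i|)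
      ≤ 32 * L (X ^ (n + 1)) * S (c2 L N) (i + 1) := by
  have d0 : (0 : ℝ) < N - (i + 1) := sub_pos.2 (by exact_mod_cast hN')
  have y0 := mul_nonneg d0.le (abs_nonneg (q2 L N (i + 1) - q2 L N i))
  rcases Nat.eq_zero_or_pos n with rfl | n0
  · rcases Nat.eq_zero_or_pos i with rfl | i0
    · have e1 := qq_eq L (1 / 2) (1 / 2) hN'
      have a1 := h.cmp (j := 0) (k := 1) (by omega)
      have z : qq L (1 / 2) (1 / 2) N 0 = 0 := q2_zero L N
      have c1 : pq L (1 / 2) (1 / 2) N 0 = 1 := by rw [pq, pp_zero, z, add_zero]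
      have c3 := h.q0 (0 + 1)
      simp only [q2, c2] at c3 ⊢
      rw [z, sub_zero, abs_of_nonneg c3, S_succ, S_zero, c1]
      rw [V, V, c1, mul_zero, zero_add, map_one] at e1
      rw [pow_zero] at a1
      push_cast at e1 ⊢
      linarith [h.mo.pos 1]
    · have := h.QR (n := 1) le_rfl i0 (by omega) hN'
      have a := mul_le_mul_of_nonneg_right (h.mo.anti 1) (S_nonneg h.c0 (i + 1))
      push_cast at this ⊢
      linarith [mul_nonneg (h.mo.pos 1) (S_nonneg h.c0 (i + 1))]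
  · have n1 : (1 : ℝ) ≤ n := by exact_mod_cast n0
    linarith [h.QR n0 hi hN hN', mul_le_mul_of_nonneg_right n1 y0]

lemma Mt.TVp (h : Mt L A B N ρ) (k : ℕ) (hk : k + 1 ≤ N) :
    p2 L 0 + ∑ i ∈ range k, |p2 L (i + 1) - p2 L i|
      ≤ 272 * L (X ^ (k + 1)) ^ 2 * S (p2 L) (k + 1) := by
  induction k with
  | zero =>
    have := h.one 1
    simp only [S_succ, S_zero, zero_add, pp_zero, range_zero, sum_empty, add_zero, mul_one]
    push_cast at this
    linarith [sq_nonneg (L (X ^ 1))]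
  | succ k ih =>
    have i1 := ih (by omega)
    have a1 := h.PR (i := k) (by omega)
    have a2 := h.Plow (i := k + 1) (r := k + 1) (by omega)
    have a3 := h.d1 (k + 1)
    have a4 := (h.tN (n := k) (by omega)).2
    have a5 := h.one (k + 1)
    have a6 := h.mo.le2 (k + 1)
    have β0 := h.bpos (k + 1)
    have Z0 := S_nonneg h.p0 (k + 1)
    have a7 := sub_nonneg.2 (h.mo.anti (k + 1))
    rw [sum_range_succ, S_succ _ (k + 1)]
    push_cast at a2 a3 a5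
    generalize L (X ^ (k + 1)) = β at *
    generalize L (X ^ (k + 1 + 1)) = β' at *
    generalize S (p2 L) (k + 1) = Z at *
    obtain ⟨u, hu⟩ : ∃ u : ℝ, u = k + 1 := ⟨_, rfl⟩
    have u1 : 1 ≤ u := by linarith [Nat.cast_nonneg (α := ℝ) k]
    rw [← hu] at a1 a2 a3 a5
    obtain ⟨y, hy⟩ : ∃ y, β = y * u := ⟨β / u, by field_simp⟩
    have y0 : 0 < y := pos_of_mul_pos_left (hy ▸ β0) (by linarith)
    have y2 : y ≤ 2 := by nlinarith
    have b1 : β * (1 - y / 16) ≤ β' := by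
      apply le_of_mul_le_mul_left _ (show 0 < u by linarith)
      have : u * (β * y) = β * β := by rw [hy]; ring
      nlinarith [mul_le_mul_of_nonneg_right a4 β0.le, mul_nonneg (sq_nonneg ρ) β0.le]
    have b2 : Z * (1 + y / 2) ≤ Z + p2 L (k + 1) := by
      apply le_of_mul_le_mul_left _ (show 0 < u by linarith)
      have : u * (Z * y) = β * Z := by rw [hy]; ring
      linarith
    have b3 := mul_le_mul (pow_le_pow_left₀ (mul_nonneg β0.le (by linarith)) b1 2) b2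
      (by positivity) (sq_nonneg _)
    have b4 : 1 + y / 4 ≤ (1 - y / 16) ^ 2 * (1 + y / 2) := by
      nlinarith [mul_nonneg y0.le (sub_nonneg.2 y2), mul_nonneg (sq_nonneg y) y0.le]
    have b5 : |p2 L (k + 1) - p2 L k| ≤ 68 * (y * β ^ 2 * Z) := by
      apply le_of_mul_le_mul_left _ (show 0 < u ^ 2 by positivity)
      have e : u ^ 2 * (y * β ^ 2 * Z) = u * β ^ 2 * (β * Z) := by
        rw [show u ^ 2 * (y * β ^ 2 * Z) = u * β ^ 2 * (y * u * Z) by ring, ← hy]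
      have b6 : 1 ≤ 2 * (u * β ^ 2) := by linarith [mul_le_mul_of_nonneg_right u1 (sq_nonneg β)]
      linarith [mul_le_mul_of_nonneg_right b6 (mul_nonneg β0.le Z0)]
    linarith [mul_le_mul_of_nonneg_left b4 (show 0 ≤ β ^ 2 * Z by positivity)]

lemma Mt.S9 (h : Mt L A B N ρ) {i : ℕ} (hi : 3 * i ≤ 2 * N) : S (c2 L N) i ≤ 9 * S (p2 L) i := by
  have a1 := h.mo.Sig hf0 hf0 hf1 i (by omega)
  have a2 : 3 * (i : ℝ) ≤ 2 * N := by exact_mod_cast hi
  have N0 : (0 : ℝ) < N := by exact_mod_cast (by have := h.big; omega : 0 < N)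
  have a3 := pow_le_pow_left₀ N0.le (show (N : ℝ) ≤ 3 * (N - i) by linarith) 2
  apply le_of_mul_le_mul_right _ (show (0 : ℝ) < N ^ 2 by positivity)
  linarith [mul_le_mul_of_nonneg_left a3 (S_nonneg h.c0 i)]

lemma Mt.TVq (h : Mt L A B N ρ) (k : ℕ) (hk : k < N) :
    ((N : ℝ) - k) * ∑ i ∈ range k, |q2 L N (i + 1) - q2 L N i| ≤ 576 * S (c2 L N) (k + 1) := by
  induction k with
  | zero => simpa using S_nonneg h.c0 1
  | succ k ih =>
    have i1 := ih (by omega)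
    have t0 : 0 ≤ ∑ i ∈ range k, |q2 L N (i + 1) - q2 L N i| := sum_nonneg fun _ _ => abs_nonneg _
    have d0 : (0 : ℝ) < N - (k + 1) := sub_pos.2 (by exact_mod_cast hk)
    have Z0 := S_nonneg h.c0 (k + 1)
    have big := h.big
    rw [sum_range_succ, S_succ _ (k + 1)]
    push_cast
    rcases le_or_gt (2 * k) N with c | c
    · have a1 := h.QR0 (n := k) le_rfl (by omega) hk
      have a2 := mul_le_mul_of_nonneg_left (h.S9 (i := k + 1) (by omega)) (h.mo.pos (k + 1))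
      have a3 := h.Plow (i := k + 1) (r := k + 1) (by omega)
      have a4 : ((N : ℝ) - (k + 1)) * |q2 L N (k + 1) - q2 L N k| ≤ 576 * p2 L (k + 1) := by
        apply le_of_mul_le_mul_left _ (show (0 : ℝ) < k + 1 by positivity)
        push_cast at a3
        linarith
      rw [c2, pq]
      linarith [h.q0 (k + 1)]
    · have a1 := h.QR0 (n := N - k) (by omega) (by omega) hk
      rw [Nat.cast_sub (by omega)] at a1
      have a2 := mul_le_mul_of_nonneg_right (h.mo.le2 (N - k + 1)) Z0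
      have y0 := mul_nonneg d0.le (abs_nonneg (q2 L N (k + 1) - q2 L N k))
      refine le_trans ?_ (show 576 * S (c2 L N) (k + 1) ≤ _ by linarith [h.c0 (k + 1)])
      apply le_of_mul_le_mul_left _ (show (0 : ℝ) < N - k by linarith)
      linarith [mul_le_mul_of_nonneg_left i1 d0.le]

lemma Mt.Sq2 (h : Mt L A B N ρ) {n : ℕ} (hn : 1 ≤ n) (hN : 2 * n ≤ N) :
    N * S (q2 L N) (n + 1) ≤ 144 * L (X ^ (n + 1)) * n * S (p2 L) (n + 1) := by
  have big := h.big
  have Z0 := S_nonneg h.p0 (n + 1)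
  have a1 : ∑ i ∈ range (n + 1), N * q2 L N i
      ≤ ∑ i ∈ range (n + 1), 36 * S (p2 L) (n + 1) * L (X ^ i) := sum_le_sum fun i hi => by
    have hi' := mem_range.1 hi
    rcases Nat.eq_zero_or_pos i with rfl | i0
    · rw [q2_zero, mul_zero]
      exact mul_nonneg (by positivity) (h.mo.pos 0)
    · have b1 := h.Qup (n := i) i0 le_rfl (by omega)
      have b2 := mul_le_mul (h.mo.anti i) ((S_mono h.c0 (show i + 1 ≤ n + 1 by omega)).trans
        (h.S9 (by omega))) (S_nonneg h.c0 _) (h.mo.pos i)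
      have b3 : 2 * (i : ℝ) ≤ N := by exact_mod_cast (by omega : 2 * i ≤ N)
      linarith [mul_le_mul_of_nonneg_right b3 (h.q0 i)]
  rw [← mul_sum, ← mul_sum] at a1
  have a2 := mul_le_mul_of_nonneg_left (h.sumb (n + 1)) Z0
  have n1 : (1 : ℝ) ≤ n := by exact_mod_cast hn
  push_cast at a2
  unfold S at *
  linarith [mul_le_mul_of_nonneg_right n1 (mul_nonneg (h.mo.pos (n + 1)) Z0)]

/-- bounds for a polynomial as a functional -/
structure Dual (L A : ℝ[X] →ₗ[ℝ] ℝ) (n : ℕ) (f : ℝ[X]) (ι κ η : ℝ) : Prop where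
  l : ∀ x, |L (f * x)| ≤ ι * nr L x + κ * nr (Mk A n) x
  lam : ∀ x, |Lam L A (n + 1) (f * x)| ≤ 2 * ι * nr (Lam L A (n + 1)) x + 2 * κ * nr (Mk A n) x
  nm : nr (Lam L A (n + 1)) f ≤ η

lemma Mt.flem (h : Mt L A B N ρ) (hc : ∀ i, 0 ≤ c i) {n l : ℕ} (hn : 1 ≤ n) (hl : n ≤ l)
    {D W a Z σ ν ι : ℝ} (σ0 : 0 < σ) (hσ : σ ^ 2 = L (X ^ (n + 1))) (ν0 : 0 < ν) (hν : ν ^ 2 = n)
    (D0 : 0 ≤ D) (hD : ∀ i, l ≤ i + (n - n / 4) → i < l → |c (i + 1) - c i| ≤ D)
    (hW : c 0 + ∑ i ∈ range l, |c (i + 1) - c i| ≤ W) (ha : c l ≤ a) (hZ : S c l ≤ Z)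
    (hι : ρ * (9 / 2 * (n * D) + 4 * W / (n * σ) + 3 * a) ≤ ι) :
    Dual L A n (V c (l + 1) - V c l - C (c l) * X ^ (n - n / 4)) ι (2 * ρ * σ * Z / ν)
      (2 * ι + 4 * ρ * σ * Z / n) := by
  have ρ0 := h.ρ0
  have n0 : (0 : ℝ) < n := by exact_mod_cast hn
  obtain ⟨m, hm⟩ : ∃ m, m = n - n / 4 := ⟨_, rfl⟩
  have lam : ∀ j, m ≤ j → nr B (X ^ j) ≤ 4 * ρ / (n * σ) := fun j hj => by
    rw [le_div_iff₀' (by positivity)]
    exact h.lamB2 hσ (hm ▸ hj)
  rw [← hm] at hD ⊢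
  obtain ⟨k, rfl⟩ : ∃ k, l = k + m := ⟨l - m, by omega⟩
  obtain ⟨u, hu⟩ : ∃ u, m = n % 2 + n / 2 + u := ⟨m - n % 2 - n / 2, by omega⟩
  have mn : (m : ℝ) ≤ n := by exact_mod_cast (by omega : m ≤ n)
  obtain ⟨f, hf⟩ : ∃ f, f = V c (k + m + 1) - V c (k + m) - C (c (k + m)) * X ^ m := ⟨_, rfl⟩
  obtain ⟨g, hg⟩ : ∃ g : ℝ[X],
    g = ∑ i ∈ range m, C (c (k + m) - c (k + m - 1 - i)) * ((1 - X) * X ^ i) := ⟨_, rfl⟩
  obtain ⟨w, hw⟩ : ∃ w, w = X ^ u * V c k := ⟨_, rfl⟩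
  have e : f = g - (1 - X) * X ^ (n % 2) * (X ^ (n / 2) * w) := by
    have g1 := mul_neg_geom_sum (X : ℝ[X]) m
    have e1 : g = C (c (k + m)) * ((1 - X) * ∑ i ∈ range m, X ^ i)
          - (1 - X) * ∑ i ∈ range m, C (c (k + m - 1 - i)) * X ^ i := by
      rw [hg, mul_sum, mul_sum, mul_sum, ← sum_sub_distrib]
      exact sum_congr rfl fun i _ => by rw [map_sub]; ring
    have e2 : (X : ℝ[X]) ^ m = X ^ (n % 2) * X ^ (n / 2) * X ^ u := by
      rw [← pow_add, ← pow_add, ← hu]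
    rw [hf, e1, g1, V, V_split, hw, e2]
    ring
  have t : ∀ i, i < m → |c (k + m) - c (k + m - 1 - i)| ≤ (i + 1) * D := by
    intro i
    induction i with
    | zero =>
      intro hi
      have := hD (k + m - 1) (by omega) (by omega)
      rw [show k + m - 1 + 1 = k + m by omega] at this
      simpa using this
    | succ i ih =>
      intro hi
      have a1 := ih (by omega)
      have a2 := hD (k + m - 1 - (i + 1)) (by omega) (by omega)
      rw [show k + m - 1 - (i + 1) + 1 = k + m - 1 - i by omega] at a2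
      have a3 := abs_sub_le (c (k + m)) (c (k + m - 1 - i)) (c (k + m - 1 - (i + 1)))
      push_cast
      linarith
  have b1 : nr A g ≤ 3 / 2 * (ρ * (n * D)) := by
    rw [hg]
    refine (h.psA.sum _ _).trans ?_
    have := sum_le_card_nsmul (range m) (fun i =>
      nr A (C (c (k + m) - c (k + m - 1 - i)) * ((1 - X) * X ^ i))) (3 / 2 * ρ * D) fun i hi => by
        rw [nr_C_mul]
        linarith [mul_le_mul_of_nonneg_right (t i (mem_range.1 hi)) (nr_nonneg A ((1 - X) * X ^ i)),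
          mul_le_mul_of_nonneg_right (h.nearA i) D0]
    rw [card_range, nsmul_eq_mul] at this
    linarith [mul_le_mul_of_nonneg_right mn (mul_nonneg ρ0 D0)]
  have b2 : nr B f ≤ 3 * (ρ * (n * D)) + 4 * ρ / (n * σ) * W + 3 * ρ * a := by
    have e3 : f = ∑ i ∈ range m, C (c (k + m - 1 - i + 1) - c (k + m - 1 - i)) * X ^ i
        + ∑ i ∈ range k, C (c (k - 1 - i + 1) - c (k - 1 - i)) * X ^ (m + i)
        + C (c 0) * X ^ (k + m) - C (c (k + m)) * X ^ m := by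
      rw [hf, V_eq, V_eq, sum_range_succ, add_sub_right_comm, ← sum_sub_distrib,
        show k + m + 1 - 1 - (k + m) = 0 by omega, add_comm k m, sum_range_add]
      congr 3 <;> refine sum_congr rfl fun i hi => ?_ <;> have := mem_range.1 hi
      · rw [map_sub, sub_mul, show m + k - 1 - i + 1 = m + k + 1 - 1 - i by omega]
      · rw [map_sub, sub_mul, show k - 1 - i + 1 = m + k + 1 - 1 - (m + i) by omega,
          show k - 1 - i = m + k - 1 - (m + i) by omega]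
    have l0 : 0 ≤ 4 * ρ / (n * σ) := by positivity
    have s1 := sum_le_card_nsmul (range m) (fun i =>
      nr B (C (c (k + m - 1 - i + 1) - c (k + m - 1 - i)) * X ^ i)) (D * (3 * ρ)) fun i hi => by
        have := mem_range.1 hi
        rw [nr_C_mul]
        exact mul_le_mul (hD _ (by omega) (by omega)) (h.lamB1 i) (nr_nonneg _ _) D0
    rw [card_range, nsmul_eq_mul] at s1
    have s2 : ∑ i ∈ range k, nr B (C (c (k - 1 - i + 1) - c (k - 1 - i)) * X ^ (m + i))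
        ≤ (∑ i ∈ range (k + m), |c (i + 1) - c i|) * (4 * ρ / (n * σ)) := by
      refine le_trans ?_ (mul_le_mul_of_nonneg_right (sum_le_sum_of_subset_of_nonneg
        (range_subset_range.2 (Nat.le_add_right k m)) fun _ _ _ => abs_nonneg _) l0)
      rw [← sum_range_reflect (fun i => |c (i + 1) - c i|), sum_mul]
      exact sum_le_sum fun i _ => by
        rw [nr_C_mul]
        exact mul_le_mul_of_nonneg_left (lam _ (by omega)) (abs_nonneg _)
    have s3 := mul_le_mul_of_nonneg_left (lam (k + m) (by omega)) (hc 0)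
    have s4 := mul_le_mul ha (h.lamB1 m) (nr_nonneg _ _) ((hc _).trans ha)
    rw [e3]
    refine (h.psB.sub _ _).trans ((add_le_add ((h.psB.add _ _).trans (add_le_add
      ((h.psB.add _ _).trans (add_le_add (h.psB.sum _ _) (h.psB.sum _ _))) le_rfl)) le_rfl).trans ?_)
    rw [nr_C_mul, nr_C_mul, abs_of_nonneg (hc _), abs_of_nonneg (hc _)]
    linarith [mul_le_mul_of_nonneg_right mn (mul_nonneg ρ0 D0), mul_le_mul_of_nonneg_left hW l0]
  have b3 : nr A g + nr B f ≤ ι := by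
    linarith [show ρ * (4 * W / (n * σ)) = 4 * ρ / (n * σ) * W by ring]
  have b4 : nr (Mk A (n % 2)) w ≤ 2 * ρ * σ * Z / ν := by
    rw [hw, V_eq, mul_sum]
    refine ((h.psM _).sum _ _).trans ?_
    refine le_trans ?_ (show S c k * (2 * ρ * σ / ν) ≤ _ from (mul_le_mul_of_nonneg_right
      ((S_mono hc (Nat.le_add_right k m)).trans hZ) (by positivity)).trans (le_of_eq (by ring)))
    rw [S, ← sum_range_reflect c, sum_mul]
    refine sum_le_sum fun i _ => ?_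
    rw [mul_left_comm, nr_C_mul, abs_of_nonneg (hc _)]
    refine mul_le_mul_of_nonneg_left ((h.psM _).le (by positivity) ?_) (hc _)
    rw [div_pow, hν, le_div_iff₀' n0, Mk_apply, mul_assoc, ← pow_add, ← pow_add, ← pow_add]
    linarith [h.dp' (n := n) (k := n % 2 + (u + i + (u + i))) (by omega),
      show (2 * ρ * σ) ^ 2 = 4 * ρ ^ 2 * L (X ^ (n + 1)) by rw [← hσ]; ring]
  have en : (X : ℝ[X]) ^ n = X ^ (n % 2) * X ^ (n / 2) * X ^ (n / 2) := by
    rw [← pow_add, ← pow_add]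
    congr 1
    omega
  have b5 : ∀ y x, nr (Mk A (n % 2)) y ≤ 2 * ρ * σ * Z / ν →
      |Mk A (n % 2) (y * (X ^ (n / 2) * x))| ≤ 2 * ρ * σ * Z / ν * nr (Mk A n) x := by
    intro y x hy
    refine ((h.psM _).cs _ _).trans (mul_le_mul hy (nr_mono (le_of_eq ?_)) (nr_nonneg _ _)
      ((nr_nonneg _ _).trans hy))
    rw [Mk_apply, Mk_apply, en]
    congr 1
    ring
  have b6 : ∀ x, |L (f * x)| ≤ ι * nr L x + 2 * ρ * σ * Z / ν * nr (Mk A n) x := fun x => by
    have c1 := (h.psA.cs g x).trans (mul_le_mul_of_nonneg_left (h.nA x) (nr_nonneg _ _))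
    have c2 := (h.psB.cs f x).trans (mul_le_mul_of_nonneg_left (h.nB x) (nr_nonneg _ _))
    have c3 := b5 w x b4
    have c4 : L (f * x) = A (g * x) - Mk A (n % 2) (w * (X ^ (n / 2) * x)) + B (f * x) := by
      rw [h.sm, Mk_apply, ← map_sub]
      congr 2
      rw [e]
      ring
    rw [c4, abs_le]
    constructor <;> linarith [abs_le.1 c1, abs_le.1 c2, abs_le.1 c3,
      mul_le_mul_of_nonneg_right b3 (nr_nonneg L x)]
  rw [← hf]
  refine ⟨b6, fun x => ?_, ?_⟩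
  · have c1 := (h.psA.cs g (X ^ (n + 1) * x)).trans (mul_le_mul (show nr A g ≤ ι by
      linarith [nr_nonneg B f]) ((nr_mono (M := A) (M' := A) (q := x) (by
        rw [show X ^ (n + 1) * x * (X ^ (n + 1) * x) = X ^ (n + 1 + (n + 1)) * (x * x) by ring]
        exact (h.xa _ x).2)).trans ((h.nA x).trans (h.nL (n + 1) x))) (nr_nonneg _ _)
      (by linarith [nr_nonneg B f, nr_nonneg A g]))
    have c2 : nr (Mk A (n % 2)) (X ^ (n + 1) * w) ≤ nr (Mk A (n % 2)) w := by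
      apply nr_mono
      rw [Mk_apply, Mk_apply]
      refine h.la fun y y0 y1 => ?_
      simp only [eval_mul, eval_sub, eval_pow, eval_X, eval_one]
      refine mul_le_mul_of_nonneg_left ?_ (mul_nonneg (sub_nonneg.2 y1) (pow_nonneg y0 _))
      rw [mul_mul_mul_comm]
      exact mul_le_of_le_one_left (mul_self_nonneg _)
        (mul_le_one₀ (pow_le_one₀ y0 y1) (pow_nonneg y0 _) (pow_le_one₀ y0 y1))
    have c3 := b5 (X ^ (n + 1) * w) x (c2.trans b4)
    have c4 : Lam L A (n + 1) (f * x) = L (f * x) + (A (g * (X ^ (n + 1) * x))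
        - Mk A (n % 2) (X ^ (n + 1) * w * (X ^ (n / 2) * x))) := by
      rw [Lam_apply, Mk_apply, ← map_sub]
      congr 2
      rw [e]
      ring
    have c5 := mul_le_mul_of_nonneg_left (h.nL (n + 1) x)
      (show 0 ≤ ι by linarith [nr_nonneg B f, nr_nonneg A g])
    rw [c4, abs_le]
    constructor <;> linarith [abs_le.1 c1, abs_le.1 (b6 x), abs_le.1 c3]
  · have Z0 := (S_nonneg hc _).trans hZ
    have c1 : nr A ((1 - X) * X ^ (n % 2) * (X ^ (n / 2) * w)) ≤ 2 * ρ * σ * Z / n := by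
      refine h.psA.le (by positivity) ?_
      have d1 : A (C (n : ℝ) * ((1 - X) * X ^ (n % 2) * (X ^ (n / 2) * w)
          * ((1 - X) * X ^ (n % 2) * (X ^ (n / 2) * w)))) ≤ Mk A (n % 2) (w * w) := by
        rw [Mk_apply]
        exact h.la fun y y0 y1 => by
          have d2 := pow_gap y0 y1 n
          have d3 : y ^ n = y ^ (n % 2) * y ^ (n / 2) * y ^ (n / 2) := by
            simpa using congrArg (eval y) en
          have d4 := mul_nonneg (sub_nonneg.2 y1) (pow_nonneg y0 n)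
          simp only [eval_mul, eval_sub, eval_pow, eval_X, eval_one, eval_C]
          have d5 := mul_le_mul_of_nonneg_right (show n * ((1 - y) * y ^ n) ≤ 1 by linarith)
            (mul_nonneg (mul_nonneg (sub_nonneg.2 y1) (pow_nonneg y0 (n % 2)))
              (mul_self_nonneg (w.eval y)))
          rw [d3] at d5
          linarith
      have d6 := pow_le_pow_left₀ (nr_nonneg _ _) b4 2
      rw [(h.psM _).sq, div_pow, hν] at d6
      rw [L_C_mul] at d1
      apply le_of_mul_le_mul_left _ n0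
      refine (d1.trans d6).trans (le_of_eq ?_)
      field_simp
    have c2 := h.psA.sub g ((1 - X) * X ^ (n % 2) * (X ^ (n / 2) * w))
    rw [← e] at c2
    have c3 : 0 ≤ ρ * σ * Z / n := by positivity
    linarith [h.nLam (n + 1) f, nr_nonneg A g, nr_nonneg B f,
      show 2 * ρ * σ * Z / n = 2 * (ρ * σ * Z / n) by ring,
      show 4 * ρ * σ * Z / n = 4 * (ρ * σ * Z / n) by ring]

end Pool.Agent.P.MP_bdc337_an.KR
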