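import Pool.Agent.P.MP_bdc337_an.KR.Q

/-! Quantitative facts on both trajectories at the local scale. -/

set_option autoImplicit false

open Finset Polynomial

namespace Pool.Agent.P.MP_bdc337_an.KR

variable {L A B : ℝ[X] →ₗ[ℝ] ℝ} {N n l : ℕ} {ρ σ a g : ℝ} {c : ℕ → ℝ}

lemma Dual.mono {f : ℝ[X]} {ι κ η ι' κ' η' : ℝ} (h : Dual L A n f ι κ η) (h1 : ι ≤ ι')
    (h2 : κ ≤ κ') (h3 : η ≤ η') : Dual L A n f ι' κ' η' :=
  ⟨fun x => by
    linarith [h.l x, mul_le_mul_of_nonneg_right h1 (nr_nonneg L x),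
      mul_le_mul_of_nonneg_right h2 (nr_nonneg (Mk A n) x)], fun x => by
    linarith [h.lam x, mul_le_mul_of_nonneg_right h1 (nr_nonneg (Lam L A (n + 1)) x),
      mul_le_mul_of_nonneg_right h2 (nr_nonneg (Mk A n) x)], h.nm.trans h3⟩

lemma Mt.dsub (h : Mt L A B N ρ) {f f' : ℝ[X]} {ι κ η ι' κ' η' : ℝ} (h1 : Dual L A n f ι κ η)
    (h2 : Dual L A n f' ι' κ' η') : Dual L A n (f - f') (ι + ι') (κ + κ') (η + η') :=
  ⟨fun x => by
    rw [sub_mul, map_sub]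
    linarith [h1.l x, h2.l x, abs_sub (L (f * x)) (L (f' * x))], fun x => by
    rw [sub_mul, map_sub]
    linarith [h1.lam x, h2.lam x, abs_sub (Lam L A (n + 1) (f * x)) (Lam L A (n + 1) (f' * x))],
    ((h.psL _).sub _ _).trans (add_le_add h1.nm h2.nm)⟩

lemma Mt.dsm (h : Mt L A B N ρ) (n : ℕ) {f : ℝ[X]} {ε : ℝ} (h1 : nr L f ≤ ε) :
    Dual L A n f ε 0 (2 * ε) := by
  have a1 : nr (Lam L A (n + 1)) f ≤ 2 * ε := by linarith [h.nLam' (n + 1) f, nr_nonneg L f]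
  exact ⟨fun x => by
    linarith [h.mo.psd.cs f x, mul_le_mul_of_nonneg_right h1 (nr_nonneg L x)], fun x => by
    linarith [(h.psL (n + 1)).cs f x,
      mul_le_mul_of_nonneg_right a1 (nr_nonneg (Lam L A (n + 1)) x)], a1⟩

/-- the local scales -/
structure Sc (L : ℝ[X] →ₗ[ℝ] ℝ) (n : ℕ) (σ a g : ℝ) : Prop where
  n1 : 1 ≤ n
  σ0 : 0 < σ
  hσ : σ ^ 2 = L (X ^ (n + 1))
  ha : a = 1 / n
  g0 : 0 < g
  hg : g ^ 2 = a

lemma Sc.n0 (s : Sc L n σ a g) : (0 : ℝ) < n := by exact_mod_cast s.n1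

lemma Sc.a0 (s : Sc L n σ a g) : 0 < a := s.ha ▸ one_div_pos.2 s.n0

lemma Sc.an (s : Sc L n σ a g) : n * a = 1 := s.ha ▸ mul_one_div_cancel s.n0.ne'

lemma Sc.a1 (s : Sc L n σ a g) : a ≤ 1 := s.ha ▸ (div_le_one s.n0).2 (by exact_mod_cast s.n1)

lemma Sc.dv (s : Sc L n σ a g) (x : ℝ) : x / n = x * a := by rw [s.ha, mul_one_div]

lemma Sc.le (s : Sc L n σ a g) {x y : ℝ} (h : n * x ≤ y) : x ≤ y * a := by
  rw [← s.dv, le_div_iff₀' s.n0]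
  exact h

lemma Sc.ge (s : Sc L n σ a g) {x y : ℝ} (h : y ≤ n * x) : y * a ≤ x := by
  rw [← s.dv, div_le_iff₀' s.n0]
  exact h

lemma Sc.nu (s : Sc L n σ a g) : (1 / g) ^ 2 = n := by
  rw [div_pow, one_pow, s.hg, s.ha, one_div_one_div]

lemma Mt.sc (h : Mt L A B N ρ) (s : Sc L n σ a g) (hN : n + 1 ≤ N) :
    σ ≤ 3 / 2 ∧ 10 ^ 15 * ρ ≤ σ ∧ 2 ≤ 9 * (n * σ ^ 3) ∧ 10 ^ 29 * (σ ^ 2 * n) ≤ N ∧
      nr L (X ^ (n - n / 4)) ≤ σ := by
  have σ0 := s.σ0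
  have n1 : (1 : ℝ) ≤ n := by exact_mod_cast s.n1
  have a1 := h.mo.le2 (n + 1)
  have a2 := h.one (n + 1)
  obtain ⟨a3, a4⟩ := h.tN hN
  rw [← s.hσ] at a1 a2 a3 a4
  have a5 : σ ≤ 3 / 2 := (abs_le_of_sq_le_sq' (by linarith) (by norm_num)).2
  push_cast at a2
  refine ⟨a5, (abs_le_of_sq_le_sq' (by linarith) σ0.le).2, ?_, a3, h.mo.psd.le σ0.le ?_⟩
  · linarith [mul_le_mul_of_nonneg_right n1 (show 0 ≤ σ ^ 4 by positivity),
      mul_le_mul_of_nonneg_right a5 (show 0 ≤ n * σ ^ 3 by positivity)]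
  · rw [← pow_add, s.hσ]
    exact h.mo.le (by have := s.n1; omega)

lemma Mt.fl (h : Mt L A B N ρ) (s : Sc L n σ a g) (hc : ∀ i, 0 ≤ c i) (hl : n ≤ l) (hN : n + 1 ≤ N)
    {D W e Y k u : ℝ} (D0 : 0 ≤ D) (k0 : 0 ≤ k) (u0 : 0 ≤ u)
    (hD : ∀ i, l ≤ i + (n - n / 4) → i < l → |c (i + 1) - c i| ≤ D)
    (hW : c 0 + ∑ i ∈ range l, |c (i + 1) - c i| ≤ W) (he : c l ≤ e) (hY : S c l ≤ Y)
    (hι : 9 / 2 * (n * D) + 4 * W / (n * σ) + 3 * e ≤ k * (σ ^ 2 * u)) :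
    Dual L A n (V c (l + 1) - V c l - C (c l) * X ^ (n - n / 4)) (k / 10 ^ 15 * (σ ^ 3 * u))
      (2 / 10 ^ 15 * (σ ^ 2 * Y * g)) (2 * (k / 10 ^ 15 * (σ ^ 3 * u)) + 4 / 10 ^ 15 * (σ ^ 2 * Y * a)) := by
  obtain ⟨-, s2, -⟩ := h.sc s hN
  have σ0 := s.σ0
  have g0 := s.g0
  have a0 := s.a0
  have Y0 := (S_nonneg hc l).trans hY
  refine (h.flem hc s.n1 hl σ0 s.hσ (ν := 1 / g) (by positivity) s.nu D0 hD hW he hY
    ((mul_le_mul_of_nonneg_left hι h.ρ0).trans ?_)).mono le_rfl ?_ ?_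
  · linarith [mul_le_mul_of_nonneg_right s2 (show 0 ≤ k * (σ ^ 2 * u) by positivity)]
  · rw [div_div_eq_mul_div, div_one]
    linarith [mul_le_mul_of_nonneg_right s2 (show 0 ≤ σ * Y * g by positivity)]
  · rw [s.dv]
    linarith [mul_le_mul_of_nonneg_right s2 (show 0 ≤ σ * Y * a by positivity)]

lemma Mt.fP (h : Mt L A B N ρ) (s : Sc L n σ a g) (hl : n ≤ l) (hN : l + 1 ≤ N) {Z Y : ℝ}
    (hZ : S (p2 L) (l + 1) ≤ Z) (hY : S (p2 L) l ≤ Y) :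
    Dual L A n (V (p2 L) (l + 1) - V (p2 L) l - C (p2 L l) * X ^ (n - n / 4))
      (6600 / 10 ^ 15 * (σ ^ 3 * (Z * a))) (2 / 10 ^ 15 * (σ ^ 2 * Y * g))
      (2 * (6600 / 10 ^ 15 * (σ ^ 3 * (Z * a))) + 4 / 10 ^ 15 * (σ ^ 2 * Y * a)) := by
  have n0 := s.n0
  have σ0 := s.σ0
  have a0 := s.a0
  have Z0 : 0 ≤ Z := (S_nonneg h.p0 _).trans hZ
  obtain ⟨s1, -⟩ := h.sc s (by omega)
  refine h.fl s h.p0 hl (by omega) (D := 1088 * (σ ^ 2 * Z) / n ^ 2) (W := 272 * (σ ^ 2) ^ 2 * Z)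
    (e := 2 * (σ ^ 2 * Z) / n) (by positivity) (by norm_num) (by positivity) (fun i i1 i2 => ?_)
    ?_ ?_ hY ?_
  · have a1 := h.PR (i := i) (by omega)
    have a2 := mul_le_mul (h.cmp (j := i + 1) (k := n + 1) (by omega))
      ((S_mono h.p0 (show i + 1 ≤ l + 1 by omega)).trans hZ) (S_nonneg h.p0 _)
      (by linarith [h.mo.pos (n + 1)])
    have a3 : (n : ℝ) ≤ 4 * (i + 1) := by exact_mod_cast (by omega : n ≤ 4 * (i + 1))
    have a4 := mul_le_mul_of_nonneg_right (pow_le_pow_left₀ n0.le a3 2)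
      (abs_nonneg (p2 L (i + 1) - p2 L i))
    rw [le_div_iff₀ (by positivity), s.hσ]
    linarith
  · refine (h.TVp l hN).trans ?_
    rw [s.hσ]
    exact mul_le_mul (mul_le_mul_of_nonneg_left
      (pow_le_pow_left₀ (h.mo.pos _) (h.mo.le (by omega)) 2) (by norm_num)) hZ (S_nonneg h.p0 _)
      (by positivity)
  · have a1 := h.Pup s.n1 hl (by omega)
    have a2 : (n : ℝ) ≤ l := by exact_mod_cast hl
    rw [le_div_iff₀ n0, s.hσ]
    linarith [mul_le_mul_of_nonneg_left a2 (h.p0 l),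
      mul_le_mul_of_nonneg_left hZ (h.mo.pos (n + 1))]
  · have e : 9 / 2 * (n * (1088 * (σ ^ 2 * Z) / n ^ 2)) + 4 * (272 * (σ ^ 2) ^ 2 * Z) / (n * σ)
        + 3 * (2 * (σ ^ 2 * Z) / n) = (4902 + 1088 * σ) * (σ ^ 2 * (Z * a)) := by
      rw [s.ha]
      field_simp
      ring
    rw [e]
    exact mul_le_mul_of_nonneg_right (by linarith) (by positivity)

lemma Mt.fQ (h : Mt L A B N ρ) (s : Sc L n σ a g) (hl : n ≤ l) (hN : l + n ≤ N) {u Y : ℝ}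
    (hu : S (c2 L N) (l + 1) ≤ ((N : ℝ) - l) * u) (hY : S (q2 L N) l ≤ Y) :
    Dual L A n (V (q2 L N) (l + 1) - V (q2 L N) l - C (q2 L N l) * X ^ (n - n / 4))
      (11600 / 10 ^ 15 * (σ ^ 3 * u)) (2 / 10 ^ 15 * (σ ^ 2 * Y * g))
      (2 * (11600 / 10 ^ 15 * (σ ^ 3 * u)) + 4 / 10 ^ 15 * (σ ^ 2 * Y * a)) ∧
      q2 L N l ≤ 2 * (σ ^ 2 * u) := by
  have n0 := s.n0
  have n1 := s.n1
  have σ0 := s.σ0
  have d0 : (0 : ℝ) < N - l := sub_pos.2 (by exact_mod_cast (by omega : l < N))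
  have u0 : 0 ≤ u := nonneg_of_mul_nonneg_right ((S_nonneg h.c0 _).trans hu) d0
  obtain ⟨-, -, s3, -⟩ := h.sc s (by omega)
  have q : q2 L N l ≤ 2 * (σ ^ 2 * u) := by
    apply le_of_mul_le_mul_left _ d0
    rw [s.hσ]
    linarith [h.Qup n1 hl hN, mul_le_mul_of_nonneg_left hu (h.mo.pos (n + 1))]
  refine ⟨h.fl s h.q0 hl (by omega) (D := 256 * (σ ^ 2 * u) / n) (W := 576 * u)
    (by positivity) (by norm_num) u0 (fun i i1 i2 => ?_) ?_ q hY ?_, q⟩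
  · have a1 := h.QR0 (n := n / 4) (i := i) (by omega) (by omega) (by omega)
    have a2 := mul_le_mul (h.cmp (j := n / 4 + 1) (k := n + 1) (by omega))
      ((S_mono h.c0 (show i + 1 ≤ l + 1 by omega)).trans hu) (S_nonneg h.c0 _)
      (by linarith [h.mo.pos (n + 1)])
    have a3 : (n : ℝ) ≤ 4 * ((n / 4 : ℕ) + 1) := by exact_mod_cast (by omega : n ≤ 4 * (n / 4 + 1))
    have a4 : (i : ℝ) + 1 ≤ l := by exact_mod_cast i2
    have a5 := mul_le_mul a3 (mul_le_mul_of_nonneg_right (show (N : ℝ) - l ≤ N - (i + 1) by linarith)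
      (abs_nonneg (q2 L N (i + 1) - q2 L N i))) (by positivity) (by positivity)
    rw [le_div_iff₀ n0, s.hσ]
    apply le_of_mul_le_mul_left _ d0
    linarith
  · rw [q2_zero, zero_add]
    apply le_of_mul_le_mul_left _ d0
    linarith [h.TVq l (by omega)]
  · have e1 : n * (256 * (σ ^ 2 * u) / n) = 256 * (σ ^ 2 * u) := by field_simp
    have e2 : 4 * (576 * u) / (n * σ) ≤ 10368 * (σ ^ 2 * u) := by
      rw [div_le_iff₀ (by positivity)]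
      linarith [mul_le_mul_of_nonneg_right s3 u0]
    rw [e1]
    linarith [show 0 ≤ σ ^ 2 * u by positivity]

lemma Mt.conc (h : Mt L A B N ρ) {k j : ℕ} (hk : k ≤ N) (hj : N ≤ k + 2 * j + 2) :
    L (X ^ j) * S (c2 L N) k - L (V (c2 L N) k * X ^ j)
      ≤ 4 / 10 ^ 30 * (L (X ^ j) * S (c2 L N) k) := by
  refine (h.V3 h.c0 k j j le_rfl).trans ?_
  have t0 := h.bpos N
  have a1 : ∑ i ∈ range k, S (c2 L N) i / ((j + k + 1 - i : ℕ) : ℝ)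
      ≤ ∑ i ∈ range k, 4 / L (X ^ N) * q2 L N i := sum_le_sum fun i hi => by
    have hi' := mem_range.1 hi
    have b1 := (h.mo.qb hf0 hf0 (i := i) (by omega)).1
    have b2 : (N : ℝ) ≤ 2 * ((j + k + 1 - i : ℕ) : ℝ) + i := by
      exact_mod_cast (by omega : N ≤ 2 * (j + k + 1 - i) + i)
    rw [div_mul_eq_mul_div, div_le_div_iff₀ (by exact_mod_cast (by omega : 0 < j + k + 1 - i)) t0]
    linarith [mul_le_mul_of_nonneg_right b2 (h.q0 i)]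
  rw [← mul_sum] at a1
  have a2 := (h.mo.Sle (N := N) hf0 hf0 k).2
  have a3 : ρ ^ 2 * (4 / L (X ^ N)) ≤ 4 / 10 ^ 30 := by
    rw [← mul_div_assoc, div_le_iff₀ t0]
    linarith [h.r1]
  refine (mul_le_mul_of_nonneg_left (a1.trans (mul_le_mul_of_nonneg_left a2 (by positivity)))
    (mul_nonneg (sq_nonneg _) (h.mo.pos j))).trans ?_
  linarith [mul_le_mul_of_nonneg_right a3 (mul_nonneg (h.mo.pos j) (S_nonneg h.c0 k))]

lemma Mt.Vanti (h : Mt L A B N ρ) (hc : ∀ i, 0 ≤ c i) (l : ℕ) {j k : ℕ} (hjk : j ≤ k) :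
    L (V c l * X ^ k) ≤ L (V c l * X ^ j) := by
  rw [L_V, L_V]
  exact sum_le_sum fun i _ => mul_le_mul_of_nonneg_left
    (by rw [← pow_add, ← pow_add]; exact h.mo.le (by omega)) (hc _)

lemma Mt.V0 (h : Mt L A B N ρ) (hc : ∀ i, 0 ≤ c i) (l k : ℕ) : 0 ≤ L (V c l * X ^ k) :=
  (mul_nonneg (h.mo.pos (l + k)) (S_nonneg hc l)).trans (h.low hc (Nat.le_succ _))

lemma Mt.VV0 (h : Mt L A B N ρ) {d : ℕ → ℝ} (hc : ∀ i, 0 ≤ c i) (hd : ∀ i, 0 ≤ d i) (l k : ℕ) :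
    0 ≤ L (V c l * V d k) := by
  simpa using LV_ge (L := L) (U := 0) (l := k) hd fun j _ => h.V0 hc l j

lemma Mt.nMk (h : Mt L A B N ρ) (s : Sc L n σ a g) (hN : n + 1 ≤ N) (hc : ∀ i, 0 ≤ c i) (l : ℕ) :
    nr (Mk A n) (V c l) ≤ S c l * (2 / 10 ^ 15 * (σ ^ 2 * g)) := by
  obtain ⟨-, s2, -⟩ := h.sc s hN
  have σ0 := s.σ0
  have g0 := s.g0
  rw [V_eq, S, ← sum_range_reflect c, sum_mul]
  refine ((h.psM _).sum _ _).trans (sum_le_sum fun i _ => ?_)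
  rw [nr_C_mul, abs_of_nonneg (hc _)]
  refine mul_le_mul_of_nonneg_left ((h.psM _).le (by positivity) ?_) (hc _)
  rw [Mk_apply, mul_assoc, ← pow_add, ← pow_add]
  refine (s.le (h.dp' (by omega))).trans ?_
  rw [← s.hσ, ← s.hg]
  linarith [mul_le_mul_of_nonneg_right
    (pow_le_pow_left₀ (mul_nonneg (by norm_num) h.ρ0) s2 2) (sq_nonneg (σ * g))]

lemma Mt.bk (h : Mt L A B N ρ) (s : Sc L n σ a g) (hl : l + n = N) (hnl : n ≤ l) {T U : ℝ}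
    (hT : T = S (c2 L N) l) (hU : U = S (c2 L N) (l + 1)) :
    (1 ≤ T ∧ T ≤ U ∧ U ≤ 3 * T ∧ (1 + σ ^ 2 * a / 2) * T ^ 2 ≤ U ^ 2) ∧
      (nr L (V (p2 L) (l + 1)) ≤ 2 * σ * U ∧
        nr L (V (c2 L N) (l + 1) - C U * X ^ (n - n / 4)) ≤ 9 / 10 ^ 15 * (σ * U)) ∧
      nr L (V (c2 L N) l) ≤ 3 * σ * T ∧ nr L (V (p2 L) l) ≤ 3 * σ * T ∧
      (∀ j, j ≤ n + 1 → σ ^ 2 * T / 2 ≤ L (V (c2 L N) l * X ^ j)) ∧
      (∀ j, L (V (c2 L N) l * X ^ j) ≤ 9 * σ ^ 2 * T) ∧ ∀ j, L (V (p2 L) l * X ^ j) ≤ 9 * σ ^ 2 * T := by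
  have n1 := s.n1
  have n0 := s.n0
  have σ0 := s.σ0
  have n1' : (1 : ℝ) ≤ n := by exact_mod_cast n1
  have l1 : (1 : ℝ) ≤ l := by exact_mod_cast (by omega : 1 ≤ l)
  have eN : (N : ℝ) - l = n := by rw [← hl]; push_cast; ring
  have a1 := (h.mo.Sle (N := N) hf0 hf0 l).1
  have a2 := (h.mo.Sle (N := N) hf0 hf0 (l + 1)).1
  have a3 := (h.mo.S1 hf0 (show 1 ≤ l by omega)).trans a1
  have a4 := (h.mo.pb hf0 (show l ≤ N by omega)).2
  have a5 := (h.mo.qb hf0 hf0 (show l < N by omega)).2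
  have a6 := S_succ (c2 L N) l
  have a7 := qq_eq L (1 / 2) (1 / 2) (show l < N by omega)
  have a8 := h.conc (k := l) (j := n + 1) (by omega) (by omega)
  have a9 := h.conc (k := l + 1) (j := n - n / 4) (by omega) (by omega)
  have v1 := fun j => h.Vc n1 hnl hl.le le_rfl (Nat.le_succ l) j
  have v2 := fun j => h.Vp n1 hnl (show l ≤ N by omega) le_rfl (Nat.le_succ l) j
  have v3 := LV_le (l := l + 1) h.p0 fun j _ =>
    h.Vp n1 hnl (show l ≤ N by omega) (Nat.le_succ l) le_rfl j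
  have p0 := h.p0 l
  have q0 := h.q0 l
  have e : c2 L N l = p2 L l + q2 L N l := rfl
  rw [eN] at a5 a7
  rw [← s.hσ] at a8 v1 v2 v3
  rw [← hT] at a1 a3 a5 a6 a8
  rw [← hU] at a2 a6 a9 v1
  have T0 : 0 < T := by linarith
  have s0 : 0 ≤ σ ^ 2 * T := by positivity
  have b1 : U ≤ 3 * T := by
    linarith [mul_le_mul_of_nonneg_right l1 p0, mul_le_mul_of_nonneg_right n1' q0]
  have b2 : ∀ j, j ≤ n + 1 → σ ^ 2 * T / 2 ≤ L (V (c2 L N) l * X ^ j) := fun j hj => by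
    linarith [h.Vanti h.c0 l hj]
  have b3 : ∀ j, L (V (c2 L N) l * X ^ j) ≤ 9 * σ ^ 2 * T := fun j => by
    linarith [v1 j, mul_le_mul_of_nonneg_left b1 (sq_nonneg σ)]
  have b4 : ∀ j, L (V (p2 L) l * X ^ j) ≤ 9 * σ ^ 2 * T := fun j => by
    linarith [v2 j, mul_le_mul_of_nonneg_left (a2.trans b1) (sq_nonneg σ)]
  have U0 : 0 ≤ U := by linarith
  refine ⟨⟨a3, by linarith, b1, ?_⟩, ⟨h.mo.psd.le (by positivity) ?_, ?_⟩,
    h.mo.psd.le (by positivity) ?_, h.mo.psd.le (by positivity) ?_, b2, b3, b4⟩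
  · have c1 := b2 0 (Nat.zero_le _)
    rw [pow_zero, mul_one] at c1
    have c2 := s.ge (x := q2 L N l) (y := σ ^ 2 * T / 4) (by linarith)
    rw [a6, e]
    linarith [mul_le_mul_of_nonneg_left c2 T0.le, mul_nonneg T0.le p0, sq_nonneg (p2 L l + q2 L N l)]
  · have c1 := pow_le_pow_left₀ (S_nonneg h.p0 _) a2 2
    linarith [mul_le_mul_of_nonneg_left c1 (sq_nonneg σ), sq_nonneg (σ * U)]
  · refine h.omega h.c0 n1 (by omega) σ0.le s.hσ hU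
      (fun j j1 j2 => hU ▸ h.winc n1 hnl hl.le (Nat.le_succ l) le_rfl j j1 j2) ?_
    have c1 := h.cmp (j := n - n / 4) (k := n + 1) (by omega)
    rw [← s.hσ] at c1
    linarith [mul_le_mul_of_nonneg_right c1 U0,
      mul_le_mul_of_nonneg_right (h.mo.le (show n - n / 4 ≤ 2 * n by omega)) U0]
  · have := LV_le (l := l) h.c0 fun j _ => b3 j
    rw [← hT] at this
    linarith
  · linarith [LV_le (l := l) h.p0 fun j _ => b4 j, mul_le_mul_of_nonneg_left a1 s0]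

lemma Mt.beta (h : Mt L A B N ρ) (s : Sc L n σ a g) (hl : l + n = N) (hnl : n ≤ l) {T : ℝ}
    (hT : T = S (c2 L N) l) {x1 x2 : ℝ[X]}
    (h0 : L (V (c2 L N) (l + 1) * x1) + L (V (p2 L) (l + 1) * x2) = 0) :
    |L (V (c2 L N) l * x1) + L (V (p2 L) l * x2)|
      ≤ 55 / 10 ^ 12 * (σ ^ 3 * a) * (T * nr L x1) + 4 / 10 ^ 15 * (σ ^ 2 * g) * (T * nr (Mk A n) x1)
        + (31 * σ ^ 3 + 4 / 10 ^ 15 * σ ^ 2) * a * (T * nr L x2) := by
  obtain ⟨U, hU⟩ : ∃ U, U = S (c2 L N) (l + 1) := ⟨_, rfl⟩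
  obtain ⟨⟨a1, a2, a3, -⟩, ⟨a4, a5⟩, -⟩ := h.bk s hl hnl hT hU
  obtain ⟨-, -, -, -, s5⟩ := h.sc s (show n + 1 ≤ N by have := s.n1; omega)
  have n1 := s.n1
  have σ0 := s.σ0
  have a0 := s.a0
  have U0 : 0 < U := by linarith
  have eN : (N : ℝ) - l = n := by rw [← hl]; push_cast; ring
  have b0 : S (p2 L) (l + 1) ≤ U := hU ▸ (h.mo.Sle hf0 hf0 _).1
  have b1 := h.fP s hnl (Z := U) (Y := T) (by omega) b0 (hT ▸ (h.mo.Sle hf0 hf0 _).1)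
  obtain ⟨b2, b3⟩ := h.fQ s hnl hl.le (u := U * a) (Y := T)
    (by rw [eN, mul_left_comm, s.an, mul_one, hU]) (hT ▸ (h.mo.Sle hf0 hf0 _).2)
  have b4 : p2 L l ≤ 2 * (σ ^ 2 * (U * a)) := by
    have c1 := h.Pup n1 hnl (by omega)
    have c2 : (n : ℝ) ≤ l := by exact_mod_cast hnl
    rw [← s.hσ] at c1
    linarith [s.le (x := p2 L l) (y := 2 * (σ ^ 2 * U)) (by
      linarith [mul_le_mul_of_nonneg_right c2 (h.p0 l), mul_le_mul_of_nonneg_left b0 (sq_nonneg σ)])]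
  obtain ⟨r, hr⟩ : ∃ r, r = (p2 L l + q2 L N l) / U := ⟨_, rfl⟩
  have r0 : 0 ≤ r := hr ▸ div_nonneg (add_nonneg (h.p0 l) (h.q0 l)) U0.le
  have r1 : r ≤ 4 * (σ ^ 2 * a) := by
    rw [hr, div_le_iff₀ U0]
    linarith
  have r2 : (C (p2 L l) + C (q2 L N l) : ℝ[X]) = C r * C U := by
    rw [← map_mul, ← map_add, hr, div_mul_cancel₀ _ U0.ne']
  have b5 : nr L (C r * (V (c2 L N) (l + 1) - C U * X ^ (n - n / 4)))
      ≤ 36 / 10 ^ 15 * (σ ^ 3 * (U * a)) := by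
    rw [nr_C_mul, abs_of_nonneg r0]
    linarith [mul_le_mul r1 a5 (nr_nonneg _ _) (by positivity)]
  have b6 := (h.dsub (h.dsub (h.dsm n b5) b1) b2).l x1
  have b7 := h.mo.psd.sub (C r * V (p2 L) (l + 1) - C (p2 L l) * X ^ (n - n / 4))
    (V (p2 L) (l + 1) - V (p2 L) l - C (p2 L l) * X ^ (n - n / 4))
  have b8 := h.mo.psd.sub (C r * V (p2 L) (l + 1)) (C (p2 L l) * X ^ (n - n / 4))
  rw [nr_C_mul, nr_C_mul, abs_of_nonneg r0, abs_of_nonneg (h.p0 l)] at b8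
  have b9 := mul_le_mul_of_nonneg_right a3 (show 0 ≤ σ ^ 3 * a by positivity)
  have b10 := (h.mo.psd.cs _ x2).trans (mul_le_mul_of_nonneg_right (b7.trans
    (show _ ≤ (31 * σ ^ 3 + 4 / 10 ^ 15 * σ ^ 2) * a * T by
      linarith [mul_le_mul r1 a4 (nr_nonneg _ _) (by positivity), (h.nL _ _).trans b1.nm,
        mul_le_mul b4 s5 (nr_nonneg _ _) (by positivity),
        show 0 ≤ U * (σ ^ 3 * a) by positivity])) (nr_nonneg L x2))
  have e1 : C r * (V (c2 L N) (l + 1) - C U * X ^ (n - n / 4))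
      - (V (p2 L) (l + 1) - V (p2 L) l - C (p2 L l) * X ^ (n - n / 4))
      - (V (q2 L N) (l + 1) - V (q2 L N) l - C (q2 L N l) * X ^ (n - n / 4))
      = V (c2 L N) l - C (1 - r) * V (c2 L N) (l + 1) := by
    rw [V_pq, V_pq, map_sub, map_one]
    linear_combination X ^ (n - n / 4) * r2
  have e2 : C r * V (p2 L) (l + 1) - C (p2 L l) * X ^ (n - n / 4)
      - (V (p2 L) (l + 1) - V (p2 L) l - C (p2 L l) * X ^ (n - n / 4))
      = V (p2 L) l - C (1 - r) * V (p2 L) (l + 1) := by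
    rw [map_sub, map_one]
    ring
  rw [e1, sub_mul, mul_assoc, map_sub, L_C_mul] at b6
  rw [e2, sub_mul, mul_assoc, map_sub, L_C_mul] at b10
  have e3 : (1 - r) * L (V (c2 L N) (l + 1) * x1) + (1 - r) * L (V (p2 L) (l + 1) * x2) = 0 := by
    rw [← mul_add, h0, mul_zero]
  have b11 := mul_le_mul_of_nonneg_right b9 (nr_nonneg L x1)
  have b12 : 0 ≤ T * (σ ^ 3 * a) * nr L x1 := mul_nonneg (by positivity) (nr_nonneg L x1)
  rw [abs_le] at b6 b10 ⊢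
  constructor <;> linarith [b6.1, b6.2, b10.1, b10.2]

lemma Mt.fw (h : Mt L A B N ρ) (s : Sc L n σ a g) (hN : 2 * n ≤ N) {Z b : ℝ} (hb : b = 1 / N)
    (hZ : Z = S (p2 L) (n + 1)) :
    1 ≤ Z ∧ S (q2 L N) (n + 1) ≤ 8 * Z ∧ nr L (V (p2 L) (n + 1)) ≤ 2 * σ * Z ∧
      nr L (V (q2 L N) (n + 1)) ≤ 216 * (σ ^ 2 * (n * b) * Z) ∧
      nr L (V (q2 L N) (n + 1) - V (q2 L N) n - C (q2 L N n) * X ^ (n - n / 4))
        ≤ 1 / 10 ^ 9 * (σ ^ 3 * (Z * b)) ∧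
      ∃ r : ℝ, σ ^ 2 * a / 4 ≤ r ∧
        Dual L A n (V (p2 L) n - C (1 - r) * V (p2 L) (n + 1)) (67 / 10 ^ 13 * (σ ^ 3 * (Z * a)))
          (2 / 10 ^ 15 * (σ ^ 2 * Z * g))
          (2 * (67 / 10 ^ 13 * (σ ^ 3 * (Z * a))) + 4 / 10 ^ 15 * (σ ^ 2 * Z * a)) ∧
        nr L (V (q2 L N) n - C (1 - r) * V (q2 L N) (n + 1)) ≤ 700 * (σ ^ 3 * (Z * b)) := by
  have n1 := s.n1
  have big := h.big
  obtain ⟨s1, -, -, -, s5⟩ := h.sc s (show n + 1 ≤ N by omega)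
  have σ0 := s.σ0
  have a0 := s.a0
  have n0 := s.n0
  have n1' : (1 : ℝ) ≤ n := by exact_mod_cast n1
  have nN : 2 * (n : ℝ) ≤ N := by exact_mod_cast hN
  have N0 : (0 : ℝ) < N := by linarith
  have b0 : 0 < b := hb ▸ one_div_pos.2 N0
  have bN : N * b = 1 := hb ▸ mul_one_div_cancel N0.ne'
  have a1 := h.mo.S1 hf0 (show 1 ≤ n + 1 by omega)
  have a2 := h.S9 (i := n + 1) (by omega)
  have a3 := h.Sq2 n1 hN
  have a4 := LV_le (l := n + 1) h.p0 fun j _ =>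
    h.Vp n1 le_rfl (show n ≤ N by omega) (Nat.le_succ n) le_rfl j
  have a5 := h.Pup n1 le_rfl (show n ≤ N by omega)
  have a6 := h.Plow (i := n) (r := n + 1) (by omega)
  have a7 := (h.mo.pb hf0 (show n ≤ N by omega)).2
  have a8 := S_succ (p2 L) n
  have a9 := S_pq L (1 / 2) (1 / 2) N (n + 1)
  have a10 := h.omega h.p0 n1 (by omega) σ0.le s.hσ hZ
    (fun j j1 j2 => hZ ▸ h.winp n1 le_rfl (by omega) (Nat.le_succ n) le_rfl j j1 j2) (by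
      have := h.low h.p0 (l := n + 1) (k := n - n / 4) (r := 2 * n) (by omega)
      rw [← hZ] at this a1
      linarith [show 0 ≤ σ ^ 2 * Z by positivity])
  rw [← s.hσ] at a3 a4 a5 a6
  rw [← hZ] at a1 a2 a3 a4 a5 a8 a9
  have Z0 : 0 < Z := by linarith
  have p0 := h.p0 n
  have c1 : S (q2 L N) (n + 1) ≤ 144 * (σ ^ 2 * (n * b) * Z) := by
    apply le_of_mul_le_mul_left _ N0
    linarith [show N * (σ ^ 2 * (n * b) * Z) = N * b * (σ ^ 2 * n * Z) by ring,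
      show N * b * (σ ^ 2 * n * Z) = σ ^ 2 * n * Z by rw [bN, one_mul]]
  have c2 := (h.mo.nrV h.q0 (n + 1)).trans (mul_le_mul_of_nonneg_left c1 (by norm_num))
  obtain ⟨c3, c4⟩ := h.fQ s le_rfl (by omega) (u := 18 * (Z * b))
    (by
      linarith [mul_le_mul_of_nonneg_right nN (show 0 ≤ Z * b by positivity),
        show N * (Z * b) = Z by rw [mul_left_comm, bN, mul_one]])
    ((S_mono h.q0 (Nat.le_succ n)).trans c1)
  have x0 : 0 ≤ σ ^ 3 * (Z * b) := by positivity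
  have x1 : σ ^ 2 * (σ ^ 2 * (n * b) * Z) * a ≤ 3 / 2 * (σ ^ 3 * (Z * b)) := by
    rw [show σ ^ 2 * (σ ^ 2 * (n * b) * Z) * a = n * a * (σ * (σ ^ 3 * (Z * b))) by ring, s.an,
      one_mul]
    exact mul_le_mul_of_nonneg_right s1 x0
  have c5 : nr L (V (q2 L N) (n + 1) - V (q2 L N) n - C (q2 L N n) * X ^ (n - n / 4))
      ≤ 1 / 10 ^ 9 * (σ ^ 3 * (Z * b)) := by linarith [(h.nL _ _).trans c3.nm]
  obtain ⟨r, hr⟩ : ∃ r, r = p2 L n / Z := ⟨_, rfl⟩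
  have r0 : 0 ≤ r := hr ▸ div_nonneg p0 Z0.le
  have r1 : r ≤ 2 * (σ ^ 2 * a) := by
    rw [hr, div_le_iff₀ Z0]
    linarith [s.le a5]
  have r2 : (C (p2 L n) : ℝ[X]) = C r * C Z := by rw [← map_mul, hr, div_mul_cancel₀ _ Z0.ne']
  refine ⟨a1, by linarith, h.mo.psd.le (by positivity) (by linarith [sq_nonneg (σ * Z)]),
    by linarith, c5, r, ?_, ?_, ?_⟩
  · have d1 : Z ≤ 2 * S (p2 L) n := by linarith [mul_le_mul_of_nonneg_right n1' p0]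
    rw [hr, le_div_iff₀ Z0]
    linarith [s.ge (x := p2 L n) (y := σ ^ 2 * Z / 4)
      (by linarith [mul_le_mul_of_nonneg_left d1 (sq_nonneg σ)])]
  · have d1 : nr L (C r * (V (p2 L) (n + 1) - C Z * X ^ (n - n / 4)))
        ≤ 18 / 10 ^ 15 * (σ ^ 3 * (Z * a)) := by
      rw [nr_C_mul, abs_of_nonneg r0]
      linarith [mul_le_mul r1 a10 (nr_nonneg _ _) (by positivity)]
    have d2 := h.dsub (h.dsm n d1) (h.fP s le_rfl (Z := Z) (Y := Z) (by omega) hZ.ge (by linarith))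
    have e1 : C r * (V (p2 L) (n + 1) - C Z * X ^ (n - n / 4))
        - (V (p2 L) (n + 1) - V (p2 L) n - C (p2 L n) * X ^ (n - n / 4))
        = V (p2 L) n - C (1 - r) * V (p2 L) (n + 1) := by
      rw [map_sub, map_one]
      linear_combination X ^ (n - n / 4) * r2
    have x2 : 0 ≤ σ ^ 3 * (Z * a) := by positivity
    rw [e1] at d2
    exact d2.mono (by linarith) (by linarith) (by linarith)
  · have d1 := h.mo.psd.sub (C r * V (q2 L N) (n + 1) - C (q2 L N n) * X ^ (n - n / 4))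
      (V (q2 L N) (n + 1) - V (q2 L N) n - C (q2 L N n) * X ^ (n - n / 4))
    have d2 := h.mo.psd.sub (C r * V (q2 L N) (n + 1)) (C (q2 L N n) * X ^ (n - n / 4))
    rw [nr_C_mul, nr_C_mul, abs_of_nonneg r0, abs_of_nonneg (h.q0 n)] at d2
    have e2 : C r * V (q2 L N) (n + 1) - C (q2 L N n) * X ^ (n - n / 4)
        - (V (q2 L N) (n + 1) - V (q2 L N) n - C (q2 L N n) * X ^ (n - n / 4))
        = V (q2 L N) n - C (1 - r) * V (q2 L N) (n + 1) := by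
      rw [map_sub, map_one]
      ring
    rw [e2] at d1
    linarith [mul_le_mul r1 c2 (nr_nonneg _ _) (by positivity),
      mul_le_mul c4 s5 (nr_nonneg _ _) (by positivity)]

end Pool.Agent.P.MP_bdc337_an.KR
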