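import Pool.Agent.P.MP_bdc337_an.KR.R

/-! The Lyapunov form with local scales is monotone. -/

set_option autoImplicit false

open Finset Polynomial

namespace Pool.Agent.P.MP_bdc337_an.KR

variable {L A B : ℝ[X] →ₗ[ℝ] ℝ} {N n l : ℕ} {ρ σ a g : ℝ}

lemma young {r : ℝ} (r0 : 0 < r) (x y : ℝ) : 2 * (x * y) ≤ r / 4 * x ^ 2 + 4 / r * y ^ 2 := by
  apply le_of_mul_le_mul_left _ r0
  have e : r * (r / 4 * x ^ 2 + 4 / r * y ^ 2) = (r * x) ^ 2 / 4 + 4 * y ^ 2 := by field_simp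
  rw [e]
  linarith [sq_nonneg (r * x - 4 * y)]

lemma scalB {t B τ μ x D x2 y1 y2 K1 K2 r r2 ζ κ η ζ2 γ1 γ2 β1 β3 β2 Γ : ℝ}
    (τ0 : 0 ≤ τ) (τ1 : τ ≤ 1 - μ) (μ0 : 0 < μ) (hB : |B| ≤ β1 * x + β3 * D + β2 * x2)
    (h1 : y1 ≤ x ^ 2 + 2 * |t| * (ζ * x + κ * D) + 2 * |B| * γ1 * x + (η * |t| + γ1 * |B|) ^ 2)
    (y20 : 0 ≤ y2) (h2 : y2 ≤ x2 + ζ2 * |t| + γ2 * |B|) (K10 : 0 ≤ K1) (K20 : 0 ≤ K2) (r0 : 0 < r)
    (r20 : 0 < r2) (r21 : r2 ≤ 1)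
    (c1 : K1 * (4 / r * ζ ^ 2 + 2 * κ ^ 2 + 2 * η ^ 2) + K2 * (6 / r2 * ζ2 ^ 2) ≤ μ)
    (c2 : 2 / μ + K1 * ((4 / r + 2) * γ1 ^ 2) + K2 * (6 / r2 * γ2 ^ 2) ≤ Γ)
    (c3 : 6 * Γ * β1 ^ 2 ≤ r * K1) (c4 : 6 * Γ * β3 ^ 2 ≤ K1) (c5 : 6 * Γ * β2 ^ 2 ≤ r2 * K2) :
    (τ * t + B) ^ 2 + K1 * y1 + K2 * y2 ^ 2
      ≤ t ^ 2 + (1 + r) * K1 * (x ^ 2 + D ^ 2) + (1 + r2) * K2 * x2 ^ 2 := by
  have a0 : y1 ≤ (1 + r / 2) * x ^ 2 + D ^ 2 / 2 + (4 / r * ζ ^ 2 + 2 * κ ^ 2 + 2 * η ^ 2) * |t| ^ 2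
      + (4 / r + 2) * γ1 ^ 2 * |B| ^ 2 := by
    linarith [young r0 x (ζ * |t|), young r0 x (γ1 * |B|), sq_nonneg (D - 2 * κ * |t|),
      sq_nonneg (η * |t| - γ1 * |B|)]
  have a1 := mul_le_mul_of_nonneg_left a0 K10
  have a2 := mul_le_mul_of_nonneg_left (sq3 r20 r21 y20 h2) K20
  rw [sq_abs, sq_abs] at a1
  rw [mul_pow, mul_pow, sq_abs, sq_abs] at a2
  have a3 : (τ * t + B) ^ 2 ≤ (1 - μ) * t ^ 2 + 2 / μ * B ^ 2 := by
    apply le_of_mul_le_mul_left _ μ0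
    have e : μ * ((1 - μ) * t ^ 2 + 2 / μ * B ^ 2) = μ * ((1 - μ) * t ^ 2) + 2 * B ^ 2 := by
      field_simp
    have b1 : (1 + μ) * τ ^ 2 ≤ 1 - μ := by
      have := pow_le_pow_left₀ τ0 τ1 2
      nlinarith [mul_nonneg (τ0.trans τ1) (sq_nonneg μ)]
    rw [e]
    nlinarith [sq_nonneg (μ * (τ * t) - B), mul_le_mul_of_nonneg_right b1 (sq_nonneg t),
      mul_nonneg (τ0.trans τ1) (sq_nonneg B),
      mul_le_mul_of_nonneg_left (mul_le_mul_of_nonneg_right b1 (sq_nonneg t)) μ0.le]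
  have a4 : B ^ 2 ≤ 3 * β1 ^ 2 * x ^ 2 + 3 * β3 ^ 2 * D ^ 2 + 3 * β2 ^ 2 * x2 ^ 2 := by
    have := pow_le_pow_left₀ (abs_nonneg B) hB 2
    rw [sq_abs] at this
    linarith [sq_nonneg (β1 * x - β2 * x2), sq_nonneg (β1 * x - β3 * D), sq_nonneg (β3 * D - β2 * x2)]
  have Γ0 : 0 ≤ Γ := le_trans (by positivity) c2
  linarith [mul_le_mul_of_nonneg_right c1 (sq_nonneg t),
    mul_le_mul_of_nonneg_right c2 (sq_nonneg B), mul_le_mul_of_nonneg_left a4 Γ0,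
    mul_le_mul_of_nonneg_right c3 (sq_nonneg x), mul_le_mul_of_nonneg_right c4 (sq_nonneg D),
    mul_le_mul_of_nonneg_right c5 (sq_nonneg x2), show 0 ≤ r * K1 * D ^ 2 by positivity]

lemma Psd.dev2 (h : Psd L) {ξ δ u : ℝ[X]} {P T E η γ : ℝ} (t B : ℝ) (P0 : 0 < P) (T0 : 0 < T)
    (h1 : T * |L (δ * ξ)| ≤ E * P) (h2 : T * nr L δ ≤ η * P) (h3 : T * nr L u ≤ γ * P) :
    (T * nr L (ξ + (C (t / P) * δ - C (B / P) * u))) ^ 2 ≤ (T * nr L ξ) ^ 2 + 2 * |t| * (T * E)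
      + 2 * |B| * γ * (T * nr L ξ) + (η * |t| + γ * |B|) ^ 2 := by
  have a1 := h.sub (C (t / P) * δ) (C (B / P) * u)
  rw [nr_C_mul, nr_C_mul, abs_div, abs_div, abs_of_pos P0] at a1
  have e1 : ∀ x y : ℝ, x / P * (y * P) = y * x := fun x y => by field_simp
  have t0 : 0 ≤ |t| / P := by positivity
  have b0 := mul_le_mul_of_nonneg_left h3 (show 0 ≤ |B| / P by positivity)
  rw [e1] at b0
  have a2 : T * nr L (C (t / P) * δ - C (B / P) * u) ≤ η * |t| + γ * |B| := by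
    linarith [mul_le_mul_of_nonneg_left a1 T0.le, mul_le_mul_of_nonneg_left h2 t0, e1 |t| η]
  have a3 := pow_le_pow_left₀ (mul_nonneg T0.le (nr_nonneg _ _)) a2 2
  have a4 : T * L ((C (t / P) * δ - C (B / P) * u) * ξ) ≤ |t| * E + |B| * γ * nr L ξ := by
    have b1 : t / P * L (δ * ξ) ≤ |t| / P * |L (δ * ξ)| :=
      (le_abs_self _).trans (le_of_eq (by rw [abs_mul, abs_div, abs_of_pos P0]))
    have b2 : -(B / P * L (u * ξ)) ≤ |B| / P * (nr L u * nr L ξ) := (neg_le_abs _).trans (by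
      rw [abs_mul, abs_div, abs_of_pos P0]
      exact mul_le_mul_of_nonneg_left (h.cs _ _) (by positivity))
    rw [sub_mul, map_sub, mul_assoc, mul_assoc, L_C_mul, L_C_mul]
    linarith [mul_le_mul_of_nonneg_left b1 T0.le, mul_le_mul_of_nonneg_left b2 T0.le,
      mul_le_mul_of_nonneg_left h1 t0, e1 |t| E, mul_le_mul_of_nonneg_right b0 (nr_nonneg L ξ)]
  generalize C (t / P) * δ - C (B / P) * u = w at *
  rw [mul_pow, h.sq] at a3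
  rw [mul_pow, mul_pow, h.sq, h.sq,
    show (ξ + w) * (ξ + w) = ξ * ξ + w * ξ + w * ξ + w * w by ring, map_add, map_add, map_add]
  linarith [mul_le_mul_of_nonneg_left a4 T0.le]

lemma cond2 {n b K1 K2 r ζ : ℝ} (σ0 : 0 < σ) (σ1 : σ ≤ 3 / 2) (a0 : 0 < a) (a1 : a ≤ 1) (b0 : 0 < b)
    (ba : b ≤ a) (an : n * a = 1) (hg : g ^ 2 = a) (sb : 10 ^ 29 * (σ ^ 2 * b) ≤ a)
    (k1 : 400 * σ ^ 2 ≤ K1) (k2 : K1 ≤ 800 * σ ^ 2) (k3 : σ ^ 2 * a ≤ 2 * (b * K2))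
    (k4 : b * K2 ≤ 16 * (σ ^ 2 * a)) (hr : r = σ ^ 2 * a / 4 + b / 2) (r1 : r ≤ 2)
    (hζ : ζ = σ * (4 / 10 ^ 10 * a + 33600 * b)) :
    K1 * (4 / r * ζ ^ 2 + 2 * (8 / 10 ^ 15 * g) ^ 2 + 2 * (ζ + 8 / 10 ^ 15 * a) ^ 2)
        + K2 * (6 / a * (1400000 * σ * b) ^ 2) ≤ σ ^ 2 * a / 1296 ∧
      2 / (σ ^ 2 * a / 1296) + K1 * ((4 / r + 2) * (6 / σ) ^ 2) + K2 * (6 / a * (432 * (n * b)) ^ 2)
        ≤ 800000 / (σ ^ 2 * a) ∧
      6 * (800000 / (σ ^ 2 * a)) * (55 / 10 ^ 12 * (σ ^ 3 * a)) ^ 2 ≤ r * K1 ∧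
      6 * (800000 / (σ ^ 2 * a)) * (4 / 10 ^ 15 * (σ ^ 2 * g)) ^ 2 ≤ K1 ∧
      6 * (800000 / (σ ^ 2 * a)) * ((31 * σ ^ 3 + 4 / 10 ^ 15 * σ ^ 2) * a) ^ 2 ≤ a * K2 := by
  have r0 : 0 < r := by rw [hr]; positivity
  have s0 : 0 < σ ^ 2 := by positivity
  have s1 : σ ^ 2 ≤ 9 / 4 := by nlinarith
  have n0 : 0 < n := pos_of_mul_pos_left (an.symm ▸ one_pos) a0.le
  have sa : 0 < σ ^ 2 * a := by positivity
  refine ⟨?_, ?_, ?_, ?_, ?_⟩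
  · have b1 : ζ ^ 2 ≤ 1 / 10 ^ 17 * (a * r) := by
      rw [hζ, hr]
      linarith [mul_nonneg s0.le (sq_nonneg (4 / 10 ^ 10 * a - 33600 * b)),
        mul_le_mul_of_nonneg_right sb b0.le, mul_pos a0 b0, mul_pos sa a0]
    have b2 : 4 / r * ζ ^ 2 ≤ 4 / 10 ^ 17 * a := by
      rw [div_mul_eq_mul_div, div_le_iff₀ r0]
      linarith
    have b3 : 4 / r * ζ ^ 2 + 2 * (8 / 10 ^ 15 * g) ^ 2 + 2 * (ζ + 8 / 10 ^ 15 * a) ^ 2
        ≤ 1 / 10 ^ 15 * a := by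
      linarith [sq_nonneg (ζ - 8 / 10 ^ 15 * a), mul_le_mul_of_nonneg_left r1 a0.le,
        mul_le_mul_of_nonneg_left a1 a0.le]
    have b4 := mul_le_mul k2 b3 (by positivity) (by positivity)
    have b5 : K2 * (6 / a * (1400000 * σ * b) ^ 2) ≤ 1 / 10 ^ 10 * (σ ^ 2 * a) := by
      rw [show K2 * (6 / a * (1400000 * σ * b) ^ 2)
        = 11760000000000 * (b * K2 * (σ ^ 2 * b)) / a by ring, div_le_iff₀ a0]
      linarith [mul_le_mul_of_nonneg_right k4 (show 0 ≤ σ ^ 2 * b by positivity),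
        mul_le_mul_of_nonneg_left sb sa.le, mul_pos sa a0]
    linarith
  · rw [le_div_iff₀ sa]
    have e : (2 / (σ ^ 2 * a / 1296) + K1 * ((4 / r + 2) * (6 / σ) ^ 2)
        + K2 * (6 / a * (432 * (n * b)) ^ 2)) * (σ ^ 2 * a)
        = 2592 + 144 * (K1 * a / r) + 72 * (K1 * a) + 1119744 * (b * K2 * n * (σ ^ 2 * b * n)) := by
      field_simp
      ring
    have b1 := mul_le_mul_of_nonneg_right k2 a0.le
    have b2 : K1 * a / r ≤ 3200 := by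
      rw [div_le_iff₀ r0, hr]
      linarith
    have b3 : b * K2 * n ≤ 36 := by
      linarith [mul_le_mul_of_nonneg_right k4 n0.le,
        show σ ^ 2 * a * n = σ ^ 2 by rw [mul_assoc, mul_comm a, an, mul_one]]
    have b4 : σ ^ 2 * b * n ≤ 1 / 10 ^ 29 := by linarith [mul_le_mul_of_nonneg_right sb n0.le]
    rw [e]
    linarith [mul_le_mul b3 b4 (by positivity) (by norm_num), mul_le_mul_of_nonneg_left a1 s0.le]
  · rw [show 6 * (800000 / (σ ^ 2 * a)) * (55 / 10 ^ 12 * (σ ^ 3 * a)) ^ 2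
      = 4800000 * (55 / 10 ^ 12) ^ 2 * (σ ^ 2 * a * σ ^ 2) by field_simp; ring]
    linarith [mul_le_mul (show σ ^ 2 * a / 4 ≤ r by linarith) k1 (by positivity) r0.le, mul_pos sa s0]
  · rw [show 6 * (800000 / (σ ^ 2 * a)) * (4 / 10 ^ 15 * (σ ^ 2 * g)) ^ 2
      = 4800000 * (4 / 10 ^ 15) ^ 2 * σ ^ 2 * (g ^ 2 / a) by field_simp; ring, hg, div_self a0.ne']
    linarith
  · rw [show 6 * (800000 / (σ ^ 2 * a)) * ((31 * σ ^ 3 + 4 / 10 ^ 15 * σ ^ 2) * a) ^ 2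
      = a * (4800000 * σ ^ 2 * (31 * σ + 4 / 10 ^ 15) ^ 2) by field_simp; ring]
    refine mul_le_mul_of_nonneg_left (le_of_mul_le_mul_left ?_ b0) a0.le
    have b1 : b * (31 * σ + 4 / 10 ^ 15) ^ 2 ≤ 1 / 10 ^ 8 * a := by
      linarith [mul_nonneg b0.le (sq_nonneg (31 * σ - 4 / 10 ^ 15))]
    linarith [mul_le_mul_of_nonneg_left b1 s0.le]

/-- the Lyapunov form with local scales -/
noncomputable def qg (L A : ℝ[X] →ₗ[ℝ] ℝ) (P : ℝ) (N n r : ℕ) (v1 v2 : ℝ[X]) : ℝ :=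
  lf L (1 / 2) (1 / 2) N r v1 v2 ^ 2
    + 400 * L (X ^ n) * (2 * r / N) * (S (c2 L N) r
      * nr (Lam L A n) (v1 - C (lf L (1 / 2) (1 / 2) N r v1 v2 / P) * V (p2 L) n)) ^ 2
    + L (X ^ n) * nu N n r * (S (c2 L N) r
      * nr L (v2 - C (lf L (1 / 2) (1 / 2) N r v1 v2 / P) * V (q2 L N) n)) ^ 2

lemma Mt.exSc (h : Mt L A B N ρ) (hn : 1 ≤ n) : ∃ σ a g, Sc L n σ a g := by
  have n0 : (0 : ℝ) < 1 / n := one_div_pos.2 (by exact_mod_cast hn)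
  exact ⟨_, _, _, hn, Real.sqrt_pos.2 (h.bpos _), Real.sq_sqrt (h.mo.pos _), rfl, Real.sqrt_pos.2 n0,
    Real.sq_sqrt n0.le⟩

lemma Mt.wt (h : Mt L A B N ρ) (s : Sc L n σ a g) (hl : l + n = N) (hnl : n ≤ l) {T U b K1 K2 : ℝ}
    (hT : T = S (c2 L N) l) (hU : U = S (c2 L N) (l + 1)) (hb : b = 1 / N)
    (h1 : K1 = 400 * L (X ^ (n + 1)) * (2 * l / N)) (h2 : K2 = L (X ^ (n + 1)) * nu N (n + 1) l) :
    (0 < b ∧ 2 * b ≤ a ∧ 1 / l ≤ 2 * b ∧ 10 ^ 29 * (σ ^ 2 * b) ≤ a) ∧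
      (400 * σ ^ 2 ≤ K1 ∧ K1 ≤ 800 * σ ^ 2 ∧ σ ^ 2 * a ≤ 2 * (b * K2) ∧ b * K2 ≤ 16 * (σ ^ 2 * a)) ∧
      (1 + σ ^ 2 * a / 2 + b) * K1 * T ^ 2 ≤ 400 * L (X ^ n) * (2 * (l + 1 : ℕ) / N) * U ^ 2 ∧
      (1 + a) * (1 + 2 / l) ^ 2 * K2 * T ^ 2 ≤ L (X ^ n) * nu N n (l + 1) * U ^ 2 := by
  have n1 := s.n1
  obtain ⟨⟨a1, a2, -, a4⟩, -⟩ := h.bk s hl hnl hT hU
  obtain ⟨-, -, -, s4, -⟩ := h.sc s (show n + 1 ≤ N by omega)
  obtain ⟨u1, u2, u3⟩ := nu_facts n1 hl hnl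
  have σ0 := s.σ0
  have a0 := s.a0
  have n0 := s.n0
  have nl : (n : ℝ) ≤ l := by exact_mod_cast hnl
  have eN : (N : ℝ) = l + n := by rw [← hl]; push_cast; ring
  have l0 : (0 : ℝ) < l := by linarith
  have N0 : (0 : ℝ) < N := by linarith
  have b0 : 0 < b := hb ▸ one_div_pos.2 N0
  have bN : N * b = 1 := hb ▸ mul_one_div_cancel N0.ne'
  have an := h.mo.anti n
  have ν0 : 0 ≤ nu N (n + 1) l := le_trans (by positivity) u1
  rw [← s.hσ] at h1 h2 an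
  have c1 : (1 : ℝ) ≤ 2 * l / N := by rw [one_le_div N0]; linarith
  have c2 : (2 * l / N : ℝ) ≤ 2 := by rw [div_le_iff₀ N0]; linarith
  rw [← s.ha] at u3
  refine ⟨⟨b0, ?_, ?_, ?_⟩, ⟨?_, ?_, ?_, ?_⟩, ?_, ?_⟩
  · rw [hb, s.ha, mul_one_div, div_le_div_iff₀ N0 n0]
    linarith
  · rw [hb, mul_one_div, div_le_div_iff₀ l0 N0]
    linarith
  · linarith [mul_le_mul_of_nonneg_right s4 (show 0 ≤ a * b by positivity),
      show σ ^ 2 * n * (a * b) = σ ^ 2 * b by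
        rw [mul_assoc, ← mul_assoc (n : ℝ), s.an, one_mul],
      show N * (a * b) = a by rw [mul_left_comm, bN, mul_one]]
  · linarith [mul_le_mul_of_nonneg_left c1 (sq_nonneg σ)]
  · linarith [mul_le_mul_of_nonneg_left c2 (sq_nonneg σ)]
  · have := mul_le_mul_of_nonneg_left u1 (show 0 ≤ σ ^ 2 * b by positivity)
    rw [show σ ^ 2 * b * (N / (2 * n)) = σ ^ 2 * a / 2 by rw [hb, s.ha]; field_simp] at this
    rw [h2]
    linarith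
  · have := mul_le_mul_of_nonneg_left u2 (show 0 ≤ σ ^ 2 * b by positivity)
    rw [show σ ^ 2 * b * (16 * N / n) = 16 * (σ ^ 2 * a) by rw [hb, s.ha]; field_simp] at this
    rw [h2]
    linarith
  · have d1 : (1 + b) * (2 * l / N) ≤ 2 * (l + 1 : ℕ) / N := by
      rw [← mul_div_assoc]
      push_cast
      refine div_le_div_of_nonneg_right ?_ N0.le
      linarith [mul_le_mul_of_nonneg_right (show (l : ℝ) ≤ N by linarith) b0.le]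
    have d2 := mul_le_mul (mul_le_mul an d1 (by positivity) (h.mo.pos n)) a4 (by positivity)
      (mul_nonneg (h.mo.pos n) (by positivity))
    rw [h1]
    linarith [show 0 ≤ σ ^ 2 * a * b * (σ ^ 2 * (2 * l / N)) * T ^ 2 by positivity]
  · have d2 := mul_le_mul (mul_le_mul an u3 (by positivity) (h.mo.pos n))
      (pow_le_pow_left₀ (by linarith) a2 2) (by positivity)
      (mul_nonneg (h.mo.pos n) (le_trans (by positivity) u3))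
    rw [h2]
    linarith

lemma Mt.tau (h : Mt L A B N ρ) (s : Sc L n σ a g) (hl : l + n = N) (hnl : n ≤ l) {T P τ b : ℝ}
    (hT : T = S (c2 L N) l) (hb : b = 1 / N)
    (hP : L (V (c2 L N) l * V (p2 L) (n + 1)) + L (V (p2 L) l * V (q2 L N) (n + 1)) = P)
    (hτ : τ = (L (V (c2 L N) l * V (p2 L) n) + L (V (p2 L) l * V (q2 L N) n)) / P) :
    0 < P ∧ 0 ≤ τ ∧ τ ≤ 1 - σ ^ 2 * a / 1296 ∧
      T * nr (Lam L A (n + 1)) (V (p2 L) (n + 1)) ≤ 6 / σ * P ∧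
      (∀ x, T * |Lam L A (n + 1) ((V (p2 L) n - C τ * V (p2 L) (n + 1)) * x)|
        ≤ (σ * (4 / 10 ^ 10 * a + 33600 * b) * nr (Lam L A (n + 1)) x
          + 8 / 10 ^ 15 * g * nr (Mk A n) x) * P) ∧
      T * nr (Lam L A (n + 1)) (V (p2 L) n - C τ * V (p2 L) (n + 1))
        ≤ (σ * (4 / 10 ^ 10 * a + 33600 * b) + 8 / 10 ^ 15 * a) * P ∧
      ∀ (v : ℝ[X]) (t B : ℝ), T * nr L (v - C ((τ * t + B) / P) * V (q2 L N) (n + 1))
        ≤ T * nr L (v - C (t / P) * V (q2 L N) n) + 1400000 * σ * b * |t| + 432 * (n * b) * |B| := by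
  have n1 := s.n1
  obtain ⟨Z, hZ⟩ : ∃ Z, Z = S (p2 L) (n + 1) := ⟨_, rfl⟩
  obtain ⟨⟨a1, -⟩, -, a2, a3, a4, a5, a6⟩ := h.bk s hl hnl hT rfl
  obtain ⟨f1, f2, f3, f4, f5, r, f6, f7, f8⟩ := h.fw s (by omega) hb hZ
  obtain ⟨⟨b0, b1, -⟩, -⟩ := h.wt s hl hnl hT rfl hb rfl rfl
  obtain ⟨s1, -⟩ := h.sc s (show n + 1 ≤ N by omega)
  have σ0 := s.σ0
  have a0 := s.a0
  have g0 := s.g0
  have n0 := s.n0
  have T0 : 0 < T := by linarith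
  have Z0 : 0 < Z := by linarith
  have p1 := LV_ge (l := n + 1) h.p0 fun k hk => a4 k hk.le
  have p2' := LV_le (l := n + 1) h.p0 fun k _ => a5 k
  have p3 := (LV_le (l := n + 1) h.q0 fun k _ => a6 k).trans
    (mul_le_mul_of_nonneg_left f2 (by positivity))
  have p4 := h.VV0 h.p0 h.q0 l (n + 1)
  rw [← hZ] at p1 p2'
  obtain ⟨Y, hY⟩ : ∃ Y, Y = σ ^ 2 * T * Z := ⟨_, rfl⟩
  have Y0 : 0 < Y := by rw [hY]; positivity
  have P1 : Y ≤ 2 * P := by linarith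
  have P2 : P ≤ 81 * Y := by linarith
  have P0 : 0 < P := by linarith
  have m1 := h.nMk s (show n + 1 ≤ N by omega) h.c0 l
  rw [← hT] at m1
  have E1 : |L ((V (p2 L) n - C (1 - r) * V (p2 L) (n + 1)) * V (c2 L N) l)|
      ≤ 21 / 10 ^ 12 * (σ ^ 2 * a * Y) := by
    refine (f7.l _).trans ?_
    have c1 := mul_le_mul_of_nonneg_left a2 (show 0 ≤ σ ^ 3 * (Z * a) by positivity)
    have c2 := mul_le_mul_of_nonneg_left m1 (show 0 ≤ σ ^ 2 * Z * g by positivity)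
    have c3 : σ ^ 2 * g ^ 2 * Y = σ ^ 2 * a * Y := by rw [s.hg]
    have c4 : 0 ≤ σ ^ 2 * a * Y := by positivity
    rw [hY] at c3 c4 ⊢
    linarith
  have E2 := (h.mo.psd.cs _ _).trans (mul_le_mul a3 f8 (nr_nonneg _ _) (by positivity))
  have E3 := (h.mo.psd.cs _ _).trans (mul_le_mul a3 f5 (nr_nonneg _ _) (by positivity))
  have E4 := mul_nonneg (h.q0 n) (h.V0 h.p0 l (n - n / 4))
  rw [mul_comm, L_sub] at E1
  rw [L_sub] at E2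
  rw [L_sub, mul_sub, map_sub] at E3
  have tP : τ * P = L (V (c2 L N) l * V (p2 L) n) + L (V (p2 L) l * V (q2 L N) n) := by
    rw [hτ, div_mul_cancel₀ _ P0.ne']
  obtain ⟨e, he⟩ : ∃ e, e = 42 / 10 ^ 12 * a + 4200 * b := ⟨_, rfl⟩
  have e0 : 0 ≤ e := by rw [he]; positivity
  have t1 : |τ - (1 - r)| * P ≤ σ ^ 2 * e * P := by
    have c1 := mul_le_mul_of_nonneg_left P1 (show 0 ≤ σ ^ 2 * e by positivity)
    have c2 : (τ - (1 - r)) * P = L (V (c2 L N) l * V (p2 L) n)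
        - (1 - r) * L (V (c2 L N) l * V (p2 L) (n + 1)) + (L (V (p2 L) l * V (q2 L N) n)
        - (1 - r) * L (V (p2 L) l * V (q2 L N) (n + 1))) := by linear_combination tP + (1 - r) * hP
    rw [← abs_of_pos P0, ← abs_mul, abs_of_pos P0, c2]
    refine (abs_add_le _ _).trans ?_
    rw [he, hY] at c1
    rw [hY] at E1
    rw [he]
    linarith
  have t2 : nr L (C (τ - (1 - r)) * V (p2 L) (n + 1)) ≤ σ ^ 2 * e * (2 * σ * Z) := by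
    rw [nr_C_mul]
    exact mul_le_mul (le_of_mul_le_mul_right t1 P0) f3 (nr_nonneg _ _) (by positivity)
  have t3 := h.dsub f7 (h.dsm n t2)
  rw [show V (p2 L) n - C (1 - r) * V (p2 L) (n + 1) - C (τ - (1 - r)) * V (p2 L) (n + 1)
    = V (p2 L) n - C τ * V (p2 L) (n + 1) by simp only [map_sub]; ring] at t3
  have t4 : T * (2 * (67 / 10 ^ 13 * (σ ^ 3 * (Z * a)) + σ ^ 2 * e * (2 * σ * Z)))
      ≤ σ * (4 / 10 ^ 10 * a + 33600 * b) * P := by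
    have c1 := mul_le_mul_of_nonneg_left P1 (show 0 ≤ σ * a by positivity)
    have c2 := mul_le_mul_of_nonneg_left P1 (show 0 ≤ σ * b by positivity)
    rw [hY] at c1 c2
    rw [he]
    linarith [show 0 ≤ σ * a * P by positivity]
  have g2 : T * nr L (V (q2 L N) (n + 1)) ≤ 432 * (n * b) * P := by
    have c1 := mul_le_mul_of_nonneg_left P1 (show 0 ≤ n * b by positivity)
    rw [hY] at c1
    linarith [mul_le_mul_of_nonneg_left f4 T0.le]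
  refine ⟨P0, hτ ▸ div_nonneg (add_nonneg (h.VV0 h.c0 h.p0 _ _) (h.VV0 h.p0 h.q0 _ _)) P0.le, ?_, ?_,
    fun x => ?_, ?_, fun v t B => h.mo.psd.dev P0 T0 f8 g2 t1 ?_⟩
  · apply le_of_mul_le_mul_right _ P0
    have c1 := mul_le_mul f6 p1 (by positivity) (le_trans (by positivity) f6)
    have c2 := mul_le_mul_of_nonneg_left P2 (show 0 ≤ σ ^ 2 * a by positivity)
    have c3 := mul_le_mul_of_nonneg_left b1 (show 0 ≤ σ ^ 2 * Y by positivity)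
    have c4 : 0 ≤ σ ^ 2 * a * Y := by positivity
    rw [hY] at c2 c3 c4 E1
    linarith [(abs_le.1 E1).2, (abs_le.1 E3).1]
  · rw [div_mul_eq_mul_div, le_div_iff₀ σ0]
    linarith [mul_le_mul_of_nonneg_left ((h.nLam' (n + 1) _).trans
      (mul_le_mul_of_nonneg_left f3 (by norm_num))) (show 0 ≤ T * σ by positivity)]
  · have c1 := mul_le_mul_of_nonneg_left P1 (mul_nonneg g0.le (nr_nonneg (Mk A n) x))
    rw [hY] at c1
    linarith [mul_le_mul_of_nonneg_left (t3.lam x) T0.le,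
      mul_le_mul_of_nonneg_right t4 (nr_nonneg (Lam L A (n + 1)) x)]
  · have c1 := mul_le_mul_of_nonneg_left P1 a0.le
    rw [hY] at c1
    linarith [mul_le_mul_of_nonneg_left t3.nm T0.le]
  · have c1 := mul_le_mul_of_nonneg_left P1 (show 0 ≤ σ * b by positivity)
    have c2 : n * e ≤ 2101 := by
      rw [he]
      linarith [s.an, mul_le_mul_of_nonneg_left b1 n0.le]
    have c3 := mul_le_mul_of_nonneg_right (mul_le_mul s1 c2 (by positivity) (by norm_num))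
      (show 0 ≤ σ * b * P by positivity)
    rw [hY] at c1
    linarith [show 0 ≤ σ * b * P by positivity]

theorem Mt.stA (h : Mt L A B N ρ) (hn : 1 ≤ n) (hl : l + n = N) (hnl : n ≤ l) {P : ℝ}
    (hu : lf L (1 / 2) (1 / 2) N (l + 1) (V (p2 L) n) (V (q2 L N) n) = P)
    (hw : lf L (1 / 2) (1 / 2) N l (V (p2 L) (n + 1)) (V (q2 L N) (n + 1)) = P) (v1 v2 : ℝ[X]) :
    qg L A P N (n + 1) l v1 v2 ≤ qg L A P N n (l + 1) v1 v2 := by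
  obtain ⟨σ, a, g, s⟩ := h.exSc hn
  obtain ⟨T, hT⟩ : ∃ T, T = S (c2 L N) l := ⟨_, rfl⟩
  obtain ⟨b, hb⟩ : ∃ b : ℝ, b = 1 / N := ⟨_, rfl⟩
  obtain ⟨K1, h1⟩ : ∃ K, K = 400 * L (X ^ (n + 1)) * (2 * l / N) := ⟨_, rfl⟩
  obtain ⟨K2, h2⟩ : ∃ K, K = L (X ^ (n + 1)) * nu N (n + 1) l := ⟨_, rfl⟩
  obtain ⟨τ, hτ⟩ : ∃ τ, τ = (L (V (c2 L N) l * V (p2 L) n) + L (V (p2 L) l * V (q2 L N) n)) / P :=
    ⟨_, rfl⟩
  obtain ⟨⟨a1, -⟩, -⟩ := h.bk s hl hnl hT rfl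
  obtain ⟨⟨b0, b1, -, b3⟩, ⟨k1, k2, k3, k4⟩, w1, w2⟩ := h.wt s hl hnl hT rfl hb h1 h2
  obtain ⟨P0, τ0, τ1, t1, t2, t3, t4⟩ := h.tau s hl hnl hT hb hw hτ
  obtain ⟨s1, -⟩ := h.sc s (show n + 1 ≤ N by omega)
  have σ0 := s.σ0
  have a0 := s.a0
  have T0 : 0 < T := by linarith
  have K10 : 0 ≤ K1 := le_trans (by positivity) k1
  have K20 : 0 ≤ K2 := nonneg_of_mul_nonneg_right (by linarith [mul_pos (pow_pos σ0 2) a0]) b0
  obtain ⟨c1, c2', c3, c4, c5⟩ := cond2 σ0 s1 a0 s.a1 b0 (by linarith) s.an s.hg b3 k1 k2 k3 k4 rfl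
    (by nlinarith [s.a1, mul_le_mul_of_nonneg_left s.a1 (sq_nonneg σ)]) rfl
  obtain ⟨t, ht⟩ : ∃ t, t = lf L (1 / 2) (1 / 2) N (l + 1) v1 v2 := ⟨_, rfl⟩
  obtain ⟨x1, hx1⟩ : ∃ x, x = v1 - C (t / P) * V (p2 L) n := ⟨_, rfl⟩
  obtain ⟨x2, hx2⟩ : ∃ x, x = v2 - C (t / P) * V (q2 L N) n := ⟨_, rfl⟩
  obtain ⟨D, hD⟩ : ∃ D, D = L (V (c2 L N) l * x1) + L (V (p2 L) l * x2) := ⟨_, rfl⟩
  have z : L (V (c2 L N) (l + 1) * x1) + L (V (p2 L) (l + 1) * x2) = 0 := by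
    have : t / P * P = t := by field_simp
    rw [hx1, hx2, L_sub, L_sub]
    unfold lf at ht hu
    linear_combination -ht - t / P * hu - this
  have e1 : lf L (1 / 2) (1 / 2) N l v1 v2 = τ * t + D := by
    rw [hD, hτ, hx1, hx2, L_sub, L_sub, lf]
    ring
  have hB := h.beta s hl hnl hT z
  rw [← hD] at hB
  have e2 : v1 - C ((τ * t + D) / P) * V (p2 L) (n + 1) = x1 + (C (t / P)
      * (V (p2 L) n - C τ * V (p2 L) (n + 1)) - C (D / P) * V (p2 L) (n + 1)) := by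
    rw [hx1, show (τ * t + D) / P = t / P * τ + D / P by ring, map_add, map_mul]
    ring
  have key := scalB (x := T * nr (Lam L A (n + 1)) x1) (D := T * nr (Mk A n) x1) τ0 τ1
    (by positivity) (hB.trans (add_le_add (add_le_add (mul_le_mul_of_nonneg_left
      (mul_le_mul_of_nonneg_left (h.nL (n + 1) x1) T0.le) (by positivity)) le_rfl) le_rfl))
    (((h.psL (n + 1)).dev2 t D P0 T0 (t2 x1) t3 t1).trans (le_of_eq (by ring)))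
    (mul_nonneg T0.le (nr_nonneg _ _)) (hx2 ▸ t4 v2 t D) K10 K20 (by positivity) a0 s.a1 c1 c2' c3
    c4 c5
  have e3 : nr (Lam L A n) x1 ^ 2 = nr (Lam L A (n + 1)) x1 ^ 2 + nr (Mk A n) x1 ^ 2 := by
    rw [(h.psL _).sq, (h.psL _).sq, (h.psM _).sq, Lam_split]
  have y1 : (1 : ℝ) ≤ (1 + 2 / l) ^ 2 := one_le_pow₀ (le_add_of_nonneg_right (by positivity))
  rw [qg, qg, e1, e2, ← ht, ← hx1, ← hx2, ← hT, ← h1, ← h2]
  refine key.trans (add_le_add (add_le_add le_rfl ?_) ?_)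
  · rw [mul_pow, mul_pow, mul_pow, ← mul_add, ← e3]
    linarith [mul_le_mul_of_nonneg_right w1 (sq_nonneg (nr (Lam L A n) x1)),
      show 0 ≤ (σ ^ 2 * a + 2 * b) * K1 * T ^ 2 * nr (Lam L A n) x1 ^ 2 by positivity]
  · rw [mul_pow, mul_pow]
    linarith [mul_le_mul_of_nonneg_right w2 (sq_nonneg (nr L x2)), mul_le_mul_of_nonneg_left y1
      (show 0 ≤ (1 + a) * K2 * T ^ 2 * nr L x2 ^ 2 by positivity)]

end Pool.Agent.P.MP_bdc337_an.KR
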