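import Pool.Agent.P.MP_bdc337_an.KR.S

/-! The step of the system and the middle inequality for the form with local scales. -/

set_option autoImplicit false

open Finset Polynomial

namespace Pool.Agent.P.MP_bdc337_an.KR

variable {L A B : ℝ[X] →ₗ[ℝ] ℝ} {N n l : ℕ} {ρ σ a g : ℝ}

lemma Mt.dropA (h : Mt L A B N ρ) (k : ℕ) :
    ∑ i ∈ range k, (A (X ^ i) - A (X ^ k)) ≤ 2 * ρ ^ 2 * k := by
  induction k with
  | zero => simp
  | succ k ih =>
    have a1 := h.dp k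
    rw [sub_mul, one_mul, ← pow_succ', map_sub] at a1
    rw [sum_sub_distrib, sum_const, card_range, nsmul_eq_mul] at ih ⊢
    rw [sum_range_succ]
    push_cast
    linarith [mul_le_mul_of_nonneg_left (h.mo.le2 (k - 1)) (sq_nonneg ρ)]

lemma Mt.dis (h : Mt L A B N ρ) (k : ℕ) (x : ℝ[X]) :
    (A x - A (X ^ k * x)) ^ 2 ≤ 4 * k * ρ ^ 2 * A ((1 - X) * (x * x)) := by
  have an : ∀ i j, i ≤ j → A (X ^ j) ≤ A (X ^ i) := fun i j hij => h.la fun y y0 y1 => by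
    simp only [eval_pow, eval_X]
    exact pow_le_pow_of_le_one y0 y1 hij
  have g := mul_neg_geom_sum (X : ℝ[X]) k
  obtain ⟨G, hG⟩ : ∃ G : ℝ[X], G = ∑ i ∈ range k, X ^ i := ⟨_, rfl⟩
  rw [← hG] at g
  have e1 : ∀ p, Mk A 0 (G * p) = A p - A (X ^ k * p) := fun p => by
    rw [Mk_apply, ← map_sub]
    congr 1
    linear_combination p * g
  have a1 := pow_le_pow_left₀ (abs_nonneg _) ((h.psM 0).cs G x) 2
  have a0 := h.psM 0 x
  rw [sq_abs, mul_pow, (h.psM 0).sq, (h.psM 0).sq, e1, e1] at a1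
  rw [Mk_apply, pow_zero, mul_one] at a0 a1
  refine a1.trans (mul_le_mul_of_nonneg_right ?_ a0)
  have a2 := h.dropA (2 * k)
  push_cast at a2
  have a3 : ∑ j ∈ range k, (A (X ^ j) - A (X ^ (2 * k)))
      ≤ ∑ j ∈ range (2 * k), (A (X ^ j) - A (X ^ (2 * k))) :=
    sum_le_sum_of_subset_of_nonneg (range_subset_range.2 (by omega)) fun j hj _ =>
      sub_nonneg.2 (an _ _ (mem_range.1 hj).le)
  rw [hG, mul_sum, map_sum, map_sum, ← sum_sub_distrib]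
  refine le_trans (sum_le_sum fun j hj => ?_) (a3.trans (by linarith))
  rw [← pow_add]
  exact sub_le_sub_left (an _ _ (by have := mem_range.1 hj; omega)) _

lemma Mt.ph1 (h : Mt L A B N ρ) (s : Sc L n σ a g) (hN : n + 1 ≤ N) {x : ℝ[X]} {y : ℝ}
    (hx : |L (X ^ (n - n / 4) * x)| ≤ 9 / 10 ^ 15 * σ * nr L x + 2 * σ * y) :
    nr (Lam L A (n + 1)) (X * x + C (a / 2 * L x)) ^ 2
      ≤ (1 + σ ^ 2 * a / 4) * nr (Lam L A n) x ^ 2 + 36 * (σ ^ 2 * a) * y ^ 2 := by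
  obtain ⟨-, s2, -⟩ := h.sc s hN
  have σ0 := s.σ0
  have a0 := s.a0
  have a1 := s.a1
  have D0 : 0 ≤ A ((1 - X) * (x * x)) := by simpa [Mk_apply] using h.psM 0 x
  obtain ⟨e, he⟩ : ∃ e, e = √(4 * (n + 2) * ρ ^ 2 * A ((1 - X) * (x * x))) := ⟨_, rfl⟩
  have e0 : 0 ≤ e := he ▸ Real.sqrt_nonneg _
  have e2 : e ^ 2 = 4 * (n + 2) * ρ ^ 2 * A ((1 - X) * (x * x)) := he ▸ Real.sq_sqrt (by positivity)
  have E : ∀ k, k ≤ n + 2 → |A x - A (X ^ k * x)| ≤ e := fun k hk => by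
    have k1 : (k : ℝ) ≤ n + 2 := by exact_mod_cast hk
    refine abs_le.2 (abs_le_of_sq_le_sq' ((h.dis k x).trans ?_) e0)
    linarith [mul_le_mul_of_nonneg_right k1 (mul_nonneg (sq_nonneg ρ) D0)]
  have x1 := h.nL n x
  have x0 := nr_nonneg L x
  have x2 := (h.psL n).sq x
  obtain ⟨z, hz⟩ : ∃ z, z = nr (Lam L A n) x := ⟨_, rfl⟩
  rw [← hz] at x1 x2 ⊢
  have z0 : 0 ≤ σ * z := mul_nonneg σ0.le (x0.trans x1)
  have G : ∀ k, |B (X ^ k * x)| ≤ 3 / 10 ^ 15 * (σ * z) := fun k => (h.psB.cs _ _).trans (by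
    linarith [mul_le_mul (show nr B (X ^ k) ≤ 3 / 10 ^ 15 * σ by linarith [h.lamB1 k])
      ((h.nB x).trans x1) (nr_nonneg _ _) (by positivity)])
  obtain ⟨U, hU⟩ : ∃ U, U = 15 / 10 ^ 15 * (σ * z) + 2 * σ * y + 2 * e := ⟨_, rfl⟩
  have b1 := abs_le.1 (E (n - n / 4) (by omega))
  have b2 := abs_le.1 (E 1 (by omega))
  have b3 := abs_le.1 (E (n + 2) le_rfl)
  have b4 := abs_le.1 (G (n - n / 4))
  have b5 := abs_le.1 (G 0)
  have b6 := abs_le.1 (G 1)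
  have b7 := abs_le.1 (hx.trans (add_le_add
    (mul_le_mul_of_nonneg_left x1 (show 0 ≤ 9 / 10 ^ 15 * σ by positivity)) le_rfl))
  rw [pow_zero, one_mul] at b5
  rw [pow_one] at b2 b6
  rw [h.sm] at b7
  have c1 : |L x| ≤ U := by
    rw [h.sm, abs_le]
    constructor <;> linarith [b1.1, b1.2, b4.1, b4.2, b5.1, b5.2, b7.1, b7.2]
  have c2 : |L (X * x) + A (X ^ (n + 2) * x)| ≤ 2 * U := by
    rw [h.sm, abs_le]
    constructor <;>
      linarith [b1.1, b1.2, b4.1, b4.2, b6.1, b6.2, b7.1, b7.2, b2.1, b2.2, b3.1, b3.2]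
  have c3 : L x * (L (X * x) + A (X ^ (n + 2) * x)) ≤ U * (2 * U) := (le_abs_self _).trans
    ((abs_mul _ _).le.trans (mul_le_mul c1 c2 (abs_nonneg _) ((abs_nonneg _).trans c1)))
  have c4 : L x ^ 2 ≤ U ^ 2 := sq_abs (L x) ▸ pow_le_pow_left₀ (abs_nonneg _) c1 2
  have c5 : L 1 + A (X ^ (n + 1)) ≤ 4 := by
    have d1 := (h.xa (n + 1) 1).2
    have d2 := h.psB 1
    rw [mul_one] at d2
    rw [mul_one, mul_one] at d1
    linarith [h.mo.up, h.sm 1]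
  have c6 : U ^ 2 ≤ 3 * ((15 / 10 ^ 15 * (σ * z)) ^ 2 + (2 * σ * y) ^ 2 + (2 * e) ^ 2) := by
    rw [hU]
    linarith [sq_nonneg (15 / 10 ^ 15 * (σ * z) - 2 * σ * y), sq_nonneg (2 * σ * y - 2 * e),
      sq_nonneg (15 / 10 ^ 15 * (σ * z) - 2 * e)]
  have c7 : 36 * (a * e ^ 2) ≤ A ((1 - X) * (x * x)) := by
    have d1 : (n + 2) * a ≤ 3 := by linarith [s.an]
    rw [e2]
    linarith [mul_le_mul_of_nonneg_right d1 (mul_nonneg (sq_nonneg ρ) D0),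
      mul_le_mul_of_nonneg_right h.ρ2 D0, mul_nonneg (sq_nonneg ρ) D0]
  have c8 : B (X ^ 2 * (x * x)) ≤ B (x * x) := h.lb fun u u0 u1 => by
    simp only [eval_mul, eval_pow, eval_X]
    exact mul_le_of_le_one_left (mul_self_nonneg _) (by nlinarith)
  have c9 : A (X ^ 2 * (x * x) + X ^ (n + 3) * (x * x) + (1 - X) * (x * x))
      ≤ A (x * x + X ^ n * (x * x)) := h.la fun u u0 u1 => by
    simp only [eval_add, eval_sub, eval_one, eval_mul, eval_pow, eval_X]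
    linarith [mul_le_mul_of_nonneg_right (pow_le_pow_of_le_one u0 u1 (show n ≤ n + 3 by omega))
      (mul_self_nonneg (x.eval u)), mul_le_mul_of_nonneg_right
      (pow_le_of_le_one u0 u1 two_ne_zero) (mul_self_nonneg (x.eval u))]
  have ex : ∀ c : ℝ, Lam L A (n + 1) ((X * x + C c) * (X * x + C c))
      = L (X ^ 2 * (x * x)) + A (X ^ (n + 3) * (x * x))
        + 2 * c * (L (X * x) + A (X ^ (n + 2) * x)) + c ^ 2 * (L 1 + A (X ^ (n + 1))) := fun c => by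
    rw [Lam_apply, show (X * x + C c) * (X * x + C c) = X ^ 2 * (x * x) + C c * (X * x)
      + C c * (X * x) + C c * (C c * 1) by ring, show X ^ (n + 1) * (X ^ 2 * (x * x) + C c * (X * x)
      + C c * (X * x) + C c * (C c * 1)) = X ^ (n + 3) * (x * x) + C c * (X ^ (n + 2) * x)
      + C c * (X ^ (n + 2) * x) + C c * (C c * X ^ (n + 1)) by ring]
    simp only [map_add, L_C_mul]
    ring
  rw [map_add, map_add, map_add] at c9
  rw [Lam_apply, h.sm] at x2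
  rw [(h.psL _).sq, ex, h.sm (X ^ 2 * _)]
  linarith [mul_le_mul_of_nonneg_left c3 a0.le, mul_le_mul_of_nonneg_left c6 a0.le,
    mul_le_mul_of_nonneg_left c5 (sq_nonneg (a / 2 * L x)),
    mul_le_mul (mul_le_of_le_one_left a0.le a1) c4 (sq_nonneg _) a0.le,
    mul_nonneg a0.le (sq_nonneg (σ * z))]

theorem Mt.stB (h : Mt L A B N ρ) (hn : 1 ≤ n) (hl : l + n = N) (hnl : n ≤ l) {P : ℝ} (P0 : P ≠ 0)
    (hu : lf L (1 / 2) (1 / 2) N (l + 1) (V (p2 L) n) (V (q2 L N) n) = P) (v1 v2 : ℝ[X]) :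
    qg L A P N (n + 1) l (X * v1 + C (1 / 2 / n * L v1)) (X * v2 + C (1 / 2 / l * L (v1 + v2)))
      ≤ qg L A P N n (l + 1) v1 v2 := by
  obtain ⟨σ, a, g, s⟩ := h.exSc hn
  obtain ⟨T, hT⟩ : ∃ T, T = S (c2 L N) l := ⟨_, rfl⟩
  obtain ⟨U, hU⟩ : ∃ U, U = S (c2 L N) (l + 1) := ⟨_, rfl⟩
  obtain ⟨b, hb⟩ : ∃ b : ℝ, b = 1 / N := ⟨_, rfl⟩
  obtain ⟨K1, h1⟩ : ∃ K, K = 400 * L (X ^ (n + 1)) * (2 * l / N) := ⟨_, rfl⟩
  obtain ⟨K2, h2⟩ : ∃ K, K = L (X ^ (n + 1)) * nu N (n + 1) l := ⟨_, rfl⟩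
  obtain ⟨⟨a1, a2, -⟩, ⟨a3, a4⟩, -⟩ := h.bk s hl hnl hT hU
  obtain ⟨⟨b0, -, b2, b3⟩, ⟨k1, k2, k3, k4⟩, w1, w2⟩ := h.wt s hl hnl hT hU hb h1 h2
  have σ0 := s.σ0
  have a0 := s.a0
  have l0 : (0 : ℝ) < l := by exact_mod_cast (by omega : 0 < l)
  have K10 : 0 ≤ K1 := le_trans (by positivity) k1
  have K20 : 0 ≤ K2 := nonneg_of_mul_nonneg_right (by linarith [mul_pos (pow_pos σ0 2) a0]) b0
  rw [qg, qg, lf_step L _ _ (by omega) hl, ← hT, ← hU, ← h1, ← h2]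
  obtain ⟨t, ht⟩ : ∃ t, t = lf L (1 / 2) (1 / 2) N (l + 1) v1 v2 / P := ⟨_, rfl⟩
  rw [← ht]
  obtain ⟨x1, hx1⟩ : ∃ x, x = v1 - C t * V (p2 L) n := ⟨_, rfl⟩
  obtain ⟨x2, hx2⟩ : ∃ x, x = v2 - C t * V (q2 L N) n := ⟨_, rfl⟩
  have l1 : L x1 = L v1 - t * L (V (p2 L) n) := by rw [hx1, map_sub, L_C_mul]
  have l2 : L x2 = L v2 - t * L (V (q2 L N) n) := by rw [hx2, map_sub, L_C_mul]
  have e1' : X * v1 + C (1 / 2 / n * L v1) - C t * V (p2 L) (n + 1) = X * x1 + C (a / 2 * L x1) := by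
    rw [show a / 2 = 1 / 2 / n by rw [s.ha]; ring, V, p2, pp_eq' L _ hn, l1, hx1]
    simp only [map_mul, map_sub]
    ring
  have e2' : X * v2 + C (1 / 2 / l * L (v1 + v2)) - C t * V (q2 L N) (n + 1)
      = X * x2 + C (1 / 2 / l * L (x1 + x2)) := by
    rw [V, q2, qq_eq' L _ _ hl, map_add L x1, l1, l2, hx2]
    simp only [map_mul, map_sub, map_add]
    ring
  have z : L (V (c2 L N) (l + 1) * x1) + L (V (p2 L) (l + 1) * x2) = 0 := by
    rw [hx1, hx2, L_sub, L_sub]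
    rw [eq_div_iff P0] at ht
    unfold lf at ht hu
    linear_combination -ht - t * hu
  have U0 : 0 < U := by linarith
  have f0 := h.mo.psd.two a4 a3 (x := x1) (y := x2)
  rw [show L ((V (c2 L N) (l + 1) - C U * X ^ (n - n / 4)) * x1) + L (V (p2 L) (l + 1) * x2)
      = -(U * L (X ^ (n - n / 4) * x1)) by rw [sub_mul, map_sub, mul_assoc, L_C_mul]; linarith,
    abs_neg, abs_mul, abs_of_pos U0] at f0
  have f1 := h.ph1 s (show n + 1 ≤ N by omega) (x := x1) (y := nr L x2)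
    (le_of_mul_le_mul_left (by linarith) U0)
  have f2 := sq3 (r := a) (x := (1 + 2 / l) * nr L x2) (y := 2 * b * nr (Lam L A n) x1) (z := 0)
    a0 s.a1 (nr_nonneg _ _) ((h.mo.phase2 x1 x2 (a := 1 / 2 / l) (by positivity)).trans (by
      rw [show (2 / l : ℝ) = 2 * (1 / l) by ring, show (1 / 2 / l : ℝ) = 1 / 2 * (1 / l) by ring]
      linarith [mul_le_mul b2 (h.nL n x1) (nr_nonneg L x1) (by positivity),
        mul_nonneg (one_div_pos.2 l0).le (nr_nonneg L x2)]))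
  rw [e1', e2', ← hx1, ← hx2]
  generalize nr (Lam L A (n + 1)) (X * x1 + C (a / 2 * L x1)) = y1 at *
  generalize nr L (X * x2 + C (1 / 2 / l * L (x1 + x2))) = y2 at *
  generalize nr (Lam L A n) x1 = z1 at *
  generalize nr L x2 = z2 at *
  have j2 : K2 * (6 / a * (2 * b) ^ 2) ≤ K1 * b := by
    rw [show K2 * (6 / a * (2 * b) ^ 2) = 24 * (b * K2 * b) / a by ring, div_le_iff₀ a0]
    linarith [mul_le_mul_of_nonneg_right k4 b0.le, mul_le_mul_of_nonneg_right k1 (mul_pos a0 b0).le,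
      show 0 ≤ σ ^ 2 * a * b by positivity]
  have j3 : K1 * (36 * (σ ^ 2 * a)) ≤ K2 * (a / 2 * (1 + 2 / l) ^ 2) := by
    have y1 : (1 : ℝ) ≤ (1 + 2 / l) ^ 2 := one_le_pow₀ (le_add_of_nonneg_right (by positivity))
    have y2 : 57600 * (σ ^ 2 * σ ^ 2) ≤ K2 := le_of_mul_le_mul_left (by
      linarith [mul_le_mul_of_nonneg_left b3 (sq_nonneg σ), show 0 ≤ σ ^ 2 * a by positivity]) b0
    linarith [mul_le_mul_of_nonneg_left y1 (mul_nonneg K20 a0.le),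
      mul_le_mul_of_nonneg_right y2 a0.le,
      mul_le_mul_of_nonneg_right k2 (show 0 ≤ σ ^ 2 * a by positivity)]
  have j4 : K1 * y1 ^ 2 + K2 * y2 ^ 2
      ≤ (1 + σ ^ 2 * a / 2 + b) * K1 * z1 ^ 2 + (1 + a) * (1 + 2 / l) ^ 2 * K2 * z2 ^ 2 := by
    linarith [mul_le_mul_of_nonneg_left f1 K10, mul_le_mul_of_nonneg_left f2 K20,
      mul_le_mul_of_nonneg_right j2 (sq_nonneg z1), mul_le_mul_of_nonneg_right j3 (sq_nonneg z2),
      show 0 ≤ σ ^ 2 * a * K1 * z1 ^ 2 by positivity]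
  linarith [mul_le_mul_of_nonneg_left j4 (sq_nonneg T), mul_le_mul_of_nonneg_right w1 (sq_nonneg z1),
    mul_le_mul_of_nonneg_right w2 (sq_nonneg z2)]

theorem Mt.mid (h : Mt L A B N ρ) {P : ℝ} {M K : ℕ} (hM : M + K = N + 1) (MK : M ≤ K)
    (M2 : N ≤ 2 * M) (P0 : 0 < P)
    (hu : lf L (1 / 2) (1 / 2) N K (V (p2 L) M) (V (q2 L N) M) = P) (v1 v2 z1 z2 : ℝ[X]) :
    2 * P * (L (v1 * z1) + L (v1 * z2) + L (v2 * z1))
      ≤ qg L A P N M K v1 v2 + qg L A P N K M z1 z2 := by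
  have big := h.big
  have ν : ∀ M K : ℕ, M + K = N + 1 → 1 ≤ M → 1 ≤ K → N ≤ 2 * K → 1 ≤ nu N M K ∧
      (1 : ℝ) ≤ 2 * K / N := fun M K h1 h2 h3 h4 =>
    have u : (1 : ℝ) ≤ 2 * K / N :=
      (one_le_div (by exact_mod_cast (by omega : 0 < N))).2 (by exact_mod_cast h4)
    ⟨one_le_mul_of_one_le_of_one_le
      ((one_le_div (by exact_mod_cast h2)).2 (by exact_mod_cast (by omega : M ≤ N))) (one_le_pow₀ u), u⟩
  obtain ⟨ν1, μ1⟩ := ν M K hM (by omega) (by omega) (by omega)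
  obtain ⟨ν2, μ2⟩ := ν K M (by omega) (by omega) (by omega) M2
  obtain ⟨k, rfl⟩ : ∃ k, K = k + 1 := ⟨K - 1, by omega⟩
  have b1 := LV_le (l := M) h.p0 fun j _ =>
    h.Vc (n := k) (l := k) (by omega) le_rfl (by omega) (Nat.le_succ k) le_rfl j
  have b2 := LV_le (l := M) h.q0 fun j _ =>
    h.Vp (n := k) (l := k) (by omega) le_rfl (by omega) (Nat.le_succ k) le_rfl j
  have β0 := h.mo.pos (k + 1)
  have β1 := h.mo.le MK
  have b3 := mul_le_mul_of_nonneg_right (mul_le_mul_of_nonneg_left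
    (h.mo.Sle (N := N) hf0 hf0 (k + 1)).1 β0) (S_nonneg h.q0 M)
  have T0 := S_nonneg h.c0 (k + 1)
  have T0' := S_nonneg h.c0 M
  have b4 : P ≤ 3 * (L (X ^ (k + 1)) * (S (c2 L N) (k + 1) * S (c2 L N) M)) := by
    rw [S_pq L _ _ N M, ← hu, lf]
    linarith
  unfold qg
  obtain ⟨t, ht⟩ : ∃ t, t = lf L (1 / 2) (1 / 2) N (k + 1) v1 v2 := ⟨_, rfl⟩
  obtain ⟨s, hs⟩ : ∃ s, s = lf L (1 / 2) (1 / 2) N M z1 z2 := ⟨_, rfl⟩
  rw [← ht, ← hs]
  rw [lf, V_pq, add_mul, map_add] at ht hs hu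
  simp only [p2, q2] at ht hs hu ⊢
  generalize V (pp L (1 / 2)) M = u1 at *
  generalize V (qq L (1 / 2) (1 / 2) N) M = u2 at *
  generalize V (pp L (1 / 2)) (k + 1) = w1 at *
  generalize V (qq L (1 / 2) (1 / 2) N) (k + 1) = w2 at *
  have ex : ∀ (v u z w : ℝ[X]), L ((v - C (t / P) * u) * (z - C (s / P) * w))
      = L (v * z) - s / P * L (w * v) - t / P * L (u * z) + t / P * (s / P * L (w * u)) := by
    intro v u z w
    rw [← L_C_mul, ← L_C_mul, ← L_C_mul, ← L_C_mul, ← map_sub, ← map_sub, ← map_add]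
    congr 1
    ring
  have a1 := (le_abs_self _).trans (h.mo.psd.cs (v1 - C (t / P) * u1) (z1 - C (s / P) * w1))
  have a2 := (le_abs_self _).trans (h.mo.psd.cs (v1 - C (t / P) * u1) (z2 - C (s / P) * w2))
  have a3 := (le_abs_self _).trans (h.mo.psd.cs (v2 - C (t / P) * u2) (z1 - C (s / P) * w1))
  rw [ex] at a1 a2 a3
  have x1 := nr_nonneg L (v1 - C (t / P) * u1)
  have x2 := nr_nonneg L (v2 - C (t / P) * u2)
  have y1 := nr_nonneg L (z1 - C (s / P) * w1)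
  have y2 := nr_nonneg L (z2 - C (s / P) * w2)
  have x3 := pow_le_pow_left₀ (mul_nonneg T0 x1)
    (mul_le_mul_of_nonneg_left (h.nL M (v1 - C (t / P) * u1)) T0) 2
  have y3 := pow_le_pow_left₀ (mul_nonneg T0' y1)
    (mul_le_mul_of_nonneg_left (h.nL (k + 1) (z1 - C (s / P) * w1)) T0') 2
  have x4 := mul_le_mul (β1.trans (le_mul_of_one_le_right (β0.trans β1) μ1)) x3 (sq_nonneg _)
    (mul_nonneg (β0.trans β1) (zero_le_one.trans μ1))
  have y4 := mul_le_mul (le_mul_of_one_le_right β0 μ2) y3 (sq_nonneg _)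
    (mul_nonneg β0 (zero_le_one.trans μ2))
  have x5 := mul_le_mul_of_nonneg_right (β1.trans (le_mul_of_one_le_right (β0.trans β1) ν1))
    (sq_nonneg (S (c2 L N) (k + 1) * nr L (v2 - C (t / P) * u2)))
  have y5 := mul_le_mul_of_nonneg_right (le_mul_of_one_le_right β0 ν2)
    (sq_nonneg (S (c2 L N) M * nr L (z2 - C (s / P) * w2)))
  generalize nr L (v1 - C (t / P) * u1) = X1 at *
  generalize nr L (v2 - C (t / P) * u2) = X2 at *
  generalize nr L (z1 - C (s / P) * w1) = Y1 at *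
  generalize nr L (z2 - C (s / P) * w2) = Y2 at *
  generalize S (c2 L N) (k + 1) = T at *
  generalize S (c2 L N) M = T' at *
  have a4 : L (v1 * z1) + L (v1 * z2) + L (v2 * z1) ≤ t / P * s + (X1 * Y1 + X1 * Y2 + X2 * Y1) := by
    have e1 : s / P * t = t / P * s := by ring
    have e2 : t / P * (s / P * P) = t / P * s := by rw [div_mul_cancel₀ _ P0.ne']
    have e3 : s / P * t = s / P * (L (w1 * v1) + L (w2 * v1) + L (w1 * v2)) := by rw [← ht]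
    have e4 : t / P * s = t / P * (L (u1 * z1) + L (u2 * z1) + L (u1 * z2)) := by rw [← hs]
    have e5 : t / P * (s / P * P)
      = t / P * (s / P * (L (w1 * u1) + L (w2 * u1) + L (w1 * u2))) := by rw [hu]
    linarith
  have a5 := mul_le_mul_of_nonneg_left a4 P0.le
  have a6 : P * (t / P * s) = t * s := by field_simp
  have a7 := mul_le_mul_of_nonneg_right b4 (show 0 ≤ X1 * Y1 + X1 * Y2 + X2 * Y1 by positivity)
  linarith [sq_nonneg (t - s), mul_nonneg β0 (sq_nonneg (T * X1 - T' * Y1)),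
    mul_nonneg β0 (sq_nonneg (3 * (T * X1) - T' * Y2)),
    mul_nonneg β0 (sq_nonneg (T * X2 - 3 * (T' * Y1))), mul_nonneg β0 (sq_nonneg (T * X1)),
    mul_nonneg β0 (sq_nonneg (T' * Y1))]

end Pool.Agent.P.MP_bdc337_an.KR
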