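import Pool.Agent.P.MP_bdc337_an.KR.T

/-! The two sided scheme with local scales. -/

set_option autoImplicit false

open Finset PowerSeries
open scoped Polynomial

namespace Pool.Agent.P.MP_bdc337_an.KR

variable {L A B : ℝ[X] →ₗ[ℝ] ℝ} {N : ℕ} {ρ : ℝ} {w H F P Y : ℂ⟦X⟧}

lemma Mt.isQ (h : Mt L A B N ρ) (c : ℝ) (n r : ℕ) :
    IsQ fun v : ℝ[X] × ℝ[X] => qg L A c N n r v.1 v.2 := by
  have l : IsLinearMap ℝ fun v : ℝ[X] × ℝ[X] => lf L (1 / 2) (1 / 2) N r v.1 v.2 :=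
    ⟨fun x y => by simp only [lf, Prod.fst_add, Prod.snd_add, mul_add, map_add]; ring,
      fun a x => by simp [lf, mul_add]⟩
  have m : ∀ (f : ℝ[X] × ℝ[X] →ₗ[ℝ] ℝ[X]) (u : ℝ[X]), IsLinearMap ℝ fun v : ℝ[X] × ℝ[X] =>
      f v - Polynomial.C (lf L (1 / 2) (1 / 2) N r v.1 v.2 / c) * u := fun f u =>
    ⟨fun x y => by rw [l.map_add, add_div, map_add, map_add]; ring, fun a x => by
      rw [l.map_smul, map_smul, smul_eq_mul, mul_div_assoc, map_mul, Polynomial.smul_eq_C_mul,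
        Polynomial.smul_eq_C_mul]
      ring⟩
  obtain ⟨Q, hQ⟩ := ((IsQ.lin LinearMap.id l).add ((IsQ.lin (Lam L A n) (m (LinearMap.fst ℝ _ _)
    (V (p2 L) n))).mul (400 * L (Polynomial.X ^ n) * (2 * r / N) * S (c2 L N) r ^ 2))).add
    ((IsQ.lin L (m (LinearMap.snd ℝ _ _) (V (q2 L N) n))).mul
      (L (Polynomial.X ^ n) * nu N n r * S (c2 L N) r ^ 2))
  refine ⟨Q, fun x => ?_⟩
  rw [← hQ]
  simp only [qg, mul_pow, h.mo.psd.sq, (h.psL n).sq, LinearMap.id_coe, id, LinearMap.fst_apply,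
    LinearMap.snd_apply]
  ring

lemma Mt.half (h : Mt L A B N ρ) (hw : Contr w) (he : Exp L w H)
    (H0 : coeff 0 H = 0) (g : Sys H P Y (1 / 2) (1 / 2) N) {c : ℝ} (c0 : c ≠ 0)
    (hc : L (V (c2 L N) N) = c) {M K : ℕ} (hM : 1 ≤ M) (hK : M + K = N + 1)
    (hM2 : 2 * M ≤ N + 2) :
    HH w (fun v : ℝ[X] × ℝ[X] => qg L A c N M K v.1 v.2) (bas (N + 1))
      (fam w P Y (N + 1)) M ≤ c ^ 2 := by
  have big := h.big
  have u : ∀ n l, 1 ≤ n → l + n = N →
      lf L (1 / 2) (1 / 2) N (l + 1) (V (p2 L) n) (V (q2 L N) n) = c :=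
    fun n l h1 h2 => (lf_u L _ _ l n h1 (by omega)).trans hc
  have key := chain hw (fun n (v : ℝ[X] × ℝ[X]) => qg L A c N n (N + 1 - n) v.1 v.2)
    (fun n => h.isQ _ _ _) (bas (N + 1)) (fam w P Y (N + 1)) M hM
    (fun n h1 h2 x => by
      obtain ⟨l, hl⟩ : ∃ l, l + 1 + n = N := ⟨N - n - 1, by omega⟩
      rw [show N + 1 - (n + 1) = l + 1 by omega, show N + 1 - n = l + 1 + 1 by omega]
      exact h.stA h1 hl (by omega) (u n _ h1 hl) (u (n + 1) l (by omega) (by omega)) _ _)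
    (fun n h1 h2 ρ => by
      obtain ⟨l, hl⟩ : ∃ l, l + n = N := ⟨N - n, by omega⟩
      rw [show N + 1 - (n + 1) = l by omega, show N + 1 - n = l + 1 by omega, g.sv he hw.1 ρ h1 hl,
        sv_out]
      exact h.stB h1 hl (by omega) c0 (u n l h1 hl) _ _)
  rw [show N + 1 - M = K by omega] at key
  refine key.trans (le_of_eq ?_)
  have z := (h.isQ c 1 N).zero
  have u1 := u 1 (N - 1) le_rfl (by omega)
  have v1 : V (p2 L) 1 = 1 := by simp [V, pp_zero]
  have v2 : V (q2 L N) 1 = 0 := by rw [V, V, q2_zero, mul_zero, zero_add, map_zero]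
  rw [v1, v2, show N - 1 + 1 = N by omega] at u1
  simp only [HH, QE, range_one, sum_singleton, (g.sv0 H0 hw.1).1, (g.sv0 H0 hw.1).2, sv_out,
    st_zero hw.1, Nat.add_sub_cancel, Prod.fst_zero, Prod.snd_zero] at z ⊢
  rw [z, qg, u1, v1, v2, div_self c0]
  simp [nr_zero]

theorem Mt.core (h : Mt L A B N ρ) (hw : Contr w) (he : Exp L w H) (F0 : coeff 0 F = 1)
    (hF : ∀ n : ℕ, n * coeff n F = coeff n (H * F)) :
    ‖coeff N F‖ ≤ Kc (fun j => L (Polynomial.X ^ j)) N := by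
  have big := h.big
  have H0 : coeff 0 H = 0 := by simpa using he 1 0
  obtain ⟨P, Y, g⟩ := exists_sys H0 (1 / 2) (1 / 2) N
  obtain ⟨c, hc⟩ : ∃ c, c = N * Kc (fun j => L (Polynomial.X ^ j)) N := ⟨_, rfl⟩
  have a1 := (pair_eq L (add_halves 1) (by norm_num) N).trans hc.symm
  have c0 : 0 < c := by
    have b1 := (h.mo.LV h.c0 (l := N) (k := 0) le_rfl).1
    have b2 := (h.mo.S1 hf0 (show 1 ≤ N by omega)).trans (h.mo.Sle (N := N) hf0 hf0 N).1
    rw [pow_zero, mul_one, a1] at b1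
    exact lt_of_lt_of_le (mul_pos (h.bpos N) (by linarith)) b1
  obtain ⟨D, hB⟩ : ∃ D : (ℝ[X] × ℝ[X]) →ₗ[ℝ] (ℝ[X] × ℝ[X]) →ₗ[ℝ] ℝ, ∀ v z,
      D v z = L (v.1 * z.1) + L (v.1 * z.2) + L (v.2 * z.1) :=
    ⟨LinearMap.mk₂ ℝ (fun v z => L (v.1 * z.1) + L (v.1 * z.2) + L (v.2 * z.1))
      (fun _ _ _ => by simp only [Prod.fst_add, Prod.snd_add, add_mul, map_add]; ring)
      (fun _ _ _ => by simp [mul_add])
      (fun _ _ _ => by simp only [Prod.fst_add, Prod.snd_add, mul_add, map_add]; ring)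
      (fun _ _ _ => by simp [mul_add]), fun _ _ => rfl⟩
  have m := mmE hw (N := N) (M := (N + 1) / 2) (L := N / 2 + 1) (by omega) (by omega) (by omega)
    (h.isQ c ((N + 1) / 2) (N / 2 + 1)) (h.isQ c (N / 2 + 1) ((N + 1) / 2)) D c
    (fun x y => by
      rw [hB]
      exact h.mid (by omega) (by omega) (by omega) c0
        ((lf_u L _ _ (N / 2) _ (by omega) (by omega)).trans a1) _ _ _ _)
    (bas (N + 1)) (fam w P Y (N + 1)) (fam w P Y (N + 1))
  have b1 := h.half hw he H0 g c0.ne' a1 (M := (N + 1) / 2) (K := N / 2 + 1) (by omega)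
    (by omega) (by omega)
  have b2 := h.half hw he H0 g c0.ne' a1 (M := N / 2 + 1) (K := (N + 1) / 2) (by omega)
    (by omega) (by omega)
  rw [cross hw.1 D _ _ _ (fun M K h1 h2 h3 ρ τ => by
      rw [g.sv he hw.1 ρ h1 (show K + M = N by omega), g.sv he hw.1 τ h2 h3, sv_out, sv_out, hB, hB]
      simp only []
      rw [L_step, L_step, L_step]
      simp only [add_mul, map_add, L_C_mul]
      ring) _ _ (by omega) (by omega), bil_ext, (g.sv0 H0 hw.1).1, (g.sv0 H0 hw.1).2, sv_out,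
    sv_out, hB, hB, hB, hB] at m
  simp only [mul_one, mul_zero, map_zero, add_zero, Prod.fst_zero, Prod.snd_zero, sub_zero,
    zero_add, he.L_st hw.1 _ _ (Nat.le_succ N), Complex.reLm_coe, Complex.imLm_coe,
    show ∀ a b : ℂ, (⟨a.re + b.re, a.im + b.im⟩ : ℂ) = a + b from fun _ _ => rfl] at m
  rw [← map_add, ← mul_add, g.id g H0 (add_halves 1) (by norm_num) F0 hF, norm_mul, norm_mul,
    Complex.norm_real, Complex.norm_natCast, Real.norm_of_nonneg c0.le] at m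
  have N0 : (0 : ℝ) < N := by exact_mod_cast (by omega : 0 < N)
  refine le_of_mul_le_mul_left (le_of_mul_le_mul_left ?_ c0) N0
  rw [← hc]
  linarith

end Pool.Agent.P.MP_bdc337_an.KR
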