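import Pool.Agent.P.MP_bdc337_an.KR.U

/-! The split moment functional of the sector map and the sharp order of the range. -/

set_option autoImplicit false

open Finset Polynomial MeasureTheory

namespace Pool.Agent.P.MP_bdc337_an.KR

variable {a : ℝ}

lemma exists_split (h0 : 0 < a) (h1 : a < 1) : ∃ A B : ℝ[X] →ₗ[ℝ] ℝ,
    (∀ k, (A + B) (X ^ k) = bs a k) ∧ (∀ p : ℝ[X], (∀ x, 0 ≤ x → x ≤ 1 → 0 ≤ p.eval x) → 0 ≤ A p) ∧
      ∀ p : ℝ[X], (∀ x, -1 ≤ x → x ≤ 0 → 0 ≤ p.eval x) → 0 ≤ B p := by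
  obtain ⟨r, hr⟩ : ∃ r : ℝ → ℝ, ∀ s, r s = (1 + s) ^ a * (1 - s) ^ (-a) := ⟨_, fun _ => rfl⟩
  have ri : IntervalIntegrable r volume (-1) 1 := by
    have b1 := (intervalIntegral.intervalIntegrable_rpow' (a := 2) (b := 0)
      (show -1 < -a by linarith)).comp_sub_left 1
    rw [show (1 : ℝ) - 2 = -1 by norm_num, sub_zero] at b1
    rw [funext hr]
    exact b1.continuousOn_mul ((continuous_const.add continuous_id).rpow_const
      fun _ => Or.inr h0.le).continuousOn
  have pi : ∀ p : ℝ[X], IntervalIntegrable (fun s => p.eval s * r s) volume (-1) 1 :=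
    fun p => ri.continuousOn_mul p.continuous.continuousOn
  have r0 : ∀ s ∈ Set.Ioo (-1 : ℝ) 1, 0 < r s := fun s hs => by
    rw [hr]
    exact mul_pos (Real.rpow_pos_of_pos (by linarith [hs.1]) _)
      (Real.rpow_pos_of_pos (by linarith [hs.2]) _)
  have J : ∀ u v : ℝ, -1 ≤ u → u ≤ v → v ≤ 1 → ∃ I : ℝ[X] →ₗ[ℝ] ℝ,
      (∀ p, I p = ∫ s in u..v, p.eval s * r s) ∧
        (∀ p : ℝ[X], IntervalIntegrable (fun s => p.eval s * r s) volume u v) ∧
        ∀ p : ℝ[X], (∀ s, u ≤ s → s ≤ v → 0 ≤ p.eval s) → 0 ≤ I p := fun u v h1 h2 h3 => by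
    have pj : ∀ p : ℝ[X], IntervalIntegrable (fun s => p.eval s * r s) volume u v := fun p =>
      (pi p).mono_set (Set.uIcc_subset_uIcc (Set.mem_uIcc_of_le h1 (h2.trans h3))
        (Set.mem_uIcc_of_le (h1.trans h2) h3))
    refine ⟨{ toFun := fun p => ∫ s in u..v, p.eval s * r s
              map_add' := fun p q => by
                simp only [eval_add, add_mul]
                exact intervalIntegral.integral_add (pj p) (pj q)
              map_smul' := fun c p => by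
                simp only [eval_smul, smul_eq_mul, mul_assoc, RingHom.id_apply]
                exact intervalIntegral.integral_const_mul _ _ }, fun _ => rfl, pj, fun p hp => ?_⟩
    refine intervalIntegral.integral_nonneg h2 fun s hs => mul_nonneg (hp s hs.1 hs.2) ?_
    rw [hr]
    exact mul_nonneg (Real.rpow_nonneg (by linarith [hs.1]) _)
      (Real.rpow_nonneg (by linarith [hs.2]) _)
  obtain ⟨IA, a1, a2, a3⟩ := J 0 1 (by norm_num) zero_le_one le_rfl
  obtain ⟨IB, b1', b2', b3'⟩ := J (-1) 0 le_rfl (by norm_num) zero_le_one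
  obtain ⟨I, hJ⟩ : ∃ I, I = IA + IB := ⟨_, rfl⟩
  have hI : ∀ p, I p = ∫ s in (-1 : ℝ)..1, p.eval s * r s := fun p => by
    rw [hJ, LinearMap.add_apply, a1, b1', add_comm]
    exact intervalIntegral.integral_add_adjacent_intervals (b2' p) (a2 p)
  have I1 : 0 < I 1 := by
    rw [hI]
    exact intervalIntegral.intervalIntegral_pos_of_pos_on (pi 1)
      (fun s hs => by rw [eval_one, one_mul]; exact r0 s hs) (by norm_num)
  have ftc : ∀ p : ℝ[X], I ((C (2 * a) - C 2 * X) * p + (1 - X ^ 2) * derivative p) = 0 := by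
    intro p
    have := intervalIntegral.integral_eq_sub_of_hasDerivAt_of_le (a := -1) (b := 1)
      (f := fun s => (1 + s) ^ (a + 1) * (1 - s) ^ (-a + 1) * p.eval s) (by norm_num)
      ((((continuous_const.add continuous_id).rpow_const fun _ => Or.inr (by linarith)).mul
        ((continuous_const.sub continuous_id).rpow_const fun _ => Or.inr (by linarith))).mul
          p.continuous).continuousOn (fun s hs => ?_)
      (pi ((C (2 * a) - C 2 * X) * p + (1 - X ^ 2) * derivative p))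
    · rw [hI, this]
      simp [Real.zero_rpow (show a + 1 ≠ 0 by linarith),
        Real.zero_rpow (show -a + 1 ≠ 0 by linarith)]
    · have s1 : 1 + s ≠ 0 := by linarith [hs.1]
      have s2 : 1 - s ≠ 0 := by linarith [hs.2]
      have l1 := ((hasDerivAt_id' s).const_add 1).rpow_const (p := a + 1) (Or.inl s1)
      have l2 := ((hasDerivAt_id' s).const_sub 1).rpow_const (p := -a + 1) (Or.inl s2)
      refine ((l1.fun_mul l2).fun_mul (p.hasDerivAt s)).congr_deriv ?_
      rw [add_sub_cancel_right, add_sub_cancel_right, Real.rpow_add_one s1, Real.rpow_add_one s2, hr]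
      simp only [eval_add, eval_mul, eval_sub, eval_C, eval_X, eval_one, eval_pow]
      ring
  have mo : ∀ k, 2 * a / I 1 * I (X ^ k) = bs a k ∧ 2 * a / I 1 * I (X ^ (k + 1)) = bs a (k + 1) := by
    intro k
    induction k with
    | zero =>
      have b1 := ftc 1
      have b2 := bs_id0 a
      have b3 : 2 * a / I 1 * I 1 = 2 * a := div_mul_cancel₀ _ I1.ne'
      rw [derivative_one, mul_zero, add_zero, sub_mul, map_sub, mul_assoc, L_C_mul, L_C_mul,
        mul_one] at b1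
      rw [pow_zero, zero_add, pow_one, bs_zero] at *
      exact ⟨b3, by linear_combination -(2 * a / I 1) / 2 * b1 + a * b3 + b2 / 2⟩
    | succ k ih =>
      refine ⟨ih.2, mul_left_cancel₀ (show (k : ℝ) + 3 ≠ 0 by positivity) ?_⟩
      have b1 := ftc (X ^ (k + 1))
      have b2 : (C (2 * a) - C 2 * X) * X ^ (k + 1) + (1 - X ^ 2) * derivative (X ^ (k + 1) : ℝ[X])
          = C (2 * a) * X ^ (k + 1) - C 2 * X ^ (k + 1 + 1) + C ((k : ℝ) + 1) * X ^ k
            - C ((k : ℝ) + 1) * X ^ (k + 1 + 1) := by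
        rw [derivative_X_pow_succ]
        ring
      rw [b2, map_sub, map_add, map_sub, L_C_mul, L_C_mul, L_C_mul, L_C_mul] at b1
      linear_combination -(2 * a / I 1) * b1 + 2 * a * ih.2 + (k + 1) * ih.1 + bs_id a k
  have c0 : 0 ≤ 2 * a / I 1 := by positivity
  refine ⟨(2 * a / I 1) • IA, (2 * a / I 1) • IB, fun k => ?_, fun p hp => mul_nonneg c0 (a3 p hp),
    fun p hp => mul_nonneg c0 (b3' p hp)⟩
  rw [← smul_add, ← hJ]
  exact (mo k).1

lemma bs_low2 (h0 : 1 / 2 ≤ a) (h1 : a ≤ 1) (k : ℕ) :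
    ((k : ℝ) + 2) ^ a ≤ 3 * ((k + 1) * bs a k) ∧
      ((k : ℝ) + 3) ^ a ≤ 3 * ((k + 2) * bs a (k + 1)) := by
  induction k with
  | zero =>
    have b1 := Real.rpow_le_rpow_of_exponent_le one_le_two h1
    have b2 := Real.rpow_le_rpow_of_exponent_le (show (1 : ℝ) ≤ 3 by norm_num) h1
    have b3 := bs_id0 a
    rw [Real.rpow_one] at b1 b2
    rw [bs_zero] at b3
    rw [bs_zero, Nat.cast_zero, zero_add, zero_add, zero_add, zero_add]
    exact ⟨by linarith, by nlinarith⟩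
  | succ k ih =>
    obtain ⟨i1, i2⟩ := ih
    push_cast
    refine ⟨by rwa [add_assoc, add_assoc, one_add_one_eq_two, show (1 : ℝ) + 2 = 3 by norm_num], ?_⟩
    have k0 : (0 : ℝ) < k + 2 := by positivity
    have b1 := rpow_one_add_le_one_add_mul_self (s := 2 / ((k : ℝ) + 2))
      (le_trans (by norm_num) (by positivity : 0 ≤ 2 / ((k : ℝ) + 2))) (by linarith) h1
    have b2 : ((k : ℝ) + 1 + 3) ^ a = ((k : ℝ) + 2) ^ a * (1 + 2 / ((k : ℝ) + 2)) ^ a := by
      rw [← Real.mul_rpow k0.le (by positivity)]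
      congr 1
      field_simp
      ring
    have b3 : ((k : ℝ) + 2) ^ a ≤ ((k : ℝ) + 3) ^ a :=
      Real.rpow_le_rpow k0.le (by linarith) (by linarith)
    have b4 : ((k : ℝ) + 2) ^ a * (a * (2 / (k + 2))) ≤ 6 * a * bs a (k + 1) := by
      rw [← mul_div_assoc, ← mul_div_assoc, div_le_iff₀ k0]
      linarith [mul_le_mul_of_nonneg_left (b3.trans i2) (show 0 ≤ a by linarith)]
    rw [b2]
    linarith [mul_le_mul_of_nonneg_left b1 (Real.rpow_nonneg k0.le a), bs_id a k]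

lemma zf_le2 (h0 : 1 / 2 ≤ a) (h1 : a < 1) (k : ℕ) :
    |zf a k| ≤ 12 * (1 - a) * ((k : ℝ) + 2) ^ (1 - a) ∧
      |zf a (k + 1)| ≤ 12 * (1 - a) * ((k : ℝ) + 3) ^ (1 - a) := by
  have e0 : 0 ≤ 1 - a := by linarith
  induction k with
  | zero =>
    have b0 := bs_d h0 h1.le 0
    have b1 := bs_d h0 h1.le 1
    have b2 := bs_d h0 h1.le 2
    have b3 := mul_le_mul_of_nonneg_left
      (Real.one_le_rpow (show (1 : ℝ) ≤ (0 : ℕ) + 2 by norm_num) e0) e0
    have b4 := mul_le_mul_of_nonneg_left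
      (Real.one_le_rpow (show (1 : ℝ) ≤ (0 : ℕ) + 3 by norm_num) e0) e0
    simp only [zf, abs_le]
    norm_num at b0 b1 b2 b3 b4 ⊢
    refine ⟨⟨?_, ?_⟩, ?_, ?_⟩ <;> linarith [b0.1, b0.2, b1.1, b1.2, b2.1, b2.2]
  | succ k ih =>
    obtain ⟨i1, i2⟩ := ih
    have k0 : (0 : ℝ) < k + 3 := by positivity
    have k1 : 1 / ((k : ℝ) + 3) < 1 := (div_lt_one k0).2 (by linarith [Nat.cast_nonneg (α := ℝ) k])
    have b1 := mul_le_mul_of_nonneg_left (odd_pow (a := 1 - a) (by linarith) (by linarith)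
      (by positivity) k1) (Real.rpow_nonneg k0.le (1 - a))
    rw [mul_sub ((_ : ℝ) ^ _), ← Real.mul_rpow k0.le (by positivity), ← Real.mul_rpow k0.le (by linarith),
      show ((k : ℝ) + 3) * (1 + 1 / (k + 3)) = k + 1 + 3 by field_simp; ring,
      show ((k : ℝ) + 3) * (1 - 1 / (k + 3)) = k + 2 by field_simp; ring] at b1
    have b2 : zf a (k + 1 + 1) = zf a k - 2 * (1 - a) * (1 / (k + 3)) * zf a (k + 1) := by
      have c0 := bs_id a k
      have c1 := bs_id a (k + 1)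
      have c2 := bs_id a (k + 1 + 1)
      have c3 : 2 * (1 - a) * (1 / (k + 3)) * zf a (k + 1) = 2 * (1 - a) * ((k + 4) *
          (bs a (k + 1 + 1) - bs a (k + 1 + 2)) - (k + 2) * (bs a (k + 1) - bs a (k + 1 + 1))) := by
        rw [zf]
        push_cast
        field_simp
        ring
      rw [c3, zf, zf]
      push_cast at c1 c2 ⊢
      linear_combination (k + 4) * c2 - 2 * (k + 3) * c1 + (k + 2) * c0
    push_cast
    refine ⟨by rwa [show (k : ℝ) + 1 + 2 = k + 3 by ring], ?_⟩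
    obtain ⟨q, hq⟩ : ∃ q : ℝ, q = 2 * (1 - a) * (1 / (k + 3)) := ⟨_, rfl⟩
    have q0 : 0 ≤ q := by rw [hq]; positivity
    rw [← hq] at b1 b2
    rw [b2]
    refine (abs_sub _ _).trans ?_
    rw [abs_mul, abs_of_nonneg q0]
    linarith [mul_le_mul_of_nonneg_left i2 q0, mul_le_mul_of_nonneg_left b1 e0]

lemma exists_mt (h1 : a < 1) (N : ℕ) (hc : 10 ^ 31 * ((1 - a) * ((N : ℝ) + 1) ^ (1 - a)) ≤ 1)
    (ht : 10 ^ 30 * bs a N ≤ 1) :
    ∃ L A B : ℝ[X] →ₗ[ℝ] ℝ, (∀ k, L (X ^ k) = bs a k) ∧ Mt L A B N √(2 * (1 - a)) := by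
  have e0 : 0 ≤ 1 - a := by linarith
  have N0 : (0 : ℝ) < N + 1 := by positivity
  have y1 : 1 ≤ ((N : ℝ) + 1) ^ (1 - a) :=
    Real.one_le_rpow (by linarith [Nat.cast_nonneg (α := ℝ) N]) e0
  have e1 : 10 ^ 31 * (1 - a) ≤ 1 := by linarith [mul_le_mul_of_nonneg_left y1 e0]
  have h0 : 1 / 2 ≤ a := by linarith
  obtain ⟨A, B, hL, pa, pb⟩ := exists_split (by linarith) h1
  obtain ⟨L, hs⟩ : ∃ L, L = A + B := ⟨_, rfl⟩
  rw [← hs] at hL
  have sm : ∀ p, L p = A p + B p := fun p => by rw [hs, LinearMap.add_apply]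
  have pl : ∀ p : ℝ[X], (∀ x, -1 ≤ x → x ≤ 1 → 0 ≤ p.eval x) → 0 ≤ L p := fun p hp => by
    rw [sm]
    exact add_nonneg (pa p fun x x0 x1 => hp x (by linarith) x1)
      (pb p fun x x0 x1 => hp x x0 (by linarith))
  have ps : Psd L := fun p => pl _ fun x _ _ => by rw [eval_mul]; exact mul_self_nonneg _
  have r2 : √(2 * (1 - a)) ^ 2 = 2 * (1 - a) := Real.sq_sqrt (by linarith)
  have bp : ∀ k, 0 < bs a k := fun k => (bs_step h0 h1.le k).1
  have an : Antitone (bs a) := antitone_nat_of_succ_le fun k => by linarith [(bs_d h0 h1.le k).1]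
  have r1 : 10 ^ 30 * (2 * (1 - a)) ≤ bs a N := by
    have b1 := (Real.rpow_le_rpow N0.le (show (N : ℝ) + 1 ≤ N + 2 by linarith)
      (show 0 ≤ a by linarith)).trans (bs_low2 h0 h1.le N).1
    have b2 := mul_le_mul_of_nonneg_right b1 (zero_le_one.trans y1)
    rw [← Real.rpow_add N0, add_sub_cancel, Real.rpow_one] at b2
    have b3 : 1 ≤ 3 * (bs a N * ((N : ℝ) + 1) ^ (1 - a)) := le_of_mul_le_mul_left (by linarith) N0
    linarith [mul_le_mul_of_nonneg_left b3 e0, mul_le_mul_of_nonneg_left hc (bp N).le, bp N]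
  have d2 : ∀ j : ℕ, ((j : ℝ) + 1) ^ 2 * L (X ^ j) * L ((1 - X) * X ^ j * ((1 - X) * X ^ j))
      ≤ 8 * (2 * (1 - a)) := fun j => by
    have j0 : (0 : ℝ) < j + 1 := by positivity
    have b1 : (1 - X) * X ^ j * ((1 - X) * X ^ j)
        = X ^ (2 * j) - X ^ (2 * j + 1) - (X ^ (2 * j + 1) - X ^ (2 * j + 2) : ℝ[X]) := by ring
    have b2 := ps ((1 - X) * X ^ j)
    have b3 := (abs_le.1 (zf_le2 h0 h1 (2 * j)).1).1
    have b4 := (bs_d h0 h1.le (2 * j)).2
    have b5 : (((2 * j : ℕ) : ℝ) + 2) ^ (1 - a) ≤ 2 * ((j : ℝ) + 1) ^ (1 - a) := by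
      rw [show ((2 * j : ℕ) : ℝ) + 2 = 2 * (j + 1) by push_cast; ring,
        Real.mul_rpow zero_le_two j0.le]
      refine mul_le_mul_of_nonneg_right ?_ (by positivity)
      simpa using Real.rpow_le_rpow_of_exponent_le one_le_two (show 1 - a ≤ 1 by linarith)
    have b6 := mul_le_mul_of_nonneg_left b5 e0
    have b7 : bs a j * ((j : ℝ) + 1) ^ (1 - a) ≤ 2 := by
      have := mul_le_mul_of_nonneg_right (bs_pow (by linarith) h1 j) (Real.rpow_nonneg j0.le (1 - a))
      rw [mul_assoc, ← Real.rpow_add j0, neg_add_cancel, Real.rpow_zero] at this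
      linarith
    rw [b1, map_sub, map_sub, map_sub, hL, hL, hL] at b2 ⊢
    rw [zf] at b3
    rw [hL]
    push_cast at b3 b4 b6
    have b8 : ((j : ℝ) + 1) ^ 2 * (bs a (2 * j) - bs a (2 * j + 1)
        - (bs a (2 * j + 1) - bs a (2 * j + 2))) ≤ (1 - a) * (2 + 6 * ((j : ℝ) + 1) ^ (1 - a)) := by
      linarith [mul_nonneg j0.le b2]
    linarith [mul_le_mul_of_nonneg_left b8 (bp j).le, mul_le_mul_of_nonneg_left b7 e0,
      mul_le_mul_of_nonneg_left ((bs_le h0 h1.le j).trans (show 2 * a ≤ 2 by linarith)) e0]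
  have l1 : L 1 = 2 * a := by rw [← pow_zero X, hL, bs_zero]
  refine ⟨L, A, B, hL, ⟨ps, fun p => ?_, by linarith, fun k hk => ?_, fun k => ?_, fun k => ?_,
    fun k => ?_, fun j hj => ?_, ?_, ?_, zero_le_one, le_rfl⟩, sm, pa, pb, by linarith, fun k => ?_,
    r2.symm ▸ d2, Real.sqrt_nonneg _, ?_, ?_⟩
  · rw [← sub_nonneg, ← map_sub]
    refine pl _ fun s s0 s1 => ?_
    simp only [eval_sub, eval_mul, eval_X]
    linarith [mul_nonneg (mul_nonneg (sub_nonneg.2 s1) (neg_le_iff_add_nonneg'.1 s0))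
      (mul_self_nonneg (p.eval s))]
  · rw [hL, hL]
    exact an hk.le
  · rw [hL]
    exact (bp k).le
  · rw [hL, hL]
    exact an (Nat.le_succ k)
  · rw [hL, hL]
    linarith [(bs_d h0 h1.le k).1, (bs_d h0 h1.le k).2]
  · refine (abs_le_of_sq_le_sq' ?_ zero_le_one).2
    have := d2 j
    rw [hL] at this
    rw [mul_pow, ps.sq]
    exact le_of_mul_le_mul_left (by linarith [an hj]) (bp j)
  · rw [hL]
    exact bp N
  · rw [hL]
    linarith [bp N]
  · rw [hL, hL, r2]
    exact (bs_step h0 h1.le k).2.2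
  · rwa [hL, r2]
  · rwa [hL]

open PowerSeries in
theorem upperT {q H G : ℂ → ℂ} (h : UO.Dat a q H G) (h0 : 0 < a) (h1 : a < 1) {N : ℕ} (hN : 1 ≤ N)
    (hc : (1 - a) * ((N : ℝ) + 1) ^ (1 - a) ≤ 1 / (8 * (10 ^ 15) ^ 30) / (2 * 10 ^ 30) ^ 61) :
    ‖coeff (N + 1) (tay fun z => z * Complex.exp (G z))‖ ≤ Kc (bs a) N := by
  have N0 : (0 : ℝ) < N + 1 := by positivity
  rcases le_total (10 ^ 30 * bs a N) 1 with ht | ht
  · obtain ⟨L, A, B, hL, hm⟩ := exists_mt h1 N ((mul_le_mul_of_nonneg_left (hc.trans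
      (show _ ≤ (1 : ℝ) / 10 ^ 31 from (div_le_self (by positivity) (one_le_pow₀ (by norm_num))).trans
        (one_div_le_one_div_of_le (by positivity) ((show (10 : ℝ) ^ 31 ≤ 8 * (10 ^ 15) ^ 3 by
          norm_num).trans (mul_le_mul_of_nonneg_left (pow_le_pow_right₀ (by norm_num)
            (by norm_num)) (by norm_num)))))) (by positivity)).trans (by norm_num)) ht
    obtain ⟨w, hw, ode⟩ := schwarz h
    have := hm.core (F := tay fun z => Complex.exp (G z)) (H := tay q - 1) hw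
      (fun Z n => by simp only [hL]; exact expand hw.1 (by rw [coeff_zero_tay, h.q0]) ode Z n)
      (by rw [coeff_zero_tay, h.G0, Complex.exp_zero])
      (fun n => by rw [← coeff_X_mul_deriv, h.euler])
    rw [coeff_f h]
    simpa only [hL] using this
  · refine upperS h h1 hN ?_
    have y0 := Real.rpow_nonneg N0.le (1 - a)
    have b1 := mul_le_mul_of_nonneg_right (bs_pow h0 h1 N) y0
    rw [mul_assoc, ← Real.rpow_add N0, neg_add_cancel, Real.rpow_zero] at b1
    have b2 : ((N : ℝ) + 1) ^ (1 - a) ≤ 2 * 10 ^ 30 := by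
      linarith [mul_le_mul_of_nonneg_right ht y0]
    rw [le_div_iff₀ (by positivity)] at hc
    refine le_trans ?_ hc
    rw [mul_comm 62, Real.rpow_mul N0.le, show (62 : ℝ) = (61 + 1 : ℕ) by norm_num,
      Real.rpow_natCast, pow_succ', ← mul_assoc]
    exact mul_le_mul_of_nonneg_left (pow_le_pow_left₀ y0 b2 61) (mul_nonneg (by linarith) y0)

end Pool.Agent.P.MP_bdc337_an.KR
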